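import Pool.Agent.Lib_MP_cc07e8_cd.G001
import Pool.Agent.Lib_MP_cc07e8_cd.G002
import Pool.Agent.Lib_MP_cc07e8_cd.G003
import Pool.Agent.Lib_MP_cc07e8_cd.G004
import Pool.Agent.Lib_MP_cc07e8_cd.G005
import Pool.Agent.Lib_MP_cc07e8_cd.G006
import Pool.Agent.Lib_MP_cc07e8_cd.G007
import Pool.Agent.Lib_MP_cc07e8_cd.G008
import Pool.Agent.Lib_MP_cc07e8_cd.G009
import Pool.Agent.Lib_MP_cc07e8_cd.G010
import Pool.Agent.Lib_MP_cc07e8_cd.G011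
import Pool.Agent.Lib_MP_cc07e8_cd.G012
import Pool.Agent.Lib_MP_cc07e8_cd.G013
import Pool.Agent.Lib_MP_cc07e8_cd.G014
import Pool.Agent.Lib_MP_cc07e8_cd.G015
import Pool.Agent.Lib_MP_cc07e8_cd.G016
import Pool.Agent.Lib_MP_cc07e8_cd.G017
import Pool.Agent.Lib_MP_cc07e8_cd.G018
import Pool.Agent.Lib_MP_cc07e8_cd.G019
import Pool.Agent.Lib_MP_cc07e8_cd.G020
import Pool.Agent.Lib_MP_cc07e8_cd.G021
import Pool.Agent.Lib_MP_cc07e8_cd.G022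
import Pool.Agent.Lib_MP_cc07e8_cd.G023
import Pool.Agent.Lib_MP_cc07e8_cd.G024
import Pool.Agent.Lib_MP_cc07e8_cd.G025
import Pool.Agent.Lib_MP_cc07e8_cd.G026
import Pool.Agent.Lib_MP_cc07e8_cd.G027
import Pool.Agent.Lib_MP_cc07e8_cd.G028
import Pool.Agent.Lib_MP_cc07e8_cd.G029
import Pool.Agent.Lib_MP_cc07e8_cd.G030
import Pool.Agent.Lib_MP_cc07e8_cd.G031
import Pool.Agent.Lib_MP_cc07e8_cd.G032
import Pool.Agent.Lib_MP_cc07e8_cd.G033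
import Pool.Agent.Lib_MP_cc07e8_cd.G034
import Pool.Agent.Lib_MP_cc07e8_cd.G035
import Pool.Agent.Lib_MP_cc07e8_cd.G036
import Pool.Agent.Lib_MP_cc07e8_cd.G037
import Pool.Agent.Lib_MP_cc07e8_cd.G038
import Pool.Agent.Lib_MP_cc07e8_cd.G039
import Pool.Agent.Lib_MP_cc07e8_cd.G040
import Pool.Agent.Lib_MP_cc07e8_cd.G041
import Pool.Agent.Lib_MP_cc07e8_cd.G042
import Pool.Agent.Lib_MP_cc07e8_cd.G043
import Pool.Agent.Lib_MP_cc07e8_cd.G044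
import Pool.Agent.Lib_MP_cc07e8_cd.G045
import Pool.Agent.Lib_MP_cc07e8_cd.G046
import Pool.Agent.Lib_MP_cc07e8_cd.G047
import Pool.Agent.Lib_MP_cc07e8_cd.G048
import Pool.Agent.Lib_MP_cc07e8_cd.G049
import Pool.Agent.Lib_MP_cc07e8_cd.G050
import Pool.Agent.Lib_MP_cc07e8_cd.G051
import Pool.Agent.Lib_MP_cc07e8_cd.G052
import Pool.Agent.Lib_MP_cc07e8_cd.G053
import Pool.Agent.Lib_MP_cc07e8_cd.G054
import Pool.Agent.Lib_MP_cc07e8_cd.G055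
import Pool.Agent.Lib_MP_cc07e8_cd.G056
import Pool.Agent.Lib_MP_cc07e8_cd.G057
import Pool.Agent.Lib_MP_cc07e8_cd.G058
import Pool.Agent.Lib_MP_cc07e8_cd.G059
import Pool.Agent.Lib_MP_cc07e8_cd.G060
import Pool.Agent.Lib_MP_cc07e8_cd.G061
import Pool.Agent.Lib_MP_cc07e8_cd.G062
import Pool.Agent.Lib_MP_cc07e8_cd.G063
import Pool.Agent.Lib_MP_cc07e8_cd.G064
import Pool.Agent.Lib_MP_cc07e8_cd.G065
import Pool.Agent.Lib_MP_cc07e8_cd.G066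
import Pool.Agent.Lib_MP_cc07e8_cd.G067
import Pool.Agent.Lib_MP_cc07e8_cd.G068
import Pool.Agent.Lib_MP_cc07e8_cd.G069
import Pool.Agent.Lib_MP_cc07e8_cd.G070
import Pool.Agent.Lib_MP_cc07e8_cd.G071
import Pool.Agent.Lib_MP_cc07e8_cd.G072
import Pool.Agent.Lib_MP_cc07e8_cd.G073
import Pool.Agent.Lib_MP_cc07e8_cd.G074
import Pool.Agent.Lib_MP_cc07e8_cd.G075
import Pool.Agent.Lib_MP_cc07e8_cd.G076
import Pool.Agent.Lib_MP_cc07e8_cd.G077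
import Pool.Agent.Lib_MP_cc07e8_cd.G078
import Pool.Agent.Lib_MP_cc07e8_cd.G079
import Pool.Agent.Lib_MP_cc07e8_cd.G080
import Pool.Agent.Lib_MP_cc07e8_cd.G081
import Pool.Agent.Lib_MP_cc07e8_cd.G082
import Pool.Agent.Lib_MP_cc07e8_cd.G083
import Pool.Agent.Lib_MP_cc07e8_cd.G084
import Pool.Agent.Lib_MP_cc07e8_cd.G085
import Pool.Agent.Lib_MP_cc07e8_cd.G086
import Pool.Agent.Lib_MP_cc07e8_cd.G087
import Pool.Agent.Lib_MP_cc07e8_cd.G088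
import Pool.Agent.Lib_MP_cc07e8_cd.G089
import Pool.Agent.Lib_MP_cc07e8_cd.G090
import Pool.Agent.Lib_MP_cc07e8_cd.G091
import Pool.Agent.Lib_MP_cc07e8_cd.G092
import Pool.Agent.Lib_MP_cc07e8_ck.CkAsmDefs

/-! # MP_cc07e8_co: all geometry checks of the explicit start -/

namespace Pool.Agent.Moser.Ck.Cr

theorem m93 : MCk 6 Cd.ms 93 := MCk.stop (by decide +kernel)

theorem m92 : MCk 6 Cd.ms 92 := MCk.step Cd.g92 m93

theorem m91 : MCk 6 Cd.ms 91 := MCk.step Cd.g91 m92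

theorem m90 : MCk 6 Cd.ms 90 := MCk.step Cd.g90 m91

theorem m89 : MCk 6 Cd.ms 89 := MCk.step Cd.g89 m90

theorem m88 : MCk 6 Cd.ms 88 := MCk.step Cd.g88 m89

theorem m87 : MCk 6 Cd.ms 87 := MCk.step Cd.g87 m88

theorem m86 : MCk 6 Cd.ms 86 := MCk.step Cd.g86 m87

theorem m85 : MCk 6 Cd.ms 85 := MCk.step Cd.g85 m86

theorem m84 : MCk 6 Cd.ms 84 := MCk.step Cd.g84 m85

theorem m83 : MCk 6 Cd.ms 83 := MCk.step Cd.g83 m84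

theorem m82 : MCk 6 Cd.ms 82 := MCk.step Cd.g82 m83

theorem m81 : MCk 6 Cd.ms 81 := MCk.step Cd.g81 m82

theorem m80 : MCk 6 Cd.ms 80 := MCk.step Cd.g80 m81

theorem m79 : MCk 6 Cd.ms 79 := MCk.step Cd.g79 m80

theorem m78 : MCk 6 Cd.ms 78 := MCk.step Cd.g78 m79

theorem m77 : MCk 6 Cd.ms 77 := MCk.step Cd.g77 m78

theorem m76 : MCk 6 Cd.ms 76 := MCk.step Cd.g76 m77

theorem m75 : MCk 6 Cd.ms 75 := MCk.step Cd.g75 m76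

theorem m74 : MCk 6 Cd.ms 74 := MCk.step Cd.g74 m75

theorem m73 : MCk 6 Cd.ms 73 := MCk.step Cd.g73 m74

theorem m72 : MCk 6 Cd.ms 72 := MCk.step Cd.g72 m73

theorem m71 : MCk 6 Cd.ms 71 := MCk.step Cd.g71 m72

theorem m70 : MCk 6 Cd.ms 70 := MCk.step Cd.g70 m71

theorem m69 : MCk 6 Cd.ms 69 := MCk.step Cd.g69 m70

theorem m68 : MCk 6 Cd.ms 68 := MCk.step Cd.g68 m69

theorem m67 : MCk 6 Cd.ms 67 := MCk.step Cd.g67 m68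

theorem m66 : MCk 6 Cd.ms 66 := MCk.step Cd.g66 m67

theorem m65 : MCk 6 Cd.ms 65 := MCk.step Cd.g65 m66

theorem m64 : MCk 6 Cd.ms 64 := MCk.step Cd.g64 m65

theorem m63 : MCk 6 Cd.ms 63 := MCk.step Cd.g63 m64

theorem m62 : MCk 6 Cd.ms 62 := MCk.step Cd.g62 m63

theorem m61 : MCk 6 Cd.ms 61 := MCk.step Cd.g61 m62

theorem m60 : MCk 6 Cd.ms 60 := MCk.step Cd.g60 m61

theorem m59 : MCk 6 Cd.ms 59 := MCk.step Cd.g59 m60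

theorem m58 : MCk 6 Cd.ms 58 := MCk.step Cd.g58 m59

theorem m57 : MCk 6 Cd.ms 57 := MCk.step Cd.g57 m58

theorem m56 : MCk 6 Cd.ms 56 := MCk.step Cd.g56 m57

theorem m55 : MCk 6 Cd.ms 55 := MCk.step Cd.g55 m56

theorem m54 : MCk 6 Cd.ms 54 := MCk.step Cd.g54 m55

theorem m53 : MCk 6 Cd.ms 53 := MCk.step Cd.g53 m54

theorem m52 : MCk 6 Cd.ms 52 := MCk.step Cd.g52 m53

theorem m51 : MCk 6 Cd.ms 51 := MCk.step Cd.g51 m52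

theorem m50 : MCk 6 Cd.ms 50 := MCk.step Cd.g50 m51

theorem m49 : MCk 6 Cd.ms 49 := MCk.step Cd.g49 m50

theorem m48 : MCk 6 Cd.ms 48 := MCk.step Cd.g48 m49

theorem m47 : MCk 6 Cd.ms 47 := MCk.step Cd.g47 m48

theorem m46 : MCk 6 Cd.ms 46 := MCk.step Cd.g46 m47

theorem m45 : MCk 6 Cd.ms 45 := MCk.step Cd.g45 m46

theorem m44 : MCk 6 Cd.ms 44 := MCk.step Cd.g44 m45

theorem m43 : MCk 6 Cd.ms 43 := MCk.step Cd.g43 m44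

theorem m42 : MCk 6 Cd.ms 42 := MCk.step Cd.g42 m43

theorem m41 : MCk 6 Cd.ms 41 := MCk.step Cd.g41 m42

theorem m40 : MCk 6 Cd.ms 40 := MCk.step Cd.g40 m41

theorem m39 : MCk 6 Cd.ms 39 := MCk.step Cd.g39 m40

theorem m38 : MCk 6 Cd.ms 38 := MCk.step Cd.g38 m39

theorem m37 : MCk 6 Cd.ms 37 := MCk.step Cd.g37 m38

theorem m36 : MCk 6 Cd.ms 36 := MCk.step Cd.g36 m37

theorem m35 : MCk 6 Cd.ms 35 := MCk.step Cd.g35 m36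

theorem m34 : MCk 6 Cd.ms 34 := MCk.step Cd.g34 m35

theorem m33 : MCk 6 Cd.ms 33 := MCk.step Cd.g33 m34

theorem m32 : MCk 6 Cd.ms 32 := MCk.step Cd.g32 m33

theorem m31 : MCk 6 Cd.ms 31 := MCk.step Cd.g31 m32

theorem m30 : MCk 6 Cd.ms 30 := MCk.step Cd.g30 m31

theorem m29 : MCk 6 Cd.ms 29 := MCk.step Cd.g29 m30

theorem m28 : MCk 6 Cd.ms 28 := MCk.step Cd.g28 m29

theorem m27 : MCk 6 Cd.ms 27 := MCk.step Cd.g27 m28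

theorem m26 : MCk 6 Cd.ms 26 := MCk.step Cd.g26 m27

theorem m25 : MCk 6 Cd.ms 25 := MCk.step Cd.g25 m26

theorem m24 : MCk 6 Cd.ms 24 := MCk.step Cd.g24 m25

theorem m23 : MCk 6 Cd.ms 23 := MCk.step Cd.g23 m24

theorem m22 : MCk 6 Cd.ms 22 := MCk.step Cd.g22 m23

theorem m21 : MCk 6 Cd.ms 21 := MCk.step Cd.g21 m22

theorem m20 : MCk 6 Cd.ms 20 := MCk.step Cd.g20 m21

theorem m19 : MCk 6 Cd.ms 19 := MCk.step Cd.g19 m20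

theorem m18 : MCk 6 Cd.ms 18 := MCk.step Cd.g18 m19

theorem m17 : MCk 6 Cd.ms 17 := MCk.step Cd.g17 m18

theorem m16 : MCk 6 Cd.ms 16 := MCk.step Cd.g16 m17

theorem m15 : MCk 6 Cd.ms 15 := MCk.step Cd.g15 m16

theorem m14 : MCk 6 Cd.ms 14 := MCk.step Cd.g14 m15

theorem m13 : MCk 6 Cd.ms 13 := MCk.step Cd.g13 m14

theorem m12 : MCk 6 Cd.ms 12 := MCk.step Cd.g12 m13

theorem m11 : MCk 6 Cd.ms 11 := MCk.step Cd.g11 m12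

theorem m10 : MCk 6 Cd.ms 10 := MCk.step Cd.g10 m11

theorem m9 : MCk 6 Cd.ms 9 := MCk.step Cd.g9 m10

theorem m8 : MCk 6 Cd.ms 8 := MCk.step Cd.g8 m9

theorem m7 : MCk 6 Cd.ms 7 := MCk.step Cd.g7 m8

theorem m6 : MCk 6 Cd.ms 6 := MCk.step Cd.g6 m7

theorem m5 : MCk 6 Cd.ms 5 := MCk.step Cd.g5 m6

theorem m4 : MCk 6 Cd.ms 4 := MCk.step Cd.g4 m5

theorem m3 : MCk 6 Cd.ms 3 := MCk.step Cd.g3 m4

theorem m2 : MCk 6 Cd.ms 2 := MCk.step Cd.g2 m3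

theorem m1 : MCk 6 Cd.ms 1 := MCk.step Cd.g1 m2

end Pool.Agent.Moser.Ck.Cr
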