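import Pool.Agent.Lib_MP_cc07e8_cr.Tab

/-! # MP_cc07e8_co: the row bounds of the explicit start -/

namespace Pool.Agent.Moser.Ck.Cr

set_option maxRecDepth 100000 in
theorem hcc : ccs rs = cc := by
  decide +kernel

set_option maxRecDepth 100000 in
theorem hfin : fins 3700045 (bbs rs) 10320 10320 cc = true := by
  decide +kernel

end Pool.Agent.Moser.Ck.Cr
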