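import Pool.Agent.Lib_MP_cc07e8_cr.Tab

/-! # MP_cc07e8_co: conditions on the tables of the explicit start -/

namespace Pool.Agent.Moser.Ck.Cr

set_option maxRecDepth 100000 in
theorem hx : ((List.range Cd.ms.length).flatMap fun j => gl (gm Cd.ms j).E Cd.ms.length) =
    [0x928523d2de38a3b4111810e8a000000084571ed463674fd7c451d0040] := by
  decide +kernel

set_option maxRecDepth 100000 in
theorem ht : tabs 6 101 4 3700045
    0x928523d2de38a3b4111810e8a000000084571ed463674fd7c451d0040 Cd.ms fs rs = true := by
  decide +kernel

end Pool.Agent.Moser.Ck.Cr
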