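import Pool.Agent.Lib_MP_cc07e8_cd.Ds
import Pool.Agent.Lib_MP_cc07e8_ck.CkAsmDefs

/-! # MP_cc07e8_co: facts about the streams of the explicit start, part 0 -/

namespace Pool.Agent.Moser.Ck.Cr

/-- stream 0 -/
noncomputable def q0 : FP := ⟨nat_lit 10320, nat_lit 12180, nat_lit 0x592d1f5d3a447a6d7b88⟩

set_option maxRecDepth 100000 in
theorem f0 : fchk Cd.ms 0 q0 = true := by
  decide +kernel

/-- stream 1 -/
noncomputable def q1 : FP := ⟨nat_lit 12149, nat_lit 15430, nat_lit 0x35b88d74d5dad8543b07⟩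

set_option maxRecDepth 100000 in
theorem f1 : fchk Cd.ms 1 q1 = true := by
  decide +kernel

/-- stream 2 -/
noncomputable def q2 : FP := ⟨nat_lit 15399, nat_lit 23180, nat_lit 0x2235ddd3e6de7b0e2491⟩

set_option maxRecDepth 100000 in
theorem f2 : fchk Cd.ms 2 q2 = true := by
  decide +kernel

/-- stream 3 -/
noncomputable def q3 : FP := ⟨nat_lit 23149, nat_lit 40180, nat_lit 0x149bc97bb2574137a000⟩

set_option maxRecDepth 100000 in
theorem f3 : fchk Cd.ms 3 q3 = true := by
  decide +kernel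

/-- the streams of this file -/
noncomputable def fs0 : List FP := [q0, q1, q2, q3]

theorem F0 : FCk Cd.ms 0 fs0 :=
  FCk.cons f0 (FCk.cons f1 (FCk.cons f2 (FCk.cons f3 FCk.nil)))

end Pool.Agent.Moser.Ck.Cr
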