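import Pool.Agent.Lib_MP_cc07e8_cd.Ds
import Pool.Agent.Lib_MP_cc07e8_ck.CkAsmDefs

/-! # MP_cc07e8_co: facts about the streams of the explicit start, part 1 -/

namespace Pool.Agent.Moser.Ck.Cr

/-- stream 4 -/
noncomputable def q4 : FP := ⟨nat_lit 40149, nat_lit 56980, nat_lit 0x715f40598a396d9f42b⟩

set_option maxRecDepth 100000 in
theorem f4 : fchk Cd.ms 4 q4 = true := by
  decide +kernel

/-- stream 5 -/
noncomputable def q5 : FP := ⟨nat_lit 56949, nat_lit 71730, nat_lit 0x37ceb308fc33035c1b8⟩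

set_option maxRecDepth 100000 in
theorem f5 : fchk Cd.ms 5 q5 = true := by
  decide +kernel

/-- stream 6 -/
noncomputable def q6 : FP := ⟨nat_lit 71699, nat_lit 84180, nat_lit 0x1f7fce52bdc26fed78e⟩

set_option maxRecDepth 100000 in
theorem f6 : fchk Cd.ms 6 q6 = true := by
  decide +kernel

/-- stream 7 -/
noncomputable def q7 : FP := ⟨nat_lit 84149, nat_lit 95130, nat_lit 0x14ee659dcfe9c619b88⟩

set_option maxRecDepth 100000 in
theorem f7 : fchk Cd.ms 7 q7 = true := by
  decide +kernel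

/-- the streams of this file -/
noncomputable def fs1 : List FP := [q4, q5, q6, q7]

theorem F1 : FCk Cd.ms 4 fs1 :=
  FCk.cons f4 (FCk.cons f5 (FCk.cons f6 (FCk.cons f7 FCk.nil)))

end Pool.Agent.Moser.Ck.Cr
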