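import Pool.Agent.Lib_MP_cc07e8_cd.Ds
import Pool.Agent.Lib_MP_cc07e8_ck.CkAsmDefs

/-! # MP_cc07e8_co: facts about the streams of the explicit start, part 2 -/

namespace Pool.Agent.Moser.Ck.Cr

/-- stream 8 -/
noncomputable def q8 : FP := ⟨nat_lit 95099, nat_lit 105130, nat_lit 0xf44219304ec2aec271⟩

set_option maxRecDepth 100000 in
theorem f8 : fchk Cd.ms 8 q8 = true := by
  decide +kernel

/-- stream 9 -/
noncomputable def q9 : FP := ⟨nat_lit 105099, nat_lit 112830, nat_lit 0xad3f8be74f913f6773⟩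

set_option maxRecDepth 100000 in
theorem f9 : fchk Cd.ms 9 q9 = true := by
  decide +kernel

/-- stream 10 -/
noncomputable def q10 : FP := ⟨nat_lit 112799, nat_lit 118230, nat_lit 0x7e08b75125f388b559⟩

set_option maxRecDepth 100000 in
theorem f10 : fchk Cd.ms 10 q10 = true := by
  decide +kernel

/-- stream 11 -/
noncomputable def q11 : FP := ⟨nat_lit 118199, nat_lit 123330, nat_lit 0x6cc1def70dcb7aba12⟩

set_option maxRecDepth 100000 in
theorem f11 : fchk Cd.ms 11 q11 = true := by
  decide +kernel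

/-- the streams of this file -/
noncomputable def fs2 : List FP := [q8, q9, q10, q11]

theorem F2 : FCk Cd.ms 8 fs2 :=
  FCk.cons f8 (FCk.cons f9 (FCk.cons f10 (FCk.cons f11 FCk.nil)))

end Pool.Agent.Moser.Ck.Cr
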