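import Pool.Agent.Lib_MP_cc07e8_cd.Ds
import Pool.Agent.Lib_MP_cc07e8_ck.CkAsmDefs

/-! # MP_cc07e8_co: facts about the streams of the explicit start, part 3 -/

namespace Pool.Agent.Moser.Ck.Cr

/-- stream 12 -/
noncomputable def q12 : FP := ⟨nat_lit 123299, nat_lit 128480, nat_lit 0x642b1dbede55bd4646⟩

set_option maxRecDepth 100000 in
theorem f12 : fchk Cd.ms 12 q12 = true := by
  decide +kernel

/-- stream 13 -/
noncomputable def q13 : FP := ⟨nat_lit 128449, nat_lit 133730, nat_lit 0x58f952b80e83732fce⟩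

set_option maxRecDepth 100000 in
theorem f13 : fchk Cd.ms 13 q13 = true := by
  decide +kernel

/-- stream 14 -/
noncomputable def q14 : FP := ⟨nat_lit 133699, nat_lit 139180, nat_lit 0x52b64ba0fd6543440e⟩

set_option maxRecDepth 100000 in
theorem f14 : fchk Cd.ms 14 q14 = true := by
  decide +kernel

/-- stream 15 -/
noncomputable def q15 : FP := ⟨nat_lit 139149, nat_lit 144430, nat_lit 0x49ad897cab4164b0a3⟩

set_option maxRecDepth 100000 in
theorem f15 : fchk Cd.ms 15 q15 = true := by
  decide +kernel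

/-- the streams of this file -/
noncomputable def fs3 : List FP := [q12, q13, q14, q15]

theorem F3 : FCk Cd.ms 12 fs3 :=
  FCk.cons f12 (FCk.cons f13 (FCk.cons f14 (FCk.cons f15 FCk.nil)))

end Pool.Agent.Moser.Ck.Cr
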