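import Pool.Agent.Lib_MP_cc07e8_cd.Ds
import Pool.Agent.Lib_MP_cc07e8_ck.CkAsmDefs

/-! # MP_cc07e8_co: facts about the streams of the explicit start, part 4 -/

namespace Pool.Agent.Moser.Ck.Cr

/-- stream 16 -/
noncomputable def q16 : FP := ⟨nat_lit 144399, nat_lit 149780, nat_lit 0x433c6b199255cc3006⟩

set_option maxRecDepth 100000 in
theorem f16 : fchk Cd.ms 16 q16 = true := by
  decide +kernel

/-- stream 17 -/
noncomputable def q17 : FP := ⟨nat_lit 149749, nat_lit 155080, nat_lit 0x3d557dcaca866c803d⟩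

set_option maxRecDepth 100000 in
theorem f17 : fchk Cd.ms 17 q17 = true := by
  decide +kernel

/-- stream 18 -/
noncomputable def q18 : FP := ⟨nat_lit 155049, nat_lit 160330, nat_lit 0x38887cc88cdf1c7bf1⟩

set_option maxRecDepth 100000 in
theorem f18 : fchk Cd.ms 18 q18 = true := by
  decide +kernel

/-- stream 19 -/
noncomputable def q19 : FP := ⟨nat_lit 160299, nat_lit 165630, nat_lit 0x33e6cb2436c27bea9d⟩

set_option maxRecDepth 100000 in
theorem f19 : fchk Cd.ms 19 q19 = true := by
  decide +kernel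

/-- the streams of this file -/
noncomputable def fs4 : List FP := [q16, q17, q18, q19]

theorem F4 : FCk Cd.ms 16 fs4 :=
  FCk.cons f16 (FCk.cons f17 (FCk.cons f18 (FCk.cons f19 FCk.nil)))

end Pool.Agent.Moser.Ck.Cr
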