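import Pool.Agent.Lib_MP_cc07e8_cd.Ds
import Pool.Agent.Lib_MP_cc07e8_ck.CkAsmDefs

/-! # MP_cc07e8_co: facts about the streams of the explicit start, part 5 -/

namespace Pool.Agent.Moser.Ck.Cr

/-- stream 20 -/
noncomputable def q20 : FP := ⟨nat_lit 165599, nat_lit 170880, nat_lit 0x2f8bde78e468516aad⟩

set_option maxRecDepth 100000 in
theorem f20 : fchk Cd.ms 20 q20 = true := by
  decide +kernel

/-- stream 21 -/
noncomputable def q21 : FP := ⟨nat_lit 170849, nat_lit 175980, nat_lit 0x2b8520da3bf9fcf889⟩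

set_option maxRecDepth 100000 in
theorem f21 : fchk Cd.ms 21 q21 = true := by
  decide +kernel

/-- stream 22 -/
noncomputable def q22 : FP := ⟨nat_lit 175949, nat_lit 181230, nat_lit 0x297aa926ec94bbdfe6⟩

set_option maxRecDepth 100000 in
theorem f22 : fchk Cd.ms 22 q22 = true := by
  decide +kernel

/-- stream 23 -/
noncomputable def q23 : FP := ⟨nat_lit 181199, nat_lit 186230, nat_lit 0x240132548ffc83dfdd⟩

set_option maxRecDepth 100000 in
theorem f23 : fchk Cd.ms 23 q23 = true := by
  decide +kernel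

/-- the streams of this file -/
noncomputable def fs5 : List FP := [q20, q21, q22, q23]

theorem F5 : FCk Cd.ms 20 fs5 :=
  FCk.cons f20 (FCk.cons f21 (FCk.cons f22 (FCk.cons f23 FCk.nil)))

end Pool.Agent.Moser.Ck.Cr
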