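import Pool.Agent.Lib_MP_cc07e8_cd.Ds
import Pool.Agent.Lib_MP_cc07e8_ck.CkAsmDefs

/-! # MP_cc07e8_co: facts about the streams of the explicit start, part 6 -/

namespace Pool.Agent.Moser.Ck.Cr

/-- stream 24 -/
noncomputable def q24 : FP := ⟨nat_lit 186199, nat_lit 191480, nat_lit 0x23ec48cfd0f95f5f68⟩

set_option maxRecDepth 100000 in
theorem f24 : fchk Cd.ms 24 q24 = true := by
  decide +kernel

/-- stream 25 -/
noncomputable def q25 : FP := ⟨nat_lit 191449, nat_lit 196530, nat_lit 0x209729e3d8c702b76f⟩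

set_option maxRecDepth 100000 in
theorem f25 : fchk Cd.ms 25 q25 = true := by
  decide +kernel

/-- stream 26 -/
noncomputable def q26 : FP := ⟨nat_lit 196499, nat_lit 201530, nat_lit 0x1e328b9c675582d558⟩

set_option maxRecDepth 100000 in
theorem f26 : fchk Cd.ms 26 q26 = true := by
  decide +kernel

/-- stream 27 -/
noncomputable def q27 : FP := ⟨nat_lit 201499, nat_lit 206530, nat_lit 0x1c5cf2e4444bac09f5⟩

set_option maxRecDepth 100000 in
theorem f27 : fchk Cd.ms 27 q27 = true := by
  decide +kernel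

/-- the streams of this file -/
noncomputable def fs6 : List FP := [q24, q25, q26, q27]

theorem F6 : FCk Cd.ms 24 fs6 :=
  FCk.cons f24 (FCk.cons f25 (FCk.cons f26 (FCk.cons f27 FCk.nil)))

end Pool.Agent.Moser.Ck.Cr
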