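import Pool.Agent.Lib_MP_cc07e8_cd.Ds
import Pool.Agent.Lib_MP_cc07e8_ck.CkAsmDefs

/-! # MP_cc07e8_co: facts about the streams of the explicit start, part 7 -/

namespace Pool.Agent.Moser.Ck.Cr

/-- stream 28 -/
noncomputable def q28 : FP := ⟨nat_lit 206499, nat_lit 211330, nat_lit 0x1a2474ba105cf16c89⟩

set_option maxRecDepth 100000 in
theorem f28 : fchk Cd.ms 28 q28 = true := by
  decide +kernel

/-- stream 29 -/
noncomputable def q29 : FP := ⟨nat_lit 211299, nat_lit 216330, nat_lit 0x19ae93b598d4d2a732⟩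

set_option maxRecDepth 100000 in
theorem f29 : fchk Cd.ms 29 q29 = true := by
  decide +kernel

/-- stream 30 -/
noncomputable def q30 : FP := ⟨nat_lit 216299, nat_lit 221030, nat_lit 0x16e3658ad2d8ad7d0b⟩

set_option maxRecDepth 100000 in
theorem f30 : fchk Cd.ms 30 q30 = true := by
  decide +kernel

/-- stream 31 -/
noncomputable def q31 : FP := ⟨nat_lit 220999, nat_lit 225930, nat_lit 0x16abf90022eeb27911⟩

set_option maxRecDepth 100000 in
theorem f31 : fchk Cd.ms 31 q31 = true := by
  decide +kernel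

/-- the streams of this file -/
noncomputable def fs7 : List FP := [q28, q29, q30, q31]

theorem F7 : FCk Cd.ms 28 fs7 :=
  FCk.cons f28 (FCk.cons f29 (FCk.cons f30 (FCk.cons f31 FCk.nil)))

end Pool.Agent.Moser.Ck.Cr
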