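import Pool.Agent.Lib_MP_cc07e8_cd.Ds
import Pool.Agent.Lib_MP_cc07e8_ck.CkAsmDefs

/-! # MP_cc07e8_co: facts about the streams of the explicit start, part 8 -/

namespace Pool.Agent.Moser.Ck.Cr

/-- stream 32 -/
noncomputable def q32 : FP := ⟨nat_lit 225899, nat_lit 230680, nat_lit 0x14f76614507202758c⟩

set_option maxRecDepth 100000 in
theorem f32 : fchk Cd.ms 32 q32 = true := by
  decide +kernel

/-- stream 33 -/
noncomputable def q33 : FP := ⟨nat_lit 230649, nat_lit 235180, nat_lit 0x132df806f65f079f0d⟩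

set_option maxRecDepth 100000 in
theorem f33 : fchk Cd.ms 33 q33 = true := by
  decide +kernel

/-- stream 34 -/
noncomputable def q34 : FP := ⟨nat_lit 235149, nat_lit 239680, nat_lit 0x124a928f5d583e8ec0⟩

set_option maxRecDepth 100000 in
theorem f34 : fchk Cd.ms 34 q34 = true := by
  decide +kernel

/-- stream 35 -/
noncomputable def q35 : FP := ⟨nat_lit 239649, nat_lit 244180, nat_lit 0x118ee85d07a1099c55⟩

set_option maxRecDepth 100000 in
theorem f35 : fchk Cd.ms 35 q35 = true := by
  decide +kernel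

/-- the streams of this file -/
noncomputable def fs8 : List FP := [q32, q33, q34, q35]

theorem F8 : FCk Cd.ms 32 fs8 :=
  FCk.cons f32 (FCk.cons f33 (FCk.cons f34 (FCk.cons f35 FCk.nil)))

end Pool.Agent.Moser.Ck.Cr
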