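import Pool.Agent.Lib_MP_cc07e8_cd.Ds
import Pool.Agent.Lib_MP_cc07e8_ck.CkAsmDefs

/-! # MP_cc07e8_co: facts about the streams of the explicit start, part 9 -/

namespace Pool.Agent.Moser.Ck.Cr

/-- stream 36 -/
noncomputable def q36 : FP := ⟨nat_lit 244149, nat_lit 248780, nat_lit 0x113e0bd1c538410aa2⟩

set_option maxRecDepth 100000 in
theorem f36 : fchk Cd.ms 36 q36 = true := by
  decide +kernel

/-- stream 37 -/
noncomputable def q37 : FP := ⟨nat_lit 248749, nat_lit 253230, nat_lit 0x1016c923adda187eb2⟩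

set_option maxRecDepth 100000 in
theorem f37 : fchk Cd.ms 37 q37 = true := by
  decide +kernel

/-- stream 38 -/
noncomputable def q38 : FP := ⟨nat_lit 253199, nat_lit 257580, nat_lit 0xf1f2c6a3b2b48fc9f⟩

set_option maxRecDepth 100000 in
theorem f38 : fchk Cd.ms 38 q38 = true := by
  decide +kernel

/-- stream 39 -/
noncomputable def q39 : FP := ⟨nat_lit 257549, nat_lit 261880, nat_lit 0xe78918d72ed6f85db⟩

set_option maxRecDepth 100000 in
theorem f39 : fchk Cd.ms 39 q39 = true := by
  decide +kernel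

/-- the streams of this file -/
noncomputable def fs9 : List FP := [q36, q37, q38, q39]

theorem F9 : FCk Cd.ms 36 fs9 :=
  FCk.cons f36 (FCk.cons f37 (FCk.cons f38 (FCk.cons f39 FCk.nil)))

end Pool.Agent.Moser.Ck.Cr
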