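import Pool.Agent.Lib_MP_cc07e8_cd.Ds
import Pool.Agent.Lib_MP_cc07e8_ck.CkAsmDefs

/-! # MP_cc07e8_co: facts about the streams of the explicit start, part 10 -/

namespace Pool.Agent.Moser.Ck.Cr

/-- stream 40 -/
noncomputable def q40 : FP := ⟨nat_lit 261849, nat_lit 266180, nat_lit 0xdfd0586e6cb9d6350⟩

set_option maxRecDepth 100000 in
theorem f40 : fchk Cd.ms 40 q40 = true := by
  decide +kernel

/-- stream 41 -/
noncomputable def q41 : FP := ⟨nat_lit 266149, nat_lit 270380, nat_lit 0xd574a8834f73bb203⟩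

set_option maxRecDepth 100000 in
theorem f41 : fchk Cd.ms 41 q41 = true := by
  decide +kernel

/-- stream 42 -/
noncomputable def q42 : FP := ⟨nat_lit 270349, nat_lit 274480, nat_lit 0xc8a2b589d001f9388⟩

set_option maxRecDepth 100000 in
theorem f42 : fchk Cd.ms 42 q42 = true := by
  decide +kernel

/-- stream 43 -/
noncomputable def q43 : FP := ⟨nat_lit 274449, nat_lit 278530, nat_lit 0xc0fc0ccb10a9a9499⟩

set_option maxRecDepth 100000 in
theorem f43 : fchk Cd.ms 43 q43 = true := by
  decide +kernel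

/-- the streams of this file -/
noncomputable def fs10 : List FP := [q40, q41, q42, q43]

theorem F10 : FCk Cd.ms 40 fs10 :=
  FCk.cons f40 (FCk.cons f41 (FCk.cons f42 (FCk.cons f43 FCk.nil)))

end Pool.Agent.Moser.Ck.Cr
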