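import Pool.Agent.Lib_MP_cc07e8_cd.Ds
import Pool.Agent.Lib_MP_cc07e8_ck.CkAsmDefs

/-! # MP_cc07e8_co: facts about the streams of the explicit start, part 11 -/

namespace Pool.Agent.Moser.Ck.Cr

/-- stream 44 -/
noncomputable def q44 : FP := ⟨nat_lit 278499, nat_lit 282580, nat_lit 0xbc932cca35e03e36b⟩

set_option maxRecDepth 100000 in
theorem f44 : fchk Cd.ms 44 q44 = true := by
  decide +kernel

/-- stream 45 -/
noncomputable def q45 : FP := ⟨nat_lit 282549, nat_lit 286630, nat_lit 0xb658c8ba25f7b91b9⟩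

set_option maxRecDepth 100000 in
theorem f45 : fchk Cd.ms 45 q45 = true := by
  decide +kernel

/-- stream 46 -/
noncomputable def q46 : FP := ⟨nat_lit 286599, nat_lit 290530, nat_lit 0xaa98fc2c8de687305⟩

set_option maxRecDepth 100000 in
theorem f46 : fchk Cd.ms 46 q46 = true := by
  decide +kernel

/-- stream 47 -/
noncomputable def q47 : FP := ⟨nat_lit 290499, nat_lit 294580, nat_lit 0xac740886ed6842c4d⟩

set_option maxRecDepth 100000 in
theorem f47 : fchk Cd.ms 47 q47 = true := by
  decide +kernel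

/-- the streams of this file -/
noncomputable def fs11 : List FP := [q44, q45, q46, q47]

theorem F11 : FCk Cd.ms 44 fs11 :=
  FCk.cons f44 (FCk.cons f45 (FCk.cons f46 (FCk.cons f47 FCk.nil)))

end Pool.Agent.Moser.Ck.Cr
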