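import Pool.Agent.Lib_MP_cc07e8_cd.Ds
import Pool.Agent.Lib_MP_cc07e8_ck.CkAsmDefs

/-! # MP_cc07e8_co: facts about the streams of the explicit start, part 12 -/

namespace Pool.Agent.Moser.Ck.Cr

/-- stream 48 -/
noncomputable def q48 : FP := ⟨nat_lit 294549, nat_lit 298630, nat_lit 0xa7eae9880d3cc9be3⟩

set_option maxRecDepth 100000 in
theorem f48 : fchk Cd.ms 48 q48 = true := by
  decide +kernel

/-- stream 49 -/
noncomputable def q49 : FP := ⟨nat_lit 298599, nat_lit 302430, nat_lit 0x9661aa5bc73a4b659⟩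

set_option maxRecDepth 100000 in
theorem f49 : fchk Cd.ms 49 q49 = true := by
  decide +kernel

/-- stream 50 -/
noncomputable def q50 : FP := ⟨nat_lit 302399, nat_lit 306630, nat_lit 0xa0fe9ad7c69c60930⟩

set_option maxRecDepth 100000 in
theorem f50 : fchk Cd.ms 50 q50 = true := by
  decide +kernel

/-- stream 51 -/
noncomputable def q51 : FP := ⟨nat_lit 306599, nat_lit 310880, nat_lit 0x9a7449b77f1516c4e⟩

set_option maxRecDepth 100000 in
theorem f51 : fchk Cd.ms 51 q51 = true := by
  decide +kernel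

/-- the streams of this file -/
noncomputable def fs12 : List FP := [q48, q49, q50, q51]

theorem F12 : FCk Cd.ms 48 fs12 :=
  FCk.cons f48 (FCk.cons f49 (FCk.cons f50 (FCk.cons f51 FCk.nil)))

end Pool.Agent.Moser.Ck.Cr
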