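import Pool.Agent.Lib_MP_cc07e8_cd.Ds
import Pool.Agent.Lib_MP_cc07e8_ck.CkAsmDefs

/-! # MP_cc07e8_co: facts about the streams of the explicit start, part 13 -/

namespace Pool.Agent.Moser.Ck.Cr

/-- stream 52 -/
noncomputable def q52 : FP := ⟨nat_lit 310849, nat_lit 315380, nat_lit 0x9a6fdb8db95f6ac75⟩

set_option maxRecDepth 100000 in
theorem f52 : fchk Cd.ms 52 q52 = true := by
  decide +kernel

/-- stream 53 -/
noncomputable def q53 : FP := ⟨nat_lit 315349, nat_lit 320330, nat_lit 0xa0c0c4f9b4d583649⟩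

set_option maxRecDepth 100000 in
theorem f53 : fchk Cd.ms 53 q53 = true := by
  decide +kernel

/-- stream 54 -/
noncomputable def q54 : FP := ⟨nat_lit 320299, nat_lit 325480, nat_lit 0x99ece4327dad9ce3c⟩

set_option maxRecDepth 100000 in
theorem f54 : fchk Cd.ms 54 q54 = true := by
  decide +kernel

/-- stream 55 -/
noncomputable def q55 : FP := ⟨nat_lit 325449, nat_lit 331630, nat_lit 0xa8e735144c99a42fb⟩

set_option maxRecDepth 100000 in
theorem f55 : fchk Cd.ms 55 q55 = true := by
  decide +kernel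

/-- the streams of this file -/
noncomputable def fs13 : List FP := [q52, q53, q54, q55]

theorem F13 : FCk Cd.ms 52 fs13 :=
  FCk.cons f52 (FCk.cons f53 (FCk.cons f54 (FCk.cons f55 FCk.nil)))

end Pool.Agent.Moser.Ck.Cr
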