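import Pool.Agent.Lib_MP_cc07e8_cd.Ds
import Pool.Agent.Lib_MP_cc07e8_ck.CkAsmDefs

/-! # MP_cc07e8_co: facts about the streams of the explicit start, part 14 -/

namespace Pool.Agent.Moser.Ck.Cr

/-- stream 56 -/
noncomputable def q56 : FP := ⟨nat_lit 331599, nat_lit 338330, nat_lit 0x9e5cfbcd31d70e2c3⟩

set_option maxRecDepth 100000 in
theorem f56 : fchk Cd.ms 56 q56 = true := by
  decide +kernel

/-- stream 57 -/
noncomputable def q57 : FP := ⟨nat_lit 338299, nat_lit 346580, nat_lit 0xa3616135c4d8e1eb0⟩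

set_option maxRecDepth 100000 in
theorem f57 : fchk Cd.ms 57 q57 = true := by
  decide +kernel

/-- stream 58 -/
noncomputable def q58 : FP := ⟨nat_lit 346549, nat_lit 357730, nat_lit 0xaed6b1540c2a66785⟩

set_option maxRecDepth 100000 in
theorem f58 : fchk Cd.ms 58 q58 = true := by
  decide +kernel

/-- stream 59 -/
noncomputable def q59 : FP := ⟨nat_lit 357699, nat_lit 379030, nat_lit 0xe11fd26f2b3103f42⟩

set_option maxRecDepth 100000 in
theorem f59 : fchk Cd.ms 59 q59 = true := by
  decide +kernel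

/-- the streams of this file -/
noncomputable def fs14 : List FP := [q56, q57, q58, q59]

theorem F14 : FCk Cd.ms 56 fs14 :=
  FCk.cons f56 (FCk.cons f57 (FCk.cons f58 (FCk.cons f59 FCk.nil)))

end Pool.Agent.Moser.Ck.Cr
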