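import Pool.Agent.Lib_MP_cc07e8_cd.Ds
import Pool.Agent.Lib_MP_cc07e8_ck.CkAsmDefs

/-! # MP_cc07e8_co: facts about the streams of the explicit start, part 15 -/

namespace Pool.Agent.Moser.Ck.Cr

/-- stream 60 -/
noncomputable def q60 : FP := ⟨nat_lit 378999, nat_lit 550030, nat_lit 0x1ad2c2bfee40a7d7c6⟩

set_option maxRecDepth 100000 in
theorem f60 : fchk Cd.ms 60 q60 = true := by
  decide +kernel

/-- stream 61 -/
noncomputable def q61 : FP := ⟨nat_lit 549999, nat_lit 900030, nat_lit 0x368f6c623e9379278⟩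

set_option maxRecDepth 100000 in
theorem f61 : fchk Cd.ms 61 q61 = true := by
  decide +kernel

/-- stream 62 -/
noncomputable def q62 : FP := ⟨nat_lit 899999, nat_lit 1600030, nat_lit 0x304af058f2947dfe⟩

set_option maxRecDepth 100000 in
theorem f62 : fchk Cd.ms 62 q62 = true := by
  decide +kernel

/-- stream 63 -/
noncomputable def q63 : FP := ⟨nat_lit 1599999, nat_lit 3700030, nat_lit 0x184cb4f84de0ecb⟩

set_option maxRecDepth 100000 in
theorem f63 : fchk Cd.ms 63 q63 = true := by
  decide +kernel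

/-- the streams of this file -/
noncomputable def fs15 : List FP := [q60, q61, q62, q63]

theorem F15 : FCk Cd.ms 60 fs15 :=
  FCk.cons f60 (FCk.cons f61 (FCk.cons f62 (FCk.cons f63 FCk.nil)))

end Pool.Agent.Moser.Ck.Cr
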