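import Pool.Agent.Lib_MP_cc07e8_cd.Ds
import Pool.Agent.Lib_MP_cc07e8_ck.CkAsmDefs

/-! # MP_cc07e8_co: row checks of the explicit start, part 0 -/

namespace Pool.Agent.Moser.Ck.Cr

/-- row check 0 -/
noncomputable def p0 : RP := ⟨nat_lit 0, nat_lit 1, nat_lit 11, nat_lit 32, nat_lit 19790, nat_lit 23170, nat_lit 19790, nat_lit 0x5a82f3349d3f0005, nat_lit 0x69f864cbc3dfd0cf, nat_lit 0x20000000000000000000, nat_lit 0x1, nat_lit 3, nat_lit 10861, nat_lit 10320, nat_lit 10864, [nat_lit 0x4b4c4db0000100019, nat_lit 0x518ddc30000100019, nat_lit 0x491a22d0000100019, nat_lit 0x544e9680000100019, nat_lit 0x4fd60f2000010001a, nat_lit 0x5336504000010001a, nat_lit 0x4fee0f4000010001a, nat_lit 0x50e8c76000010001a, nat_lit 0x506f012000010001a, nat_lit 0x518d82a000010001a, nat_lit 0x4f0267c000010001a, nat_lit 0x4de6a58000010001a, nat_lit 0x4e2f6b6000010001a, nat_lit 0x486d0ee000010001a, nat_lit 0x50a67d5000010001a, nat_lit 0x4d447b3000010001a, nat_lit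 0x4c2c8dd000010001a, nat_lit 0x501da22000010001a, nat_lit 0x51df5de000010001a, nat_lit 0x4ea8d84000010001b, nat_lit 0x4e85e65000010001b], nat_lit 10320, nat_lit 10861, [nat_lit 0xa481cd90001e, nat_lit 0xa16ab9e0001f, nat_lit 0xa77b2390001f, nat_lit 0x9e6ddc50001f, nat_lit 0xbb7fcb40001f, nat_lit 0xa0bd4e70001f, nat_lit 0xb7a8d5b0001f, nat_lit 0xb9024960001f, nat_lit 0xb7461a00001f, nat_lit 0xa715ceb0001f, nat_lit 0xb68cc120001f, nat_lit 0xb1df7850001f, nat_lit 0xb0e457900020, nat_lit 0xb1cc42900020, nat_lit 0xa25e07300020, nat_lit 0xb749f9f00020, nat_lit 0xb28f5a200020, nat_lit 0x37c73810000a]⟩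

set_option maxRecDepth 100000 in
theorem h0 : rchk Cd.ms p0 = true := by
  decide +kernel

/-- the row checks of this file -/
noncomputable def rs0 : List RP := [p0]

theorem R0 : RCk Cd.ms rs0 :=
  RCk.cons h0 RCk.nil

end Pool.Agent.Moser.Ck.Cr
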