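import Pool.Agent.Lib_MP_cc07e8_cd.Ds
import Pool.Agent.Lib_MP_cc07e8_ck.CkAsmDefs

/-! # MP_cc07e8_co: row checks of the explicit start, part 1 -/

namespace Pool.Agent.Moser.Ck.Cr

/-- row check 1 -/
noncomputable def p1 : RP := ⟨nat_lit 0, nat_lit 1, nat_lit 12, nat_lit 32, nat_lit 11546, nat_lit 14279, nat_lit 11546, nat_lit 0x496f514e2f9500ce, nat_lit 0x5ad137798c42df0d, nat_lit 0x10000000000000000000, nat_lit 0x1, nat_lit 4, nat_lit 11645, nat_lit 10864, nat_lit 11648, [nat_lit 0x52dc435000010001b, nat_lit 0x4a6f14a000010001b, nat_lit 0x4e5cc42000010001b, nat_lit 0x4cdb428000010001b, nat_lit 0x4cb362e000010001b, nat_lit 0x4fd455e000010001b, nat_lit 0x4b8d320000010001b, nat_lit 0x4e24619000010001b, nat_lit 0x4b886fb000010001b, nat_lit 0x48c692c000010001b, nat_lit 0x4c04422000010001b, nat_lit 0x4c351d9000010001b, nat_lit 0x4b40edd000010001b, nat_lit 0x4bcaf4c000010001c, nat_lit 0x4bc460e000010001c, nat_lit 0x4648bc4000010001c, nat_lit 0x4a3ecd4000010001c,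 nat_lit 0x4de575c000010001c, nat_lit 0x49516c4000010001c, nat_lit 0x45d2bc4000010001c, nat_lit 0x4a273d7000010001c, nat_lit 0x4b9517c000010001c, nat_lit 0x4b4a19e000010001c, nat_lit 0x4d53c7f000010001c, nat_lit 0x4bcdcb1000010001c, nat_lit 0x4cdff63000010001c, nat_lit 0x449b29c000010001c, nat_lit 0x4195dd5000010001d, nat_lit 0x36220c1000010000c], nat_lit 10861, nat_lit 11645, [nat_lit 0xa7e179900020, nat_lit 0x9c0585000020, nat_lit 0xaacdb4200020, nat_lit 0xb2cd23c00020, nat_lit 0xac2428500020, nat_lit 0xb73830200021, nat_lit 0xa50563f00021, nat_lit 0xb36b7b100021, nat_lit 0xb6bcfde00021, nat_lit 0xbae945700021, nat_lit 0xabba0a000021, nat_lit 0xad0b73d00021, nat_lit 0xa2fa37e00021, nat_lit 0x9e07b6700021, nat_lit 0xa83887a00021, nat_lit 0xafd25b700022, nat_lit 0xab6de6400022, nat_lit 0xa3357fc00022, nat_lit 0xb08da0300022, nat_lit 0xaf4a05a00022, nat_lit 0xb123e7200022, nat_lit 0xb93b04000022, nat_lit 0x9c84c7e00022, nat_lit 0x5cd389700016]⟩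

set_option maxRecDepth 100000 in
theorem h1 : rchk Cd.ms p1 = true := by
  decide +kernel

/-- the row checks of this file -/
noncomputable def rs1 : List RP := [p1]

theorem R1 : RCk Cd.ms rs1 :=
  RCk.cons h1 RCk.nil

end Pool.Agent.Moser.Ck.Cr
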