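import Pool.Agent.Lib_MP_cc07e8_cd.Ds
import Pool.Agent.Lib_MP_cc07e8_ck.CkAsmDefs

/-! # MP_cc07e8_co: row checks of the explicit start, part 2 -/

namespace Pool.Agent.Moser.Ck.Cr

/-- row check 2 -/
noncomputable def p2 : RP := ⟨nat_lit 0, nat_lit 2, nat_lit 12, nat_lit 32, nat_lit 14234, nat_lit 17362, nat_lit 14234, nat_lit 0x3c65173558cb1fff, nat_lit 0x49aac02722b614ca, nat_lit 0x10000000000000000000, nat_lit 0x1, nat_lit 4, nat_lit 12429, nat_lit 11648, nat_lit 12432, [nat_lit 0x48637d7000010001d, nat_lit 0x3c3b576000010001d, nat_lit 0x482ee56000010001d, nat_lit 0x4aa36b1000010001d, nat_lit 0x48aed09000010001d, nat_lit 0x45912dc000010001d, nat_lit 0x43e8125000010001d, nat_lit 0x4811a4b000010001d, nat_lit 0x449552f000010001d, nat_lit 0x45981ca000010001d, nat_lit 0x3935622000010001d, nat_lit 0x361027a000010001d, nat_lit 0x45a9cfa000010001d, nat_lit 0x49a8fa5000010001e, nat_lit 0x472974b000010001e, nat_lit 0x448682d000010001e, nat_lit 0x3c64435000010001e,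 nat_lit 0x399779e000010001e, nat_lit 0x45ab0f2000010001e, nat_lit 0x431185e000010001e, nat_lit 0x40e32c6000010001e, nat_lit 0x3e13bea000010001e, nat_lit 0x45ef8c5000010001e, nat_lit 0x4435160000010001e, nat_lit 0x43bb0f2000010001e, nat_lit 0x3c9c214000010001e, nat_lit 0x34b2cc40000100011], nat_lit 11645, nat_lit 12429, [nat_lit 0xa1bf5f600022, nat_lit 0x90ba31000023, nat_lit 0xb2d0b2300023, nat_lit 0xb0d51bb00023, nat_lit 0xb144d1c00023, nat_lit 0x9d1dc8a00023, nat_lit 0xa94abe900023, nat_lit 0xb1fe07900023, nat_lit 0x9430c1200023, nat_lit 0x86ae9c300023, nat_lit 0xa23652800023, nat_lit 0xac5fe0a00024, nat_lit 0xa9dece400024, nat_lit 0x989ffa700024, nat_lit 0x7fd6f5d00024, nat_lit 0xa73100200024, nat_lit 0x9eccd3200024, nat_lit 0x97183ca00024, nat_lit 0x95926a900024, nat_lit 0xac86b8a00024, nat_lit 0xb27419c00025, nat_lit 0x968c7f600025, nat_lit 0x100d11000002]⟩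

set_option maxRecDepth 100000 in
theorem h2 : rchk Cd.ms p2 = true := by
  decide +kernel

/-- the row checks of this file -/
noncomputable def rs2 : List RP := [p2]

theorem R2 : RCk Cd.ms rs2 :=
  RCk.cons h2 RCk.nil

end Pool.Agent.Moser.Ck.Cr
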