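import Pool.Agent.Lib_MP_cc07e8_cd.Ds
import Pool.Agent.Lib_MP_cc07e8_ck.CkAsmDefs

/-! # MP_cc07e8_co: row checks of the explicit start, part 3 -/

namespace Pool.Agent.Moser.Ck.Cr

/-- row check 3 -/
noncomputable def p3 : RP := ⟨nat_lit 1, nat_lit 1, nat_lit 12, nat_lit 32, nat_lit 17311, nat_lit 20935, nat_lit 17311, nat_lit 0x3216543449cf6796, nat_lit 0x3c92a4008849f101, nat_lit 0x10000000000000000000, nat_lit 0x1, nat_lit 4, nat_lit 13229, nat_lit 12432, nat_lit 13232, [nat_lit 0x40e2b9e000010001f, nat_lit 0x33b6662000010001f, nat_lit 0x442920e000010001f, nat_lit 0x469f562000010001f, nat_lit 0x40f3df7000010001f, nat_lit 0x4444b6d000010001f, nat_lit 0x435d22b000010001f, nat_lit 0x43ab1cf000010001f, nat_lit 0x4307675000010001f, nat_lit 0x440bbe3000010001f, nat_lit 0x425ac1d000010001f, nat_lit 0x405ab78000010001f, nat_lit 0x3ead0e20000100020, nat_lit 0x43253720000100020, nat_lit 0x394cc0f0000100020, nat_lit 0x419691b0000100020, nat_lit 0x392a6930000100020, nat_lit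 0x3892e100000100020, nat_lit 0x3fc25f40000100020, nat_lit 0x410405b0000100020, nat_lit 0x33445d40000100020, nat_lit 0x40ca1860000100020, nat_lit 0x4121f5c0000100020, nat_lit 0x41e3db60000100020, nat_lit 0x38278280000100020, nat_lit 0x2c38ae8000010000c], nat_lit 12429, nat_lit 13229, [nat_lit 0x91fdf4000025, nat_lit 0x97e8c8100025, nat_lit 0xa5f97f200025, nat_lit 0xa46def200025, nat_lit 0xaff266600025, nat_lit 0x9e37d5400025, nat_lit 0xa5483af00025, nat_lit 0x9f73e4400026, nat_lit 0xb243fe200026, nat_lit 0xabb9a1c00026, nat_lit 0xa0a581c00026, nat_lit 0x9ca8f2700026, nat_lit 0xacf466c00026, nat_lit 0x9e49a9e00026, nat_lit 0x9b2961100026, nat_lit 0xb073e8500026, nat_lit 0x99006c200027, nat_lit 0x9cac7ef00027, nat_lit 0xa4917c900027, nat_lit 0xa8573e300027, nat_lit 0x92ec6bd00027, nat_lit 0x10c37d000004]⟩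

set_option maxRecDepth 100000 in
theorem h3 : rchk Cd.ms p3 = true := by
  decide +kernel

/-- the row checks of this file -/
noncomputable def rs3 : List RP := [p3]

theorem R3 : RCk Cd.ms rs3 :=
  RCk.cons h3 RCk.nil

end Pool.Agent.Moser.Ck.Cr
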