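import Pool.Agent.Lib_MP_cc07e8_cd.Ds
import Pool.Agent.Lib_MP_cc07e8_ck.CkAsmDefs

/-! # MP_cc07e8_co: row checks of the explicit start, part 4 -/

namespace Pool.Agent.Moser.Ck.Cr

/-- row check 4 -/
noncomputable def p4 : RP := ⟨nat_lit 1, nat_lit 1, nat_lit 12, nat_lit 32, nat_lit 20877, nat_lit 24967, nat_lit 20877, nat_lit 0x29ff9c40ece5cd5e, nat_lit 0x3239f39d75cdcc53, nat_lit 0x10000000000000000000, nat_lit 0x1, nat_lit 4, nat_lit 14029, nat_lit 13232, nat_lit 14032, [nat_lit 0x40016f70000100021, nat_lit 0x3f2efcd0000100021, nat_lit 0x3ed5df20000100021, nat_lit 0x3f5eb770000100021, nat_lit 0x40205720000100021, nat_lit 0x403f0b10000100021, nat_lit 0x3fdd3f30000100021, nat_lit 0x3b52eb00000100021, nat_lit 0x3fc55630000100021, nat_lit 0x3b6bab40000100021, nat_lit 0x3fb34640000100021, nat_lit 0x37b4f680000100021, nat_lit 0x3b44aa80000100022, nat_lit 0x3e434ce0000100022, nat_lit 0x38989c20000100022, nat_lit 0x3b97eff0000100022, nat_lit 0x3c63d620000100022,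 nat_lit 0x3cf966a0000100022, nat_lit 0x3564e9f0000100022, nat_lit 0x3b511880000100022, nat_lit 0x3b852b40000100022, nat_lit 0x38b379c0000100022, nat_lit 0x3c048270000100022, nat_lit 0x3c054e1000010001e], nat_lit 13229, nat_lit 14029, [nat_lit 0xa5716fe00027, nat_lit 0xa3a1f1900027, nat_lit 0x99dfb8900027, nat_lit 0xad5bf8800028, nat_lit 0x9ed38d500028, nat_lit 0xb35f0bf00028, nat_lit 0xb09597500028, nat_lit 0xa334fcc00028, nat_lit 0xac743ca00028, nat_lit 0xa1e383300028, nat_lit 0xb29509300028, nat_lit 0x9821c3b00028, nat_lit 0xb2b136300029, nat_lit 0xadce06300029, nat_lit 0xa72007500029, nat_lit 0xa06491c00029, nat_lit 0xacb351400029, nat_lit 0xa82ba6b00029, nat_lit 0xacf1a3100029, nat_lit 0x902f01c00024]⟩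

set_option maxRecDepth 100000 in
theorem h4 : rchk Cd.ms p4 = true := by
  decide +kernel

/-- the row checks of this file -/
noncomputable def rs4 : List RP := [p4]

theorem R4 : RCk Cd.ms rs4 :=
  RCk.cons h4 RCk.nil

end Pool.Agent.Moser.Ck.Cr
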