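import Pool.Agent.Lib_MP_cc07e8_cd.Ds
import Pool.Agent.Lib_MP_cc07e8_ck.CkAsmDefs

/-! # MP_cc07e8_co: row checks of the explicit start, part 5 -/

namespace Pool.Agent.Moser.Ck.Cr

/-- row check 5 -/
noncomputable def p5 : RP := ⟨nat_lit 1, nat_lit 1, nat_lit 12, nat_lit 32, nat_lit 24902, nat_lit 29486, nat_lit 24902, nat_lit 0x238fd3d356df7a16, nat_lit 0x2a1bacb03ed54bae, nat_lit 0x10000000000000000000, nat_lit 0x1, nat_lit 4, nat_lit 14829, nat_lit 14032, nat_lit 14832, [nat_lit 0x38035870000100023, nat_lit 0x39d65280000100023, nat_lit 0x3a778d80000100023, nat_lit 0x3c8cd9c0000100023, nat_lit 0x3cdffc20000100023, nat_lit 0x3733e260000100023, nat_lit 0x3839dee0000100023, nat_lit 0x3c1ded80000100023, nat_lit 0x3976d9d0000100023, nat_lit 0x33647e90000100023, nat_lit 0x3ad6de90000100023, nat_lit 0x389521d0000100024, nat_lit 0x385c1c80000100024, nat_lit 0x399c96d0000100024, nat_lit 0x389c18c0000100024, nat_lit 0x33b76ba0000100024, nat_lit 0x3bcae850000100024,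 nat_lit 0x395193d0000100024, nat_lit 0x309dcb70000100024, nat_lit 0x377a8af0000100024, nat_lit 0x359eaf80000100024, nat_lit 0x37e3eb00000100024, nat_lit 0x3734f400000100013], nat_lit 14029, nat_lit 14829, [nat_lit 0xa92f43b0002a, nat_lit 0xa5682e10002a, nat_lit 0xaeb9e510002a, nat_lit 0xa5c924c0002a, nat_lit 0xa917d3b0002a, nat_lit 0xa359b5f0002a, nat_lit 0xa5209020002a, nat_lit 0xac4e3030002a, nat_lit 0xb41c3ce0002b, nat_lit 0xa5941420002b, nat_lit 0xa71321c0002b, nat_lit 0xa83ac3f0002b, nat_lit 0x9e0f2ff0002b, nat_lit 0xaf92f0f0002b, nat_lit 0xaef17560002b, nat_lit 0x9b4068c0002b, nat_lit 0xa3d67900002c, nat_lit 0xa1acb3c0002c, nat_lit 0x794d69a00020]⟩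

set_option maxRecDepth 100000 in
theorem h5 : rchk Cd.ms p5 = true := by
  decide +kernel

/-- the row checks of this file -/
noncomputable def rs5 : List RP := [p5]

theorem R5 : RCk Cd.ms rs5 :=
  RCk.cons h5 RCk.nil

end Pool.Agent.Moser.Ck.Cr
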