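import Pool.Agent.Lib_MP_cc07e8_cd.Ds
import Pool.Agent.Lib_MP_cc07e8_ck.CkAsmDefs

/-! # MP_cc07e8_co: row checks of the explicit start, part 6 -/

namespace Pool.Agent.Moser.Ck.Cr

/-- row check 6 -/
noncomputable def p6 : RP := ⟨nat_lit 1, nat_lit 2, nat_lit 12, nat_lit 32, nat_lit 29414, nat_lit 34520, nat_lit 29414, nat_lit 0x1e603ada72073cee, nat_lit 0x23a61ca6c187060a, nat_lit 0x10000000000000000000, nat_lit 0x1, nat_lit 4, nat_lit 15629, nat_lit 14832, nat_lit 15632, [nat_lit 0x3868a440000100025, nat_lit 0x36bdab00000100025, nat_lit 0x356b0f80000100025, nat_lit 0x36e37730000100025, nat_lit 0x36348930000100025, nat_lit 0x359257c0000100025, nat_lit 0x352b4c50000100025, nat_lit 0x2d903a10000100025, nat_lit 0x34437fe0000100025, nat_lit 0x3571c6f0000100025, nat_lit 0x35a85e60000100026, nat_lit 0x32a14590000100026, nat_lit 0x30608a80000100026, nat_lit 0x3640b090000100026, nat_lit 0x36e5b1e0000100026, nat_lit 0x37426d10000100026, nat_lit 0x34e82950000100026,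 nat_lit 0x3545afc0000100026, nat_lit 0x3088e2d0000100026, nat_lit 0x2c484bb0000100026, nat_lit 0x338ef4d0000100026, nat_lit 0x36455ff000010000c], nat_lit 14829, nat_lit 15629, [nat_lit 0xb6b2b030002c, nat_lit 0xaaa8f1a0002c, nat_lit 0xa9eee670002c, nat_lit 0xa17c7940002c, nat_lit 0xa1875200002d, nat_lit 0xa1235ba0002d, nat_lit 0xa1b9d1a0002d, nat_lit 0xa4c9c610002d, nat_lit 0xaec172f0002d, nat_lit 0x9871ad70002d, nat_lit 0x9dc5cd00002d, nat_lit 0xa0ffab50002d, nat_lit 0xa0f7b890002e, nat_lit 0x9e6918e0002e, nat_lit 0xa7a63250002e, nat_lit 0x9f515370002e, nat_lit 0x99db7d70002e, nat_lit 0x8019e5500022]⟩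

set_option maxRecDepth 100000 in
theorem h6 : rchk Cd.ms p6 = true := by
  decide +kernel

/-- the row checks of this file -/
noncomputable def rs6 : List RP := [p6]

theorem R6 : RCk Cd.ms rs6 :=
  RCk.cons h6 RCk.nil

end Pool.Agent.Moser.Ck.Cr
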