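import Pool.Agent.Lib_MP_cc07e8_cd.Ds
import Pool.Agent.Lib_MP_cc07e8_ck.CkAsmDefs

/-! # MP_cc07e8_co: row checks of the explicit start, part 7 -/

namespace Pool.Agent.Moser.Ck.Cr

/-- row check 7 -/
noncomputable def p7 : RP := ⟨nat_lit 2, nat_lit 1, nat_lit 13, nat_lit 32, nat_lit 17220, nat_lit 21243, nat_lit 17220, nat_lit 0x18ae35acdf3bb67d, nat_lit 0x1e724b0bb6f9e001, nat_lit 0x8000000000000000000, nat_lit 0x1, nat_lit 15, nat_lit 16749, nat_lit 15632, nat_lit 16752, [nat_lit 0x35218920000100027, nat_lit 0x330ff800000100027, nat_lit 0x35be7480000100027, nat_lit 0x313e1750000100027, nat_lit 0x369c4fc0000100027, nat_lit 0x2de94840000100027, nat_lit 0x2fa117d0000100027, nat_lit 0x34703d40000100027, nat_lit 0x34b49cd0000100027, nat_lit 0x334fbf60000100027, nat_lit 0x358e6940000100028, nat_lit 0x3350bf10000100028, nat_lit 0x34a2b350000100028, nat_lit 0x33b53a70000100028, nat_lit 0x31df1fd0000100028, nat_lit 0x2e9ddbd0000100028, nat_lit 0x342c9620000100028,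 nat_lit 0x329b28c0000100028, nat_lit 0x33513400000100028, nat_lit 0x3091cb30000100028, nat_lit 0x2e0fa070000100029, nat_lit 0x31ad3ce0000100029, nat_lit 0x335558d0000100029, nat_lit 0x33d60e20000100029, nat_lit 0x2bc92790000100029, nat_lit 0x33f04b50000100029, nat_lit 0x2e889f40000100029, nat_lit 0x2e5832d0000100029, nat_lit 0x2222d890000100002], nat_lit 15629, nat_lit 16749, [nat_lit 0xb5560cb0002e, nat_lit 0x9e34a210002f, nat_lit 0xa7e575f0002f, nat_lit 0xa5356980002f, nat_lit 0x9b8f1d50002f, nat_lit 0x95f99ce0002f, nat_lit 0xad0a68d0002f, nat_lit 0xb0dc96a0002f, nat_lit 0xa7b792f00030, nat_lit 0xabd9eee00030, nat_lit 0xa644f7f00030, nat_lit 0x98a05ea00030, nat_lit 0x97d839900030, nat_lit 0x9b29cdf00030, nat_lit 0x928c3f500030, nat_lit 0xae1251b00031, nat_lit 0x94ca72e00031, nat_lit 0xa2b9d8700031, nat_lit 0xa79785d00031, nat_lit 0xa387a0000031, nat_lit 0x9da94bf00031, nat_lit 0xa68e5ad00031, nat_lit 0x973553d00032, nat_lit 0x28e042b00010]⟩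

set_option maxRecDepth 100000 in
theorem h7 : rchk Cd.ms p7 = true := by
  decide +kernel

/-- the row checks of this file -/
noncomputable def rs7 : List RP := [p7]

theorem R7 : RCk Cd.ms rs7 :=
  RCk.cons h7 RCk.nil

end Pool.Agent.Moser.Ck.Cr
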