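import Pool.Agent.Lib_MP_cc07e8_cd.Ds
import Pool.Agent.Lib_MP_cc07e8_ck.CkAsmDefs

/-! # MP_cc07e8_co: row checks of the explicit start, part 8 -/

namespace Pool.Agent.Moser.Ck.Cr

/-- row check 8 -/
noncomputable def p8 : RP := ⟨nat_lit 2, nat_lit 1, nat_lit 13, nat_lit 32, nat_lit 21197, nat_lit 25658, nat_lit 21197, nat_lit 0x146f074893589e85, nat_lit 0x18bbebc236909058, nat_lit 0x8000000000000000000, nat_lit 0x1, nat_lit 18, nat_lit 17837, nat_lit 16752, nat_lit 17840, [nat_lit 0x30ea06c0000100029, nat_lit 0x2be3c350000100029, nat_lit 0x2b9111d000010002a, nat_lit 0x327e29c000010002a, nat_lit 0x2ebbbb5000010002a, nat_lit 0x31f8979000010002a, nat_lit 0x30da4cb000010002a, nat_lit 0x2e3d6e9000010002a, nat_lit 0x2e1466d000010002a, nat_lit 0x2a9f9ad000010002a, nat_lit 0x2fdb35d000010002a, nat_lit 0x2f3fea1000010002b, nat_lit 0x2b1991a000010002b, nat_lit 0x2f26a07000010002b, nat_lit 0x2f5e5cd000010002b, nat_lit 0x2c39eb5000010002b, nat_lit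 0x2dd58e1000010002b, nat_lit 0x2ea1f2c000010002b, nat_lit 0x2b93c2a000010002b, nat_lit 0x2ee8638000010002b, nat_lit 0x2fda6fd000010002b, nat_lit 0x2c04002000010002c, nat_lit 0x2a4a58b000010002c, nat_lit 0x2d8a498000010002c, nat_lit 0x301f549000010002c, nat_lit 0x2db724a0000100016], nat_lit 16749, nat_lit 17837, [nat_lit 0x9cbe40800032, nat_lit 0x8dda0be00032, nat_lit 0x935073c00032, nat_lit 0x9f1d7c600032, nat_lit 0x9cd9e4c00032, nat_lit 0x9ff331500032, nat_lit 0xa53376600033, nat_lit 0x8debf7000033, nat_lit 0x9f1864800033, nat_lit 0xae6141f00033, nat_lit 0x9c7640f00033, nat_lit 0xa9192bc00033, nat_lit 0x9943f7600034, nat_lit 0x9c8cf6600034, nat_lit 0x9ccab4500034, nat_lit 0xa1e500b00034, nat_lit 0x8f8eb2b00034, nat_lit 0x9c0095400034, nat_lit 0x9df124900035, nat_lit 0xa4f1efc00035, nat_lit 0xacccffd00035, nat_lit 0x2276ec90000b]⟩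

set_option maxRecDepth 100000 in
theorem h8 : rchk Cd.ms p8 = true := by
  decide +kernel

/-- the row checks of this file -/
noncomputable def rs8 : List RP := [p8]

theorem R8 : RCk Cd.ms rs8 :=
  RCk.cons h8 RCk.nil

end Pool.Agent.Moser.Ck.Cr
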