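import Pool.Agent.Lib_MP_cc07e8_cd.Ds
import Pool.Agent.Lib_MP_cc07e8_ck.CkAsmDefs

/-! # MP_cc07e8_co: row checks of the explicit start, part 9 -/

namespace Pool.Agent.Moser.Ck.Cr

/-- row check 9 -/
noncomputable def p9 : RP := ⟨nat_lit 2, nat_lit 1, nat_lit 13, nat_lit 32, nat_lit 25604, nat_lit 30490, nat_lit 25605, nat_lit 0x11320647c54b368e, nat_lit 0x147a0f98f9e18656, nat_lit 0x8000000000000000000, nat_lit 0x1, nat_lit 21, nat_lit 18893, nat_lit 17840, nat_lit 18896, [nat_lit 0x30bb9b3000010002c, nat_lit 0x2e7d2fe000010002c, nat_lit 0x2884988000010002c, nat_lit 0x2c543e9000010002c, nat_lit 0x2c58972000010002d, nat_lit 0x2eb722e000010002d, nat_lit 0x2c5990e000010002d, nat_lit 0x2b24bf3000010002d, nat_lit 0x2a68fe3000010002d, nat_lit 0x28914d8000010002d, nat_lit 0x2ba9b91000010002d, nat_lit 0x28fd972000010002d, nat_lit 0x2c6b132000010002d, nat_lit 0x2e1d46c000010002e, nat_lit 0x244aeee000010002e, nat_lit 0x2a9709c000010002e, nat_lit 0x2c3d939000010002e,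 nat_lit 0x2bd071c000010002e, nat_lit 0x249c234000010002e, nat_lit 0x270f3ac000010002e, nat_lit 0x26e67ad000010002e, nat_lit 0x2ccf157000010002e, nat_lit 0x2bf6fd6000010002f, nat_lit 0x26875f5000010000e], nat_lit 17837, nat_lit 18893, [nat_lit 0xad007b400035, nat_lit 0xa5c4eec00035, nat_lit 0xa17df5e00035, nat_lit 0x9d0e6c800035, nat_lit 0x9f5cbf000036, nat_lit 0x9ef184400036, nat_lit 0xa04dcd700036, nat_lit 0x9c5f8fc00036, nat_lit 0x9ffc0c700036, nat_lit 0x865b84600036, nat_lit 0xabc021900037, nat_lit 0x95457b200037, nat_lit 0x979e58b00037, nat_lit 0xa3c8d6000037, nat_lit 0x9663c0400037, nat_lit 0x8c41d3800037, nat_lit 0x8c7be1d00038, nat_lit 0x8dc0aa800038, nat_lit 0xa3bc7ce00038, nat_lit 0x3da37b600016]⟩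

set_option maxRecDepth 100000 in
theorem h9 : rchk Cd.ms p9 = true := by
  decide +kernel

/-- the row checks of this file -/
noncomputable def rs9 : List RP := [p9]

theorem R9 : RCk Cd.ms rs9 :=
  RCk.cons h9 RCk.nil

end Pool.Agent.Moser.Ck.Cr
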