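import Pool.Agent.Lib_MP_cc07e8_cd.Ds
import Pool.Agent.Lib_MP_cc07e8_ck.CkAsmDefs

/-! # MP_cc07e8_co: row checks of the explicit start, part 10 -/

namespace Pool.Agent.Moser.Ck.Cr

/-- row check 10 -/
noncomputable def p10 : RP := ⟨nat_lit 2, nat_lit 1, nat_lit 13, nat_lit 32, nat_lit 30430, nat_lit 35721, nat_lit 30431, nat_lit 0xead63d6b1008242, nat_lit 0x113ab444b720f60e, nat_lit 0x8000000000000000000, nat_lit 0x1, nat_lit 25, nat_lit 19917, nat_lit 18896, nat_lit 19920, [nat_lit 0x2865dbc000010002f, nat_lit 0x25d16c3000010002f, nat_lit 0x2b97991000010002f, nat_lit 0x2b1a91d000010002f, nat_lit 0x2b4d48a000010002f, nat_lit 0x2b87721000010002f, nat_lit 0x284ae49000010002f, nat_lit 0x2998ead0000100030, nat_lit 0x292bf710000100030, nat_lit 0x2abbf3f0000100030, nat_lit 0x24c113e0000100030, nat_lit 0x2c0456e0000100030, nat_lit 0x298c8c50000100030, nat_lit 0x292df020000100030, nat_lit 0x2810c260000100030, nat_lit 0x2ae49c90000100031, nat_lit 0x276ae340000100031, nat_lit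 0x2718b420000100031, nat_lit 0x27aba770000100031, nat_lit 0x2b1f0a40000100031, nat_lit 0x287d11b0000100031, nat_lit 0x29634e50000100011], nat_lit 18893, nat_lit 19917, [nat_lit 0x998e53c00038, nat_lit 0xa0bb4f500038, nat_lit 0xaadd5c500039, nat_lit 0x9d5171900039, nat_lit 0x9792d8100039, nat_lit 0xa6244af00039, nat_lit 0x9d5c97500039, nat_lit 0xa8dd5af00039, nat_lit 0x9f767790003a, nat_lit 0xa2fb0b90003a, nat_lit 0x9dacc720003a, nat_lit 0x920f6740003a, nat_lit 0xa12523a0003a, nat_lit 0x9e7444b0003a, nat_lit 0xa3017e10003b, nat_lit 0xa1bcef60003b, nat_lit 0x97f45650003b, nat_lit 0x811cfa70002d]⟩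

set_option maxRecDepth 100000 in
theorem h10 : rchk Cd.ms p10 = true := by
  decide +kernel

/-- the row checks of this file -/
noncomputable def rs10 : List RP := [p10]

theorem R10 : RCk Cd.ms rs10 :=
  RCk.cons h10 RCk.nil

end Pool.Agent.Moser.Ck.Cr
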