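import Pool.Agent.Lib_MP_cc07e8_cd.Ds
import Pool.Agent.Lib_MP_cc07e8_ck.CkAsmDefs

/-! # MP_cc07e8_co: row checks of the explicit start, part 11 -/

namespace Pool.Agent.Moser.Ck.Cr

/-- row check 11 -/
noncomputable def p11 : RP := ⟨nat_lit 2, nat_lit 1, nat_lit 13, nat_lit 32, nat_lit 35656, nat_lit 41424, nat_lit 35656, nat_lit 0xca81885af83040d, nat_lit 0xeb43d57efeadce7, nat_lit 0x8000000000000000000, nat_lit 0x1, nat_lit 29, nat_lit 20925, nat_lit 19920, nat_lit 20928, [nat_lit 0x274a1170000100031, nat_lit 0x26316370000100031, nat_lit 0x26d84be0000100032, nat_lit 0x2974ad10000100032, nat_lit 0x26f40440000100032, nat_lit 0x266c6a20000100032, nat_lit 0x270dc550000100032, nat_lit 0x27822890000100032, nat_lit 0x27c02ba0000100032, nat_lit 0x23a0e870000100032, nat_lit 0x1f458560000100033, nat_lit 0x264a78c0000100033, nat_lit 0x2917e1e0000100033, nat_lit 0x25500c10000100033, nat_lit 0x26509130000100033, nat_lit 0x271bb030000100033, nat_lit 0x24efffb0000100033, nat_lit 0x2898ad40000100033,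 nat_lit 0x23b7eca0000100034, nat_lit 0x273e5610000100032], nat_lit 19917, nat_lit 20925, [nat_lit 0xa726b050003b, nat_lit 0x98bb1ff0003b, nat_lit 0x9afb8680003c, nat_lit 0xa0e18210003c, nat_lit 0xa2c69990003c, nat_lit 0x9f719270003c, nat_lit 0x974f42f0003c, nat_lit 0xa24061c0003d, nat_lit 0x85ecc450003d, nat_lit 0xa524b950003d, nat_lit 0xa19725d0003d, nat_lit 0x9f523d40003d, nat_lit 0x90ea7940003d, nat_lit 0xa0387ea0003e, nat_lit 0x9bf33290003e, nat_lit 0xa0638050003e, nat_lit 0x61cf8f900026]⟩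

set_option maxRecDepth 100000 in
theorem h11 : rchk Cd.ms p11 = true := by
  decide +kernel

/-- the row checks of this file -/
noncomputable def rs11 : List RP := [p11]

theorem R11 : RCk Cd.ms rs11 :=
  RCk.cons h11 RCk.nil

end Pool.Agent.Moser.Ck.Cr
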