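import Pool.Agent.Lib_MP_cc07e8_cd.Ds
import Pool.Agent.Lib_MP_cc07e8_ck.CkAsmDefs

/-! # MP_cc07e8_co: row checks of the explicit start, part 12 -/

namespace Pool.Agent.Moser.Ck.Cr

/-- row check 12 -/
noncomputable def p12 : RP := ⟨nat_lit 2, nat_lit 1, nat_lit 13, nat_lit 32, nat_lit 41351, nat_lit 47494, nat_lit 41351, nat_lit 0xb09fe4bf54347a8, nat_lit 0xcadd0d673ee4b44, nat_lit 0x8000000000000000000, nat_lit 0x1, nat_lit 33, nat_lit 21901, nat_lit 20928, nat_lit 21904, [nat_lit 0x23137680000100034, nat_lit 0x206e8e40000100034, nat_lit 0x243f34c0000100034, nat_lit 0x283c49a0000100034, nat_lit 0x27bf72f0000100034, nat_lit 0x273e8560000100034, nat_lit 0x24bc7720000100035, nat_lit 0x25bee840000100035, nat_lit 0x272c0500000100035, nat_lit 0x22536270000100035, nat_lit 0x25b7a410000100035, nat_lit 0x26334a20000100035, nat_lit 0x26ad6db0000100035, nat_lit 0x247008a0000100036, nat_lit 0x24fb34f0000100036, nat_lit 0x2447c750000100036, nat_lit 0x25f73730000100036, nat_lit 0x263956d0000100036,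 nat_lit 0x25ede940000100017], nat_lit 20925, nat_lit 21901, [nat_lit 0x8ead3210003e, nat_lit 0x8fd325a0003e, nat_lit 0x9e9b7330003f, nat_lit 0x9c198540003f, nat_lit 0x997b50e0003f, nat_lit 0x9b3a3410003f, nat_lit 0xa449d5a0003f, nat_lit 0x9a26efe00040, nat_lit 0x96ae86900040, nat_lit 0xaf748f500040, nat_lit 0xa13372d00040, nat_lit 0x91b073300040, nat_lit 0xa49023f00041, nat_lit 0xa0da23c00041, nat_lit 0xa640b7700041, nat_lit 0x36b4add00016]⟩

set_option maxRecDepth 100000 in
theorem h12 : rchk Cd.ms p12 = true := by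
  decide +kernel

/-- the row checks of this file -/
noncomputable def rs12 : List RP := [p12]

theorem R12 : RCk Cd.ms rs12 :=
  RCk.cons h12 RCk.nil

end Pool.Agent.Moser.Ck.Cr
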