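import Pool.Agent.Lib_MP_cc07e8_cd.Ds
import Pool.Agent.Lib_MP_cc07e8_ck.CkAsmDefs

/-! # MP_cc07e8_co: row checks of the explicit start, part 13 -/

namespace Pool.Agent.Moser.Ck.Cr

/-- row check 13 -/
noncomputable def p13 : RP := ⟨nat_lit 2, nat_lit 2, nat_lit 14, nat_lit 32, nat_lit 23707, nat_lit 28276, nat_lit 23707, nat_lit 0x94559c69059cfd5, nat_lit 0xb0ec2f4c23e4ead, nat_lit 0x4000000000000000000, nat_lit 0x1, nat_lit 20, nat_lit 23213, nat_lit 21904, nat_lit 23216, [nat_lit 0x23442870000100036, nat_lit 0x2353a330000100036, nat_lit 0x2032dfe0000100037, nat_lit 0x2443f8f0000100037, nat_lit 0x26484d00000100037, nat_lit 0x251eb970000100037, nat_lit 0x24e8d8e0000100037, nat_lit 0x218c09b0000100037, nat_lit 0x24da5b30000100037, nat_lit 0x210dded0000100037, nat_lit 0x225fcf40000100038, nat_lit 0x242e2220000100038, nat_lit 0x23fe26e0000100038, nat_lit 0x23063e70000100038, nat_lit 0x25a68750000100038, nat_lit 0x21af0b10000100038, nat_lit 0x23fb4e60000100038, nat_lit 0x250fbc30000100039,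 nat_lit 0x21baba70000100039, nat_lit 0x24322e90000100039, nat_lit 0x24a0b460000100039, nat_lit 0x2209c040000100039, nat_lit 0x22c88e90000100039, nat_lit 0x208479c000010001e], nat_lit 21901, nat_lit 23213, [nat_lit 0x9e2166600041, nat_lit 0x9b45b7700041, nat_lit 0xa44ac1d00042, nat_lit 0x97bd71700042, nat_lit 0x9c65f6500042, nat_lit 0xa7a306f00042, nat_lit 0x922ed5d00042, nat_lit 0x962df7000043, nat_lit 0x9903a6300043, nat_lit 0xa20400d00043, nat_lit 0xa06e54700043, nat_lit 0x9e351e600043, nat_lit 0x9f36d2a00044, nat_lit 0xa0a67c000044, nat_lit 0xa67fabd00044, nat_lit 0x9e790be00044, nat_lit 0xa7012c700044, nat_lit 0xa8f146a00045, nat_lit 0x9c0416f00045, nat_lit 0x6046b2900027]⟩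

set_option maxRecDepth 100000 in
theorem h13 : rchk Cd.ms p13 = true := by
  decide +kernel

/-- the row checks of this file -/
noncomputable def rs13 : List RP := [p13]

theorem R13 : RCk Cd.ms rs13 :=
  RCk.cons h13 RCk.nil

end Pool.Agent.Moser.Ck.Cr
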