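import Pool.Agent.Lib_MP_cc07e8_cd.Ds
import Pool.Agent.Lib_MP_cc07e8_ck.CkAsmDefs

/-! # MP_cc07e8_co: row checks of the explicit start, part 14 -/

namespace Pool.Agent.Moser.Ck.Cr

/-- row check 14 -/
noncomputable def p14 : RP := ⟨nat_lit 3, nat_lit 1, nat_lit 14, nat_lit 32, nat_lit 28217, nat_lit 33086, nat_lit 28231, nat_lit 0x7ec50e70216cf54, nat_lit 0x94a502ee30caca1, nat_lit 0x4000000000000000000, nat_lit 0x1, nat_lit 23, nat_lit 24461, nat_lit 23216, nat_lit 24464, [nat_lit 0x22bf99a000010003a, nat_lit 0x1fbac87000010003a, nat_lit 0x1d0aa17000010003a, nat_lit 0x23aebbf000010003a, nat_lit 0x1fd0d99000010003a, nat_lit 0x2177e02000010003a, nat_lit 0x2027ef7000010003a, nat_lit 0x209e919000010003b, nat_lit 0x2024fde000010003b, nat_lit 0x229d43d000010003b, nat_lit 0x1e1de35000010003b, nat_lit 0x22df30e000010003b, nat_lit 0x217028f000010003b, nat_lit 0x22de756000010003b, nat_lit 0x20212e1000010003c, nat_lit 0x210230d000010003c, nat_lit 0x21303e9000010003c,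 nat_lit 0x1fec1f3000010003c, nat_lit 0x223bbf8000010003c, nat_lit 0x1e85741000010003c, nat_lit 0x22a60a4000010003c, nat_lit 0x198f2070000100009], nat_lit 23213, nat_lit 24461, [nat_lit 0x8af0f2f00045, nat_lit 0x91b66f500045, nat_lit 0x9e1c59400046, nat_lit 0x9729cd400046, nat_lit 0xaa45e5700046, nat_lit 0x9fe05ce00046, nat_lit 0x97a85ce00046, nat_lit 0xa1c70ef00047, nat_lit 0x98ab6b500047, nat_lit 0xa1f2a0f00047, nat_lit 0xa98ba3d00047, nat_lit 0xa1f546400047, nat_lit 0xa1e406d00048, nat_lit 0xa7793e500048, nat_lit 0xa04607f00048, nat_lit 0xa2ade5500048, nat_lit 0x9719b0600049, nat_lit 0x62655aa0002c]⟩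

set_option maxRecDepth 100000 in
theorem h14 : rchk Cd.ms p14 = true := by
  decide +kernel

/-- the row checks of this file -/
noncomputable def rs14 : List RP := [p14]

theorem R14 : RCk Cd.ms rs14 :=
  RCk.cons h14 RCk.nil

end Pool.Agent.Moser.Ck.Cr
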