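import Pool.Agent.Lib_MP_cc07e8_cd.Ds
import Pool.Agent.Lib_MP_cc07e8_ck.CkAsmDefs

/-! # MP_cc07e8_co: row checks of the explicit start, part 15 -/

namespace Pool.Agent.Moser.Ck.Cr

/-- row check 15 -/
noncomputable def p15 : RP := ⟨nat_lit 3, nat_lit 1, nat_lit 14, nat_lit 32, nat_lit 33036, nat_lit 38127, nat_lit 33036, nat_lit 0x6e023e1bb420940, nat_lit 0x7ef62c92ace5fe7, nat_lit 0x4000000000000000000, nat_lit 0x1, nat_lit 26, nat_lit 25645, nat_lit 24464, nat_lit 25648, [nat_lit 0x1eeb2d2000010003d, nat_lit 0x1e1de02000010003d, nat_lit 0x203636c000010003d, nat_lit 0x1b805a4000010003d, nat_lit 0x1fe3c35000010003d, nat_lit 0x1fb0b9a000010003d, nat_lit 0x2243bfe000010003e, nat_lit 0x21685fa000010003e, nat_lit 0x1f74212000010003e, nat_lit 0x20977a5000010003e, nat_lit 0x20faa8b000010003e, nat_lit 0x20ae63a000010003e, nat_lit 0x1fee7fc000010003f, nat_lit 0x1fe0065000010003f, nat_lit 0x205ecac000010003f, nat_lit 0x2127a70000010003f, nat_lit 0x2023903000010003f,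 nat_lit 0x1cb8e45000010003f, nat_lit 0x1fce938000010003f, nat_lit 0x1b5b1d10000100005], nat_lit 24461, nat_lit 25645, [nat_lit 0xa2264a500049, nat_lit 0x9d2dd7600049, nat_lit 0x99c01f100049, nat_lit 0x9d857590004a, nat_lit 0x9e0685f0004a, nat_lit 0xab33ff30004a, nat_lit 0xa6777060004a, nat_lit 0xa0719390004a, nat_lit 0xaa0d6d10004b, nat_lit 0xa3373cb0004b, nat_lit 0x9c97bba0004b, nat_lit 0xa9eef380004b, nat_lit 0xa49cc480004c, nat_lit 0xa9328ca0004c, nat_lit 0x96bcc4a0004c, nat_lit 0x932671c00043]⟩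

set_option maxRecDepth 100000 in
theorem h15 : rchk Cd.ms p15 = true := by
  decide +kernel

/-- the row checks of this file -/
noncomputable def rs15 : List RP := [p15]

theorem R15 : RCk Cd.ms rs15 :=
  RCk.cons h15 RCk.nil

end Pool.Agent.Moser.Ck.Cr
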