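import Pool.Agent.Lib_MP_cc07e8_cd.Ds
import Pool.Agent.Lib_MP_cc07e8_ck.CkAsmDefs

/-! # MP_cc07e8_co: row checks of the explicit start, part 16 -/

namespace Pool.Agent.Moser.Ck.Cr

/-- row check 16 -/
noncomputable def p16 : RP := ⟨nat_lit 3, nat_lit 1, nat_lit 14, nat_lit 32, nat_lit 38072, nat_lit 43499, nat_lit 38072, nat_lit 0x606c499cab728b2, nat_lit 0x6e2aed39ef53009, nat_lit 0x4000000000000000000, nat_lit 0x1, nat_lit 30, nat_lit 26797, nat_lit 25648, nat_lit 26800, [nat_lit 0x1f08f330000100040, nat_lit 0x1db16530000100040, nat_lit 0x1f47f7e0000100040, nat_lit 0x203fbc40000100040, nat_lit 0x1ec749e0000100040, nat_lit 0x1f92f5c0000100040, nat_lit 0x1e0963a0000100041, nat_lit 0x1e19f250000100041, nat_lit 0x1f934b00000100041, nat_lit 0x1edf1530000100041, nat_lit 0x1dd4fc50000100041, nat_lit 0x1c94f290000100041, nat_lit 0x1f5bddc0000100042, nat_lit 0x1fa60730000100042, nat_lit 0x1fc63160000100042, nat_lit 0x1e2ddd10000100042, nat_lit 0x1be4def0000100042,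 nat_lit 0x1e2a3a80000100030], nat_lit 25645, nat_lit 26797, [nat_lit 0xa09e2370004c, nat_lit 0xa0a9e860004d, nat_lit 0xa23899d0004d, nat_lit 0x98b0a7e0004d, nat_lit 0xae375320004d, nat_lit 0xa12c8720004e, nat_lit 0xa592e7f0004e, nat_lit 0x9e00c8f0004e, nat_lit 0xa3b3e960004e, nat_lit 0x99d6fcb0004f, nat_lit 0xa567aef0004f, nat_lit 0xa3031e20004f, nat_lit 0xa400d7e0004f, nat_lit 0x9665efb0004f, nat_lit 0x811d90c0003d]⟩

set_option maxRecDepth 100000 in
theorem h16 : rchk Cd.ms p16 = true := by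
  decide +kernel

/-- the row checks of this file -/
noncomputable def rs16 : List RP := [p16]

theorem R16 : RCk Cd.ms rs16 :=
  RCk.cons h16 RCk.nil

end Pool.Agent.Moser.Ck.Cr
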