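import Pool.Agent.Lib_MP_cc07e8_cd.Ds
import Pool.Agent.Lib_MP_cc07e8_ck.CkAsmDefs

/-! # MP_cc07e8_co: row checks of the explicit start, part 17 -/

namespace Pool.Agent.Moser.Ck.Cr

/-- row check 17 -/
noncomputable def p17 : RP := ⟨nat_lit 3, nat_lit 1, nat_lit 14, nat_lit 32, nat_lit 43428, nat_lit 49015, nat_lit 43440, nat_lit 0x55926475037e7e4, nat_lit 0x6094a4c5981c1b4, nat_lit 0x4000000000000000000, nat_lit 0x1, nat_lit 34, nat_lit 27885, nat_lit 26800, nat_lit 27888, [nat_lit 0x1ea67600000100043, nat_lit 0x20373460000100043, nat_lit 0x1e2ed950000100043, nat_lit 0x1acc3880000100043, nat_lit 0x1a355070000100043, nat_lit 0x1e014c00000100043, nat_lit 0x1af933e0000100044, nat_lit 0x1d128f90000100044, nat_lit 0x1b175b40000100044, nat_lit 0x1b112a50000100044, nat_lit 0x1d495aa0000100044, nat_lit 0x1c0a0e70000100044, nat_lit 0x1cc52e40000100045, nat_lit 0x1b085fb0000100045, nat_lit 0x1e1e04d0000100045, nat_lit 0x1e0a1160000100045, nat_lit 0x1b173360000100002], nat_lit 26797,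 nat_lit 27885, [nat_lit 0x9facce600050, nat_lit 0xa1d278d00050, nat_lit 0xa3ad17e00050, nat_lit 0x971595500051, nat_lit 0x9a075d700051, nat_lit 0x977581c00051, nat_lit 0xa03dfab00051, nat_lit 0x9f9727700052, nat_lit 0xa82125a00052, nat_lit 0xa35857800052, nat_lit 0xa32ac6000052, nat_lit 0x984da5000053, nat_lit 0xa738c9800053, nat_lit 0x3e54b850001e]⟩

set_option maxRecDepth 100000 in
theorem h17 : rchk Cd.ms p17 = true := by
  decide +kernel

/-- the row checks of this file -/
noncomputable def rs17 : List RP := [p17]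

theorem R17 : RCk Cd.ms rs17 :=
  RCk.cons h17 RCk.nil

end Pool.Agent.Moser.Ck.Cr
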