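import Pool.Agent.Lib_MP_cc07e8_cd.Ds
import Pool.Agent.Lib_MP_cc07e8_ck.CkAsmDefs

/-! # MP_cc07e8_co: row checks of the explicit start, part 18 -/

namespace Pool.Agent.Moser.Ck.Cr

/-- row check 18 -/
noncomputable def p18 : RP := ⟨nat_lit 3, nat_lit 1, nat_lit 14, nat_lit 31, nat_lit 48925, nat_lit 54616, nat_lit 48951, nat_lit 0x4ccbd70d4fd566e, nat_lit 0x55bab0b8effbbaf, nat_lit 0x4000000000000000000, nat_lit 0x1, nat_lit 38, nat_lit 28909, nat_lit 27888, nat_lit 28912, [nat_lit 0x1ca090a0000100045, nat_lit 0x1d125b40000100045, nat_lit 0x1d930d40000100046, nat_lit 0x1cfcd760000100046, nat_lit 0x1af66d10000100046, nat_lit 0x1dddd180000100046, nat_lit 0x1b464f70000100046, nat_lit 0x1b5fd5b0000100046, nat_lit 0x1c2a2eb0000100047, nat_lit 0x1c28bc20000100047, nat_lit 0x19639000000100047, nat_lit 0x1cbfd8b0000100047, nat_lit 0x1ca13a40000100047, nat_lit 0x1c270880000100048, nat_lit 0x1bafa6d0000100027], nat_lit 27885, nat_lit 28909, [nat_lit 0xa1514c700053,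 nat_lit 0x99cb52100053, nat_lit 0xa1cdac800054, nat_lit 0xaf8b22100054, nat_lit 0xa4b07d000054, nat_lit 0xa07716200054, nat_lit 0x9c2421f00055, nat_lit 0x9e4cb8d00055, nat_lit 0x9e24a8e00055, nat_lit 0xa857d2e00055, nat_lit 0xa90fc5300056, nat_lit 0xa35850b00056, nat_lit 0x12209570000a]⟩

set_option maxRecDepth 100000 in
theorem h18 : rchk Cd.ms p18 = true := by
  decide +kernel

/-- the row checks of this file -/
noncomputable def rs18 : List RP := [p18]

theorem R18 : RCk Cd.ms rs18 :=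
  RCk.cons h18 RCk.nil

end Pool.Agent.Moser.Ck.Cr
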