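import Pool.Agent.Lib_MP_cc07e8_cd.Ds
import Pool.Agent.Lib_MP_cc07e8_ck.CkAsmDefs

/-! # MP_cc07e8_co: row checks of the explicit start, part 19 -/

namespace Pool.Agent.Moser.Ck.Cr

/-- row check 19 -/
noncomputable def p19 : RP := ⟨nat_lit 3, nat_lit 1, nat_lit 14, nat_lit 31, nat_lit 54547, nat_lit 60433, nat_lit 54547, nat_lit 0x456779a18b249ef, nat_lit 0x4ce4b583a3bb4f7, nat_lit 0x4000000000000000000, nat_lit 0x1, nat_lit 42, nat_lit 29901, nat_lit 28912, nat_lit 29904, [nat_lit 0x1c1306f0000100048, nat_lit 0x1c788cf0000100048, nat_lit 0x1c05e380000100048, nat_lit 0x1c65e980000100048, nat_lit 0x1a537320000100049, nat_lit 0x1cb5ffe0000100049, nat_lit 0x1c927050000100049, nat_lit 0x1c8900e0000100049, nat_lit 0x1b1b2950000100049, nat_lit 0x1bd58a70000100049, nat_lit 0x1c20b82000010004a, nat_lit 0x198aa96000010004a, nat_lit 0x19b1762000010004a, nat_lit 0x187e145000010002c], nat_lit 28909, nat_lit 29901, [nat_lit 0xa28def500056, nat_lit 0xa53eaa700056, nat_lit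 0xab9feca00057, nat_lit 0xa7da57e00057, nat_lit 0xaaa9d9100057, nat_lit 0xadcb92300058, nat_lit 0xb192dec00058, nat_lit 0xa6d216a00058, nat_lit 0xab12e0b00058, nat_lit 0xa16977b00059, nat_lit 0xa67bc1400059, nat_lit 0x35daafe0001d]⟩

set_option maxRecDepth 100000 in
theorem h19 : rchk Cd.ms p19 = true := by
  decide +kernel

/-- the row checks of this file -/
noncomputable def rs19 : List RP := [p19]

theorem R19 : RCk Cd.ms rs19 :=
  RCk.cons h19 RCk.nil

end Pool.Agent.Moser.Ck.Cr
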