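import Pool.Agent.Lib_MP_cc07e8_cd.Ds
import Pool.Agent.Lib_MP_cc07e8_ck.CkAsmDefs

/-! # MP_cc07e8_co: row checks of the explicit start, part 20 -/

namespace Pool.Agent.Moser.Ck.Cr

/-- row check 20 -/
noncomputable def p20 : RP := ⟨nat_lit 3, nat_lit 1, nat_lit 15, nat_lit 32, nat_lit 30173, nat_lit 34477, nat_lit 30180, nat_lit 0x3cd3db60f38c415, nat_lit 0x4581171a60c5ec9, nat_lit 0x2000000000000000000, nat_lit 0x1, nat_lit 24, nat_lit 31245, nat_lit 29904, nat_lit 31248, [nat_lit 0x1bbc959000010004a, nat_lit 0x1b68ab1000010004a, nat_lit 0x1b9db5c000010004b, nat_lit 0x1ad0fa9000010004b, nat_lit 0x1b87c9f000010004b, nat_lit 0x19b2b6e000010004b, nat_lit 0x1a9e25d000010004b, nat_lit 0x1ade7a5000010004c, nat_lit 0x1a90023000010004c, nat_lit 0x17a08d7000010004c, nat_lit 0x18bcd69000010004c, nat_lit 0x1b8db25000010004c, nat_lit 0x1b62c30000010004d, nat_lit 0x19ce35d000010004d, nat_lit 0x1b03163000010004d, nat_lit 0x1a267f5000010004d,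 nat_lit 0x1ba8a22000010004d, nat_lit 0x1ab4b0b0000100038], nat_lit 29901, nat_lit 31245, [nat_lit 0xa4d317900059, nat_lit 0xa9361ef00059, nat_lit 0xa7889c00005a, nat_lit 0xa4f9afa0005a, nat_lit 0xa3eb5a30005a, nat_lit 0xa619f6e0005b, nat_lit 0xa86f2b00005b, nat_lit 0x9980c520005b, nat_lit 0xa063f300005b, nat_lit 0x9c2cfb60005c, nat_lit 0xa3b329b0005c, nat_lit 0x9d3db3b0005c, nat_lit 0xa791b3a0005c, nat_lit 0xa4b9c8f0005d, nat_lit 0x831f4e400047]⟩

set_option maxRecDepth 100000 in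
theorem h20 : rchk Cd.ms p20 = true := by
  decide +kernel

/-- the row checks of this file -/
noncomputable def rs20 : List RP := [p20]

theorem R20 : RCk Cd.ms rs20 :=
  RCk.cons h20 RCk.nil

end Pool.Agent.Moser.Ck.Cr
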