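import Pool.Agent.Lib_MP_cc07e8_cd.Ds
import Pool.Agent.Lib_MP_cc07e8_ck.CkAsmDefs

/-! # MP_cc07e8_co: row checks of the explicit start, part 21 -/

namespace Pool.Agent.Moser.Ck.Cr

/-- row check 21 -/
noncomputable def p21 : RP := ⟨nat_lit 3, nat_lit 1, nat_lit 15, nat_lit 32, nat_lit 34437, nat_lit 38891, nat_lit 34437, nat_lit 0x35ec80acb98c294, nat_lit 0x3ce5f1bde9b6991, nat_lit 0x2000000000000000000, nat_lit 0x1, nat_lit 27, nat_lit 32525, nat_lit 31248, nat_lit 32528, [nat_lit 0x18b8b07000010004e, nat_lit 0x19c182b000010004e, nat_lit 0x16d0371000010004e, nat_lit 0x1b0d351000010004e, nat_lit 0x1877817000010004e, nat_lit 0x171e282000010004f, nat_lit 0x1adf6a1000010004f, nat_lit 0x19b1f73000010004f, nat_lit 0x1a2d56c000010004f, nat_lit 0x179518f000010004f, nat_lit 0x1947a7b0000100050, nat_lit 0x19c22490000100050, nat_lit 0x182a9100000100050, nat_lit 0x19108270000100050, nat_lit 0x19ebcc10000100050, nat_lit 0x195bc540000100051, nat_lit 0x176a2d7000010000e],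 nat_lit 31245, nat_lit 32525, [nat_lit 0x9cf1b4f0005d, nat_lit 0xa3fd6dd0005e, nat_lit 0x9d50ac50005e, nat_lit 0xa26c2cc0005e, nat_lit 0x95917830005e, nat_lit 0xaad90be0005f, nat_lit 0xa767ca80005f, nat_lit 0xa144e730005f, nat_lit 0xa69a61a0005f, nat_lit 0xa5a6cd500060, nat_lit 0x9fe2a2a00060, nat_lit 0xa15228300060, nat_lit 0xa4e3e5c00061, nat_lit 0x53208310002e]⟩

set_option maxRecDepth 100000 in
theorem h21 : rchk Cd.ms p21 = true := by
  decide +kernel

/-- the row checks of this file -/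
noncomputable def rs21 : List RP := [p21]

theorem R21 : RCk Cd.ms rs21 :=
  RCk.cons h21 RCk.nil

end Pool.Agent.Moser.Ck.Cr
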