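import Pool.Agent.Lib_MP_cc07e8_cd.Ds
import Pool.Agent.Lib_MP_cc07e8_ck.CkAsmDefs

/-! # MP_cc07e8_co: row checks of the explicit start, part 22 -/

namespace Pool.Agent.Moser.Ck.Cr

/-- row check 22 -/
noncomputable def p22 : RP := ⟨nat_lit 3, nat_lit 1, nat_lit 15, nat_lit 31, nat_lit 38843, nat_lit 43294, nat_lit 38846, nat_lit 0x307095abde760c5, nat_lit 0x35fd8fbc320ffd2, nat_lit 0x2000000000000000000, nat_lit 0x1, nat_lit 29, nat_lit 33709, nat_lit 32528, nat_lit 33712, [nat_lit 0x192fdf90000100051, nat_lit 0x190a9860000100051, nat_lit 0x1a3cab70000100051, nat_lit 0x17305180000100051, nat_lit 0x17d06780000100052, nat_lit 0x19d47120000100052, nat_lit 0x19318e70000100052, nat_lit 0x199f24a0000100052, nat_lit 0x184f6510000100052, nat_lit 0x180d9870000100053, nat_lit 0x1836e750000100053, nat_lit 0x19357fd0000100053, nat_lit 0x17be68a0000100053, nat_lit 0x18212860000100053, nat_lit 0x1600eba0000100023], nat_lit 32525, nat_lit 33709, [nat_lit 0xa2f78e300061, nat_lit 0xafe531500061, nat_lit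 0xa1d74db00062, nat_lit 0x9df744a00062, nat_lit 0xa12c39b00062, nat_lit 0xa61c47f00063, nat_lit 0xa9f7c5800063, nat_lit 0xa474eb800063, nat_lit 0xa52200400063, nat_lit 0xa419f6b00064, nat_lit 0xa183db700064, nat_lit 0xa2a610500064]⟩

set_option maxRecDepth 100000 in
theorem h22 : rchk Cd.ms p22 = true := by
  decide +kernel

/-- the row checks of this file -/
noncomputable def rs22 : List RP := [p22]

theorem R22 : RCk Cd.ms rs22 :=
  RCk.cons h22 RCk.nil

end Pool.Agent.Moser.Ck.Cr
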