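import Pool.Agent.Lib_MP_cc07e8_cd.Ds
import Pool.Agent.Lib_MP_cc07e8_ck.CkAsmDefs

/-! # MP_cc07e8_co: row checks of the explicit start, part 23 -/

namespace Pool.Agent.Moser.Ck.Cr

/-- row check 23 -/
noncomputable def p23 : RP := ⟨nat_lit 3, nat_lit 1, nat_lit 15, nat_lit 31, nat_lit 43247, nat_lit 48018, nat_lit 43247, nat_lit 0x2bac9e30fbfaecb, nat_lit 0x307e0fb5d736f96, nat_lit 0x2000000000000000000, nat_lit 0x1, nat_lit 33, nat_lit 34893, nat_lit 33712, nat_lit 34896, [nat_lit 0x19223a90000100054, nat_lit 0x15aa9a80000100054, nat_lit 0x19594f00000100054, nat_lit 0x17f62340000100054, nat_lit 0x170f3510000100055, nat_lit 0x16016160000100055, nat_lit 0x173a22f0000100055, nat_lit 0x1891fe40000100055, nat_lit 0x17409900000100055, nat_lit 0x17d770b0000100056, nat_lit 0x1826baf0000100056, nat_lit 0x174ee030000100056, nat_lit 0x1871a490000100056, nat_lit 0x175aaa3000010004f], nat_lit 33709, nat_lit 34893, [nat_lit 0xaee923200065, nat_lit 0x95cbe4900065, nat_lit 0xab1826c00065,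 nat_lit 0xa382e7600066, nat_lit 0xa0fe1db00066, nat_lit 0x9df716000066, nat_lit 0x9c41cad00066, nat_lit 0x9ea92f600067, nat_lit 0xa18cc7900067, nat_lit 0x9f7cfa800067, nat_lit 0x9d6a57e00068, nat_lit 0x5e62aa20003c]⟩

set_option maxRecDepth 100000 in
theorem h23 : rchk Cd.ms p23 = true := by
  decide +kernel

/-- the row checks of this file -/
noncomputable def rs23 : List RP := [p23]

theorem R23 : RCk Cd.ms rs23 :=
  RCk.cons h23 RCk.nil

end Pool.Agent.Moser.Ck.Cr
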