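import Pool.Agent.Lib_MP_cc07e8_cd.Ds
import Pool.Agent.Lib_MP_cc07e8_ck.CkAsmDefs

/-! # MP_cc07e8_co: row checks of the explicit start, part 24 -/

namespace Pool.Agent.Moser.Ck.Cr

/-- row check 24 -/
noncomputable def p24 : RP := ⟨nat_lit 3, nat_lit 1, nat_lit 15, nat_lit 31, nat_lit 47954, nat_lit 52933, nat_lit 47968, nat_lit 0x279e7621ab9b44f, nat_lit 0x2bbb8a2b74796ae, nat_lit 0x2000000000000000000, nat_lit 0x1, nat_lit 36, nat_lit 36045, nat_lit 34896, nat_lit 36048, [nat_lit 0x153088a0000100057, nat_lit 0x16eefd80000100057, nat_lit 0x1751c190000100057, nat_lit 0x17a07c60000100057, nat_lit 0x14fc82b0000100058, nat_lit 0x16966be0000100058, nat_lit 0x17860e80000100058, nat_lit 0x159a74e0000100058, nat_lit 0x16486950000100058, nat_lit 0x165072f0000100059, nat_lit 0x16ad1850000100059, nat_lit 0x1518c260000100059, nat_lit 0x1687aa60000100059, nat_lit 0x152836b0000100008], nat_lit 34893, nat_lit 36045, [nat_lit 0x9ca870200068, nat_lit 0x9e92ad700068, nat_lit 0xa06648400069,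 nat_lit 0xa2d306500069, nat_lit 0x9ad0a6a00069, nat_lit 0xa9819910006a, nat_lit 0xa18b1a00006a, nat_lit 0xa4bd05f0006a, nat_lit 0xa02f23f0006b, nat_lit 0x9ee5d330006b, nat_lit 0x977c86d00061]⟩

set_option maxRecDepth 100000 in
theorem h24 : rchk Cd.ms p24 = true := by
  decide +kernel

/-- the row checks of this file -/
noncomputable def rs24 : List RP := [p24]

theorem R24 : RCk Cd.ms rs24 :=
  RCk.cons h24 RCk.nil

end Pool.Agent.Moser.Ck.Cr
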