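import Pool.Agent.Lib_MP_cc07e8_cd.Ds
import Pool.Agent.Lib_MP_cc07e8_ck.CkAsmDefs

/-! # MP_cc07e8_co: row checks of the explicit start, part 25 -/

namespace Pool.Agent.Moser.Ck.Cr

/-- row check 25 -/
noncomputable def p25 : RP := ⟨nat_lit 3, nat_lit 1, nat_lit 15, nat_lit 31, nat_lit 52870, nat_lit 57872, nat_lit 52879, nat_lit 0x243cde3d4af3e5a, nat_lit 0x27aa8c173403729, nat_lit 0x2000000000000000000, nat_lit 0x1, nat_lit 38, nat_lit 37133, nat_lit 36048, nat_lit 37136, [nat_lit 0x15cf746000010005a, nat_lit 0x14aac74000010005a, nat_lit 0x16c407f000010005a, nat_lit 0x14d1580000010005a, nat_lit 0x16d4c19000010005b, nat_lit 0x14008ef000010005b, nat_lit 0x14816cc000010005b, nat_lit 0x16966c2000010005b, nat_lit 0x16474a8000010005b, nat_lit 0x14dc939000010005c, nat_lit 0x162e57a000010005c, nat_lit 0x160b7140000100059], nat_lit 36045, nat_lit 37133, [nat_lit 0x99c336a0006c, nat_lit 0x9eaa6830006c, nat_lit 0xa1064e40006c, nat_lit 0x9f4c3860006d, nat_lit 0x9b953f00006d,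 nat_lit 0x9bc828f0006d, nat_lit 0x9ed68480006e, nat_lit 0xa091ee70006e, nat_lit 0xa67fbc10006e, nat_lit 0x959f2110006b]⟩

set_option maxRecDepth 100000 in
theorem h25 : rchk Cd.ms p25 = true := by
  decide +kernel

/-- the row checks of this file -/
noncomputable def rs25 : List RP := [p25]

theorem R25 : RCk Cd.ms rs25 :=
  RCk.cons h25 RCk.nil

end Pool.Agent.Moser.Ck.Cr
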