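import Pool.Agent.Lib_MP_cc07e8_cd.Ds
import Pool.Agent.Lib_MP_cc07e8_ck.CkAsmDefs

/-! # MP_cc07e8_co: row checks of the explicit start, part 26 -/

namespace Pool.Agent.Moser.Ck.Cr

/-- row check 26 -/
noncomputable def p26 : RP := ⟨nat_lit 3, nat_lit 1, nat_lit 15, nat_lit 31, nat_lit 57815, nat_lit 62951, nat_lit 57815, nat_lit 0x215064c9b8ec49f, nat_lit 0x244603a3c67d7ef, nat_lit 0x2000000000000000000, nat_lit 0x1, nat_lit 44, nat_lit 38189, nat_lit 37136, nat_lit 38192, [nat_lit 0x1630e7e000010005c, nat_lit 0x1413675000010005d, nat_lit 0x14af7f9000010005d, nat_lit 0x15cafd4000010005d, nat_lit 0x15874f7000010005d, nat_lit 0x145e98e000010005e, nat_lit 0x1576b55000010005e, nat_lit 0x15fa74e000010005e, nat_lit 0x13b7c0d000010005e, nat_lit 0x1452fa1000010005e, nat_lit 0x155c4c5000010005f, nat_lit 0x1371577000010001b], nat_lit 37133, nat_lit 38189, [nat_lit 0xa4408de0006f, nat_lit 0xa271df10006f, nat_lit 0xa22541900070, nat_lit 0xa484ffe00070, nat_lit 0xa2aaea100070,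 nat_lit 0xa5c990700071, nat_lit 0xa266d6000071, nat_lit 0xa42b9ff00071, nat_lit 0xaa650b900072, nat_lit 0x42376000002d]⟩

set_option maxRecDepth 100000 in
theorem h26 : rchk Cd.ms p26 = true := by
  decide +kernel

/-- the row checks of this file -/
noncomputable def rs26 : List RP := [p26]

theorem R26 : RCk Cd.ms rs26 :=
  RCk.cons h26 RCk.nil

end Pool.Agent.Moser.Ck.Cr
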