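import Pool.Agent.Lib_MP_cc07e8_cd.Ds
import Pool.Agent.Lib_MP_cc07e8_ck.CkAsmDefs

/-! # MP_cc07e8_co: row checks of the explicit start, part 27 -/

namespace Pool.Agent.Moser.Ck.Cr

/-- row check 27 -/
noncomputable def p27 : RP := ⟨nat_lit 3, nat_lit 1, nat_lit 15, nat_lit 31, nat_lit 62891, nat_lit 68069, nat_lit 62891, nat_lit 0x1ecf28467e7e674, nat_lit 0x215887b20230a06, nat_lit 0x2000000000000000000, nat_lit 0x1, nat_lit 46, nat_lit 39197, nat_lit 38192, nat_lit 39200, [nat_lit 0x14d56dc000010005f, nat_lit 0x1598f64000010005f, nat_lit 0x151e871000010005f, nat_lit 0x14c3a590000100060, nat_lit 0x14fcb140000100060, nat_lit 0x14e39b50000100060, nat_lit 0x14c55bc0000100060, nat_lit 0x147676b0000100061, nat_lit 0x147ec1d0000100061, nat_lit 0x14fff680000100061, nat_lit 0x155b36d0000100030], nat_lit 38189, nat_lit 39197, [nat_lit 0xa1a2e7600072, nat_lit 0xa6fa7bc00072, nat_lit 0x9af6f6f00073, nat_lit 0xab8c0fd00073, nat_lit 0xa63ecf400073, nat_lit 0xa34631200074, nat_lit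 0xa32eaaf00074, nat_lit 0x96ad45400074, nat_lit 0x7b27c6900057]⟩

set_option maxRecDepth 100000 in
theorem h27 : rchk Cd.ms p27 = true := by
  decide +kernel

/-- the row checks of this file -/
noncomputable def rs27 : List RP := [p27]

theorem R27 : RCk Cd.ms rs27 :=
  RCk.cons h27 RCk.nil

end Pool.Agent.Moser.Ck.Cr
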