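import Pool.Agent.Lib_MP_cc07e8_cd.Ds
import Pool.Agent.Lib_MP_cc07e8_ck.CkAsmDefs

/-! # MP_cc07e8_co: row checks of the explicit start, part 28 -/

namespace Pool.Agent.Moser.Ck.Cr

/-- row check 28 -/
noncomputable def p28 : RP := ⟨nat_lit 3, nat_lit 2, nat_lit 15, nat_lit 31, nat_lit 68005, nat_lit 73544, nat_lit 68005, nat_lit 0x1c83feff5c0905c, nat_lit 0x1ed6947a033eb43, nat_lit 0x2000000000000000000, nat_lit 0x1, nat_lit 51, nat_lit 40221, nat_lit 39200, nat_lit 40224, [nat_lit 0x14d55980000100062, nat_lit 0x14dcdfb0000100062, nat_lit 0x13daaab0000100062, nat_lit 0x13e42bb0000100062, nat_lit 0x11eaead0000100062, nat_lit 0x1474b330000100063, nat_lit 0x141fc940000100063, nat_lit 0x14f75f30000100063, nat_lit 0x14af46b0000100063, nat_lit 0x13c90980000100064, nat_lit 0x1369ebd0000100026], nat_lit 39197, nat_lit 40221, [nat_lit 0x9b177cb00075, nat_lit 0x968c69a00075, nat_lit 0x9fffa0f00076, nat_lit 0x99dc20e00076, nat_lit 0xa007c5b00077, nat_lit 0x960a83400077, nat_lit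 0x9cdc67a00077, nat_lit 0xa3d052300078, nat_lit 0x656742d0004d]⟩

set_option maxRecDepth 100000 in
theorem h28 : rchk Cd.ms p28 = true := by
  decide +kernel

/-- the row checks of this file -/
noncomputable def rs28 : List RP := [p28]

theorem R28 : RCk Cd.ms rs28 :=
  RCk.cons h28 RCk.nil

end Pool.Agent.Moser.Ck.Cr
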