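import Pool.Agent.Lib_MP_cc07e8_cd.Ds
import Pool.Agent.Lib_MP_cc07e8_ck.CkAsmDefs

/-! # MP_cc07e8_co: row checks of the explicit start, part 29 -/

namespace Pool.Agent.Moser.Ck.Cr

/-- row check 29 -/
noncomputable def p29 : RP := ⟨nat_lit 4, nat_lit 1, nat_lit 15, nat_lit 31, nat_lit 73477, nat_lit 79029, nat_lit 73477, nat_lit 0x1a89572fac4bc97, nat_lit 0x1c8aa70fd23bab1, nat_lit 0x2000000000000000000, nat_lit 0x1, nat_lit 54, nat_lit 41197, nat_lit 40224, nat_lit 41200, [nat_lit 0x1270f090000100064, nat_lit 0x12a13490000100064, nat_lit 0x13cde550000100065, nat_lit 0x142bb4a0000100065, nat_lit 0x12866040000100065, nat_lit 0x139226f0000100065, nat_lit 0x11d7dfb0000100066, nat_lit 0x12558910000100066, nat_lit 0x109c2170000100066, nat_lit 0x1558ca30000100042], nat_lit 40221, nat_lit 41197, [nat_lit 0x993a16900078, nat_lit 0xa77c01d00079, nat_lit 0xa20f6cf00079, nat_lit 0x9ce45ee00079, nat_lit 0x9fa80cd0007a, nat_lit 0x9994f4e0007a, nat_lit 0x9395e3c0007a, nat_lit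 0x9e09c260007b, nat_lit 0x669ce700004]⟩

set_option maxRecDepth 100000 in
theorem h29 : rchk Cd.ms p29 = true := by
  decide +kernel

/-- row check 30 -/
noncomputable def p30 : RP := ⟨nat_lit 4, nat_lit 1, nat_lit 15, nat_lit 31, nat_lit 78959, nat_lit 84491, nat_lit 78959, nat_lit 0x18d22dbedcef538, nat_lit 0x1a8f5cf4f0de636, nat_lit 0x2000000000000000000, nat_lit 0x1, nat_lit 58, nat_lit 42125, nat_lit 41200, nat_lit 42128, [nat_lit 0x12662450000100067, nat_lit 0x14211e30000100067, nat_lit 0x14752ff0000100067, nat_lit 0x135dc4e0000100067, nat_lit 0x12a684a0000100068, nat_lit 0x12b03610000100068, nat_lit 0x127d79b0000100068, nat_lit 0x1271b4c0000100068, nat_lit 0x12d2d050000100064], nat_lit 41197, nat_lit 42125, [nat_lit 0x93b26640007b, nat_lit 0xa0cde430007b, nat_lit 0xa127f290007c, nat_lit 0x9bfd0420007c, nat_lit 0xa0756600007d, nat_lit 0x9ef24bd0007d, nat_lit 0x9bd8f570007d, nat_lit 0x48580060003b]⟩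

set_option maxRecDepth 100000 in
theorem h30 : rchk Cd.ms p30 = true := by
  decide +kernel

/-- the row checks of this file -/
noncomputable def rs29 : List RP := [p29, p30]

theorem R29 : RCk Cd.ms rs29 :=
  RCk.cons h29 (RCk.cons h30 RCk.nil)

end Pool.Agent.Moser.Ck.Cr
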