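import Pool.Agent.Lib_MP_cc07e8_cd.Ds
import Pool.Agent.Lib_MP_cc07e8_ck.CkAsmDefs

/-! # MP_cc07e8_co: row checks of the explicit start, part 30 -/

namespace Pool.Agent.Moser.Ck.Cr

/-- row check 31 -/
noncomputable def p31 : RP := ⟨nat_lit 4, nat_lit 1, nat_lit 16, nat_lit 31, nat_lit 42193, nat_lit 46215, nat_lit 42208, nat_lit 0x16b067c8eabc09b, nat_lit 0x18da15c824d74b4, nat_lit 0x1000000000000000000, nat_lit 0x1, nat_lit 32, nat_lit 43405, nat_lit 42128, nat_lit 43408, [nat_lit 0x133e8ad0000100069, nat_lit 0x128e1ae0000100069, nat_lit 0x11f18520000100069, nat_lit 0x139d5de000010006a, nat_lit 0x134a28c000010006a, nat_lit 0x125cc08000010006a, nat_lit 0x1222f4d000010006a, nat_lit 0x132f694000010006b, nat_lit 0x12409cd000010006b, nat_lit 0x1323e06000010006b, nat_lit 0x129a1e2000010006b, nat_lit 0x1244743000010006c, nat_lit 0xfc7b020000100005], nat_lit 42125, nat_lit 43405, [nat_lit 0x9f38ea20007e, nat_lit 0xa021ea80007e, nat_lit 0xa008c780007f, nat_lit 0xa162a380007f,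 nat_lit 0x9e600da0007f, nat_lit 0x9f5d0bd00080, nat_lit 0xa01e4e400080, nat_lit 0xa03c26200081, nat_lit 0x9c7300800081, nat_lit 0xa04627100081, nat_lit 0x534c4600004]⟩

set_option maxRecDepth 100000 in
theorem h31 : rchk Cd.ms p31 = true := by
  decide +kernel

/-- row check 32 -/
noncomputable def p32 : RP := ⟨nat_lit 4, nat_lit 1, nat_lit 16, nat_lit 31, nat_lit 46175, nat_lit 50317, nat_lit 46175, nat_lit 0x14d6e2cd2b1928a, nat_lit 0x16b56fe2d0d3358, nat_lit 0x1000000000000000000, nat_lit 0x1, nat_lit 30, nat_lit 44653, nat_lit 43408, nat_lit 44656, [nat_lit 0x129d9cf000010006c, nat_lit 0x10f1d79000010006c, nat_lit 0x12a5902000010006d, nat_lit 0x11bb590000010006d, nat_lit 0x11182cb000010006d, nat_lit 0x110a7cb000010006d, nat_lit 0x10ea90a000010006e, nat_lit 0xfe5bba000010006e, nat_lit 0x1275b4d000010006e, nat_lit 0x1215c33000010006e, nat_lit 0x11f408c000010006f, nat_lit 0xf44186000010002d], nat_lit 43405, nat_lit 44653, [nat_lit 0x9cfe28500082, nat_lit 0xa2d0f7f00082,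 nat_lit 0xa550f2800082, nat_lit 0x9f48d3600083, nat_lit 0x9b7818800083, nat_lit 0x9ca435100084, nat_lit 0x9fee7ca00084, nat_lit 0x9d917a800084, nat_lit 0x9ad422000085, nat_lit 0x4d46e0600043]⟩

set_option maxRecDepth 100000 in
theorem h32 : rchk Cd.ms p32 = true := by
  decide +kernel

/-- the row checks of this file -/
noncomputable def rs30 : List RP := [p31, p32]

theorem R30 : RCk Cd.ms rs30 :=
  RCk.cons h31 (RCk.cons h32 RCk.nil)

end Pool.Agent.Moser.Ck.Cr
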