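import Pool.Agent.Lib_MP_cc07e8_cd.Ds
import Pool.Agent.Lib_MP_cc07e8_ck.CkAsmDefs

/-! # MP_cc07e8_co: row checks of the explicit start, part 31 -/

namespace Pool.Agent.Moser.Ck.Cr

/-- row check 33 -/
noncomputable def p33 : RP := ⟨nat_lit 4, nat_lit 1, nat_lit 16, nat_lit 31, nat_lit 50275, nat_lit 54540, nat_lit 50275, nat_lit 0x1339cf126184b8d, nat_lit 0x14db57bd7a6aa82, nat_lit 0x1000000000000000000, nat_lit 0x1, nat_lit 36, nat_lit 45869, nat_lit 44656, nat_lit 45872, [nat_lit 0x10f8fab000010006f, nat_lit 0x10d8992000010006f, nat_lit 0x120489d0000100070, nat_lit 0x11a5e350000100070, nat_lit 0x114a2720000100070, nat_lit 0x1019c180000100071, nat_lit 0xff48110000100071, nat_lit 0x11230ec0000100071, nat_lit 0x1116bcc0000100071, nat_lit 0xfdd4470000100072, nat_lit 0xfeedb5000010005c], nat_lit 44653, nat_lit 45869, [nat_lit 0x9addc7f00085, nat_lit 0x9afc88a00086, nat_lit 0x993c0e300086, nat_lit 0x9a4577800087, nat_lit 0x97bd1bb00087, nat_lit 0x9f09a4d00087, nat_lit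 0x99454ec00088, nat_lit 0x9ca059e00088, nat_lit 0x99652a000089, nat_lit 0x16068b00001]⟩

set_option maxRecDepth 100000 in
theorem h33 : rchk Cd.ms p33 = true := by
  decide +kernel

/-- row check 34 -/
noncomputable def p34 : RP := ⟨nat_lit 4, nat_lit 1, nat_lit 16, nat_lit 31, nat_lit 54486, nat_lit 58874, nat_lit 54497, nat_lit 0x11cf7d9f1a6950a, nat_lit 0x133eafd0f0b6131, nat_lit 0x1000000000000000000, nat_lit 0x1, nat_lit 39, nat_lit 47053, nat_lit 45872, nat_lit 47056, [nat_lit 0x113d8ba0000100072, nat_lit 0x10571fa0000100072, nat_lit 0xfe2e4f0000100073, nat_lit 0xfd0a140000100073, nat_lit 0x10284910000100073, nat_lit 0xf9795e0000100074, nat_lit 0x1132d1e0000100074, nat_lit 0x101b1f50000100074, nat_lit 0x1073dfd0000100074, nat_lit 0x11def7b0000100075, nat_lit 0xed67ad000010001e], nat_lit 45869, nat_lit 47053, [nat_lit 0x979dff100089, nat_lit 0x9a7eefa0008a, nat_lit 0x92cb3440008a, nat_lit 0x9a9e2d90008a, nat_lit 0x95c4b7f0008b, nat_lit 0x9b35b390008b, nat_lit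 0x97450690008c, nat_lit 0x98303b10008c, nat_lit 0x53bab550004b]⟩

set_option maxRecDepth 100000 in
theorem h34 : rchk Cd.ms p34 = true := by
  decide +kernel

/-- the row checks of this file -/
noncomputable def rs31 : List RP := [p33, p34]

theorem R31 : RCk Cd.ms rs31 :=
  RCk.cons h33 (RCk.cons h34 RCk.nil)

end Pool.Agent.Moser.Ck.Cr
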