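import Pool.Agent.Lib_MP_cc07e8_cd.Ds
import Pool.Agent.Lib_MP_cc07e8_ck.CkAsmDefs

/-! # MP_cc07e8_co: row checks of the explicit start, part 32 -/

namespace Pool.Agent.Moser.Ck.Cr

/-- row check 35 -/
noncomputable def p35 : RP := ⟨nat_lit 4, nat_lit 1, nat_lit 16, nat_lit 31, nat_lit 58828, nat_lit 63431, nat_lit 58828, nat_lit 0x1087edb17845f74, nat_lit 0x11d30e5360c3830, nat_lit 0x1000000000000000000, nat_lit 0x1, nat_lit 42, nat_lit 48237, nat_lit 47056, nat_lit 48240, [nat_lit 0xfd43a30000100075, nat_lit 0xef5a5e0000100075, nat_lit 0x10981c90000100076, nat_lit 0x10688240000100076, nat_lit 0xf29ae30000100076, nat_lit 0xeefc220000100077, nat_lit 0x100f4230000100077, nat_lit 0xea857a0000100077, nat_lit 0xf9a4510000100078, nat_lit 0x10e7ab00000100077], nat_lit 47053, nat_lit 48237, [nat_lit 0x965b5830008d, nat_lit 0x980e1a80008d, nat_lit 0x964a0c20008e, nat_lit 0x98782f00008e, nat_lit 0x95247cd0008e, nat_lit 0x95b63c20008f, nat_lit 0x95b0f430008f, nat_lit 0x8d740d100090,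 nat_lit 0x329f9670002e]⟩

set_option maxRecDepth 100000 in
theorem h35 : rchk Cd.ms p35 = true := by
  decide +kernel

/-- row check 36 -/
noncomputable def p36 : RP := ⟨nat_lit 4, nat_lit 1, nat_lit 16, nat_lit 31, nat_lit 63350, nat_lit 67820, nat_lit 63383, nat_lit 0xf760eb4cafcf71, nat_lit 0x108d56e819ed652, nat_lit 0x1000000000000000000, nat_lit 0x1, nat_lit 41, nat_lit 49325, nat_lit 48240, nat_lit 49328, [nat_lit 0x104c3eb0000100078, nat_lit 0xf6ec850000100078, nat_lit 0xf1a6690000100079, nat_lit 0x10296940000100079, nat_lit 0xfa88e00000100079, nat_lit 0xe2b7b4000010007a, nat_lit 0xea6545000010007a, nat_lit 0xf7ee91000010007a, nat_lit 0xe473410000100077], nat_lit 48237, nat_lit 49325, [nat_lit 0x99a317b00090, nat_lit 0x9ceefd700091, nat_lit 0x993a6fb00091, nat_lit 0x99f717f00092, nat_lit 0x966dcd200092, nat_lit 0x96aa22700092, nat_lit 0x9afd55100093, nat_lit 0x478563200045]⟩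

set_option maxRecDepth 100000 in
theorem h36 : rchk Cd.ms p36 = true := by
  decide +kernel

/-- the row checks of this file -/
noncomputable def rs32 : List RP := [p35, p36]

theorem R32 : RCk Cd.ms rs32 :=
  RCk.cons h35 (RCk.cons h36 RCk.nil)

end Pool.Agent.Moser.Ck.Cr
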