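import Pool.Agent.Lib_MP_cc07e8_cd.Ds
import Pool.Agent.Lib_MP_cc07e8_ck.CkAsmDefs

/-! # MP_cc07e8_co: row checks of the explicit start, part 33 -/

namespace Pool.Agent.Moser.Ck.Cr

/-- row check 37 -/
noncomputable def p37 : RP := ⟨nat_lit 4, nat_lit 1, nat_lit 16, nat_lit 31, nat_lit 67761, nat_lit 72270, nat_lit 67770, nat_lit 0xe825768bb16b11, nat_lit 0xf7980f624ab4b3, nat_lit 0x1000000000000000000, nat_lit 0x1, nat_lit 47, nat_lit 50381, nat_lit 49328, nat_lit 50384, [nat_lit 0xf8cbf7000010007b, nat_lit 0xf46b06000010007b, nat_lit 0xf86df4000010007b, nat_lit 0x10b13a0000010007c, nat_lit 0xe76a57000010007c, nat_lit 0xedf1ca000010007c, nat_lit 0xe71f35000010007d, nat_lit 0xeb393a000010007d, nat_lit 0xfa5b960000100041], nat_lit 49325, nat_lit 50381, [nat_lit 0x9707c4a00093, nat_lit 0x9c50d6b00094, nat_lit 0x9a212d300094, nat_lit 0x99e915f00095, nat_lit 0x9674da500095, nat_lit 0x94da76a00096, nat_lit 0x96a903900096, nat_lit 0x100d9030000f]⟩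

set_option maxRecDepth 100000 in
theorem h37 : rchk Cd.ms p37 = true := by
  decide +kernel

/-- row check 38 -/
noncomputable def p38 : RP := ⟨nat_lit 4, nat_lit 1, nat_lit 16, nat_lit 31, nat_lit 72218, nat_lit 76911, nat_lit 72218, nat_lit 0xda23579de00a1e, nat_lit 0xe8504139885007, nat_lit 0x1000000000000000000, nat_lit 0x1, nat_lit 51, nat_lit 51437, nat_lit 50384, nat_lit 51440, [nat_lit 0xe6cea8000010007d, nat_lit 0xe64053000010007e, nat_lit 0xdec28c000010007e, nat_lit 0xec2b5e000010007e, nat_lit 0xf94cae000010007f, nat_lit 0xe1dde3000010007f, nat_lit 0xd1b7be000010007f, nat_lit 0xeb72310000100080, nat_lit 0xd45b3d000010002c], nat_lit 50381, nat_lit 51437, [nat_lit 0x958d9e900097, nat_lit 0x9317e1000097, nat_lit 0x977eb2400098, nat_lit 0x9b0dd2600098, nat_lit 0x9521f5e00098, nat_lit 0x9244fac00099, nat_lit 0x8d6a66600091]⟩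

set_option maxRecDepth 100000 in
theorem h38 : rchk Cd.ms p38 = true := by
  decide +kernel

/-- the row checks of this file -/
noncomputable def rs33 : List RP := [p37, p38]

theorem R33 : RCk Cd.ms rs33 :=
  RCk.cons h37 (RCk.cons h38 RCk.nil)

end Pool.Agent.Moser.Ck.Cr
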