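import Pool.Agent.Lib_MP_cc07e8_cd.Ds
import Pool.Agent.Lib_MP_cc07e8_ck.CkAsmDefs

/-! # MP_cc07e8_co: row checks of the explicit start, part 34 -/

namespace Pool.Agent.Moser.Ck.Cr

/-- row check 39 -/
noncomputable def p39 : RP := ⟨nat_lit 4, nat_lit 1, nat_lit 16, nat_lit 30, nat_lit 76848, nat_lit 81596, nat_lit 76856, nat_lit 0xcd9cfbbee47a88, nat_lit 0xda511f64ca53ae, nat_lit 0x1000000000000000000, nat_lit 0x1, nat_lit 54, nat_lit 52461, nat_lit 51440, nat_lit 52464, [nat_lit 0xf4ba2b0000100080, nat_lit 0xd106830000100080, nat_lit 0xe489650000100081, nat_lit 0xf38b8d0000100081, nat_lit 0xdf1f480000100081, nat_lit 0xe75dc80000100082, nat_lit 0xe80f4c0000100082, nat_lit 0xe1187d0000100079], nat_lit 51437, nat_lit 52461, [nat_lit 0x9a562af0009a, nat_lit 0x9298e6c0009a, nat_lit 0x9591d8c0009b, nat_lit 0x97828650009b, nat_lit 0x973b4070009c, nat_lit 0x928aa4e0009c, nat_lit 0x5bb49580005e]⟩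

set_option maxRecDepth 100000 in
theorem h39 : rchk Cd.ms p39 = true := by
  decide +kernel

/-- row check 40 -/
noncomputable def p40 : RP := ⟨nat_lit 4, nat_lit 1, nat_lit 16, nat_lit 30, nat_lit 81539, nat_lit 86390, nat_lit 81539, nat_lit 0xc2340617b1d0ee, nat_lit 0xcdc1c784c07525, nat_lit 0x1000000000000000000, nat_lit 0x1, nat_lit 58, nat_lit 53469, nat_lit 52464, nat_lit 53472, [nat_lit 0xf0b8bd0000100083, nat_lit 0xd62bda0000100083, nat_lit 0xdc139e0000100083, nat_lit 0xdab6500000100084, nat_lit 0xdaef5d0000100084, nat_lit 0xcf9b3d0000100084, nat_lit 0xd958580000100085, nat_lit 0xdbedca0000100056], nat_lit 52461, nat_lit 53469, [nat_lit 0x974a5540009d, nat_lit 0x94060be0009d, nat_lit 0x9792b810009e, nat_lit 0x9375acf0009e, nat_lit 0x93445640009f, nat_lit 0x936c07f0009f, nat_lit 0x35f51f90003c]⟩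

set_option maxRecDepth 100000 in
theorem h40 : rchk Cd.ms p40 = true := by
  decide +kernel

/-- the row checks of this file -/
noncomputable def rs34 : List RP := [p39, p40]

theorem R34 : RCk Cd.ms rs34 :=
  RCk.cons h39 (RCk.cons h40 RCk.nil)

end Pool.Agent.Moser.Ck.Cr
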