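import Pool.Agent.Lib_MP_cc07e8_cd.Ds
import Pool.Agent.Lib_MP_cc07e8_ck.CkAsmDefs

/-! # MP_cc07e8_co: row checks of the explicit start, part 35 -/

namespace Pool.Agent.Moser.Ck.Cr

/-- row check 41 -/
noncomputable def p41 : RP := ⟨nat_lit 4, nat_lit 1, nat_lit 16, nat_lit 30, nat_lit 86314, nat_lit 91208, nat_lit 86331, nat_lit 0xb7f1cf1845e09b, nat_lit 0xc25fcc8f259d1d, nat_lit 0x1000000000000000000, nat_lit 0x1, nat_lit 59, nat_lit 54445, nat_lit 53472, nat_lit 54448, [nat_lit 0xe3c8980000100085, nat_lit 0xdc3c5a0000100086, nat_lit 0xcdf3440000100086, nat_lit 0xd173d70000100086, nat_lit 0xd434d70000100087, nat_lit 0xcbd06e0000100087, nat_lit 0xd049b30000100087, nat_lit 0xcecdac0000100024], nat_lit 53469, nat_lit 54445, [nat_lit 0x96824f9000a0, nat_lit 0x94d1f0d000a0, nat_lit 0x935053e000a1, nat_lit 0x934fc68000a1, nat_lit 0x93eecae000a2, nat_lit 0x940a304000a2, nat_lit 0x97bec30000a]⟩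

set_option maxRecDepth 100000 in
theorem h41 : rchk Cd.ms p41 = true := by
  decide +kernel

/-- row check 42 -/
noncomputable def p42 : RP := ⟨nat_lit 4, nat_lit 1, nat_lit 16, nat_lit 30, nat_lit 91126, nat_lit 96118, nat_lit 91147, nat_lit 0xae8c51750ba397, nat_lit 0xb81c2ed06a874e, nat_lit 0x1000000000000000000, nat_lit 0x1, nat_lit 64, nat_lit 55405, nat_lit 54448, nat_lit 55408, [nat_lit 0xcd194a0000100088, nat_lit 0xd3c10c0000100088, nat_lit 0xdc03760000100088, nat_lit 0xdcb2ec0000100089, nat_lit 0xd96b410000100089, nat_lit 0xd851220000100089, nat_lit 0xd63861000010008a, nat_lit 0xa4a3b00000100003], nat_lit 54445, nat_lit 55405, [nat_lit 0x93bdd9e000a3, nat_lit 0x9400853000a3, nat_lit 0x913381b000a4, nat_lit 0x92a29f5000a4, nat_lit 0x93c850b000a5, nat_lit 0x7a8f5b80008d]⟩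

set_option maxRecDepth 100000 in
theorem h42 : rchk Cd.ms p42 = true := by
  decide +kernel

/-- the row checks of this file -/
noncomputable def rs35 : List RP := [p41, p42]

theorem R35 : RCk Cd.ms rs35 :=
  RCk.cons h41 (RCk.cons h42 RCk.nil)

end Pool.Agent.Moser.Ck.Cr
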