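import Pool.Agent.Lib_MP_cc07e8_cd.Ds
import Pool.Agent.Lib_MP_cc07e8_ck.CkAsmDefs

/-! # MP_cc07e8_co: row checks of the explicit start, part 36 -/

namespace Pool.Agent.Moser.Ck.Cr

/-- row check 43 -/
noncomputable def p43 : RP := ⟨nat_lit 4, nat_lit 1, nat_lit 16, nat_lit 30, nat_lit 96052, nat_lit 101115, nat_lit 96055, nat_lit 0xa5ec1099297912, nat_lit 0xaeab05a3bd9a9d, nat_lit 0x1000000000000000000, nat_lit 0x1, nat_lit 59, nat_lit 56349, nat_lit 55408, nat_lit 56352, [nat_lit 0xdc9e3f000010008a, nat_lit 0xcac6a2000010008a, nat_lit 0xc42757000010008b, nat_lit 0xd68a3b000010008b, nat_lit 0xce4eb1000010008b, nat_lit 0xc77426000010008c, nat_lit 0xc287f4000010006f], nat_lit 55405, nat_lit 56349, [nat_lit 0x955f072000a6, nat_lit 0x8f5c704000a6, nat_lit 0x92f07ba000a7, nat_lit 0x9230662000a7, nat_lit 0x93b8195000a8, nat_lit 0x6183d710006e]⟩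

set_option maxRecDepth 100000 in
theorem h43 : rchk Cd.ms p43 = true := by
  decide +kernel

/-- the row checks of this file -/
noncomputable def rs36 : List RP := [p43]

theorem R36 : RCk Cd.ms rs36 :=
  RCk.cons h43 RCk.nil

end Pool.Agent.Moser.Ck.Cr
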