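import Pool.Agent.Lib_MP_cc07e8_cd.Ds
import Pool.Agent.Lib_MP_cc07e8_ck.CkAsmDefs

/-! # MP_cc07e8_co: row checks of the explicit start, part 37 -/

namespace Pool.Agent.Moser.Ck.Cr

/-- row check 44 -/
noncomputable def p44 : RP := ⟨nat_lit 4, nat_lit 2, nat_lit 16, nat_lit 30, nat_lit 101050, nat_lit 106105, nat_lit 101050, nat_lit 0x9e1e767a6f6289, nat_lit 0xa607632c25a2dc, nat_lit 0x1000000000000000000, nat_lit 0x1, nat_lit 71, nat_lit 57261, nat_lit 56352, nat_lit 57264, [nat_lit 0xd26120000010008c, nat_lit 0xc5f718000010008d, nat_lit 0xc43d7e000010008d, nat_lit 0xbbd4da000010008d, nat_lit 0xc907bf000010008e, nat_lit 0xcffdef000010008e, nat_lit 0xc1d5380000100041], nat_lit 56349, nat_lit 57261, [nat_lit 0x9534c4d000a9, nat_lit 0x8e7e19e000a9, nat_lit 0x90aeca3000aa, nat_lit 0x951799f000aa, nat_lit 0x91c77ff000ab, nat_lit 0x34973fe0003f]⟩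

set_option maxRecDepth 100000 in
theorem h44 : rchk Cd.ms p44 = true := by
  decide +kernel

/-- row check 45 -/
noncomputable def p45 : RP := ⟨nat_lit 5, nat_lit 1, nat_lit 16, nat_lit 30, nat_lit 106037, nat_lit 111072, nat_lit 106037, nat_lit 0x970c51211d9349, nat_lit 0x9e386bcaa02f83, nat_lit 0x1000000000000000000, nat_lit 0x1, nat_lit 77, nat_lit 58141, nat_lit 57264, nat_lit 58144, [nat_lit 0xc01969000010008f, nat_lit 0xc9e846000010008f, nat_lit 0xc29350000010008f, nat_lit 0xc92b530000100090, nat_lit 0xc4a69b0000100090, nat_lit 0xd7ed0c0000100090, nat_lit 0xca99da0000100013], nat_lit 57261, nat_lit 58141, [nat_lit 0x9067923000ab, nat_lit 0x97f14cf000ac, nat_lit 0x8e85e09000ac, nat_lit 0x94a88a4000ad, nat_lit 0x91f2890000ad, nat_lit 0x120451300013]⟩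

set_option maxRecDepth 100000 in
theorem h45 : rchk Cd.ms p45 = true := by
  decide +kernel

/-- the row checks of this file -/
noncomputable def rs37 : List RP := [p44, p45]

theorem R37 : RCk Cd.ms rs37 :=
  RCk.cons h44 (RCk.cons h45 RCk.nil)

end Pool.Agent.Moser.Ck.Cr
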