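import Pool.Agent.Lib_MP_cc07e8_cd.Ds
import Pool.Agent.Lib_MP_cc07e8_ck.CkAsmDefs

/-! # MP_cc07e8_co: row checks of the explicit start, part 38 -/

namespace Pool.Agent.Moser.Ck.Cr

/-- row check 46 -/
noncomputable def p46 : RP := ⟨nat_lit 5, nat_lit 1, nat_lit 16, nat_lit 30, nat_lit 110985, nat_lit 116192, nat_lit 111003, nat_lit 0x906465cec9c84d, nat_lit 0x972aa0ec6b4b6d, nat_lit 0x1000000000000000000, nat_lit 0x1, nat_lit 67, nat_lit 59021, nat_lit 58144, nat_lit 59024, [nat_lit 0xbf03100000100091, nat_lit 0xcb18f20000100091, nat_lit 0xc643240000100092, nat_lit 0xc75ce40000100092, nat_lit 0xb96c390000100092, nat_lit 0xb785a70000100093, nat_lit 0xa955330000100005], nat_lit 58141, nat_lit 59021, [nat_lit 0x8b25f82000ae, nat_lit 0x8cce1b7000ae, nat_lit 0x8ecb787000af, nat_lit 0x9064946000af, nat_lit 0x8e066c8000b0, nat_lit 0x5ff0d900006]⟩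

set_option maxRecDepth 100000 in
theorem h46 : rchk Cd.ms p46 = true := by
  decide +kernel

/-- row check 47 -/
noncomputable def p47 : RP := ⟨nat_lit 5, nat_lit 1, nat_lit 16, nat_lit 30, nat_lit 116121, nat_lit 121468, nat_lit 116121, nat_lit 0x8a1ed672910430, nat_lit 0x907affb6110f25, nat_lit 0x1000000000000000000, nat_lit 0x1, nat_lit 76, nat_lit 59901, nat_lit 59024, nat_lit 59904, [nat_lit 0xb828440000100093, nat_lit 0xcadd990000100093, nat_lit 0xb350e20000100094, nat_lit 0xc4618a0000100094, nat_lit 0xae87810000100095, nat_lit 0xb84d6d000010008d], nat_lit 59021, nat_lit 59901, [nat_lit 0x8ea7188000b1, nat_lit 0x8f38c6d000b1, nat_lit 0x9245412000b2, nat_lit 0x8b86c81000b2, nat_lit 0x8501140000aa]⟩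

set_option maxRecDepth 100000 in
theorem h47 : rchk Cd.ms p47 = true := by
  decide +kernel

/-- the row checks of this file -/
noncomputable def rs38 : List RP := [p46, p47]

theorem R38 : RCk Cd.ms rs38 :=
  RCk.cons h46 (RCk.cons h47 RCk.nil)

end Pool.Agent.Moser.Ck.Cr
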