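import Pool.Agent.Lib_MP_cc07e8_cd.Ds
import Pool.Agent.Lib_MP_cc07e8_ck.CkAsmDefs

/-! # MP_cc07e8_co: row checks of the explicit start, part 39 -/

namespace Pool.Agent.Moser.Ck.Cr

/-- row check 48 -/
noncomputable def p48 : RP := ⟨nat_lit 5, nat_lit 1, nat_lit 17, nat_lit 30, nat_lit 60690, nat_lit 64508, nat_lit 60697, nat_lit 0x820a30ec7587f5, nat_lit 0x8a387902b0f17b, nat_lit 0x800000000000000000, nat_lit 0x1, nat_lit 40, nat_lit 61117, nat_lit 59904, nat_lit 61120, [nat_lit 0xc1e7e20000100095, nat_lit 0xb8c64d0000100096, nat_lit 0xb925180000100096, nat_lit 0xbcae3f0000100096, nat_lit 0xb241790000100097, nat_lit 0xb276bd0000100097, nat_lit 0xb0c2ab0000100098, nat_lit 0xc66e220000100098, nat_lit 0xa819e0000010000b], nat_lit 59901, nat_lit 61117, [nat_lit 0x911e06f000b3, nat_lit 0x8de2054000b4, nat_lit 0x8a56494000b4, nat_lit 0x8c03001000b5, nat_lit 0x8c6ac77000b5, nat_lit 0x8991940000b6, nat_lit 0x663bdc000085]⟩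

set_option maxRecDepth 100000 in
theorem h48 : rchk Cd.ms p48 = true := by
  decide +kernel

/-- row check 49 -/
noncomputable def p49 : RP := ⟨nat_lit 5, nat_lit 1, nat_lit 17, nat_lit 30, nat_lit 64469, nat_lit 68436, nat_lit 64469, nat_lit 0x7a9371bb9e9f1d, nat_lit 0x821e5469d51b38, nat_lit 0x800000000000000000, nat_lit 0x1, nat_lit 44, nat_lit 62333, nat_lit 61120, nat_lit 62336, [nat_lit 0xb6ac980000100098, nat_lit 0xb295a70000100099, nat_lit 0xb0ab460000100099, nat_lit 0xa8d69c0000100098, nat_lit 0xaba8ee000010009a, nat_lit 0xb9e32e000010009a, nat_lit 0xb8cfc0000010009b, nat_lit 0xb15862000010008f], nat_lit 61117, nat_lit 62333, [nat_lit 0x8e12530000b7, nat_lit 0x8b5addc000b7, nat_lit 0x865e962000b8, nat_lit 0x861b28b000b9, nat_lit 0x889d6e7000b9, nat_lit 0x916b3eb000ba, nat_lit 0x4f1df560006e]⟩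

set_option maxRecDepth 100000 in
theorem h49 : rchk Cd.ms p49 = true := by
  decide +kernel

/-- the row checks of this file -/
noncomputable def rs39 : List RP := [p48, p49]

theorem R39 : RCk Cd.ms rs39 :=
  RCk.cons h48 (RCk.cons h49 RCk.nil)

end Pool.Agent.Moser.Ck.Cr
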