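import Pool.Agent.Lib_MP_cc07e8_cd.Ds
import Pool.Agent.Lib_MP_cc07e8_ck.CkAsmDefs

/-! # MP_cc07e8_co: row checks of the explicit start, part 40 -/

namespace Pool.Agent.Moser.Ck.Cr

/-- row check 50 -/
noncomputable def p50 : RP := ⟨nat_lit 5, nat_lit 1, nat_lit 17, nat_lit 30, nat_lit 68371, nat_lit 72410, nat_lit 68395, nat_lit 0x73d947b0f9e978, nat_lit 0x7ab146ccf0751e, nat_lit 0x800000000000000000, nat_lit 0x1, nat_lit 44, nat_lit 63517, nat_lit 62336, nat_lit 63520, [nat_lit 0xaa659a000010009b, nat_lit 0xad6272000010009c, nat_lit 0xa2c1ee000010009c, nat_lit 0xad3619000010009d, nat_lit 0xb13a9d000010009d, nat_lit 0xa90bd6000010009d, nat_lit 0xa3fd96000010009e, nat_lit 0xa5f6da0000100058], nat_lit 62321, nat_lit 62321, []⟩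

set_option maxRecDepth 100000 in
theorem h50 : rchk Cd.ms p50 = true := by
  decide +kernel

/-- row check 51 -/
noncomputable def p51 : RP := ⟨nat_lit 5, nat_lit 1, nat_lit 17, nat_lit 30, nat_lit 72355, nat_lit 76422, nat_lit 72368, nat_lit 0x6dc4553f097404, nat_lit 0x73efd2e1cb8ee1, nat_lit 0x800000000000000000, nat_lit 0x1, nat_lit 44, nat_lit 64669, nat_lit 63520, nat_lit 64672, [nat_lit 0xb41657000010009e, nat_lit 0xb1430e000010009f, nat_lit 0xa7d752000010009f, nat_lit 0xa03ca2000010009f, nat_lit 0xa6561000001000a0, nat_lit 0xb458f400001000a0, nat_lit 0xaabfef00001000a1, nat_lit 0xa4a1790000100024], nat_lit 63505, nat_lit 63505, []⟩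

set_option maxRecDepth 100000 in
theorem h51 : rchk Cd.ms p51 = true := by
  decide +kernel

/-- the row checks of this file -/
noncomputable def rs40 : List RP := [p50, p51]

theorem R40 : RCk Cd.ms rs40 :=
  RCk.cons h50 (RCk.cons h51 RCk.nil)

end Pool.Agent.Moser.Ck.Cr
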