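import Pool.Agent.Lib_MP_cc07e8_cd.Ds
import Pool.Agent.Lib_MP_cc07e8_ck.CkAsmDefs

/-! # MP_cc07e8_co: row checks of the explicit start, part 41 -/

namespace Pool.Agent.Moser.Ck.Cr

/-- row check 52 -/
noncomputable def p52 : RP := ⟨nat_lit 5, nat_lit 1, nat_lit 17, nat_lit 30, nat_lit 76351, nat_lit 80462, nat_lit 76378, nat_lit 0x68416a0b2940c2, nat_lit 0x6dde76c4876b1a, nat_lit 0x800000000000000000, nat_lit 0x1, nat_lit 53, nat_lit 65789, nat_lit 64672, nat_lit 65792, [nat_lit 0xb0ff9c00001000a1, nat_lit 0xa38e8600001000a2, nat_lit 0xa9903800001000a2, nat_lit 0xa9016600001000a2, nat_lit 0xa5a84500001000a3, nat_lit 0xab392c00001000a3, nat_lit 0xa8920c0000100093], nat_lit 64657, nat_lit 64657, []⟩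

set_option maxRecDepth 100000 in
theorem h52 : rchk Cd.ms p52 = true := by
  decide +kernel

/-- row check 53 -/
noncomputable def p53 : RP := ⟨nat_lit 5, nat_lit 1, nat_lit 17, nat_lit 30, nat_lit 80408, nat_lit 84520, nat_lit 80417, nat_lit 0x633ffe73000633, nat_lit 0x68535692a82753, nat_lit 0x800000000000000000, nat_lit 0x1, nat_lit 58, nat_lit 66877, nat_lit 65792, nat_lit 66880, [nat_lit 0xa28ef400001000a4, nat_lit 0xa4e6ed00001000a4, nat_lit 0xa2bff100001000a5, nat_lit 0xa46d2b00001000a5, nat_lit 0xa9cbc000001000a6, nat_lit 0xa6a60900001000a6, nat_lit 0xa9c1670000100062], nat_lit 65777, nat_lit 65777, []⟩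

set_option maxRecDepth 100000 in
theorem h53 : rchk Cd.ms p53 = true := by
  decide +kernel

/-- the row checks of this file -/
noncomputable def rs41 : List RP := [p52, p53]

theorem R41 : RCk Cd.ms rs41 :=
  RCk.cons h52 (RCk.cons h53 RCk.nil)

end Pool.Agent.Moser.Ck.Cr
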