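import Pool.Agent.Lib_MP_cc07e8_cd.Ds
import Pool.Agent.Lib_MP_cc07e8_ck.CkAsmDefs

/-! # MP_cc07e8_co: row checks of the explicit start, part 42 -/

namespace Pool.Agent.Moser.Ck.Cr

/-- row check 54 -/
noncomputable def p54 : RP := ⟨nat_lit 5, nat_lit 1, nat_lit 17, nat_lit 30, nat_lit 84439, nat_lit 88587, nat_lit 84473, nat_lit 0x5eb185745bbeee, nat_lit 0x63585dfc2969fe, nat_lit 0x800000000000000000, nat_lit 0x1, nat_lit 51, nat_lit 67933, nat_lit 66880, nat_lit 67936, [nat_lit 0xa68c6600001000a7, nat_lit 0xa34c1300001000a7, nat_lit 0xa54a2400001000a8, nat_lit 0xa4686d00001000a8, nat_lit 0x9f2f9300001000a8, nat_lit 0x9b067a00001000a9, nat_lit 0x9152210000100031], nat_lit 66865, nat_lit 66865, []⟩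

set_option maxRecDepth 100000 in
theorem h54 : rchk Cd.ms p54 = true := by
  decide +kernel

/-- row check 55 -/
noncomputable def p55 : RP := ⟨nat_lit 5, nat_lit 1, nat_lit 17, nat_lit 30, nat_lit 88527, nat_lit 92783, nat_lit 88539, nat_lit 0x5a693a40e0caa1, nat_lit 0x5ec1f383692d3a, nat_lit 0x800000000000000000, nat_lit 0x1, nat_lit 64, nat_lit 68989, nat_lit 67936, nat_lit 68992, [nat_lit 0xa1560300001000a9, nat_lit 0x9eaebe00001000aa, nat_lit 0xa47b9f00001000aa, nat_lit 0x9cd5b100001000ab, nat_lit 0xa1711100001000ab, nat_lit 0x9b674b00001000ab, nat_lit 0x94857d0000100022], nat_lit 67921, nat_lit 67921, []⟩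

set_option maxRecDepth 100000 in
theorem h55 : rchk Cd.ms p55 = true := by
  decide +kernel

/-- the row checks of this file -/
noncomputable def rs42 : List RP := [p54, p55]

theorem R42 : RCk Cd.ms rs42 :=
  RCk.cons h54 (RCk.cons h55 RCk.nil)

end Pool.Agent.Moser.Ck.Cr
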