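import Pool.Agent.Lib_MP_cc07e8_cd.Ds
import Pool.Agent.Lib_MP_cc07e8_ck.CkAsmDefs

/-! # MP_cc07e8_co: row checks of the explicit start, part 43 -/

namespace Pool.Agent.Moser.Ck.Cr

/-- row check 56 -/
noncomputable def p56 : RP := ⟨nat_lit 5, nat_lit 1, nat_lit 17, nat_lit 30, nat_lit 92722, nat_lit 96976, nat_lit 92734, nat_lit 0x56807c58b2bf80, nat_lit 0x5a7874501c897e, nat_lit 0x800000000000000000, nat_lit 0x1, nat_lit 51, nat_lit 70013, nat_lit 68992, nat_lit 70016, [nat_lit 0xa358f900001000ac, nat_lit 0x9d6dc500001000ac, nat_lit 0x9ab58b00001000ad, nat_lit 0xa79cb300001000ad, nat_lit 0x93379a00001000ae, nat_lit 0x9be49000001000a0], nat_lit 68977, nat_lit 68977, []⟩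

set_option maxRecDepth 100000 in
theorem h56 : rchk Cd.ms p56 = true := by
  decide +kernel

/-- row check 57 -/
noncomputable def p57 : RP := ⟨nat_lit 5, nat_lit 1, nat_lit 17, nat_lit 30, nat_lit 96925, nat_lit 101157, nat_lit 96925, nat_lit 0x52ed36e769ffca, nat_lit 0x568c234145bc6e, nat_lit 0x800000000000000000, nat_lit 0x1, nat_lit 56, nat_lit 71005, nat_lit 70016, nat_lit 71008, [nat_lit 0xa08fd700001000af, nat_lit 0x9dc01c00001000af, nat_lit 0x99a3bc00001000af, nat_lit 0xa0953d00001000b0, nat_lit 0x9d7b1700001000b0, nat_lit 0x9b3e9c0000100073], nat_lit 70001, nat_lit 70001, []⟩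

set_option maxRecDepth 100000 in
theorem h57 : rchk Cd.ms p57 = true := by
  decide +kernel

/-- the row checks of this file -/
noncomputable def rs43 : List RP := [p56, p57]

theorem R43 : RCk Cd.ms rs43 :=
  RCk.cons h56 (RCk.cons h57 RCk.nil)

end Pool.Agent.Moser.Ck.Cr
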