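import Pool.Agent.Lib_MP_cc07e8_cd.Ds
import Pool.Agent.Lib_MP_cc07e8_ck.CkAsmDefs

/-! # MP_cc07e8_co: row checks of the explicit start, part 44 -/

namespace Pool.Agent.Moser.Ck.Cr

/-- row check 58 -/
noncomputable def p58 : RP := ⟨nat_lit 5, nat_lit 2, nat_lit 17, nat_lit 30, nat_lit 101105, nat_lit 105386, nat_lit 101105, nat_lit 0x4f995077f14500, nat_lit 0x52f8220cf57971, nat_lit 0x800000000000000000, nat_lit 0x1, nat_lit 71, nat_lit 71981, nat_lit 71008, nat_lit 71984, [nat_lit 0x97a6c000001000b1, nat_lit 0x9a36a200001000b1, nat_lit 0x8e7d6500001000b2, nat_lit 0x9b719600001000b2, nat_lit 0x91ba2100001000b3, nat_lit 0x9831b50000100057], nat_lit 70993, nat_lit 70993, []⟩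

set_option maxRecDepth 100000 in
theorem h58 : rchk Cd.ms p58 = true := by
  decide +kernel

/-- row check 59 -/
noncomputable def p59 : RP := ⟨nat_lit 6, nat_lit 1, nat_lit 17, nat_lit 30, nat_lit 105330, nat_lit 109731, nat_lit 105332, nat_lit 0x4c726fee7e4b1e, nat_lit 0x4fa425ef3fd1a5, nat_lit 0x800000000000000000, nat_lit 0x1, nat_lit 76, nat_lit 72957, nat_lit 71984, nat_lit 72960, [nat_lit 0x926dba00001000b3, nat_lit 0x9389f100001000b4, nat_lit 0x8cb37d00001000b4, nat_lit 0x9a790c00001000b5, nat_lit 0x96af7c00001000b5, nat_lit 0x96be56000010004b], nat_lit 71969, nat_lit 71969, []⟩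

set_option maxRecDepth 100000 in
theorem h59 : rchk Cd.ms p59 = true := by
  decide +kernel

/-- the row checks of this file -/
noncomputable def rs44 : List RP := [p58, p59]

theorem R44 : RCk Cd.ms rs44 :=
  RCk.cons h58 (RCk.cons h59 RCk.nil)

end Pool.Agent.Moser.Ck.Cr
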