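import Pool.Agent.Lib_MP_cc07e8_cd.Ds
import Pool.Agent.Lib_MP_cc07e8_ck.CkAsmDefs

/-! # MP_cc07e8_co: row checks of the explicit start, part 45 -/

namespace Pool.Agent.Moser.Ck.Cr

/-- row check 60 -/
noncomputable def p60 : RP := ⟨nat_lit 6, nat_lit 1, nat_lit 17, nat_lit 30, nat_lit 109651, nat_lit 113972, nat_lit 109676, nat_lit 0x499a342a3a58ad, nat_lit 0x4c80b73036a672, nat_lit 0x800000000000000000, nat_lit 0x1, nat_lit 61, nat_lit 73885, nat_lit 72960, nat_lit 73888, [nat_lit 0x93ebc500001000b6, nat_lit 0x919eee00001000b6, nat_lit 0x96455d00001000b7, nat_lit 0x9017c300001000b7, nat_lit 0x91d2f600001000b8, nat_lit 0x73f486000010000e], nat_lit 72945, nat_lit 72945, []⟩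

set_option maxRecDepth 100000 in
theorem h60 : rchk Cd.ms p60 = true := by
  decide +kernel

/-- row check 61 -/
noncomputable def p61 : RP := ⟨nat_lit 6, nat_lit 1, nat_lit 17, nat_lit 30, nat_lit 113915, nat_lit 118320, nat_lit 113915, nat_lit 0x46e5cb4fb9a800, nat_lit 0x49a3a1c4433641, nat_lit 0x800000000000000000, nat_lit 0x1, nat_lit 54, nat_lit 74813, nat_lit 73888, nat_lit 74816, [nat_lit 0x90a37400001000b8, nat_lit 0x91562e00001000b9, nat_lit 0x91e06f00001000b9, nat_lit 0x8f514400001000ba, nat_lit 0x96337600001000ba, nat_lit 0x78d91a0000100002], nat_lit 73873, nat_lit 73873, []⟩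

set_option maxRecDepth 100000 in
theorem h61 : rchk Cd.ms p61 = true := by
  decide +kernel

/-- the row checks of this file -/
noncomputable def rs45 : List RP := [p60, p61]

theorem R45 : RCk Cd.ms rs45 :=
  RCk.cons h60 (RCk.cons h61 RCk.nil)

end Pool.Agent.Moser.Ck.Cr
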