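import Pool.Agent.Lib_MP_cc07e8_cd.Ds
import Pool.Agent.Lib_MP_cc07e8_ck.CkAsmDefs

/-! # MP_cc07e8_co: row checks of the explicit start, part 46 -/

namespace Pool.Agent.Moser.Ck.Cr

/-- row check 62 -/
noncomputable def p62 : RP := ⟨nat_lit 6, nat_lit 1, nat_lit 17, nat_lit 30, nat_lit 118237, nat_lit 122700, nat_lit 118262, nat_lit 0x445de77b126b2c, nat_lit 0x46f288f435f6ca, nat_lit 0x800000000000000000, nat_lit 0x1, nat_lit 76, nat_lit 75725, nat_lit 74816, nat_lit 75728, [nat_lit 0x92c90700001000bb, nat_lit 0x91779700001000bb, nat_lit 0x8cb5b300001000bb, nat_lit 0x923a3e00001000bc, nat_lit 0x919e3100001000a3], nat_lit 74801, nat_lit 74801, []⟩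

set_option maxRecDepth 100000 in
theorem h62 : rchk Cd.ms p62 = true := by
  decide +kernel

/-- row check 63 -/
noncomputable def p63 : RP := ⟨nat_lit 6, nat_lit 1, nat_lit 17, nat_lit 30, nat_lit 122641, nat_lit 127108, nat_lit 122641, nat_lit 0x41fef3e44130b7, nat_lit 0x446652f2e6cfb9, nat_lit 0x800000000000000000, nat_lit 0x1, nat_lit 81, nat_lit 76621, nat_lit 75728, nat_lit 76624, [nat_lit 0x93233300001000bd, nat_lit 0x892d1c00001000bd, nat_lit 0x86388e00001000be, nat_lit 0x83eb8e00001000be, nat_lit 0x969385000010008a], nat_lit 75713, nat_lit 75713, []⟩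

set_option maxRecDepth 100000 in
theorem h63 : rchk Cd.ms p63 = true := by
  decide +kernel

/-- the row checks of this file -/
noncomputable def rs46 : List RP := [p62, p63]

theorem R46 : RCk Cd.ms rs46 :=
  RCk.cons h62 (RCk.cons h63 RCk.nil)

end Pool.Agent.Moser.Ck.Cr
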