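import Pool.Agent.Lib_MP_cc07e8_cd.Ds
import Pool.Agent.Lib_MP_cc07e8_ck.CkAsmDefs

/-! # MP_cc07e8_co: row checks of the explicit start, part 47 -/

namespace Pool.Agent.Moser.Ck.Cr

/-- row check 64 -/
noncomputable def p64 : RP := ⟨nat_lit 6, nat_lit 1, nat_lit 17, nat_lit 30, nat_lit 127027, nat_lit 131538, nat_lit 127047, nat_lit 0x3fc5f4d42ae4f5, nat_lit 0x4209b9d6b2b2c9, nat_lit 0x800000000000000000, nat_lit 0x1, nat_lit 57, nat_lit 77501, nat_lit 76624, nat_lit 77504, [nat_lit 0x8dfbcf00001000bf, nat_lit 0x820b3700001000c0, nat_lit 0x93500700001000c0, nat_lit 0x8ad12800001000c0, nat_lit 0x816a090000100071], nat_lit 76609, nat_lit 76609, []⟩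

set_option maxRecDepth 100000 in
theorem h64 : rchk Cd.ms p64 = true := by
  decide +kernel

/-- row check 65 -/
noncomputable def p65 : RP := ⟨nat_lit 6, nat_lit 1, nat_lit 17, nat_lit 29, nat_lit 131475, nat_lit 135903, nat_lit 131475, nat_lit 0x3db9975878b8eb, nat_lit 0x3fcdc78772e312, nat_lit 0x800000000000000000, nat_lit 0x1, nat_lit 54, nat_lit 78349, nat_lit 77504, nat_lit 78352, [nat_lit 0x89c91b00001000c1, nat_lit 0x86443200001000c2, nat_lit 0x8d634400001000c2, nat_lit 0x87f87500001000c3, nat_lit 0x8b10de0000100048], nat_lit 77489, nat_lit 77489, []⟩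

set_option maxRecDepth 100000 in
theorem h65 : rchk Cd.ms p65 = true := by
  decide +kernel

/-- the row checks of this file -/
noncomputable def rs47 : List RP := [p64, p65]

theorem R47 : RCk Cd.ms rs47 :=
  RCk.cons h64 (RCk.cons h65 RCk.nil)

end Pool.Agent.Moser.Ck.Cr
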