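import Pool.Agent.Lib_MP_cc07e8_cd.Ds
import Pool.Agent.Lib_MP_cc07e8_ck.CkAsmDefs

/-! # MP_cc07e8_co: row checks of the explicit start, part 48 -/

namespace Pool.Agent.Moser.Ck.Cr

/-- row check 66 -/
noncomputable def p66 : RP := ⟨nat_lit 6, nat_lit 1, nat_lit 17, nat_lit 29, nat_lit 135832, nat_lit 140449, nat_lit 135839, nat_lit 0x3bba219b7fa10b, nat_lit 0x3dc1d9cb32e2ea, nat_lit 0x800000000000000000, nat_lit 0x1, nat_lit 88, nat_lit 79213, nat_lit 78352, nat_lit 79216, [nat_lit 0x81e54100001000c3, nat_lit 0x8a660f00001000c4, nat_lit 0x8ae5cb00001000c4, nat_lit 0x86848800001000c5, nat_lit 0x80a72c0000100050], nat_lit 78337, nat_lit 78337, []⟩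

set_option maxRecDepth 100000 in
theorem h66 : rchk Cd.ms p66 = true := by
  decide +kernel

/-- row check 67 -/
noncomputable def p67 : RP := ⟨nat_lit 6, nat_lit 1, nat_lit 17, nat_lit 29, nat_lit 140377, nat_lit 144660, nat_lit 140384, nat_lit 0x39fd0a86a68121, nat_lit 0x3bc1f9418ffad5, nat_lit 0x800000000000000000, nat_lit 0x1, nat_lit 73, nat_lit 79997, nat_lit 79216, nat_lit 80000, [nat_lit 0x89e91900001000c6, nat_lit 0x84c98000001000c6, nat_lit 0x913f5000001000c7, nat_lit 0x81355500001000bd], nat_lit 79201, nat_lit 79201, []⟩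

set_option maxRecDepth 100000 in
theorem h67 : rchk Cd.ms p67 = true := by
  decide +kernel

/-- the row checks of this file -/
noncomputable def rs48 : List RP := [p66, p67]

theorem R48 : RCk Cd.ms rs48 :=
  RCk.cons h66 (RCk.cons h67 RCk.nil)

end Pool.Agent.Moser.Ck.Cr
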