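import Pool.Agent.Lib_MP_cc07e8_cd.Ds
import Pool.Agent.Lib_MP_cc07e8_ck.CkAsmDefs

/-! # MP_cc07e8_co: row checks of the explicit start, part 49 -/

namespace Pool.Agent.Moser.Ck.Cr

/-- row check 68 -/
noncomputable def p68 : RP := ⟨nat_lit 6, nat_lit 1, nat_lit 17, nat_lit 29, nat_lit 144576, nat_lit 149309, nat_lit 144594, nat_lit 0x382ed0821d6b23, nat_lit 0x3a05aa8da7d563, nat_lit 0x800000000000000000, nat_lit 0x1, nat_lit 88, nat_lit 80845, nat_lit 80000, nat_lit 80848, [nat_lit 0x8a3cdf00001000c8, nat_lit 0x89113000001000c8, nat_lit 0x7f731800001000c9, nat_lit 0x87837600001000c9, nat_lit 0x8fb4a7000010002e], nat_lit 79985, nat_lit 79985, []⟩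

set_option maxRecDepth 100000 in
theorem h68 : rchk Cd.ms p68 = true := by
  decide +kernel

/-- row check 69 -/
noncomputable def p69 : RP := ⟨nat_lit 6, nat_lit 1, nat_lit 17, nat_lit 29, nat_lit 149233, nat_lit 153967, nat_lit 149242, nat_lit 0x367bb013df5d59, nat_lit 0x383623a4b451ec, nat_lit 0x800000000000000000, nat_lit 0x1, nat_lit 72, nat_lit 81677, nat_lit 80848, nat_lit 81680, [nat_lit 0x86277300001000ca, nat_lit 0x81c12500001000ca, nat_lit 0x8058b000001000cb, nat_lit 0x78a4e000001000cb, nat_lit 0x77c7710000100016], nat_lit 80833, nat_lit 80833, []⟩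

set_option maxRecDepth 100000 in
theorem h69 : rchk Cd.ms p69 = true := by
  decide +kernel

/-- the row checks of this file -/
noncomputable def rs49 : List RP := [p68, p69]

theorem R49 : RCk Cd.ms rs49 :=
  RCk.cons h68 (RCk.cons h69 RCk.nil)

end Pool.Agent.Moser.Ck.Cr
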