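import Pool.Agent.Lib_MP_cc07e8_cd.Ds
import Pool.Agent.Lib_MP_cc07e8_ck.CkAsmDefs

/-! # MP_cc07e8_co: row checks of the explicit start, part 50 -/

namespace Pool.Agent.Moser.Ck.Cr

/-- row check 70 -/
noncomputable def p70 : RP := ⟨nat_lit 6, nat_lit 1, nat_lit 17, nat_lit 29, nat_lit 153878, nat_lit 158720, nat_lit 153898, nat_lit 0x34da034da034da, nat_lit 0x3683c13f357c8d, nat_lit 0x800000000000000000, nat_lit 0x1, nat_lit 69, nat_lit 82509, nat_lit 81680, nat_lit 82512, [nat_lit 0x803e7700001000cc, nat_lit 0x7cca9c00001000cc, nat_lit 0x82e9cd00001000cd, nat_lit 0x817d2f00001000cd, nat_lit 0x7e184c000010000e], nat_lit 81665, nat_lit 81665, []⟩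

set_option maxRecDepth 100000 in
theorem h70 : rchk Cd.ms p70 = true := by
  decide +kernel

/-- row check 71 -/
noncomputable def p71 : RP := ⟨nat_lit 6, nat_lit 1, nat_lit 17, nat_lit 29, nat_lit 158631, nat_lit 163570, nat_lit 158650, nat_lit 0x3348d5ed735fdf, nat_lit 0x34e19a9abc32f6, nat_lit 0x800000000000000000, nat_lit 0x1, nat_lit 95, nat_lit 83341, nat_lit 82512, nat_lit 83344, [nat_lit 0x85f34b00001000ce, nat_lit 0x807d3b00001000ce, nat_lit 0x7c1e1300001000cf, nat_lit 0x8242bc00001000cf, nat_lit 0x6cc4ad0000100006], nat_lit 82497, nat_lit 82497, []⟩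

set_option maxRecDepth 100000 in
theorem h71 : rchk Cd.ms p71 = true := by
  decide +kernel

/-- the row checks of this file -/
noncomputable def rs50 : List RP := [p70, p71]

theorem R50 : RCk Cd.ms rs50 :=
  RCk.cons h70 (RCk.cons h71 RCk.nil)

end Pool.Agent.Moser.Ck.Cr
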