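import Pool.Agent.Lib_MP_cc07e8_cd.Ds
import Pool.Agent.Lib_MP_cc07e8_ck.CkAsmDefs

/-! # MP_cc07e8_co: row checks of the explicit start, part 51 -/

namespace Pool.Agent.Moser.Ck.Cr

/-- row check 72 -/
noncomputable def p72 : RP := ⟨nat_lit 6, nat_lit 2, nat_lit 17, nat_lit 29, nat_lit 163498, nat_lit 168422, nat_lit 163498, nat_lit 0x31ce9cc8b95778, nat_lit 0x334e9e02d650ec, nat_lit 0x800000000000000000, nat_lit 0x1, nat_lit 77, nat_lit 84157, nat_lit 83344, nat_lit 84160, [nat_lit 0x7a132000001000d0, nat_lit 0x7df7af00001000d0, nat_lit 0x7be35400001000d1, nat_lit 0x7546f500001000bf], nat_lit 83329, nat_lit 83329, []⟩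

set_option maxRecDepth 100000 in
theorem h72 : rchk Cd.ms p72 = true := by
  decide +kernel

/-- row check 73 -/
noncomputable def p73 : RP := ⟨nat_lit 6, nat_lit 2, nat_lit 18, nat_lit 30, nat_lit 84174, nat_lit 87618, nat_lit 84174, nat_lit 0x2fdecf037718ec, nat_lit 0x31d43798668769, nat_lit 0x400000000000000000, nat_lit 0x1, nat_lit 51, nat_lit 85277, nat_lit 84160, nat_lit 85280, [nat_lit 0x7ca10e00001000d2, nat_lit 0x86fa0d00001000d2, nat_lit 0x7f5b6e00001000d3, nat_lit 0x7cde5b00001000d3, nat_lit 0x78d75c00001000d4, nat_lit 0x79cf010000100042], nat_lit 84145, nat_lit 84145, []⟩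

set_option maxRecDepth 100000 in
theorem h73 : rchk Cd.ms p73 = true := by
  decide +kernel

/-- the row checks of this file -/
noncomputable def rs51 : List RP := [p72, p73]

theorem R51 : RCk Cd.ms rs51 :=
  RCk.cons h72 (RCk.cons h73 RCk.nil)

end Pool.Agent.Moser.Ck.Cr
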