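import Pool.Agent.Lib_MP_cc07e8_cd.Ds
import Pool.Agent.Lib_MP_cc07e8_ck.CkAsmDefs

/-! # MP_cc07e8_co: row checks of the explicit start, part 52 -/

namespace Pool.Agent.Moser.Ck.Cr

/-- row check 74 -/
noncomputable def p74 : RP := ⟨nat_lit 7, nat_lit 1, nat_lit 18, nat_lit 30, nat_lit 87542, nat_lit 90914, nat_lit 87580, nat_lit 0x2e2285b52d62c6, nat_lit 0x2fe9729d8cd734, nat_lit 0x400000000000000000, nat_lit 0x1, nat_lit 41, nat_lit 86333, nat_lit 85280, nat_lit 86336, [nat_lit 0x7ae41a00001000d5, nat_lit 0x7c1d5400001000d5, nat_lit 0x7ab4d400001000d6, nat_lit 0x82b38700001000d6, nat_lit 0x78490900001000ca], nat_lit 85265, nat_lit 85265, []⟩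

set_option maxRecDepth 100000 in
theorem h74 : rchk Cd.ms p74 = true := by
  decide +kernel

/-- row check 75 -/
noncomputable def p75 : RP := ⟨nat_lit 7, nat_lit 1, nat_lit 18, nat_lit 30, nat_lit 90875, nat_lit 94291, nat_lit 90875, nat_lit 0x2c7b884fdd4a9c, nat_lit 0x2e279745eaa13b, nat_lit 0x400000000000000000, nat_lit 0x1, nat_lit 51, nat_lit 87389, nat_lit 86336, nat_lit 87392, [nat_lit 0x7a4c1700001000d7, nat_lit 0x7a0b0800001000d8, nat_lit 0x7581b100001000d8, nat_lit 0x7b485000001000d9, nat_lit 0x75b8b900001000c0], nat_lit 86321, nat_lit 86321, []⟩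

set_option maxRecDepth 100000 in
theorem h75 : rchk Cd.ms p75 = true := by
  decide +kernel

/-- the row checks of this file -/
noncomputable def rs52 : List RP := [p74, p75]

theorem R52 : RCk Cd.ms rs52 :=
  RCk.cons h74 (RCk.cons h75 RCk.nil)

end Pool.Agent.Moser.Ck.Cr
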