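import Pool.Agent.Lib_MP_cc07e8_cd.Ds
import Pool.Agent.Lib_MP_cc07e8_ck.CkAsmDefs

/-! # MP_cc07e8_co: row checks of the explicit start, part 53 -/

namespace Pool.Agent.Moser.Ck.Cr

/-- row check 76 -/
noncomputable def p76 : RP := ⟨nat_lit 7, nat_lit 1, nat_lit 18, nat_lit 30, nat_lit 94247, nat_lit 97644, nat_lit 94251, nat_lit 0x2af47ee4c3db4b, nat_lit 0x2c80d94d250aae, nat_lit 0x400000000000000000, nat_lit 0x1, nat_lit 37, nat_lit 88413, nat_lit 87392, nat_lit 88416, [nat_lit 0x7a4bd900001000da, nat_lit 0x7d909400001000db, nat_lit 0x774c1800001000db, nat_lit 0x7a8c9e00001000dc, nat_lit 0x7ea04d0000100094], nat_lit 87377, nat_lit 87377, []⟩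

set_option maxRecDepth 100000 in
theorem h76 : rchk Cd.ms p76 = true := by
  decide +kernel

/-- row check 77 -/
noncomputable def p77 : RP := ⟨nat_lit 7, nat_lit 1, nat_lit 18, nat_lit 30, nat_lit 97599, nat_lit 101185, nat_lit 97604, nat_lit 0x2973ab81e9f941, nat_lit 0x2af990da9c051c, nat_lit 0x400000000000000000, nat_lit 0x1, nat_lit 56, nat_lit 89469, nat_lit 88416, nat_lit 89472, [nat_lit 0x7659f900001000dd, nat_lit 0x707a2e00001000dd, nat_lit 0x779f6000001000de, nat_lit 0x7e25a900001000de, nat_lit 0x6ff18000001000aa], nat_lit 88401, nat_lit 88401, []⟩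

set_option maxRecDepth 100000 in
theorem h77 : rchk Cd.ms p77 = true := by
  decide +kernel

/-- the row checks of this file -/
noncomputable def rs53 : List RP := [p76, p77]

theorem R53 : RCk Cd.ms rs53 :=
  RCk.cons h76 (RCk.cons h77 RCk.nil)

end Pool.Agent.Moser.Ck.Cr
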