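import Pool.Agent.Lib_MP_cc07e8_cd.Ds
import Pool.Agent.Lib_MP_cc07e8_ck.CkAsmDefs

/-! # MP_cc07e8_co: row checks of the explicit start, part 54 -/

namespace Pool.Agent.Moser.Ck.Cr

/-- row check 78 -/
noncomputable def p78 : RP := ⟨nat_lit 7, nat_lit 1, nat_lit 18, nat_lit 29, nat_lit 101143, nat_lit 104699, nat_lit 101143, nat_lit 0x280f830199fec0, nat_lit 0x29781394923ec6, nat_lit 0x400000000000000000, nat_lit 0x1, nat_lit 46, nat_lit 90493, nat_lit 89472, nat_lit 90496, [nat_lit 0x74441800001000df, nat_lit 0x751df600001000e0, nat_lit 0x7c1f5d00001000e0, nat_lit 0x7784ff00001000e1, nat_lit 0x7ec8f70000100080], nat_lit 89457, nat_lit 89457, []⟩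

set_option maxRecDepth 100000 in
theorem h78 : rchk Cd.ms p78 = true := by
  decide +kernel

/-- row check 79 -/
noncomputable def p79 : RP := ⟨nat_lit 7, nat_lit 1, nat_lit 18, nat_lit 29, nat_lit 104657, nat_lit 108180, nat_lit 104657, nat_lit 0x26c582eb90444d, nat_lit 0x2813a09cc8c8d5, nat_lit 0x400000000000000000, nat_lit 0x1, nat_lit 35, nat_lit 91485, nat_lit 90496, nat_lit 91488, [nat_lit 0x72dc4000001000e2, nat_lit 0x7a555c00001000e2, nat_lit 0x779b4f00001000e3, nat_lit 0x74a25800001000e3, nat_lit 0x6cf87a0000100056], nat_lit 90481, nat_lit 90481, []⟩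

set_option maxRecDepth 100000 in
theorem h79 : rchk Cd.ms p79 = true := by
  decide +kernel

/-- the row checks of this file -/
noncomputable def rs54 : List RP := [p78, p79]

theorem R54 : RCk Cd.ms rs54 :=
  RCk.cons h78 (RCk.cons h79 RCk.nil)

end Pool.Agent.Moser.Ck.Cr
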