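import Pool.Agent.Lib_MP_cc07e8_cd.Ds
import Pool.Agent.Lib_MP_cc07e8_ck.CkAsmDefs

/-! # MP_cc07e8_co: row checks of the explicit start, part 55 -/

namespace Pool.Agent.Moser.Ck.Cr

/-- row check 80 -/
noncomputable def p80 : RP := ⟨nat_lit 7, nat_lit 1, nat_lit 18, nat_lit 29, nat_lit 108131, nat_lit 111680, nat_lit 108137, nat_lit 0x258e734f5e09ae, nat_lit 0x26ca025a71748c, nat_lit 0x400000000000000000, nat_lit 0x1, nat_lit 61, nat_lit 92461, nat_lit 91488, nat_lit 92464, [nat_lit 0x72b84a00001000e4, nat_lit 0x743c9600001000e5, nat_lit 0x71aeaf00001000e5, nat_lit 0x6e946800001000e6, nat_lit 0x6df4ee000010003c], nat_lit 91473, nat_lit 91473, []⟩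

set_option maxRecDepth 100000 in
theorem h80 : rchk Cd.ms p80 = true := by
  decide +kernel

/-- row check 81 -/
noncomputable def p81 : RP := ⟨nat_lit 7, nat_lit 1, nat_lit 18, nat_lit 29, nat_lit 111620, nat_lit 115254, nat_lit 111635, nat_lit 0x24644efc35ee26, nat_lit 0x25939e5a24c03f, nat_lit 0x400000000000000000, nat_lit 0x1, nat_lit 49, nat_lit 93437, nat_lit 92464, nat_lit 93440, [nat_lit 0x77af5600001000e7, nat_lit 0x6e89c400001000e7, nat_lit 0x6cf91800001000e8, nat_lit 0x73c40700001000e8, nat_lit 0x70d01b0000100032], nat_lit 92449, nat_lit 92449, []⟩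

set_option maxRecDepth 100000 in
theorem h81 : rchk Cd.ms p81 = true := by
  decide +kernel

/-- the row checks of this file -/
noncomputable def rs55 : List RP := [p80, p81]

theorem R55 : RCk Cd.ms rs55 :=
  RCk.cons h80 (RCk.cons h81 RCk.nil)

end Pool.Agent.Moser.Ck.Cr
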