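import Pool.Agent.Lib_MP_cc07e8_cd.Ds
import Pool.Agent.Lib_MP_cc07e8_ck.CkAsmDefs

/-! # MP_cc07e8_co: row checks of the explicit start, part 56 -/

namespace Pool.Agent.Moser.Ck.Cr

/-- row check 82 -/
noncomputable def p82 : RP := ⟨nat_lit 7, nat_lit 1, nat_lit 18, nat_lit 29, nat_lit 115190, nat_lit 118903, nat_lit 115208, nat_lit 0x234666c5a47be2, nat_lit 0x24697c161985af, nat_lit 0x400000000000000000, nat_lit 0x1, nat_lit 52, nat_lit 94413, nat_lit 93440, nat_lit 94416, [nat_lit 0x7111f300001000e9, nat_lit 0x6ef13200001000ea, nat_lit 0x72990500001000ea, nat_lit 0x738b6300001000eb, nat_lit 0x6670ad0000100028], nat_lit 93425, nat_lit 93425, []⟩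

set_option maxRecDepth 100000 in
theorem h82 : rchk Cd.ms p82 = true := by
  decide +kernel

/-- row check 83 -/
noncomputable def p83 : RP := ⟨nat_lit 7, nat_lit 2, nat_lit 18, nat_lit 29, nat_lit 118843, nat_lit 122567, nat_lit 118857, nat_lit 0x223872ace94930, nat_lit 0x234af5eaa95580, nat_lit 0x400000000000000000, nat_lit 0x1, nat_lit 60, nat_lit 95373, nat_lit 94416, nat_lit 95376, [nat_lit 0x74e67f00001000ec, nat_lit 0x6d2b1c00001000ec, nat_lit 0x68def800001000ed, nat_lit 0x6856df00001000ed, nat_lit 0x64b9c3000010000e], nat_lit 94401, nat_lit 94401, []⟩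

set_option maxRecDepth 100000 in
theorem h83 : rchk Cd.ms p83 = true := by
  decide +kernel

/-- the row checks of this file -/
noncomputable def rs56 : List RP := [p82, p83]

theorem R56 : RCk Cd.ms rs56 :=
  RCk.cons h82 (RCk.cons h83 RCk.nil)

end Pool.Agent.Moser.Ck.Cr
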