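import Pool.Agent.Lib_MP_cc07e8_cd.Ds
import Pool.Agent.Lib_MP_cc07e8_ck.CkAsmDefs

/-! # MP_cc07e8_co: row checks of the explicit start, part 57 -/

namespace Pool.Agent.Moser.Ck.Cr

/-- row check 84 -/
noncomputable def p84 : RP := ⟨nat_lit 8, nat_lit 1, nat_lit 18, nat_lit 29, nat_lit 122507, nat_lit 126243, nat_lit 122520, nat_lit 0x21395b793f0d2d, nat_lit 0x223cbd10c94fa2, nat_lit 0x400000000000000000, nat_lit 0x1, nat_lit 46, nat_lit 96317, nat_lit 95376, nat_lit 96320, [nat_lit 0x6d835a00001000ee, nat_lit 0x6d4e5700001000ef, nat_lit 0x6eedde00001000ef, nat_lit 0x6724b700001000e4], nat_lit 95361, nat_lit 95361, []⟩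

set_option maxRecDepth 100000 in
theorem h84 : rchk Cd.ms p84 = true := by
  decide +kernel

/-- row check 85 -/
noncomputable def p85 : RP := ⟨nat_lit 8, nat_lit 1, nat_lit 18, nat_lit 29, nat_lit 126195, nat_lit 129991, nat_lit 126195, nat_lit 0x20441fd535a7c8, nat_lit 0x213c97aaaf572f, nat_lit 0x400000000000000000, nat_lit 0x1, nat_lit 64, nat_lit 97261, nat_lit 96320, nat_lit 97264, [nat_lit 0x6daebf00001000f0, nat_lit 0x6d62b000001000f1, nat_lit 0x6aa9e900001000f2, nat_lit 0x6d9c2800001000dd], nat_lit 96305, nat_lit 96305, []⟩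

set_option maxRecDepth 100000 in
theorem h85 : rchk Cd.ms p85 = true := by
  decide +kernel

/-- the row checks of this file -/
noncomputable def rs57 : List RP := [p84, p85]

theorem R57 : RCk Cd.ms rs57 :=
  RCk.cons h84 (RCk.cons h85 RCk.nil)

end Pool.Agent.Moser.Ck.Cr
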