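import Pool.Agent.Lib_MP_cc07e8_cd.Ds
import Pool.Agent.Lib_MP_cc07e8_ck.CkAsmDefs

/-! # MP_cc07e8_co: row checks of the explicit start, part 58 -/

namespace Pool.Agent.Moser.Ck.Cr

/-- row check 86 -/
noncomputable def p86 : RP := ⟨nat_lit 8, nat_lit 1, nat_lit 18, nat_lit 29, nat_lit 129942, nat_lit 133748, nat_lit 129942, nat_lit 0x1f5c18a7266166, nat_lit 0x20473d3a214b7b, nat_lit 0x400000000000000000, nat_lit 0x1, nat_lit 48, nat_lit 98189, nat_lit 97264, nat_lit 98192, [nat_lit 0x6848f100001000f3, nat_lit 0x68ffed00001000f3, nat_lit 0x6629c800001000f4, nat_lit 0x6491e800001000c6], nat_lit 97249, nat_lit 97249, []⟩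

set_option maxRecDepth 100000 in
theorem h86 : rchk Cd.ms p86 = true := by
  decide +kernel

/-- row check 87 -/
noncomputable def p87 : RP := ⟨nat_lit 8, nat_lit 1, nat_lit 18, nat_lit 29, nat_lit 133683, nat_lit 137509, nat_lit 133698, nat_lit 0x1e80853545bea6, nat_lit 0x1f5ffff0500007, nat_lit 0x400000000000000000, nat_lit 0x1, nat_lit 54, nat_lit 99101, nat_lit 98192, nat_lit 99104, [nat_lit 0x6a78d700001000f5, nat_lit 0x6f683a00001000f6, nat_lit 0x6cff2300001000f6, nat_lit 0x69c5d200001000af], nat_lit 98177, nat_lit 98177, []⟩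

set_option maxRecDepth 100000 in
theorem h87 : rchk Cd.ms p87 = true := by
  decide +kernel

/-- the row checks of this file -/
noncomputable def rs58 : List RP := [p86, p87]

theorem R58 : RCk Cd.ms rs58 :=
  RCk.cons h86 (RCk.cons h87 RCk.nil)

end Pool.Agent.Moser.Ck.Cr
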