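import Pool.Agent.Lib_MP_cc07e8_cd.Ds
import Pool.Agent.Lib_MP_cc07e8_ck.CkAsmDefs

/-! # MP_cc07e8_co: row checks of the explicit start, part 59 -/

namespace Pool.Agent.Moser.Ck.Cr

/-- row check 88 -/
noncomputable def p88 : RP := ⟨nat_lit 8, nat_lit 1, nat_lit 18, nat_lit 29, nat_lit 137448, nat_lit 141341, nat_lit 137458, nat_lit 0x1dacd15b07bd46, nat_lit 0x1e83fc5d466ee3, nat_lit 0x400000000000000000, nat_lit 0x1, nat_lit 69, nat_lit 100013, nat_lit 99104, nat_lit 100016, [nat_lit 0x66517b00001000f7, nat_lit 0x650dce00001000f8, nat_lit 0x65993900001000f8, nat_lit 0x66280900001000a9], nat_lit 99089, nat_lit 99089, []⟩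

set_option maxRecDepth 100000 in
theorem h88 : rchk Cd.ms p88 = true := by
  decide +kernel

/-- row check 89 -/
noncomputable def p89 : RP := ⟨nat_lit 8, nat_lit 1, nat_lit 18, nat_lit 29, nat_lit 141276, nat_lit 145105, nat_lit 141289, nat_lit 0x1ce7c1f0ec3d1e, nat_lit 0x1db05022e84e39, nat_lit 0x400000000000000000, nat_lit 0x1, nat_lit 73, nat_lit 100893, nat_lit 100016, nat_lit 100896, [nat_lit 0x700a6700001000fa, nat_lit 0x63ba4e00001000fa, nat_lit 0x68d56b00001000fb, nat_lit 0x691c030000100081], nat_lit 100001, nat_lit 100001, []⟩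

set_option maxRecDepth 100000 in
theorem h89 : rchk Cd.ms p89 = true := by
  decide +kernel

/-- the row checks of this file -/
noncomputable def rs59 : List RP := [p88, p89]

theorem R59 : RCk Cd.ms rs59 :=
  RCk.cons h88 (RCk.cons h89 RCk.nil)

end Pool.Agent.Moser.Ck.Cr
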