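import Pool.Agent.Lib_MP_cc07e8_cd.Ds
import Pool.Agent.Lib_MP_cc07e8_ck.CkAsmDefs

/-! # MP_cc07e8_co: row checks of the explicit start, part 60 -/

namespace Pool.Agent.Moser.Ck.Cr

/-- row check 90 -/
noncomputable def p90 : RP := ⟨nat_lit 8, nat_lit 1, nat_lit 18, nat_lit 29, nat_lit 145038, nat_lit 148864, nat_lit 145052, nat_lit 0x1c2ce7910f3034, nat_lit 0x1ceb2d06cba34c, nat_lit 0x400000000000000000, nat_lit 0x1, nat_lit 46, nat_lit 101757, nat_lit 100896, nat_lit 101760, [nat_lit 0x659da500001000fc, nat_lit 0x67934700001000fc, nat_lit 0x6486f000001000fd, nat_lit 0x62a4a9000010006b], nat_lit 100881, nat_lit 100881, []⟩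

set_option maxRecDepth 100000 in
theorem h90 : rchk Cd.ms p90 = true := by
  decide +kernel

/-- row check 91 -/
noncomputable def p91 : RP := ⟨nat_lit 8, nat_lit 1, nat_lit 18, nat_lit 29, nat_lit 148803, nat_lit 152617, nat_lit 148811, nat_lit 0x1b7b8840ef8190, nat_lit 0x1c2fdc84c0a9e4, nat_lit 0x400000000000000000, nat_lit 0x1, nat_lit 60, nat_lit 102605, nat_lit 101760, nat_lit 102608, [nat_lit 0x67f62400001000fe, nat_lit 0x6c968400001000ff, nat_lit 0x67843000001000ff, nat_lit 0x5b5d840000100054], nat_lit 101745, nat_lit 101745, []⟩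

set_option maxRecDepth 100000 in
theorem h91 : rchk Cd.ms p91 = true := by
  decide +kernel

/-- the row checks of this file -/
noncomputable def rs60 : List RP := [p90, p91]

theorem R60 : RCk Cd.ms rs60 :=
  RCk.cons h90 (RCk.cons h91 RCk.nil)

end Pool.Agent.Moser.Ck.Cr
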