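import Pool.Agent.Lib_MP_cc07e8_cd.Ds
import Pool.Agent.Lib_MP_cc07e8_ck.CkAsmDefs

/-! # MP_cc07e8_co: row checks of the explicit start, part 61 -/

namespace Pool.Agent.Moser.Ck.Cr

/-- row check 92 -/
noncomputable def p92 : RP := ⟨nat_lit 8, nat_lit 1, nat_lit 18, nat_lit 29, nat_lit 152563, nat_lit 156360, nat_lit 152563, nat_lit 0x1ad31cfc5f3234, nat_lit 0x1b7e05c16a0475, nat_lit 0x400000000000000000, nat_lit 0x1, nat_lit 72, nat_lit 103437, nat_lit 102608, nat_lit 103440, [nat_lit 0x6868e10000100100, nat_lit 0x67970e0000100101, nat_lit 0x68f0700000100101, nat_lit 0x64552b000010003e], nat_lit 102593, nat_lit 102593, []⟩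

set_option maxRecDepth 100000 in
theorem h92 : rchk Cd.ms p92 = true := by
  decide +kernel

/-- row check 93 -/
noncomputable def p93 : RP := ⟨nat_lit 8, nat_lit 1, nat_lit 18, nat_lit 29, nat_lit 156289, nat_lit 160016, nat_lit 156305, nat_lit 0x1a3637230afb36, nat_lit 0x1ad63b9cf0db55, nat_lit 0x400000000000000000, nat_lit 0x1, nat_lit 49, nat_lit 104237, nat_lit 103440, nat_lit 104240, [nat_lit 0x6787af0000100102, nat_lit 0x6530560000100103, nat_lit 0x6759780000100103, nat_lit 0x5f30290000100018], nat_lit 103425, nat_lit 103425, []⟩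

set_option maxRecDepth 100000 in
theorem h93 : rchk Cd.ms p93 = true := by
  decide +kernel

/-- the row checks of this file -/
noncomputable def rs61 : List RP := [p92, p93]

theorem R61 : RCk Cd.ms rs61 :=
  RCk.cons h92 (RCk.cons h93 RCk.nil)

end Pool.Agent.Moser.Ck.Cr
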