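import Pool.Agent.Lib_MP_cc07e8_cd.Ds
import Pool.Agent.Lib_MP_cc07e8_ck.CkAsmDefs

/-! # MP_cc07e8_co: row checks of the explicit start, part 62 -/

namespace Pool.Agent.Moser.Ck.Cr

/-- row check 94 -/
noncomputable def p94 : RP := ⟨nat_lit 8, nat_lit 1, nat_lit 18, nat_lit 29, nat_lit 159951, nat_lit 163803, nat_lit 159960, nat_lit 0x199b1490c9f879, nat_lit 0x1a38f1368bdaa1, nat_lit 0x400000000000000000, nat_lit 0x1, nat_lit 59, nat_lit 105053, nat_lit 104240, nat_lit 105056, [nat_lit 0x652ef10000100104, nat_lit 0x674fd60000100105, nat_lit 0x65cc800000100105, nat_lit 0x5d10640000100022], nat_lit 104225, nat_lit 104225, []⟩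

set_option maxRecDepth 100000 in
theorem h94 : rchk Cd.ms p94 = true := by
  decide +kernel

/-- row check 95 -/
noncomputable def p95 : RP := ⟨nat_lit 8, nat_lit 2, nat_lit 18, nat_lit 29, nat_lit 163728, nat_lit 167574, nat_lit 163746, nat_lit 0x19079171d25280, nat_lit 0x199e1543b8a6b6, nat_lit 0x400000000000000000, nat_lit 0x1, nat_lit 78, nat_lit 105853, nat_lit 105056, nat_lit 105856, [nat_lit 0x61fc950000100106, nat_lit 0x660d120000100107, nat_lit 0x5fdd1d0000100107, nat_lit 0x61d89f000010000c], nat_lit 105041, nat_lit 105041, []⟩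

set_option maxRecDepth 100000 in
theorem h95 : rchk Cd.ms p95 = true := by
  decide +kernel

/-- the row checks of this file -/
noncomputable def rs62 : List RP := [p94, p95]

theorem R62 : RCk Cd.ms rs62 :=
  RCk.cons h94 (RCk.cons h95 RCk.nil)

end Pool.Agent.Moser.Ck.Cr
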