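import Pool.Agent.Lib_MP_cc07e8_cd.Ds
import Pool.Agent.Lib_MP_cc07e8_ck.CkAsmDefs

/-! # MP_cc07e8_co: row checks of the explicit start, part 63 -/

namespace Pool.Agent.Moser.Ck.Cr

/-- row check 96 -/
noncomputable def p96 : RP := ⟨nat_lit 9, nat_lit 1, nat_lit 18, nat_lit 29, nat_lit 167498, nat_lit 171248, nat_lit 167516, nat_lit 0x187e1935caf2de, nat_lit 0x190a79b9dc186a, nat_lit 0x400000000000000000, nat_lit 0x1, nat_lit 57, nat_lit 106621, nat_lit 105856, nat_lit 106624, [nat_lit 0x655a3f0000100108, nat_lit 0x6191e10000100109, nat_lit 0x64db9b00001000ef], nat_lit 105841, nat_lit 105841, []⟩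

set_option maxRecDepth 100000 in
theorem h96 : rchk Cd.ms p96 = true := by
  decide +kernel

/-- row check 97 -/
noncomputable def p97 : RP := ⟨nat_lit 9, nat_lit 1, nat_lit 18, nat_lit 29, nat_lit 171177, nat_lit 175054, nat_lit 171189, nat_lit 0x17f5c65d18c52d, nat_lit 0x1880b2fc1b6d90, nat_lit 0x400000000000000000, nat_lit 0x1, nat_lit 64, nat_lit 107405, nat_lit 106624, nat_lit 107408, [nat_lit 0x5e7812000010010a, nat_lit 0x62f76b000010010b, nat_lit 0x5fb18f00001000fb], nat_lit 106609, nat_lit 106609, []⟩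

set_option maxRecDepth 100000 in
theorem h97 : rchk Cd.ms p97 = true := by
  decide +kernel

/-- the row checks of this file -/
noncomputable def rs63 : List RP := [p96, p97]

theorem R63 : RCk Cd.ms rs63 :=
  RCk.cons h96 (RCk.cons h97 RCk.nil)

end Pool.Agent.Moser.Ck.Cr
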