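import Pool.Agent.Lib_MP_cc07e8_cd.Ds
import Pool.Agent.Lib_MP_cc07e8_ck.CkAsmDefs

/-! # MP_cc07e8_co: row checks of the explicit start, part 64 -/

namespace Pool.Agent.Moser.Ck.Cr

/-- row check 98 -/
noncomputable def p98 : RP := ⟨nat_lit 9, nat_lit 1, nat_lit 18, nat_lit 29, nat_lit 174977, nat_lit 178756, nat_lit 174994, nat_lit 0x1776bee266a494, nat_lit 0x17f8795ce57575, nat_lit 0x400000000000000000, nat_lit 0x1, nat_lit 83, nat_lit 108157, nat_lit 107408, nat_lit 108160, [nat_lit 0x68b3aa000010010c, nat_lit 0x5c94a7000010010d, nat_lit 0x5fb90c00001000d7], nat_lit 107393, nat_lit 107393, []⟩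

set_option maxRecDepth 100000 in
theorem h98 : rchk Cd.ms p98 = true := by
  decide +kernel

/-- row check 99 -/
noncomputable def p99 : RP := ⟨nat_lit 9, nat_lit 1, nat_lit 18, nat_lit 29, nat_lit 178686, nat_lit 182430, nat_lit 178696, nat_lit 0x16fdc63f2732fc, nat_lit 0x177919496cc5a1, nat_lit 0x400000000000000000, nat_lit 0x1, nat_lit 52, nat_lit 108893, nat_lit 108160, nat_lit 108896, [nat_lit 0x5f82c1000010010e, nat_lit 0x6159f3000010010f, nat_lit 0x6089b800001000c3], nat_lit 108145, nat_lit 108145, []⟩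

set_option maxRecDepth 100000 in
theorem h99 : rchk Cd.ms p99 = true := by
  decide +kernel

/-- the row checks of this file -/
noncomputable def rs64 : List RP := [p98, p99]

theorem R64 : RCk Cd.ms rs64 :=
  RCk.cons h98 (RCk.cons h99 RCk.nil)

end Pool.Agent.Moser.Ck.Cr
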