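import Pool.Agent.Lib_MP_cc07e8_cd.Ds
import Pool.Agent.Lib_MP_cc07e8_ck.CkAsmDefs

/-! # MP_cc07e8_co: row checks of the explicit start, part 65 -/

namespace Pool.Agent.Moser.Ck.Cr

/-- row check 100 -/
noncomputable def p100 : RP := ⟨nat_lit 9, nat_lit 1, nat_lit 18, nat_lit 29, nat_lit 182359, nat_lit 186073, nat_lit 182369, nat_lit 0x168a8a6cd70152, nat_lit 0x170010e40c6779, nat_lit 0x400000000000000000, nat_lit 0x1, nat_lit 87, nat_lit 109613, nat_lit 108896, nat_lit 109616, [nat_lit 0x603c0b0000100110, nat_lit 0x6210870000100110, nat_lit 0x5f18c100001000b0], nat_lit 108881, nat_lit 108881, []⟩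

set_option maxRecDepth 100000 in
theorem h100 : rchk Cd.ms p100 = true := by
  decide +kernel

/-- row check 101 -/
noncomputable def p101 : RP := ⟨nat_lit 9, nat_lit 1, nat_lit 18, nat_lit 29, nat_lit 186007, nat_lit 189681, nat_lit 186011, nat_lit 0x161cc6e3349ef2, nat_lit 0x168c969809fc83, nat_lit 0x400000000000000000, nat_lit 0x1, nat_lit 70, nat_lit 110317, nat_lit 109616, nat_lit 110320, [nat_lit 0x641d730000100112, nat_lit 0x6207550000100112, nat_lit 0x61b449000010009c], nat_lit 109601, nat_lit 109601, []⟩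

set_option maxRecDepth 100000 in
theorem h101 : rchk Cd.ms p101 = true := by
  decide +kernel

/-- the row checks of this file -/
noncomputable def rs65 : List RP := [p100, p101]

theorem R65 : RCk Cd.ms rs65 :=
  RCk.cons h100 (RCk.cons h101 RCk.nil)

end Pool.Agent.Moser.Ck.Cr
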