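import Pool.Agent.Lib_MP_cc07e8_cd.Ds
import Pool.Agent.Lib_MP_cc07e8_ck.CkAsmDefs

/-! # MP_cc07e8_co: row checks of the explicit start, part 66 -/

namespace Pool.Agent.Moser.Ck.Cr

/-- row check 102 -/
noncomputable def p102 : RP := ⟨nat_lit 9, nat_lit 1, nat_lit 18, nat_lit 29, nat_lit 189615, nat_lit 193169, nat_lit 189619, nat_lit 0x15b68fd2020ddd, nat_lit 0x161ebf4d397fe4, nat_lit 0x400000000000000000, nat_lit 0x1, nat_lit 50, nat_lit 110989, nat_lit 110320, nat_lit 110992, [nat_lit 0x5f7e4a0000100113, nat_lit 0x60998b0000100114, nat_lit 0x5ffd430000100079], nat_lit 110305, nat_lit 110305, []⟩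

set_option maxRecDepth 100000 in
theorem h102 : rchk Cd.ms p102 = true := by
  decide +kernel

/-- row check 103 -/
noncomputable def p103 : RP := ⟨nat_lit 9, nat_lit 1, nat_lit 18, nat_lit 29, nat_lit 193096, nat_lit 196445, nat_lit 193105, nat_lit 0x1559dd67fdbcda, nat_lit 0x15b8a9c867176d, nat_lit 0x400000000000000000, nat_lit 0x1, nat_lit 85, nat_lit 111613, nat_lit 110992, nat_lit 111616, [nat_lit 0x619c5f0000100115, nat_lit 0x5e81610000100116, nat_lit 0x5a03360000100045], nat_lit 110977, nat_lit 110977, []⟩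

set_option maxRecDepth 100000 in
theorem h103 : rchk Cd.ms p103 = true := by
  decide +kernel

/-- the row checks of this file -/
noncomputable def rs66 : List RP := [p102, p103]

theorem R66 : RCk Cd.ms rs66 :=
  RCk.cons h102 (RCk.cons h103 RCk.nil)

end Pool.Agent.Moser.Ck.Cr
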