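import Pool.Agent.Lib_MP_cc07e8_cd.Ds
import Pool.Agent.Lib_MP_cc07e8_ck.CkAsmDefs

/-! # MP_cc07e8_co: row checks of the explicit start, part 67 -/

namespace Pool.Agent.Moser.Ck.Cr

/-- row check 104 -/
noncomputable def p104 : RP := ⟨nat_lit 9, nat_lit 1, nat_lit 18, nat_lit 29, nat_lit 196381, nat_lit 199759, nat_lit 196381, nat_lit 0x14ff2fac1300b3, nat_lit 0x155ba56be4e3fc, nat_lit 0x400000000000000000, nat_lit 0x1, nat_lit 72, nat_lit 112237, nat_lit 111616, nat_lit 112240, [nat_lit 0x61a1cc0000100117, nat_lit 0x62faa10000100117, nat_lit 0x5f51620000100042], nat_lit 111601, nat_lit 111601, []⟩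

set_option maxRecDepth 100000 in
theorem h104 : rchk Cd.ms p104 = true := by
  decide +kernel

/-- row check 105 -/
noncomputable def p105 : RP := ⟨nat_lit 9, nat_lit 2, nat_lit 18, nat_lit 29, nat_lit 199673, nat_lit 203109, nat_lit 199694, nat_lit 0x14a687aeccaeba, nat_lit 0x1501805778406c, nat_lit 0x400000000000000000, nat_lit 0x1, nat_lit 51, nat_lit 112861, nat_lit 112240, nat_lit 112864, [nat_lit 0x5f3c0c0000100118, nat_lit 0x60370e0000100119, nat_lit 0x58ef26000010003f], nat_lit 112225, nat_lit 112225, []⟩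

set_option maxRecDepth 100000 in
theorem h105 : rchk Cd.ms p105 = true := by
  decide +kernel

/-- the row checks of this file -/
noncomputable def rs67 : List RP := [p104, p105]

theorem R67 : RCk Cd.ms rs67 :=
  RCk.cons h104 (RCk.cons h105 RCk.nil)

end Pool.Agent.Moser.Ck.Cr
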