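import Pool.Agent.Lib_MP_cc07e8_cd.Ds
import Pool.Agent.Lib_MP_cc07e8_ck.CkAsmDefs

/-! # MP_cc07e8_co: row checks of the explicit start, part 68 -/

namespace Pool.Agent.Moser.Ck.Cr

/-- row check 106 -/
noncomputable def p106 : RP := ⟨nat_lit 10, nat_lit 1, nat_lit 18, nat_lit 29, nat_lit 203037, nat_lit 206409, nat_lit 203043, nat_lit 0x145202bc6ace4e, nat_lit 0x14a8679a1293d1, nat_lit 0x400000000000000000, nat_lit 0x1, nat_lit 59, nat_lit 113469, nat_lit 112864, nat_lit 113472, [nat_lit 0x604b45000010011a, nat_lit 0x611c7e000010011a, nat_lit 0x5f7227000010002c], nat_lit 112849, nat_lit 112849, []⟩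

set_option maxRecDepth 100000 in
theorem h106 : rchk Cd.ms p106 = true := by
  decide +kernel

/-- row check 107 -/
noncomputable def p107 : RP := ⟨nat_lit 10, nat_lit 1, nat_lit 18, nat_lit 29, nat_lit 206343, nat_lit 209745, nat_lit 206343, nat_lit 0x13ff45c6c634ea, nat_lit 0x1453acb151ad07, nat_lit 0x400000000000000000, nat_lit 0x1, nat_lit 91, nat_lit 114077, nat_lit 113472, nat_lit 114080, [nat_lit 0x62107f000010011b, nat_lit 0x6022f1000010011c, nat_lit 0x5910600000100029], nat_lit 113457, nat_lit 113457, []⟩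

set_option maxRecDepth 100000 in
theorem h107 : rchk Cd.ms p107 = true := by
  decide +kernel

/-- the row checks of this file -/
noncomputable def rs68 : List RP := [p106, p107]

theorem R68 : RCk Cd.ms rs68 :=
  RCk.cons h106 (RCk.cons h107 RCk.nil)

end Pool.Agent.Moser.Ck.Cr
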