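import Pool.Agent.Lib_MP_cc07e8_cd.Ds
import Pool.Agent.Lib_MP_cc07e8_ck.CkAsmDefs

/-! # MP_cc07e8_co: row checks of the explicit start, part 69 -/

namespace Pool.Agent.Moser.Ck.Cr

/-- row check 108 -/
noncomputable def p108 : RP := ⟨nat_lit 10, nat_lit 1, nat_lit 18, nat_lit 29, nat_lit 209678, nat_lit 213027, nat_lit 209678, nat_lit 0x13b0670a6f40db, nat_lit 0x1400e88a8f4ac1, nat_lit 0x400000000000000000, nat_lit 0x1, nat_lit 70, nat_lit 114669, nat_lit 114080, nat_lit 114672, [nat_lit 0x5ef7d3000010011d, nat_lit 0x5e756b000010011d, nat_lit 0x5c0a700000100016], nat_lit 114065, nat_lit 114065, []⟩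

set_option maxRecDepth 100000 in
theorem h108 : rchk Cd.ms p108 = true := by
  decide +kernel

/-- row check 109 -/
noncomputable def p109 : RP := ⟨nat_lit 10, nat_lit 1, nat_lit 18, nat_lit 28, nat_lit 212932, nat_lit 216164, nat_lit 212959, nat_lit 0x1367416a4bf96c, nat_lit 0x13b2a6bacb0255, nat_lit 0x400000000000000000, nat_lit 0x1, nat_lit 61, nat_lit 115229, nat_lit 114672, nat_lit 115232, [nat_lit 0x5eb154000010011e, nat_lit 0x5efa340000100112], nat_lit 114657, nat_lit 114657, []⟩

set_option maxRecDepth 100000 in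
theorem h109 : rchk Cd.ms p109 = true := by
  decide +kernel

/-- the row checks of this file -/
noncomputable def rs69 : List RP := [p108, p109]

theorem R69 : RCk Cd.ms rs69 :=
  RCk.cons h108 (RCk.cons h109 RCk.nil)

end Pool.Agent.Moser.Ck.Cr
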