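import Pool.Agent.Lib_MP_cc07e8_cd.Ds
import Pool.Agent.Lib_MP_cc07e8_ck.CkAsmDefs

/-! # MP_cc07e8_co: row checks of the explicit start, part 70 -/

namespace Pool.Agent.Moser.Ck.Cr

/-- row check 110 -/
noncomputable def p110 : RP := ⟨nat_lit 10, nat_lit 1, nat_lit 18, nat_lit 28, nat_lit 216078, nat_lit 219422, nat_lit 216095, nat_lit 0x131d804fbf134c, nat_lit 0x13693b864ad0a7, nat_lit 0x400000000000000000, nat_lit 0x1, nat_lit 46, nat_lit 115805, nat_lit 115232, nat_lit 115808, [nat_lit 0x5c8bed0000100120, nat_lit 0x5df7020000100120], nat_lit 115217, nat_lit 115217, []⟩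

set_option maxRecDepth 100000 in
theorem h110 : rchk Cd.ms p110 = true := by
  decide +kernel

/-- row check 111 -/
noncomputable def p111 : RP := ⟨nat_lit 10, nat_lit 1, nat_lit 18, nat_lit 28, nat_lit 219330, nat_lit 222804, nat_lit 219352, nat_lit 0x12d338b350f798, nat_lit 0x131f8dc88a2d3e, nat_lit 0x400000000000000000, nat_lit 0x1, nat_lit 58, nat_lit 116397, nat_lit 115808, nat_lit 116400, [nat_lit 0x5e0ca40000100121, nat_lit 0x5d0fd30000100122, nat_lit 0x5b7030000010000d], nat_lit 115793, nat_lit 115793, []⟩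

set_option maxRecDepth 100000 in
theorem h111 : rchk Cd.ms p111 = true := by
  decide +kernel

/-- the row checks of this file -/
noncomputable def rs70 : List RP := [p110, p111]

theorem R70 : RCk Cd.ms rs70 :=
  RCk.cons h110 (RCk.cons h111 RCk.nil)

end Pool.Agent.Moser.Ck.Cr
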