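import Pool.Agent.Lib_MP_cc07e8_cd.Ds
import Pool.Agent.Lib_MP_cc07e8_ck.CkAsmDefs

/-! # MP_cc07e8_co: row checks of the explicit start, part 71 -/

namespace Pool.Agent.Moser.Ck.Cr

/-- row check 112 -/
noncomputable def p112 : RP := ⟨nat_lit 10, nat_lit 1, nat_lit 18, nat_lit 28, nat_lit 222730, nat_lit 226035, nat_lit 222734, nat_lit 0x128e5597ba9f98, nat_lit 0x12d4d297c494fc, nat_lit 0x400000000000000000, nat_lit 0x1, nat_lit 98, nat_lit 116957, nat_lit 116400, nat_lit 116960, [nat_lit 0x5f40310000100123, nat_lit 0x5dbda9000010010d], nat_lit 116385, nat_lit 116385, []⟩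

set_option maxRecDepth 100000 in
theorem h112 : rchk Cd.ms p112 = true := by
  decide +kernel

/-- row check 113 -/
noncomputable def p113 : RP := ⟨nat_lit 10, nat_lit 1, nat_lit 18, nat_lit 28, nat_lit 225946, nat_lit 229110, nat_lit 225965, nat_lit 0x124e93e6317b42, nat_lit 0x1290349bad172f, nat_lit 0x400000000000000000, nat_lit 0x1, nat_lit 70, nat_lit 117485, nat_lit 116960, nat_lit 117488, [nat_lit 0x5c2d820000100124, nat_lit 0x5cc9b900001000ec], nat_lit 116945, nat_lit 116945, []⟩

set_option maxRecDepth 100000 in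
theorem h113 : rchk Cd.ms p113 = true := by
  decide +kernel

/-- the row checks of this file -/
noncomputable def rs71 : List RP := [p112, p113]

theorem R71 : RCk Cd.ms rs71 :=
  RCk.cons h112 (RCk.cons h113 RCk.nil)

end Pool.Agent.Moser.Ck.Cr
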