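import Pool.Agent.Lib_MP_cc07e8_cd.Ds
import Pool.Agent.Lib_MP_cc07e8_ck.CkAsmDefs

/-! # MP_cc07e8_co: row checks of the explicit start, part 72 -/

namespace Pool.Agent.Moser.Ck.Cr

/-- row check 114 -/
noncomputable def p114 : RP := ⟨nat_lit 10, nat_lit 1, nat_lit 18, nat_lit 28, nat_lit 229019, nat_lit 232308, nat_lit 229039, nat_lit 0x120e0fb37a6774, nat_lit 0x1250709f288ebb, nat_lit 0x400000000000000000, nat_lit 0x1, nat_lit 60, nat_lit 118029, nat_lit 117488, nat_lit 118032, [nat_lit 0x5b7a130000100125, nat_lit 0x5de30900001000fb], nat_lit 117473, nat_lit 117473, []⟩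

set_option maxRecDepth 100000 in
theorem h114 : rchk Cd.ms p114 = true := by
  decide +kernel

/-- row check 115 -/
noncomputable def p115 : RP := ⟨nat_lit 10, nat_lit 2, nat_lit 18, nat_lit 28, nat_lit 232236, nat_lit 235630, nat_lit 232236, nat_lit 0x11cce5d4f0003e, nat_lit 0x120f7e8aeff21a, nat_lit 0x400000000000000000, nat_lit 0x1, nat_lit 56, nat_lit 118589, nat_lit 118032, nat_lit 118592, [nat_lit 0x5b706c0000100127, nat_lit 0x5c1b500000100109], nat_lit 118017, nat_lit 118017, []⟩

set_option maxRecDepth 100000 in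
theorem h115 : rchk Cd.ms p115 = true := by
  decide +kernel

/-- the row checks of this file -/
noncomputable def rs72 : List RP := [p114, p115]

theorem R72 : RCk Cd.ms rs72 :=
  RCk.cons h114 (RCk.cons h115 RCk.nil)

end Pool.Agent.Moser.Ck.Cr
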