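import Pool.Agent.Lib_MP_cc07e8_cd.Ds
import Pool.Agent.Lib_MP_cc07e8_ck.CkAsmDefs

/-! # MP_cc07e8_co: row checks of the explicit start, part 73 -/

namespace Pool.Agent.Moser.Ck.Cr

/-- row check 116 -/
noncomputable def p116 : RP := ⟨nat_lit 11, nat_lit 1, nat_lit 18, nat_lit 28, nat_lit 235537, nat_lit 238791, nat_lit 235557, nat_lit 0x1190936578e443, nat_lit 0x11ceb27104088d, nat_lit 0x400000000000000000, nat_lit 0x1, nat_lit 103, nat_lit 119117, nat_lit 118592, nat_lit 119120, [nat_lit 0x5b9adf0000100128, nat_lit 0x5bc00300001000e8], nat_lit 118577, nat_lit 118577, []⟩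

set_option maxRecDepth 100000 in
theorem h116 : rchk Cd.ms p116 = true := by
  decide +kernel

/-- row check 117 -/
noncomputable def p117 : RP := ⟨nat_lit 11, nat_lit 1, nat_lit 19, nat_lit 29, nat_lit 119353, nat_lit 121720, nat_lit 119359, nat_lit 0x113ab444b720f6, nat_lit 0x11922d4bc3a47f, nat_lit 0x200000000000000000, nat_lit 0x1, nat_lit 40, nat_lit 119885, nat_lit 119120, nat_lit 119888, [nat_lit 0x5cd1810000100129, nat_lit 0x5be21d000010012a, nat_lit 0x5bca2c00001000ad], nat_lit 119105, nat_lit 119105, []⟩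

set_option maxRecDepth 100000 in
theorem h117 : rchk Cd.ms p117 = true := by
  decide +kernel

/-- the row checks of this file -/
noncomputable def rs73 : List RP := [p116, p117]

theorem R73 : RCk Cd.ms rs73 :=
  RCk.cons h116 (RCk.cons h117 RCk.nil)

end Pool.Agent.Moser.Ck.Cr
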