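import Pool.Agent.Lib_MP_cc07e8_cd.Ds
import Pool.Agent.Lib_MP_cc07e8_ck.CkAsmDefs

/-! # MP_cc07e8_co: row checks of the explicit start, part 74 -/

namespace Pool.Agent.Moser.Ck.Cr

/-- row check 118 -/
noncomputable def p118 : RP := ⟨nat_lit 11, nat_lit 1, nat_lit 19, nat_lit 29, nat_lit 121668, nat_lit 124074, nat_lit 121683, nat_lit 0x10e70599898aed, nat_lit 0x113c96dac645b4, nat_lit 0x200000000000000000, nat_lit 0x1, nat_lit 30, nat_lit 120653, nat_lit 119888, nat_lit 120656, [nat_lit 0x5693110000100034, nat_lit 0x5d0c4b000010012b, nat_lit 0x5c4d79000010012c, nat_lit 0x5984a60000100075], nat_lit 119873, nat_lit 119873, []⟩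

set_option maxRecDepth 100000 in
theorem h118 : rchk Cd.ms p118 = true := by
  decide +kernel

/-- row check 119 -/
noncomputable def p119 : RP := ⟨nat_lit 11, nat_lit 1, nat_lit 19, nat_lit 29, nat_lit 124028, nat_lit 126459, nat_lit 124036, nat_lit 0x10956a3144e74e, nat_lit 0x10e8a06f3a3f5b, nat_lit 0x200000000000000000, nat_lit 0x1, nat_lit 32, nat_lit 121421, nat_lit 120656, nat_lit 121424, [nat_lit 0x5cd4de000010012d, nat_lit 0x5b3ad3000010012e, nat_lit 0x5ab48000001000a5], nat_lit 120641, nat_lit 120641, []⟩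

set_option maxRecDepth 100000 in
theorem h119 : rchk Cd.ms p119 = true := by
  decide +kernel

/-- the row checks of this file -/
noncomputable def rs74 : List RP := [p118, p119]

theorem R74 : RCk Cd.ms rs74 :=
  RCk.cons h118 (RCk.cons h119 RCk.nil)

end Pool.Agent.Moser.Ck.Cr
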