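import Pool.Agent.Lib_MP_cc07e8_cd.Ds
import Pool.Agent.Lib_MP_cc07e8_ck.CkAsmDefs

/-! # MP_cc07e8_co: row checks of the explicit start, part 75 -/

namespace Pool.Agent.Moser.Ck.Cr

/-- row check 120 -/
noncomputable def p120 : RP := ⟨nat_lit 11, nat_lit 1, nat_lit 19, nat_lit 29, nat_lit 126420, nat_lit 128772, nat_lit 126420, nat_lit 0x104928a4934db7, nat_lit 0x1096b979333758, nat_lit 0x200000000000000000, nat_lit 0x1, nat_lit 50, nat_lit 122157, nat_lit 121424, nat_lit 122160, [nat_lit 0x5b0943000010012f, nat_lit 0x5b644d0000100130, nat_lit 0x5a5b000000100081], nat_lit 121409, nat_lit 121409, []⟩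

set_option maxRecDepth 100000 in
theorem h120 : rchk Cd.ms p120 = true := by
  decide +kernel

/-- row check 121 -/
noncomputable def p121 : RP := ⟨nat_lit 11, nat_lit 1, nat_lit 19, nat_lit 29, nat_lit 128734, nat_lit 131165, nat_lit 128734, nat_lit 0xffd18870b786a, nat_lit 0x104a63b13c547d, nat_lit 0x200000000000000000, nat_lit 0x1, nat_lit 36, nat_lit 122909, nat_lit 122160, nat_lit 122912, [nat_lit 0x5ae10c0000100131, nat_lit 0x5cc1610000100132, nat_lit 0x58ac80000010008d], nat_lit 122145, nat_lit 122145, []⟩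

set_option maxRecDepth 100000 in
theorem h121 : rchk Cd.ms p121 = true := by
  decide +kernel

/-- the row checks of this file -/
noncomputable def rs75 : List RP := [p120, p121]

theorem R75 : RCk Cd.ms rs75 :=
  RCk.cons h120 (RCk.cons h121 RCk.nil)

end Pool.Agent.Moser.Ck.Cr
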