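import Pool.Agent.Lib_MP_cc07e8_cd.Ds
import Pool.Agent.Lib_MP_cc07e8_ck.CkAsmDefs

/-! # MP_cc07e8_co: row checks of the explicit start, part 76 -/

namespace Pool.Agent.Moser.Ck.Cr

/-- row check 122 -/
noncomputable def p122 : RP := ⟨nat_lit 11, nat_lit 2, nat_lit 19, nat_lit 29, nat_lit 131118, nat_lit 133484, nat_lit 131126, nat_lit 0xfb5fcabaf349e, nat_lit 0xffe90210d07d4, nat_lit 0x200000000000000000, nat_lit 0x1, nat_lit 34, nat_lit 123629, nat_lit 122912, nat_lit 123632, [nat_lit 0x5a53f40000100133, nat_lit 0x59ce490000100134, nat_lit 0x5892ea0000100069], nat_lit 122897, nat_lit 122897, []⟩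

set_option maxRecDepth 100000 in
theorem h122 : rchk Cd.ms p122 = true := by
  decide +kernel

/-- row check 123 -/
noncomputable def p123 : RP := ⟨nat_lit 12, nat_lit 1, nat_lit 19, nat_lit 29, nat_lit 133444, nat_lit 135882, nat_lit 133444, nat_lit 0xf6f0220fffb2d, nat_lit 0xfb7314d968c88, nat_lit 0x200000000000000000, nat_lit 0x1, nat_lit 54, nat_lit 124365, nat_lit 123632, nat_lit 124368, [nat_lit 0x580ea10000100135, nat_lit 0x59f9e80000100135, nat_lit 0x584c9b0000100076], nat_lit 123617, nat_lit 123617, []⟩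

set_option maxRecDepth 100000 in
theorem h123 : rchk Cd.ms p123 = true := by
  decide +kernel

/-- the row checks of this file -/
noncomputable def rs76 : List RP := [p122, p123]

theorem R76 : RCk Cd.ms rs76 :=
  RCk.cons h122 (RCk.cons h123 RCk.nil)

end Pool.Agent.Moser.Ck.Cr
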