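import Pool.Agent.Lib_MP_cc07e8_cd.Ds
import Pool.Agent.Lib_MP_cc07e8_ck.CkAsmDefs

/-! # MP_cc07e8_co: row checks of the explicit start, part 77 -/

namespace Pool.Agent.Moser.Ck.Cr

/-- row check 124 -/
noncomputable def p124 : RP := ⟨nat_lit 12, nat_lit 1, nat_lit 19, nat_lit 29, nat_lit 135828, nat_lit 138309, nat_lit 135842, nat_lit 0xf29ad6686562e, nat_lit 0xf70943eef6446, nat_lit 0x200000000000000000, nat_lit 0x1, nat_lit 43, nat_lit 125101, nat_lit 124368, nat_lit 125104, [nat_lit 0x59852e0000100136, nat_lit 0x5ad6590000100137, nat_lit 0x5727f50000100073], nat_lit 124353, nat_lit 124353, []⟩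

set_option maxRecDepth 100000 in
theorem h124 : rchk Cd.ms p124 = true := by
  decide +kernel

/-- row check 125 -/
noncomputable def p125 : RP := ⟨nat_lit 12, nat_lit 1, nat_lit 19, nat_lit 29, nat_lit 138266, nat_lit 140711, nat_lit 138268, nat_lit 0xee76a55a0f09e, nat_lit 0xf2ae2705b4d25, nat_lit 0x200000000000000000, nat_lit 0x1, nat_lit 36, nat_lit 125821, nat_lit 125104, nat_lit 125824, [nat_lit 0x573d4f0000100138, nat_lit 0x5a07ca0000100139, nat_lit 0x573ce7000010005f], nat_lit 125089, nat_lit 125089, []⟩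

set_option maxRecDepth 100000 in
theorem h125 : rchk Cd.ms p125 = true := by
  decide +kernel

/-- the row checks of this file -/
noncomputable def rs77 : List RP := [p124, p125]

theorem R77 : RCk Cd.ms rs77 :=
  RCk.cons h124 (RCk.cons h125 RCk.nil)

end Pool.Agent.Moser.Ck.Cr
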