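import Pool.Agent.Lib_MP_cc07e8_cd.Ds
import Pool.Agent.Lib_MP_cc07e8_ck.CkAsmDefs

/-! # MP_cc07e8_co: row checks of the explicit start, part 78 -/

namespace Pool.Agent.Moser.Ck.Cr

/-- row check 126 -/
noncomputable def p126 : RP := ⟨nat_lit 12, nat_lit 1, nat_lit 19, nat_lit 29, nat_lit 140669, nat_lit 143086, nat_lit 140669, nat_lit 0xea815e624b85d, nat_lit 0xee88df6fddab7, nat_lit 0x200000000000000000, nat_lit 0x1, nat_lit 30, nat_lit 126525, nat_lit 125824, nat_lit 126528, [nat_lit 0x57b7f5000010013a, nat_lit 0x58551d000010013b, nat_lit 0x572ddc000010004b], nat_lit 125809, nat_lit 125809, []⟩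

set_option maxRecDepth 100000 in
theorem h126 : rchk Cd.ms p126 = true := by
  decide +kernel

/-- row check 127 -/
noncomputable def p127 : RP := ⟨nat_lit 12, nat_lit 1, nat_lit 19, nat_lit 29, nat_lit 143036, nat_lit 145543, nat_lit 143044, nat_lit 0xe68be8a99a64c, nat_lit 0xea965aa5d14f0, nat_lit 0x200000000000000000, nat_lit 0x1, nat_lit 57, nat_lit 127245, nat_lit 126528, nat_lit 127248, [nat_lit 0x566cea000010013c, nat_lit 0x5b9d29000010013d, nat_lit 0x56eda10000100057], nat_lit 126513, nat_lit 126513, []⟩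

set_option maxRecDepth 100000 in
theorem h127 : rchk Cd.ms p127 = true := by
  decide +kernel

/-- the row checks of this file -/
noncomputable def rs78 : List RP := [p126, p127]

theorem R78 : RCk Cd.ms rs78 :=
  RCk.cons h126 (RCk.cons h127 RCk.nil)

end Pool.Agent.Moser.Ck.Cr
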