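import Pool.Agent.Lib_MP_cc07e8_cd.Ds
import Pool.Agent.Lib_MP_cc07e8_ck.CkAsmDefs

/-! # MP_cc07e8_co: row checks of the explicit start, part 79 -/

namespace Pool.Agent.Moser.Ck.Cr

/-- row check 128 -/
noncomputable def p128 : RP := ⟨nat_lit 12, nat_lit 1, nat_lit 19, nat_lit 29, nat_lit 145488, nat_lit 148027, nat_lit 145500, nat_lit 0xe2ad831aebfa8, nat_lit 0xe6a23879d9345, nat_lit 0x200000000000000000, nat_lit 0x1, nat_lit 35, nat_lit 127965, nat_lit 127248, nat_lit 127968, [nat_lit 0x5659eb000010013e, nat_lit 0x562718000010013e, nat_lit 0x548fc40000100054], nat_lit 127233, nat_lit 127233, []⟩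

set_option maxRecDepth 100000 in
theorem h128 : rchk Cd.ms p128 = true := by
  decide +kernel

/-- row check 129 -/
noncomputable def p129 : RP := ⟨nat_lit 12, nat_lit 2, nat_lit 19, nat_lit 29, nat_lit 147985, nat_lit 150540, nat_lit 147985, nat_lit 0xdee4cfcaff571, nat_lit 0xe2bdfb4c5176f, nat_lit 0x200000000000000000, nat_lit 0x1, nat_lit 45, nat_lit 128685, nat_lit 127968, nat_lit 128688, [nat_lit 0x55bfaa000010013f, nat_lit 0x55ccdd0000100140, nat_lit 0x55626b0000100051], nat_lit 127953, nat_lit 127953, []⟩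

set_option maxRecDepth 100000 in
theorem h129 : rchk Cd.ms p129 = true := by
  decide +kernel

/-- the row checks of this file -/
noncomputable def rs79 : List RP := [p128, p129]

theorem R79 : RCk Cd.ms rs79 :=
  RCk.cons h128 (RCk.cons h129 RCk.nil)

end Pool.Agent.Moser.Ck.Cr
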