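import Pool.Agent.Lib_MP_cc07e8_cd.Ds
import Pool.Agent.Lib_MP_cc07e8_ck.CkAsmDefs

/-! # MP_cc07e8_co: row checks of the explicit start, part 80 -/

namespace Pool.Agent.Moser.Ck.Cr

/-- row check 130 -/
noncomputable def p130 : RP := ⟨nat_lit 13, nat_lit 1, nat_lit 19, nat_lit 29, nat_lit 150487, nat_lit 153081, nat_lit 150497, nat_lit 0xdb31a7f743895, nat_lit 0xdef8e86e3f6a4, nat_lit 0x200000000000000000, nat_lit 0x1, nat_lit 61, nat_lit 129405, nat_lit 128688, nat_lit 129408, [nat_lit 0x5742750000100141, nat_lit 0x55eb2c0000100142, nat_lit 0x560c19000010004d], nat_lit 128673, nat_lit 128673, []⟩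

set_option maxRecDepth 100000 in
theorem h130 : rchk Cd.ms p130 = true := by
  decide +kernel

/-- row check 131 -/
noncomputable def p131 : RP := ⟨nat_lit 13, nat_lit 1, nat_lit 19, nat_lit 29, nat_lit 153021, nat_lit 155708, nat_lit 153037, nat_lit 0xd77ef1c9d2d1e, nat_lit 0xdb47a890513d5, nat_lit 0x200000000000000000, nat_lit 0x1, nat_lit 41, nat_lit 130141, nat_lit 129408, nat_lit 130144, [nat_lit 0x5586d60000100143, nat_lit 0x5876520000100144, nat_lit 0x534a4d0000100059], nat_lit 129393, nat_lit 129393, []⟩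

set_option maxRecDepth 100000 in
theorem h131 : rchk Cd.ms p131 = true := by
  decide +kernel

/-- the row checks of this file -/
noncomputable def rs80 : List RP := [p130, p131]

theorem R80 : RCk Cd.ms rs80 :=
  RCk.cons h130 (RCk.cons h131 RCk.nil)

end Pool.Agent.Moser.Ck.Cr
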