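import Pool.Agent.Lib_MP_cc07e8_cd.Ds
import Pool.Agent.Lib_MP_cc07e8_ck.CkAsmDefs

/-! # MP_cc07e8_co: row checks of the explicit start, part 81 -/

namespace Pool.Agent.Moser.Ck.Cr

/-- row check 132 -/
noncomputable def p132 : RP := ⟨nat_lit 13, nat_lit 1, nat_lit 19, nat_lit 29, nat_lit 155645, nat_lit 158306, nat_lit 155664, nat_lit 0xd3f595f2fdeb9, nat_lit 0xd7954635d1f32, nat_lit 0x200000000000000000, nat_lit 0x1, nat_lit 49, nat_lit 130861, nat_lit 130144, nat_lit 130864, [nat_lit 0x564ee60000100145, nat_lit 0x53cf8c0000100146, nat_lit 0x52fd890000100045], nat_lit 130129, nat_lit 130129, []⟩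

set_option maxRecDepth 100000 in
theorem h132 : rchk Cd.ms p132 = true := by
  decide +kernel

/-- row check 133 -/
noncomputable def p133 : RP := ⟨nat_lit 13, nat_lit 1, nat_lit 19, nat_lit 29, nat_lit 158249, nat_lit 160816, nat_lit 158262, nat_lit 0xd0a6ad25504ea, nat_lit 0xd409215ca5c34, nat_lit 0x200000000000000000, nat_lit 0x1, nat_lit 36, nat_lit 131549, nat_lit 130864, nat_lit 131552, [nat_lit 0x5379620000100147, nat_lit 0x53fe1b0000100147, nat_lit 0x5114150000100022], nat_lit 130849, nat_lit 130849, []⟩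

set_option maxRecDepth 100000 in
theorem h133 : rchk Cd.ms p133 = true := by
  decide +kernel

/-- the row checks of this file -/
noncomputable def rs81 : List RP := [p132, p133]

theorem R81 : RCk Cd.ms rs81 :=
  RCk.cons h132 (RCk.cons h133 RCk.nil)

end Pool.Agent.Moser.Ck.Cr
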