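import Pool.Agent.Lib_MP_cc07e8_cd.Ds
import Pool.Agent.Lib_MP_cc07e8_ck.CkAsmDefs

/-! # MP_cc07e8_co: row checks of the explicit start, part 82 -/

namespace Pool.Agent.Moser.Ck.Cr

/-- row check 134 -/
noncomputable def p134 : RP := ⟨nat_lit 13, nat_lit 1, nat_lit 19, nat_lit 29, nat_lit 160771, nat_lit 163412, nat_lit 160771, nat_lit 0xcd561e6453179, nat_lit 0xd0b5a08f218ee, nat_lit 0x200000000000000000, nat_lit 0x1, nat_lit 59, nat_lit 132253, nat_lit 131552, nat_lit 132256, [nat_lit 0x5462570000100148, nat_lit 0x53d4230000100149, nat_lit 0x538dc7000010002f], nat_lit 131537, nat_lit 131537, []⟩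

set_option maxRecDepth 100000 in
theorem h134 : rchk Cd.ms p134 = true := by
  decide +kernel

/-- row check 135 -/
noncomputable def p135 : RP := ⟨nat_lit 13, nat_lit 1, nat_lit 19, nat_lit 29, nat_lit 163359, nat_lit 165976, nat_lit 163367, nat_lit 0xca2a1391e2b4f, nat_lit 0xcd672c57533af, nat_lit 0x200000000000000000, nat_lit 0x1, nat_lit 37, nat_lit 132941, nat_lit 132256, nat_lit 132944, [nat_lit 0x524f6e000010014a, nat_lit 0x519763000010014b, nat_lit 0x4efbf9000010001b], nat_lit 132241, nat_lit 132241, []⟩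

set_option maxRecDepth 100000 in
theorem h135 : rchk Cd.ms p135 = true := by
  decide +kernel

/-- the row checks of this file -/
noncomputable def rs82 : List RP := [p134, p135]

theorem R82 : RCk Cd.ms rs82 :=
  RCk.cons h134 (RCk.cons h135 RCk.nil)

end Pool.Agent.Moser.Ck.Cr
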