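import Pool.Agent.Lib_MP_cc07e8_cd.Ds
import Pool.Agent.Lib_MP_cc07e8_ck.CkAsmDefs

/-! # MP_cc07e8_co: row checks of the explicit start, part 83 -/

namespace Pool.Agent.Moser.Ck.Cr

/-- row check 136 -/
noncomputable def p136 : RP := ⟨nat_lit 13, nat_lit 1, nat_lit 19, nat_lit 29, nat_lit 165909, nat_lit 168566, nat_lit 165930, nat_lit 0xc70ee151c1df9, nat_lit 0xca3efa022b62f, nat_lit 0x200000000000000000, nat_lit 0x1, nat_lit 43, nat_lit 133629, nat_lit 132944, nat_lit 133632, [nat_lit 0x527fbf000010014c, nat_lit 0x51d136000010014d, nat_lit 0x50a43c0000100017], nat_lit 132929, nat_lit 132929, []⟩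

set_option maxRecDepth 100000 in
theorem h136 : rchk Cd.ms p136 = true := by
  decide +kernel

/-- row check 137 -/
noncomputable def p137 : RP := ⟨nat_lit 13, nat_lit 2, nat_lit 19, nat_lit 29, nat_lit 168502, nat_lit 171244, nat_lit 168520, nat_lit 0xc3f1f5a18e347, nat_lit 0xc7223c37c049b, nat_lit 0x200000000000000000, nat_lit 0x1, nat_lit 53, nat_lit 134333, nat_lit 133632, nat_lit 134336, [nat_lit 0x5128a5000010014e, nat_lit 0x52ff0f000010014e, nat_lit 0x50aa4b0000100024], nat_lit 133617, nat_lit 133617, []⟩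

set_option maxRecDepth 100000 in
theorem h137 : rchk Cd.ms p137 = true := by
  decide +kernel

/-- the row checks of this file -/
noncomputable def rs83 : List RP := [p136, p137]

theorem R83 : RCk Cd.ms rs83 :=
  RCk.cons h136 (RCk.cons h137 RCk.nil)

end Pool.Agent.Moser.Ck.Cr
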