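import Pool.Agent.Lib_MP_cc07e8_cd.Ds
import Pool.Agent.Lib_MP_cc07e8_ck.CkAsmDefs

/-! # MP_cc07e8_co: row checks of the explicit start, part 84 -/

namespace Pool.Agent.Moser.Ck.Cr

/-- row check 138 -/
noncomputable def p138 : RP := ⟨nat_lit 14, nat_lit 1, nat_lit 19, nat_lit 29, nat_lit 171197, nat_lit 173827, nat_lit 171197, nat_lit 0xc108929ff6ffa, nat_lit 0xc3ffbb1818398, nat_lit 0x200000000000000000, nat_lit 0x1, nat_lit 39, nat_lit 135005, nat_lit 134336, nat_lit 135008, [nat_lit 0x514a3d000010014f, nat_lit 0x528a960000100150, nat_lit 0x46b2760000100001], nat_lit 134321, nat_lit 134321, []⟩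

set_option maxRecDepth 100000 in
theorem h138 : rchk Cd.ms p138 = true := by
  decide +kernel

/-- row check 139 -/
noncomputable def p139 : RP := ⟨nat_lit 14, nat_lit 1, nat_lit 19, nat_lit 29, nat_lit 173777, nat_lit 176498, nat_lit 173780, nat_lit 0xbe1cbc73f43ee, nat_lit 0xc116ca882cddc, nat_lit 0x200000000000000000, nat_lit 0x1, nat_lit 64, nat_lit 135693, nat_lit 135008, nat_lit 135696, [nat_lit 0x52f7570000100151, nat_lit 0x51df300000100152, nat_lit 0x4c65be000010000d], nat_lit 134993, nat_lit 134993, []⟩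

set_option maxRecDepth 100000 in
theorem h139 : rchk Cd.ms p139 = true := by
  decide +kernel

/-- the row checks of this file -/
noncomputable def rs84 : List RP := [p138, p139]

theorem R84 : RCk Cd.ms rs84 :=
  RCk.cons h138 (RCk.cons h139 RCk.nil)

end Pool.Agent.Moser.Ck.Cr
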