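import Pool.Agent.Lib_MP_cc07e8_cd.Ds
import Pool.Agent.Lib_MP_cc07e8_ck.CkAsmDefs

/-! # MP_cc07e8_co: row checks of the explicit start, part 85 -/

namespace Pool.Agent.Moser.Ck.Cr

/-- row check 140 -/
noncomputable def p140 : RP := ⟨nat_lit 14, nat_lit 1, nat_lit 19, nat_lit 29, nat_lit 176450, nat_lit 179196, nat_lit 176450, nat_lit 0xbb3ff90d20420, nat_lit 0xbe29f9bff2d09, nat_lit 0x200000000000000000, nat_lit 0x1, nat_lit 34, nat_lit 136381, nat_lit 135696, nat_lit 136384, [nat_lit 0x512b8c0000100153, nat_lit 0x503e4c0000100154, nat_lit 0x4ea8f80000100009], nat_lit 135681, nat_lit 135681, []⟩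

set_option maxRecDepth 100000 in
theorem h140 : rchk Cd.ms p140 = true := by
  decide +kernel

/-- row check 141 -/
noncomputable def p141 : RP := ⟨nat_lit 14, nat_lit 1, nat_lit 19, nat_lit 28, nat_lit 179136, nat_lit 181858, nat_lit 179148, nat_lit 0xb8824bc31057e, nat_lit 0xbb50075120492, nat_lit 0x200000000000000000, nat_lit 0x1, nat_lit 41, nat_lit 137053, nat_lit 136384, nat_lit 137056, [nat_lit 0x5012cf0000100154, nat_lit 0x503448000010014c], nat_lit 136369, nat_lit 136369, []⟩

set_option maxRecDepth 100000 in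
theorem h141 : rchk Cd.ms p141 = true := by
  decide +kernel

/-- the row checks of this file -/
noncomputable def rs85 : List RP := [p140, p141]

theorem R85 : RCk Cd.ms rs85 :=
  RCk.cons h140 (RCk.cons h141 RCk.nil)

end Pool.Agent.Moser.Ck.Cr
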