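import Pool.Agent.Lib_MP_cc07e8_cd.Ds
import Pool.Agent.Lib_MP_cc07e8_ck.CkAsmDefs

/-! # MP_cc07e8_co: row checks of the explicit start, part 86 -/

namespace Pool.Agent.Moser.Ck.Cr

/-- row check 142 -/
noncomputable def p142 : RP := ⟨nat_lit 14, nat_lit 1, nat_lit 19, nat_lit 28, nat_lit 181799, nat_lit 184547, nat_lit 181810, nat_lit 0xb5d20dc652e52, nat_lit 0xb891a005fe3a8, nat_lit 0x200000000000000000, nat_lit 0x1, nat_lit 52, nat_lit 137725, nat_lit 137056, nat_lit 137728, [nat_lit 0x4f18d60000100156, nat_lit 0x4ff8f4000010014a], nat_lit 137041, nat_lit 137041, []⟩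

set_option maxRecDepth 100000 in
theorem h142 : rchk Cd.ms p142 = true := by
  decide +kernel

/-- row check 143 -/
noncomputable def p143 : RP := ⟨nat_lit 14, nat_lit 1, nat_lit 19, nat_lit 28, nat_lit 184490, nat_lit 187326, nat_lit 184497, nat_lit 0xb31f89d691f29, nat_lit 0xb5e06f4670147, nat_lit 0x200000000000000000, nat_lit 0x1, nat_lit 48, nat_lit 138413, nat_lit 137728, nat_lit 138416, [nat_lit 0x4f380a0000100158, nat_lit 0x5124290000100158], nat_lit 137713, nat_lit 137713, []⟩

set_option maxRecDepth 100000 in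
theorem h143 : rchk Cd.ms p143 = true := by
  decide +kernel

/-- the row checks of this file -/
noncomputable def rs86 : List RP := [p142, p143]

theorem R86 : RCk Cd.ms rs86 :=
  RCk.cons h142 (RCk.cons h143 RCk.nil)

end Pool.Agent.Moser.Ck.Cr
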