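import Pool.Agent.Lib_MP_cc07e8_cd.Ds
import Pool.Agent.Lib_MP_cc07e8_ck.CkAsmDefs

/-! # MP_cc07e8_co: row checks of the explicit start, part 87 -/

namespace Pool.Agent.Moser.Ck.Cr

/-- row check 144 -/
noncomputable def p144 : RP := ⟨nat_lit 14, nat_lit 1, nat_lit 19, nat_lit 28, nat_lit 187264, nat_lit 190133, nat_lit 187276, nat_lit 0xb07a8e9c59840, nat_lit 0xb32eb86e96d5d, nat_lit 0x200000000000000000, nat_lit 0x1, nat_lit 70, nat_lit 139101, nat_lit 138416, nat_lit 139104, [nat_lit 0x5037ba000010015a, nat_lit 0x516a1d0000100156], nat_lit 138401, nat_lit 138401, []⟩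

set_option maxRecDepth 100000 in
theorem h144 : rchk Cd.ms p144 = true := by
  decide +kernel

/-- row check 145 -/
noncomputable def p145 : RP := ⟨nat_lit 14, nat_lit 2, nat_lit 19, nat_lit 28, nat_lit 190076, nat_lit 192969, nat_lit 190083, nat_lit 0xade2954800d6a, nat_lit 0xb0881aefc49c3, nat_lit 0x200000000000000000, nat_lit 0x1, nat_lit 49, nat_lit 139789, nat_lit 139104, nat_lit 139792, [nat_lit 0x4e4321000010015b, nat_lit 0x4f5ad10000100155], nat_lit 139089, nat_lit 139089, []⟩

set_option maxRecDepth 100000 in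
theorem h145 : rchk Cd.ms p145 = true := by
  decide +kernel

/-- the row checks of this file -/
noncomputable def rs87 : List RP := [p144, p145]

theorem R87 : RCk Cd.ms rs87 :=
  RCk.cons h144 (RCk.cons h145 RCk.nil)

end Pool.Agent.Moser.Ck.Cr
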