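import Pool.Agent.Lib_MP_cc07e8_cd.Ds
import Pool.Agent.Lib_MP_cc07e8_ck.CkAsmDefs

/-! # MP_cc07e8_co: row checks of the explicit start, part 88 -/

namespace Pool.Agent.Moser.Ck.Cr

/-- row check 146 -/
noncomputable def p146 : RP := ⟨nat_lit 15, nat_lit 1, nat_lit 19, nat_lit 28, nat_lit 192890, nat_lit 195765, nat_lit 192918, nat_lit 0xab66ce8358d72, nat_lit 0xadf4d0841fa11, nat_lit 0x200000000000000000, nat_lit 0x1, nat_lit 54, nat_lit 140461, nat_lit 139792, nat_lit 140464, [nat_lit 0x4cfb81000010015d, nat_lit 0x4fdea30000100143], nat_lit 139777, nat_lit 139777, []⟩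

set_option maxRecDepth 100000 in
theorem h146 : rchk Cd.ms p146 = true := by
  decide +kernel

/-- row check 147 -/
noncomputable def p147 : RP := ⟨nat_lit 15, nat_lit 1, nat_lit 19, nat_lit 28, nat_lit 195701, nat_lit 198521, nat_lit 195714, nat_lit 0xa905a6ebe2704, nat_lit 0xab752806f031a, nat_lit 0x200000000000000000, nat_lit 0x1, nat_lit 42, nat_lit 141117, nat_lit 140464, nat_lit 141120, [nat_lit 0x4d0aa5000010015f, nat_lit 0x4de3970000100131], nat_lit 140449, nat_lit 140449, []⟩

set_option maxRecDepth 100000 in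
theorem h147 : rchk Cd.ms p147 = true := by
  decide +kernel

/-- the row checks of this file -/
noncomputable def rs88 : List RP := [p146, p147]

theorem R88 : RCk Cd.ms rs88 :=
  RCk.cons h146 (RCk.cons h147 RCk.nil)

end Pool.Agent.Moser.Ck.Cr
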