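import Pool.Agent.Lib_MP_cc07e8_cd.Ds
import Pool.Agent.Lib_MP_cc07e8_ck.CkAsmDefs

/-! # MP_cc07e8_co: row checks of the explicit start, part 89 -/

namespace Pool.Agent.Moser.Ck.Cr

/-- row check 148 -/
noncomputable def p148 : RP := ⟨nat_lit 15, nat_lit 1, nat_lit 19, nat_lit 28, nat_lit 198450, nat_lit 201370, nat_lit 198469, nat_lit 0xa6a17823bd11a, nat_lit 0xa91521fb2a434, nat_lit 0x200000000000000000, nat_lit 0x1, nat_lit 73, nat_lit 141789, nat_lit 141120, nat_lit 141792, [nat_lit 0x4d954e0000100160, nat_lit 0x4ca2070000100140], nat_lit 141105, nat_lit 141105, []⟩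

set_option maxRecDepth 100000 in
theorem h148 : rchk Cd.ms p148 = true := by
  decide +kernel

/-- row check 149 -/
noncomputable def p149 : RP := ⟨nat_lit 15, nat_lit 1, nat_lit 19, nat_lit 28, nat_lit 201318, nat_lit 204247, nat_lit 201318, nat_lit 0xa44899dd8f3ba, nat_lit 0xa6ac7cd517cea, nat_lit 0x200000000000000000, nat_lit 0x1, nat_lit 48, nat_lit 142461, nat_lit 141792, nat_lit 142464, [nat_lit 0x4d7f6d0000100162, nat_lit 0x4be0f4000010013e], nat_lit 141777, nat_lit 141777, []⟩

set_option maxRecDepth 100000 in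
theorem h149 : rchk Cd.ms p149 = true := by
  decide +kernel

/-- the row checks of this file -/
noncomputable def rs89 : List RP := [p148, p149]

theorem R89 : RCk Cd.ms rs89 :=
  RCk.cons h148 (RCk.cons h149 RCk.nil)

end Pool.Agent.Moser.Ck.Cr
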