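import Pool.Agent.Lib_MP_cc07e8_cd.Ds
import Pool.Agent.Lib_MP_cc07e8_ck.CkAsmDefs

/-! # MP_cc07e8_co: row checks of the explicit start, part 90 -/

namespace Pool.Agent.Moser.Ck.Cr

/-- row check 150 -/
noncomputable def p150 : RP := ⟨nat_lit 15, nat_lit 1, nat_lit 19, nat_lit 28, nat_lit 204194, nat_lit 207081, nat_lit 204194, nat_lit 0xa209096f05b01, nat_lit 0xa45384625c6db, nat_lit 0x200000000000000000, nat_lit 0x1, nat_lit 59, nat_lit 143117, nat_lit 142464, nat_lit 143120, [nat_lit 0x4c400e0000100164, nat_lit 0x4d5532000010012c], nat_lit 142449, nat_lit 142449, []⟩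

set_option maxRecDepth 100000 in
theorem h150 : rchk Cd.ms p150 = true := by
  decide +kernel

/-- row check 151 -/
noncomputable def p151 : RP := ⟨nat_lit 15, nat_lit 1, nat_lit 19, nat_lit 28, nat_lit 207015, nat_lit 209942, nat_lit 207028, nat_lit 0x9fd3c040263d6, nat_lit 0xa2164300b9d48, nat_lit 0x200000000000000000, nat_lit 0x1, nat_lit 40, nat_lit 143773, nat_lit 143120, nat_lit 143776, [nat_lit 0x4c42c20000100165, nat_lit 0x4cc519000010012b], nat_lit 143105, nat_lit 143105, []⟩

set_option maxRecDepth 100000 in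
theorem h151 : rchk Cd.ms p151 = true := by
  decide +kernel

/-- the row checks of this file -/
noncomputable def rs90 : List RP := [p150, p151]

theorem R90 : RCk Cd.ms rs90 :=
  RCk.cons h150 (RCk.cons h151 RCk.nil)

end Pool.Agent.Moser.Ck.Cr
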