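import Pool.Agent.Lib_MP_cc07e8_cd.Ds
import Pool.Agent.Lib_MP_cc07e8_ck.CkAsmDefs

/-! # MP_cc07e8_co: row checks of the explicit start, part 91 -/

namespace Pool.Agent.Moser.Ck.Cr

/-- row check 152 -/
noncomputable def p152 : RP := ⟨nat_lit 15, nat_lit 2, nat_lit 19, nat_lit 28, nat_lit 209888, nat_lit 212758, nat_lit 209888, nat_lit 0x9db633dc1fc18, nat_lit 0x9fde471cffe20, nat_lit 0x200000000000000000, nat_lit 0x1, nat_lit 70, nat_lit 144413, nat_lit 143776, nat_lit 144416, [nat_lit 0x4ea58a0000100167, nat_lit 0x4c94830000100119], nat_lit 143761, nat_lit 143761, []⟩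

set_option maxRecDepth 100000 in
theorem h152 : rchk Cd.ms p152 = true := by
  decide +kernel

/-- row check 153 -/
noncomputable def p153 : RP := ⟨nat_lit 15, nat_lit 2, nat_lit 19, nat_lit 28, nat_lit 212697, nat_lit 215671, nat_lit 212704, nat_lit 0x9b94e1888ff7d, nat_lit 0x9dc1c817de9e0, nat_lit 0x200000000000000000, nat_lit 0x1, nat_lit 61, nat_lit 145069, nat_lit 144416, nat_lit 145072, [nat_lit 0x4f1ddc0000100169, nat_lit 0x4b7fb30000100127], nat_lit 144401, nat_lit 144401, []⟩

set_option maxRecDepth 100000 in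
theorem h153 : rchk Cd.ms p153 = true := by
  decide +kernel

/-- the row checks of this file -/
noncomputable def rs91 : List RP := [p152, p153]

theorem R91 : RCk Cd.ms rs91 :=
  RCk.cons h152 (RCk.cons h153 RCk.nil)

end Pool.Agent.Moser.Ck.Cr
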