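import Pool.Agent.Lib_MP_cc07e8_cd.Ds
import Pool.Agent.Lib_MP_cc07e8_ck.CkAsmDefs

/-! # MP_cc07e8_co: row checks of the explicit start, part 92 -/

namespace Pool.Agent.Moser.Ck.Cr

/-- row check 154 -/
noncomputable def p154 : RP := ⟨nat_lit 16, nat_lit 1, nat_lit 19, nat_lit 28, nat_lit 215616, nat_lit 218610, nat_lit 215616, nat_lit 0x997d6b92d9a3a, nat_lit 0x9b9f0a6903924, nat_lit 0x200000000000000000, nat_lit 0x1, nat_lit 61, nat_lit 145725, nat_lit 145072, nat_lit 145728, [nat_lit 0x4c7bf4000010016a, nat_lit 0x4a85680000100126], nat_lit 145057, nat_lit 145057, []⟩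

set_option maxRecDepth 100000 in
theorem h154 : rchk Cd.ms p154 = true := by
  decide +kernel

/-- row check 155 -/
noncomputable def p155 : RP := ⟨nat_lit 16, nat_lit 1, nat_lit 19, nat_lit 28, nat_lit 218544, nat_lit 221503, nat_lit 218555, nat_lit 0x977c37c44c8f9, nat_lit 0x99894969ccc23, nat_lit 0x200000000000000000, nat_lit 0x1, nat_lit 45, nat_lit 146365, nat_lit 145728, nat_lit 146368, [nat_lit 0x49d827000010016c, nat_lit 0x4a069c0000100114], nat_lit 145713, nat_lit 145713, []⟩

set_option maxRecDepth 100000 in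
theorem h155 : rchk Cd.ms p155 = true := by
  decide +kernel

/-- the row checks of this file -/
noncomputable def rs92 : List RP := [p154, p155]

theorem R92 : RCk Cd.ms rs92 :=
  RCk.cons h154 (RCk.cons h155 RCk.nil)

end Pool.Agent.Moser.Ck.Cr
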