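import Pool.Agent.Lib_MP_cc07e8_cd.Ds
import Pool.Agent.Lib_MP_cc07e8_ck.CkAsmDefs

/-! # MP_cc07e8_co: row checks of the explicit start, part 93 -/

namespace Pool.Agent.Moser.Ck.Cr

/-- row check 156 -/
noncomputable def p156 : RP := ⟨nat_lit 16, nat_lit 1, nat_lit 19, nat_lit 28, nat_lit 221431, nat_lit 224421, nat_lit 221447, nat_lit 0x9583fbe38cf4f, nat_lit 0x9788d3d8c549f, nat_lit 0x200000000000000000, nat_lit 0x1, nat_lit 74, nat_lit 147005, nat_lit 146368, nat_lit 147008, [nat_lit 0x4a578f000010016d, nat_lit 0x4aeaa90000100113], nat_lit 146353, nat_lit 146353, []⟩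

set_option maxRecDepth 100000 in
theorem h156 : rchk Cd.ms p156 = true := by
  decide +kernel

/-- row check 157 -/
noncomputable def p157 : RP := ⟨nat_lit 16, nat_lit 1, nat_lit 19, nat_lit 28, nat_lit 224365, nat_lit 227365, nat_lit 224365, nat_lit 0x93945f9563003, nat_lit 0x958d899113100, nat_lit 0x200000000000000000, nat_lit 0x1, nat_lit 51, nat_lit 147645, nat_lit 147008, nat_lit 147648, [nat_lit 0x4978c4000010016f, nat_lit 0x4968820000100111], nat_lit 146993, nat_lit 146993, []⟩

set_option maxRecDepth 100000 in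
theorem h157 : rchk Cd.ms p157 = true := by
  decide +kernel

/-- the row checks of this file -/
noncomputable def rs93 : List RP := [p156, p157]

theorem R93 : RCk Cd.ms rs93 :=
  RCk.cons h156 (RCk.cons h157 RCk.nil)

end Pool.Agent.Moser.Ck.Cr
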