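import Pool.Agent.Lib_MP_cc07e8_cd.Ds
import Pool.Agent.Lib_MP_cc07e8_ck.CkAsmDefs

/-! # MP_cc07e8_co: row checks of the explicit start, part 94 -/

namespace Pool.Agent.Moser.Ck.Cr

/-- row check 158 -/
noncomputable def p158 : RP := ⟨nat_lit 16, nat_lit 1, nat_lit 19, nat_lit 28, nat_lit 227300, nat_lit 230409, nat_lit 227309, nat_lit 0x91a13ef4d892e, nat_lit 0x939f2d6124812, nat_lit 0x200000000000000000, nat_lit 0x1, nat_lit 47, nat_lit 148301, nat_lit 147648, nat_lit 148304, [nat_lit 0x4953a80000100171, nat_lit 0x48e10a000010011f], nat_lit 147633, nat_lit 147633, []⟩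

set_option maxRecDepth 100000 in
theorem h158 : rchk Cd.ms p158 = true := by
  decide +kernel

/-- row check 159 -/
noncomputable def p159 : RP := ⟨nat_lit 16, nat_lit 1, nat_lit 19, nat_lit 28, nat_lit 230342, nat_lit 233330, nat_lit 230352, nat_lit 0x8fce880456022, nat_lit 0x91ac170972f4a, nat_lit 0x200000000000000000, nat_lit 0x1, nat_lit 60, nat_lit 148925, nat_lit 148304, nat_lit 148928, [nat_lit 0x48c5c60000100172, nat_lit 0x4a2d9d00001000fe], nat_lit 148289, nat_lit 148289, []⟩

set_option maxRecDepth 100000 in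
theorem h159 : rchk Cd.ms p159 = true := by
  decide +kernel

/-- the row checks of this file -/
noncomputable def rs94 : List RP := [p158, p159]

theorem R94 : RCk Cd.ms rs94 :=
  RCk.cons h158 (RCk.cons h159 RCk.nil)

end Pool.Agent.Moser.Ck.Cr
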