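import Pool.Agent.Lib_MP_cc07e8_cd.Ds
import Pool.Agent.Lib_MP_cc07e8_ck.CkAsmDefs

/-! # MP_cc07e8_co: row checks of the explicit start, part 95 -/

namespace Pool.Agent.Moser.Ck.Cr

/-- row check 160 -/
noncomputable def p160 : RP := ⟨nat_lit 16, nat_lit 1, nat_lit 19, nat_lit 28, nat_lit 233257, nat_lit 236275, nat_lit 233272, nat_lit 0x8e03aa1234664, nat_lit 0x8fda0d829fa2d, nat_lit 0x200000000000000000, nat_lit 0x1, nat_lit 56, nat_lit 149549, nat_lit 148928, nat_lit 149552, [nat_lit 0x4902070000100174, nat_lit 0x4876b900001000fc], nat_lit 148913, nat_lit 148913, []⟩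

set_option maxRecDepth 100000 in
theorem h160 : rchk Cd.ms p160 = true := by
  decide +kernel

/-- row check 161 -/
noncomputable def p161 : RP := ⟨nat_lit 16, nat_lit 2, nat_lit 19, nat_lit 28, nat_lit 236217, nat_lit 239245, nat_lit 236217, nat_lit 0x8c4057dccf0af, nat_lit 0x8e0c974bb51ce, nat_lit 0x200000000000000000, nat_lit 0x1, nat_lit 54, nat_lit 150173, nat_lit 149552, nat_lit 150176, [nat_lit 0x49cbc10000100175, nat_lit 0x4a156700001000fb], nat_lit 149537, nat_lit 149537, []⟩

set_option maxRecDepth 100000 in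
theorem h161 : rchk Cd.ms p161 = true := by
  decide +kernel

/-- the row checks of this file -/
noncomputable def rs95 : List RP := [p160, p161]

theorem R95 : RCk Cd.ms rs95 :=
  RCk.cons h160 (RCk.cons h161 RCk.nil)

end Pool.Agent.Moser.Ck.Cr
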