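import Pool.Agent.Lib_MP_cc07e8_cd.Ds
import Pool.Agent.Lib_MP_cc07e8_ck.CkAsmDefs

/-! # MP_cc07e8_co: row checks of the explicit start, part 96 -/

namespace Pool.Agent.Moser.Ck.Cr

/-- row check 162 -/
noncomputable def p162 : RP := ⟨nat_lit 17, nat_lit 1, nat_lit 19, nat_lit 28, nat_lit 239177, nat_lit 242240, nat_lit 239187, nat_lit 0x8a846e1c45877, nat_lit 0x8c4a8d15dd205, nat_lit 0x200000000000000000, nat_lit 0x1, nat_lit 80, nat_lit 150797, nat_lit 150176, nat_lit 150800, [nat_lit 0x49fc8f0000100177, nat_lit 0x497d5f00001000f9], nat_lit 150161, nat_lit 150161, []⟩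

set_option maxRecDepth 100000 in
theorem h162 : rchk Cd.ms p162 = true := by
  decide +kernel

/-- row check 163 -/
noncomputable def p163 : RP := ⟨nat_lit 17, nat_lit 1, nat_lit 19, nat_lit 28, nat_lit 242181, nat_lit 245259, nat_lit 242181, nat_lit 0x88cfeea5e0b36, nat_lit 0x8a8d11a7f5197, nat_lit 0x200000000000000000, nat_lit 0x1, nat_lit 59, nat_lit 151421, nat_lit 150800, nat_lit 151424, [nat_lit 0x47ff4b0000100179, nat_lit 0x489cf600001000f7], nat_lit 150785, nat_lit 150785, []⟩

set_option maxRecDepth 100000 in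
theorem h163 : rchk Cd.ms p163 = true := by
  decide +kernel

/-- the row checks of this file -/
noncomputable def rs96 : List RP := [p162, p163]

theorem R96 : RCk Cd.ms rs96 :=
  RCk.cons h162 (RCk.cons h163 RCk.nil)

end Pool.Agent.Moser.Ck.Cr
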