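import Pool.Agent.Lib_MP_cc07e8_cd.Ds
import Pool.Agent.Lib_MP_cc07e8_ck.CkAsmDefs

/-! # MP_cc07e8_co: row checks of the explicit start, part 97 -/

namespace Pool.Agent.Moser.Ck.Cr

/-- row check 164 -/
noncomputable def p164 : RP := ⟨nat_lit 17, nat_lit 1, nat_lit 19, nat_lit 28, nat_lit 245196, nat_lit 248304, nat_lit 245200, nat_lit 0x87226d4d48885, nat_lit 0x88d8ee6161bec, nat_lit 0x200000000000000000, nat_lit 0x1, nat_lit 59, nat_lit 152045, nat_lit 151424, nat_lit 152048, [nat_lit 0x473e48000010017a, nat_lit 0x4747c200001000f6], nat_lit 151409, nat_lit 151409, []⟩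

set_option maxRecDepth 100000 in
theorem h164 : rchk Cd.ms p164 = true := by
  decide +kernel

/-- row check 165 -/
noncomputable def p165 : RP := ⟨nat_lit 17, nat_lit 1, nat_lit 19, nat_lit 28, nat_lit 248224, nat_lit 251374, nat_lit 248244, nat_lit 0x857bedf00701b, nat_lit 0x872d938dcfc01, nat_lit 0x200000000000000000, nat_lit 0x1, nat_lit 65, nat_lit 152669, nat_lit 152048, nat_lit 152672, [nat_lit 0x48a09c000010017c, nat_lit 0x491bdc00001000f4], nat_lit 152033, nat_lit 152033, []⟩

set_option maxRecDepth 100000 in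
theorem h165 : rchk Cd.ms p165 = true := by
  decide +kernel

/-- the row checks of this file -/
noncomputable def rs97 : List RP := [p164, p165]

theorem R97 : RCk Cd.ms rs97 :=
  RCk.cons h164 (RCk.cons h165 RCk.nil)

end Pool.Agent.Moser.Ck.Cr
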