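import Pool.Agent.Lib_MP_cc07e8_cd.Ds
import Pool.Agent.Lib_MP_cc07e8_ck.CkAsmDefs

/-! # MP_cc07e8_co: row checks of the explicit start, part 98 -/

namespace Pool.Agent.Moser.Ck.Cr

/-- row check 166 -/
noncomputable def p166 : RP := ⟨nat_lit 17, nat_lit 1, nat_lit 19, nat_lit 28, nat_lit 251308, nat_lit 254389, nat_lit 251313, nat_lit 0x83e6ed1c31420, nat_lit 0x8584e7649ba2f, nat_lit 0x200000000000000000, nat_lit 0x1, nat_lit 41, nat_lit 153277, nat_lit 152672, nat_lit 153280, [nat_lit 0x465ca4000010017d, nat_lit 0x45422a00001000e3], nat_lit 152657, nat_lit 152657, []⟩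

set_option maxRecDepth 100000 in
theorem h166 : rchk Cd.ms p166 = true := by
  decide +kernel

/-- row check 167 -/
noncomputable def p167 : RP := ⟨nat_lit 17, nat_lit 1, nat_lit 19, nat_lit 28, nat_lit 254328, nat_lit 257508, nat_lit 254328, nat_lit 0x824deed442fb3, nat_lit 0x83ef066f1c145, nat_lit 0x200000000000000000, nat_lit 0x1, nat_lit 85, nat_lit 153901, nat_lit 153280, nat_lit 153904, [nat_lit 0x472762000010017f, nat_lit 0x4927d400001000f1], nat_lit 153265, nat_lit 153265, []⟩

set_option maxRecDepth 100000 in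
theorem h167 : rchk Cd.ms p167 = true := by
  decide +kernel

/-- the row checks of this file -/
noncomputable def rs98 : List RP := [p166, p167]

theorem R98 : RCk Cd.ms rs98 :=
  RCk.cons h166 (RCk.cons h167 RCk.nil)

end Pool.Agent.Moser.Ck.Cr
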