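import Pool.Agent.Lib_MP_cc07e8_cd.Ds
import Pool.Agent.Lib_MP_cc07e8_ck.CkAsmDefs

/-! # MP_cc07e8_co: row checks of the explicit start, part 99 -/

namespace Pool.Agent.Moser.Ck.Cr

/-- row check 168 -/
noncomputable def p168 : RP := ⟨nat_lit 17, nat_lit 1, nat_lit 19, nat_lit 28, nat_lit 257435, nat_lit 260572, nat_lit 257447, nat_lit 0x80c5af7a62e1c, nat_lit 0x82576462616a7, nat_lit 0x200000000000000000, nat_lit 0x1, nat_lit 58, nat_lit 154509, nat_lit 153904, nat_lit 154512, [nat_lit 0x468e5b0000100180, nat_lit 0x45cde700001000e0], nat_lit 153889, nat_lit 153889, []⟩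

set_option maxRecDepth 100000 in
theorem h168 : rchk Cd.ms p168 = true := by
  decide +kernel

/-- row check 169 -/
noncomputable def p169 : RP := ⟨nat_lit 17, nat_lit 2, nat_lit 19, nat_lit 28, nat_lit 260485, nat_lit 263742, nat_lit 260511, nat_lit 0x7f3975d49eb25, nat_lit 0x80d0b21c8fc5e, nat_lit 0x200000000000000000, nat_lit 0x1, nat_lit 47, nat_lit 155133, nat_lit 154512, nat_lit 155136, [nat_lit 0x46291c0000100182, nat_lit 0x453c0f00001000ee], nat_lit 154497, nat_lit 154497, []⟩

set_option maxRecDepth 100000 in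
theorem h169 : rchk Cd.ms p169 = true := by
  decide +kernel

/-- the row checks of this file -/
noncomputable def rs99 : List RP := [p168, p169]

theorem R99 : RCk Cd.ms rs99 :=
  RCk.cons h168 (RCk.cons h169 RCk.nil)

end Pool.Agent.Moser.Ck.Cr
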