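import Pool.Agent.Lib_MP_cc07e8_cd.Ds
import Pool.Agent.Lib_MP_cc07e8_ck.CkAsmDefs

/-! # MP_cc07e8_co: row checks of the explicit start, part 100 -/

namespace Pool.Agent.Moser.Ck.Cr

/-- row check 170 -/
noncomputable def p170 : RP := ⟨nat_lit 18, nat_lit 1, nat_lit 19, nat_lit 28, nat_lit 263680, nat_lit 266855, nat_lit 263680, nat_lit 0x7dbd8557cb583, nat_lit 0x7f411e528439a, nat_lit 0x200000000000000000, nat_lit 0x1, nat_lit 69, nat_lit 155741, nat_lit 155136, nat_lit 155744, [nat_lit 0x46891e0000100183, nat_lit 0x45a07b00001000dd], nat_lit 155121, nat_lit 155121, []⟩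

set_option maxRecDepth 100000 in
theorem h170 : rchk Cd.ms p170 = true := by
  decide +kernel

/-- row check 171 -/
noncomputable def p171 : RP := ⟨nat_lit 18, nat_lit 1, nat_lit 19, nat_lit 28, nat_lit 266793, nat_lit 269910, nat_lit 266793, nat_lit 0x7c512e532c382, nat_lit 0x7dc5005b223fc, nat_lit 0x200000000000000000, nat_lit 0x1, nat_lit 51, nat_lit 156333, nat_lit 155744, nat_lit 156336, [nat_lit 0x4598060000100185, nat_lit 0x44459a00001000cb], nat_lit 155729, nat_lit 155729, []⟩

set_option maxRecDepth 100000 in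
theorem h171 : rchk Cd.ms p171 = true := by
  decide +kernel

/-- the row checks of this file -/
noncomputable def rs100 : List RP := [p170, p171]

theorem R100 : RCk Cd.ms rs100 :=
  RCk.cons h170 (RCk.cons h171 RCk.nil)

end Pool.Agent.Moser.Ck.Cr
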