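import Pool.Agent.Lib_MP_cc07e8_cd.Ds
import Pool.Agent.Lib_MP_cc07e8_ck.CkAsmDefs

/-! # MP_cc07e8_co: row checks of the explicit start, part 101 -/

namespace Pool.Agent.Moser.Ck.Cr

/-- row check 172 -/
noncomputable def p172 : RP := ⟨nat_lit 18, nat_lit 1, nat_lit 19, nat_lit 28, nat_lit 269842, nat_lit 273071, nat_lit 269847, nat_lit 0x7ae0c7e307285, nat_lit 0x7c59336ce7cb7, nat_lit 0x200000000000000000, nat_lit 0x1, nat_lit 46, nat_lit 156941, nat_lit 156336, nat_lit 156944, [nat_lit 0x45cee50000100186, nat_lit 0x4545ae00001000da], nat_lit 156321, nat_lit 156321, []⟩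

set_option maxRecDepth 100000 in
theorem h172 : rchk Cd.ms p172 = true := by
  decide +kernel

/-- row check 173 -/
noncomputable def p173 : RP := ⟨nat_lit 18, nat_lit 1, nat_lit 19, nat_lit 28, nat_lit 272996, nat_lit 276173, nat_lit 273008, nat_lit 0x797f7495fff8e, nat_lit 0x7ae96c43a70ab, nat_lit 0x200000000000000000, nat_lit 0x1, nat_lit 86, nat_lit 157533, nat_lit 156944, nat_lit 157536, [nat_lit 0x444eea0000100188, nat_lit 0x45096d00001000c8], nat_lit 156929, nat_lit 156929, []⟩

set_option maxRecDepth 100000 in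
theorem h173 : rchk Cd.ms p173 = true := by
  decide +kernel

/-- the row checks of this file -/
noncomputable def rs101 : List RP := [p172, p173]

theorem R101 : RCk Cd.ms rs101 :=
  RCk.cons h172 (RCk.cons h173 RCk.nil)

end Pool.Agent.Moser.Ck.Cr
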