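import Pool.Agent.Lib_MP_cc07e8_cd.Ds
import Pool.Agent.Lib_MP_cc07e8_ck.CkAsmDefs

/-! # MP_cc07e8_co: row checks of the explicit start, part 102 -/

namespace Pool.Agent.Moser.Ck.Cr

/-- row check 174 -/
noncomputable def p174 : RP := ⟨nat_lit 18, nat_lit 1, nat_lit 19, nat_lit 28, nat_lit 276099, nat_lit 279299, nat_lit 276109, nat_lit 0x78235604b0e93, nat_lit 0x7987cab083029, nat_lit 0x200000000000000000, nat_lit 0x1, nat_lit 72, nat_lit 158125, nat_lit 157536, nat_lit 158128, [nat_lit 0x442e130000100189, nat_lit 0x45e19700001000c7], nat_lit 157521, nat_lit 157521, []⟩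

set_option maxRecDepth 100000 in
theorem h174 : rchk Cd.ms p174 = true := by
  decide +kernel

/-- row check 175 -/
noncomputable def p175 : RP := ⟨nat_lit 18, nat_lit 1, nat_lit 19, nat_lit 28, nat_lit 279230, nat_lit 282447, nat_lit 279234, nat_lit 0x76cc8dc7e3fd5, nat_lit 0x782aef974b169, nat_lit 0x200000000000000000, nat_lit 0x1, nat_lit 60, nat_lit 158717, nat_lit 158128, nat_lit 158720, [nat_lit 0x4471c9000010018b, nat_lit 0x45199b00001000c5], nat_lit 158113, nat_lit 158113, []⟩

set_option maxRecDepth 100000 in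
theorem h175 : rchk Cd.ms p175 = true := by
  decide +kernel

/-- the row checks of this file -/
noncomputable def rs102 : List RP := [p174, p175]

theorem R102 : RCk Cd.ms rs102 :=
  RCk.cons h174 (RCk.cons h175 RCk.nil)

end Pool.Agent.Moser.Ck.Cr
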