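import Pool.Agent.Lib_MP_cc07e8_cd.Ds
import Pool.Agent.Lib_MP_cc07e8_ck.CkAsmDefs

/-! # MP_cc07e8_co: row checks of the explicit start, part 103 -/

namespace Pool.Agent.Moser.Ck.Cr

/-- row check 176 -/
noncomputable def p176 : RP := ⟨nat_lit 18, nat_lit 1, nat_lit 19, nat_lit 28, nat_lit 282374, nat_lit 285534, nat_lit 282382, nat_lit 0x7583c100f2d54, nat_lit 0x76d46a8948d3b, nat_lit 0x200000000000000000, nat_lit 0x1, nat_lit 41, nat_lit 159293, nat_lit 158720, nat_lit 159296, [nat_lit 0x45b198000010018c, nat_lit 0x43724000001000b4], nat_lit 158705, nat_lit 158705, []⟩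

set_option maxRecDepth 100000 in
theorem h176 : rchk Cd.ms p176 = true := by
  decide +kernel

/-- row check 177 -/
noncomputable def p177 : RP := ⟨nat_lit 18, nat_lit 1, nat_lit 19, nat_lit 28, nat_lit 285458, nat_lit 288729, nat_lit 285468, nat_lit 0x7436dadc7249d, nat_lit 0x758bc36d1e270, nat_lit 0x200000000000000000, nat_lit 0x1, nat_lit 75, nat_lit 159885, nat_lit 159296, nat_lit 159888, [nat_lit 0x45c755000010018e, nat_lit 0x43971100001000c2], nat_lit 159281, nat_lit 159281, []⟩

set_option maxRecDepth 100000 in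
theorem h177 : rchk Cd.ms p177 = true := by
  decide +kernel

/-- the row checks of this file -/
noncomputable def rs103 : List RP := [p176, p177]

theorem R103 : RCk Cd.ms rs103 :=
  RCk.cons h176 (RCk.cons h177 RCk.nil)

end Pool.Agent.Moser.Ck.Cr
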