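import Pool.Agent.Lib_MP_cc07e8_cd.Ds
import Pool.Agent.Lib_MP_cc07e8_ck.CkAsmDefs

/-! # MP_cc07e8_co: row checks of the explicit start, part 104 -/

namespace Pool.Agent.Moser.Ck.Cr

/-- row check 178 -/
noncomputable def p178 : RP := ⟨nat_lit 18, nat_lit 2, nat_lit 19, nat_lit 28, nat_lit 288663, nat_lit 291861, nat_lit 288663, nat_lit 0x72f7982ed31f9, nat_lit 0x743da83c5e958, nat_lit 0x200000000000000000, nat_lit 0x1, nat_lit 59, nat_lit 160461, nat_lit 159888, nat_lit 160464, [nat_lit 0x4355ab0000100070, nat_lit 0x42f8ff0000100190, nat_lit 0x42709b0000100040], nat_lit 159873, nat_lit 159873, []⟩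

set_option maxRecDepth 100000 in
theorem h178 : rchk Cd.ms p178 = true := by
  decide +kernel

/-- row check 179 -/
noncomputable def p179 : RP := ⟨nat_lit 19, nat_lit 1, nat_lit 19, nat_lit 28, nat_lit 291776, nat_lit 295015, nat_lit 291794, nat_lit 0x71bcf11b54e3b, nat_lit 0x73002b20102c0, nat_lit 0x200000000000000000, nat_lit 0x1, nat_lit 63, nat_lit 161037, nat_lit 160464, nat_lit 161040, [nat_lit 0x43f29b0000100191, nat_lit 0x428e9d00001000af], nat_lit 160449, nat_lit 160449, []⟩

set_option maxRecDepth 100000 in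
theorem h179 : rchk Cd.ms p179 = true := by
  decide +kernel

/-- the row checks of this file -/
noncomputable def rs104 : List RP := [p178, p179]

theorem R104 : RCk Cd.ms rs104 :=
  RCk.cons h178 (RCk.cons h179 RCk.nil)

end Pool.Agent.Moser.Ck.Cr
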