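import Pool.Agent.Lib_MP_cc07e8_cd.Ds
import Pool.Agent.Lib_MP_cc07e8_ck.CkAsmDefs

/-! # MP_cc07e8_co: row checks of the explicit start, part 105 -/

namespace Pool.Agent.Moser.Ck.Cr

/-- row check 180 -/
noncomputable def p180 : RP := ⟨nat_lit 19, nat_lit 1, nat_lit 19, nat_lit 28, nat_lit 294945, nat_lit 298192, nat_lit 294948, nat_lit 0x7086b94cda839, nat_lit 0x71c3da2adc8cc, nat_lit 0x200000000000000000, nat_lit 0x1, nat_lit 92, nat_lit 161613, nat_lit 161040, nat_lit 161616, [nat_lit 0x42bf4e0000100192, nat_lit 0x42d53700001000ae], nat_lit 161025, nat_lit 161025, []⟩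

set_option maxRecDepth 100000 in
theorem h180 : rchk Cd.ms p180 = true := by
  decide +kernel

/-- row check 181 -/
noncomputable def p181 : RP := ⟨nat_lit 19, nat_lit 1, nat_lit 19, nat_lit 28, nat_lit 298125, nat_lit 301392, nat_lit 298125, nat_lit 0x6f54df0b28597, nat_lit 0x708d32a28dbd2, nat_lit 0x200000000000000000, nat_lit 0x1, nat_lit 68, nat_lit 162189, nat_lit 161616, nat_lit 162192, [nat_lit 0x4441f40000100194, nat_lit 0x414b1c00001000ac], nat_lit 161601, nat_lit 161601, []⟩

set_option maxRecDepth 100000 in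
theorem h181 : rchk Cd.ms p181 = true := by
  decide +kernel

/-- the row checks of this file -/
noncomputable def rs105 : List RP := [p180, p181]

theorem R105 : RCk Cd.ms rs105 :=
  RCk.cons h180 (RCk.cons h181 RCk.nil)

end Pool.Agent.Moser.Ck.Cr
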