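import Pool.Agent.Lib_MP_cc07e8_cd.Ds
import Pool.Agent.Lib_MP_cc07e8_ck.CkAsmDefs

/-! # MP_cc07e8_co: row checks of the explicit start, part 106 -/

namespace Pool.Agent.Moser.Ck.Cr

/-- row check 182 -/
noncomputable def p182 : RP := ⟨nat_lit 19, nat_lit 1, nat_lit 19, nat_lit 28, nat_lit 301324, nat_lit 304614, nat_lit 301324, nat_lit 0x6e27688d41790, nat_lit 0x6f5b4d965f790, nat_lit 0x200000000000000000, nat_lit 0x1, nat_lit 72, nat_lit 162765, nat_lit 162192, nat_lit 162768, [nat_lit 0x4203420000100195, nat_lit 0x41802800001000ab], nat_lit 162177, nat_lit 162177, []⟩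

set_option maxRecDepth 100000 in
theorem h182 : rchk Cd.ms p182 = true := by
  decide +kernel

/-- row check 183 -/
noncomputable def p183 : RP := ⟨nat_lit 19, nat_lit 1, nat_lit 19, nat_lit 28, nat_lit 304546, nat_lit 307769, nat_lit 304546, nat_lit 0x6d0654ad9bc2b, nat_lit 0x6e2db471a44c3, nat_lit 0x200000000000000000, nat_lit 0x1, nat_lit 49, nat_lit 163325, nat_lit 162768, nat_lit 163328, [nat_lit 0x42388b0000100196, nat_lit 0x419779000010009a], nat_lit 162753, nat_lit 162753, []⟩

set_option maxRecDepth 100000 in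
theorem h183 : rchk Cd.ms p183 = true := by
  decide +kernel

/-- the row checks of this file -/
noncomputable def rs106 : List RP := [p182, p183]

theorem R106 : RCk Cd.ms rs106 :=
  RCk.cons h182 (RCk.cons h183 RCk.nil)

end Pool.Agent.Moser.Ck.Cr
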