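import Pool.Agent.Lib_MP_cc07e8_cd.Ds
import Pool.Agent.Lib_MP_cc07e8_ck.CkAsmDefs

/-! # MP_cc07e8_co: row checks of the explicit start, part 107 -/

namespace Pool.Agent.Moser.Ck.Cr

/-- row check 184 -/
noncomputable def p184 : RP := ⟨nat_lit 19, nat_lit 1, nat_lit 19, nat_lit 28, nat_lit 307693, nat_lit 310946, nat_lit 307700, nat_lit 0x6be92a45022da, nat_lit 0x6d0d39800e970, nat_lit 0x200000000000000000, nat_lit 0x1, nat_lit 63, nat_lit 163885, nat_lit 163328, nat_lit 163888, [nat_lit 0x42b0b20000100198, nat_lit 0x4227660000100098], nat_lit 163313, nat_lit 163313, []⟩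

set_option maxRecDepth 100000 in
theorem h184 : rchk Cd.ms p184 = true := by
  decide +kernel

/-- row check 185 -/
noncomputable def p185 : RP := ⟨nat_lit 19, nat_lit 1, nat_lit 19, nat_lit 28, nat_lit 310861, nat_lit 314236, nat_lit 310876, nat_lit 0x6ac7ef220b2a0, nat_lit 0x6bf0b801d32dd, nat_lit 0x200000000000000000, nat_lit 0x1, nat_lit 64, nat_lit 164461, nat_lit 163888, nat_lit 164464, [nat_lit 0x41593d0000100199, nat_lit 0x4193fc00001000a7], nat_lit 163873, nat_lit 163873, []⟩

set_option maxRecDepth 100000 in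
theorem h185 : rchk Cd.ms p185 = true := by
  decide +kernel

/-- the row checks of this file -/
noncomputable def rs107 : List RP := [p184, p185]

theorem R107 : RCk Cd.ms rs107 :=
  RCk.cons h184 (RCk.cons h185 RCk.nil)

end Pool.Agent.Moser.Ck.Cr
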