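import Pool.Agent.Lib_MP_cc07e8_cd.Ds
import Pool.Agent.Lib_MP_cc07e8_ck.CkAsmDefs

/-! # MP_cc07e8_co: row checks of the explicit start, part 108 -/

namespace Pool.Agent.Moser.Ck.Cr

/-- row check 186 -/
noncomputable def p186 : RP := ⟨nat_lit 19, nat_lit 1, nat_lit 19, nat_lit 28, nat_lit 314157, nat_lit 317549, nat_lit 314166, nat_lit 0x69aabcc266a74, nat_lit 0x6acecee56d0cb, nat_lit 0x200000000000000000, nat_lit 0x1, nat_lit 98, nat_lit 165037, nat_lit 164464, nat_lit 165040, [nat_lit 0x415a3a000010019b, nat_lit 0x40877700001000a5], nat_lit 164449, nat_lit 164449, []⟩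

set_option maxRecDepth 100000 in
theorem h186 : rchk Cd.ms p186 = true := by
  decide +kernel

/-- row check 187 -/
noncomputable def p187 : RP := ⟨nat_lit 19, nat_lit 1, nat_lit 19, nat_lit 28, nat_lit 317472, nat_lit 320793, nat_lit 317479, nat_lit 0x68993039acb77, nat_lit 0x69b14c5a8518a, nat_lit 0x200000000000000000, nat_lit 0x1, nat_lit 65, nat_lit 165597, nat_lit 165040, nat_lit 165600, [nat_lit 0x415d18000010019c, nat_lit 0x3fe83a0000100094], nat_lit 165025, nat_lit 165025, []⟩

set_option maxRecDepth 100000 in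
theorem h187 : rchk Cd.ms p187 = true := by
  decide +kernel

/-- the row checks of this file -/
noncomputable def rs108 : List RP := [p186, p187]

theorem R108 : RCk Cd.ms rs108 :=
  RCk.cons h186 (RCk.cons h187 RCk.nil)

end Pool.Agent.Moser.Ck.Cr
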