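import Pool.Agent.Lib_MP_cc07e8_cd.Ds
import Pool.Agent.Lib_MP_cc07e8_ck.CkAsmDefs

/-! # MP_cc07e8_co: row checks of the explicit start, part 109 -/

namespace Pool.Agent.Moser.Ck.Cr

/-- row check 188 -/
noncomputable def p188 : RP := ⟨nat_lit 19, nat_lit 2, nat_lit 19, nat_lit 28, nat_lit 320722, nat_lit 324058, nat_lit 320722, nat_lit 0x678b660dfb910, nat_lit 0x689f1dbee54c0, nat_lit 0x200000000000000000, nat_lit 0x1, nat_lit 49, nat_lit 166157, nat_lit 165600, nat_lit 166160, [nat_lit 0x40927e000010019e, nat_lit 0x3f39550000100092], nat_lit 165585, nat_lit 165585, []⟩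

set_option maxRecDepth 100000 in
theorem h188 : rchk Cd.ms p188 = true := by
  decide +kernel

/-- row check 189 -/
noncomputable def p189 : RP := ⟨nat_lit 20, nat_lit 1, nat_lit 19, nat_lit 28, nat_lit 323950, nat_lit 327346, nat_lit 323987, nat_lit 0x668125b309847, nat_lit 0x67943c5e513f2, nat_lit 0x200000000000000000, nat_lit 0x1, nat_lit 52, nat_lit 166717, nat_lit 166160, nat_lit 166720, [nat_lit 0x4060df000010019f, nat_lit 0x3fa1000000100091], nat_lit 166145, nat_lit 166145, []⟩

set_option maxRecDepth 100000 in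
theorem h189 : rchk Cd.ms p189 = true := by
  decide +kernel

/-- the row checks of this file -/
noncomputable def rs109 : List RP := [p188, p189]

theorem R109 : RCk Cd.ms rs109 :=
  RCk.cons h188 (RCk.cons h189 RCk.nil)

end Pool.Agent.Moser.Ck.Cr
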