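import Pool.Agent.Lib_MP_cc07e8_cd.Ds
import Pool.Agent.Lib_MP_cc07e8_ck.CkAsmDefs

/-! # MP_cc07e8_co: row checks of the explicit start, part 110 -/

namespace Pool.Agent.Moser.Ck.Cr

/-- row check 190 -/
noncomputable def p190 : RP := ⟨nat_lit 20, nat_lit 1, nat_lit 19, nat_lit 28, nat_lit 327258, nat_lit 330561, nat_lit 327274, nat_lit 0x6581edc241c52, nat_lit 0x6688341ac73a7, nat_lit 0x200000000000000000, nat_lit 0x1, nat_lit 63, nat_lit 167261, nat_lit 166720, nat_lit 167264, [nat_lit 0x4085af00001001a0, nat_lit 0x408cf10000100080], nat_lit 166705, nat_lit 166705, []⟩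

set_option maxRecDepth 100000 in
theorem h190 : rchk Cd.ms p190 = true := by
  decide +kernel

/-- row check 191 -/
noncomputable def p191 : RP := ⟨nat_lit 20, nat_lit 1, nat_lit 19, nat_lit 28, nat_lit 330446, nat_lit 333701, nat_lit 330488, nat_lit 0x648d693746320, nat_lit 0x658af8e3c3d07, nat_lit 0x200000000000000000, nat_lit 0x1, nat_lit 71, nat_lit 167789, nat_lit 167264, nat_lit 167792, [nat_lit 0x40476400001001a2, nat_lit 0x3f5063000010006e], nat_lit 167249, nat_lit 167249, []⟩

set_option maxRecDepth 100000 in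
theorem h191 : rchk Cd.ms p191 = true := by
  decide +kernel

/-- the row checks of this file -/
noncomputable def rs110 : List RP := [p190, p191]

theorem R110 : RCk Cd.ms rs110 :=
  RCk.cons h190 (RCk.cons h191 RCk.nil)

end Pool.Agent.Moser.Ck.Cr
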