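import Pool.Agent.Lib_MP_cc07e8_cd.Ds
import Pool.Agent.Lib_MP_cc07e8_ck.CkAsmDefs

/-! # MP_cc07e8_co: row checks of the explicit start, part 111 -/

namespace Pool.Agent.Moser.Ck.Cr

/-- row check 192 -/
noncomputable def p192 : RP := ⟨nat_lit 20, nat_lit 1, nat_lit 19, nat_lit 28, nat_lit 333617, nat_lit 336957, nat_lit 333628, nat_lit 0x6394ac450c5c9, nat_lit 0x6493e46f0f462, nat_lit 0x200000000000000000, nat_lit 0x1, nat_lit 80, nat_lit 168333, nat_lit 167792, nat_lit 168336, [nat_lit 0x3fc98800001001a3, nat_lit 0x3f63e9000010007d], nat_lit 167777, nat_lit 167777, []⟩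

set_option maxRecDepth 100000 in
theorem h192 : rchk Cd.ms p192 = true := by
  decide +kernel

/-- row check 193 -/
noncomputable def p193 : RP := ⟨nat_lit 20, nat_lit 1, nat_lit 20, nat_lit 28, nat_lit 168442, nat_lit 170844, nat_lit 168442, nat_lit 0x6233b3c87f675, nat_lit 0x639a326d655fd, nat_lit 0x100000000000000000, nat_lit 0x1, nat_lit 52, nat_lit 169117, nat_lit 168336, nat_lit 169120, [nat_lit 0x41713100001001a4, nat_lit 0x42b576000010016c], nat_lit 168321, nat_lit 168321, []⟩

set_option maxRecDepth 100000 in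
theorem h193 : rchk Cd.ms p193 = true := by
  decide +kernel

/-- the row checks of this file -/
noncomputable def rs111 : List RP := [p192, p193]

theorem R111 : RCk Cd.ms rs111 :=
  RCk.cons h192 (RCk.cons h193 RCk.nil)

end Pool.Agent.Moser.Ck.Cr
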