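import Pool.Agent.Lib_MP_cc07e8_cd.Ds
import Pool.Agent.Lib_MP_cc07e8_ck.CkAsmDefs

/-! # MP_cc07e8_co: row checks of the explicit start, part 112 -/

namespace Pool.Agent.Moser.Ck.Cr

/-- row check 194 -/
noncomputable def p194 : RP := ⟨nat_lit 20, nat_lit 1, nat_lit 20, nat_lit 28, nat_lit 170787, nat_lit 173182, nat_lit 170807, nat_lit 0x60e04f5fc908b, nat_lit 0x623c17b699896, nat_lit 0x100000000000000000, nat_lit 0x1, nat_lit 34, nat_lit 169885, nat_lit 169120, nat_lit 169888, [nat_lit 0x404f4d00001001a6, nat_lit 0x407efb000010015a], nat_lit 169105, nat_lit 169105, []⟩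

set_option maxRecDepth 100000 in
theorem h194 : rchk Cd.ms p194 = true := by
  decide +kernel

/-- row check 195 -/
noncomputable def p195 : RP := ⟨nat_lit 20, nat_lit 1, nat_lit 20, nat_lit 28, nat_lit 173119, nat_lit 175541, nat_lit 173144, nat_lit 0x5f93083cfb78c, nat_lit 0x60e955cdf7c97, nat_lit 0x100000000000000000, nat_lit 0x1, nat_lit 41, nat_lit 170653, nat_lit 169888, nat_lit 170656, [nat_lit 0x40c56600001001a8, nat_lit 0x3f82a40000100158], nat_lit 169873, nat_lit 169873, []⟩

set_option maxRecDepth 100000 in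
theorem h195 : rchk Cd.ms p195 = true := by
  decide +kernel

/-- the row checks of this file -/
noncomputable def rs112 : List RP := [p194, p195]

theorem R112 : RCk Cd.ms rs112 :=
  RCk.cons h194 (RCk.cons h195 RCk.nil)

end Pool.Agent.Moser.Ck.Cr
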