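import Pool.Agent.Lib_MP_cc07e8_cd.Ds
import Pool.Agent.Lib_MP_cc07e8_ck.CkAsmDefs

/-! # MP_cc07e8_co: row checks of the explicit start, part 113 -/

namespace Pool.Agent.Moser.Ck.Cr

/-- row check 196 -/
noncomputable def p196 : RP := ⟨nat_lit 20, nat_lit 2, nat_lit 20, nat_lit 28, nat_lit 175503, nat_lit 177972, nat_lit 175503, nat_lit 0x5e44d36ffefcc, nat_lit 0x5f98546d70d08, nat_lit 0x100000000000000000, nat_lit 0x1, nat_lit 38, nat_lit 171437, nat_lit 170656, nat_lit 171440, [nat_lit 0x4303d900001001aa, nat_lit 0x3fd2950000100166], nat_lit 170641, nat_lit 170641, []⟩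

set_option maxRecDepth 100000 in
theorem h196 : rchk Cd.ms p196 = true := by
  decide +kernel

/-- row check 197 -/
noncomputable def p197 : RP := ⟨nat_lit 21, nat_lit 1, nat_lit 20, nat_lit 28, nat_lit 177933, nat_lit 180374, nat_lit 177933, nat_lit 0x5d03745ad847b, nat_lit 0x5e4a1d8dff2f8, nat_lit 0x100000000000000000, nat_lit 0x1, nat_lit 32, nat_lit 172205, nat_lit 171440, nat_lit 172208, [nat_lit 0x3fcd2000001001ac, nat_lit 0x3edde50000100154], nat_lit 171425, nat_lit 171425, []⟩

set_option maxRecDepth 100000 in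
theorem h197 : rchk Cd.ms p197 = true := by
  decide +kernel

/-- the row checks of this file -/
noncomputable def rs113 : List RP := [p196, p197]

theorem R113 : RCk Cd.ms rs113 :=
  RCk.cons h196 (RCk.cons h197 RCk.nil)

end Pool.Agent.Moser.Ck.Cr
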