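import Pool.Agent.Lib_MP_cc07e8_cd.Ds
import Pool.Agent.Lib_MP_cc07e8_ck.CkAsmDefs

/-! # MP_cc07e8_co: row checks of the explicit start, part 114 -/

namespace Pool.Agent.Moser.Ck.Cr

/-- row check 198 -/
noncomputable def p198 : RP := ⟨nat_lit 21, nat_lit 1, nat_lit 20, nat_lit 28, nat_lit 180328, nat_lit 182798, nat_lit 180336, nat_lit 0x5bc7b3a893fff, nat_lit 0x5d098751d3e96, nat_lit 0x100000000000000000, nat_lit 0x1, nat_lit 51, nat_lit 172973, nat_lit 172208, nat_lit 172976, [nat_lit 0x40442500001001ae, nat_lit 0x3ebffb0000100152], nat_lit 172193, nat_lit 172193, []⟩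

set_option maxRecDepth 100000 in
theorem h198 : rchk Cd.ms p198 = true := by
  decide +kernel

/-- row check 199 -/
noncomputable def p199 : RP := ⟨nat_lit 21, nat_lit 1, nat_lit 20, nat_lit 28, nat_lit 182749, nat_lit 185193, nat_lit 182759, nat_lit 0x5a97d83e6d325, nat_lit 0x5bce006addcc7, nat_lit 0x100000000000000000, nat_lit 0x1, nat_lit 44, nat_lit 173725, nat_lit 172976, nat_lit 173728, [nat_lit 0x3ea0f900001001b0, nat_lit 0x3e8a360000100140], nat_lit 172961, nat_lit 172961, []⟩

set_option maxRecDepth 100000 in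
theorem h199 : rchk Cd.ms p199 = true := by
  decide +kernel

/-- the row checks of this file -/
noncomputable def rs114 : List RP := [p198, p199]

theorem R114 : RCk Cd.ms rs114 :=
  RCk.cons h198 (RCk.cons h199 RCk.nil)

end Pool.Agent.Moser.Ck.Cr
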