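import Pool.Agent.Lib_MP_cc07e8_cd.Ds
import Pool.Agent.Lib_MP_cc07e8_ck.CkAsmDefs

/-! # MP_cc07e8_co: row checks of the explicit start, part 115 -/

namespace Pool.Agent.Moser.Ck.Cr

/-- row check 200 -/
noncomputable def p200 : RP := ⟨nat_lit 21, nat_lit 1, nat_lit 20, nat_lit 28, nat_lit 185154, nat_lit 187608, nat_lit 185154, nat_lit 0x596d4e426fe49, nat_lit 0x5a9cbacf6f02f, nat_lit 0x100000000000000000, nat_lit 0x1, nat_lit 44, nat_lit 174477, nat_lit 173728, nat_lit 174480, [nat_lit 0x4293e800001001b2, nat_lit 0x3e921c000010013e], nat_lit 173713, nat_lit 173713, []⟩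

set_option maxRecDepth 100000 in
theorem h200 : rchk Cd.ms p200 = true := by
  decide +kernel

/-- row check 201 -/
noncomputable def p201 : RP := ⟨nat_lit 21, nat_lit 1, nat_lit 20, nat_lit 28, nat_lit 187566, nat_lit 190045, nat_lit 187569, nat_lit 0x5847bd0bd7877, nat_lit 0x59726e975f83d, nat_lit 0x100000000000000000, nat_lit 0x1, nat_lit 32, nat_lit 175229, nat_lit 174480, nat_lit 175232, [nat_lit 0x3d8a5100001001b4, nat_lit 0x3ddce3000010013c], nat_lit 174465, nat_lit 174465, []⟩

set_option maxRecDepth 100000 in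
theorem h201 : rchk Cd.ms p201 = true := by
  decide +kernel

/-- the row checks of this file -/
noncomputable def rs115 : List RP := [p200, p201]

theorem R115 : RCk Cd.ms rs115 :=
  RCk.cons h200 (RCk.cons h201 RCk.nil)

end Pool.Agent.Moser.Ck.Cr
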