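import Pool.Agent.Lib_MP_cc07e8_cd.Ds
import Pool.Agent.Lib_MP_cc07e8_ck.CkAsmDefs

/-! # MP_cc07e8_co: row checks of the explicit start, part 116 -/

namespace Pool.Agent.Moser.Ck.Cr

/-- row check 202 -/
noncomputable def p202 : RP := ⟨nat_lit 21, nat_lit 2, nat_lit 20, nat_lit 28, nat_lit 189993, nat_lit 192502, nat_lit 190005, nat_lit 0x5727495f9d2fb, nat_lit 0x584dec837de8d, nat_lit 0x100000000000000000, nat_lit 0x1, nat_lit 31, nat_lit 175981, nat_lit 175232, nat_lit 175984, [nat_lit 0x3d329b00001001b6, nat_lit 0x3d618d000010013a], nat_lit 175217, nat_lit 175217, []⟩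

set_option maxRecDepth 100000 in
theorem h202 : rchk Cd.ms p202 = true := by
  decide +kernel

/-- the row checks of this file -/
noncomputable def rs116 : List RP := [p202]

theorem R116 : RCk Cd.ms rs116 :=
  RCk.cons h202 RCk.nil

end Pool.Agent.Moser.Ck.Cr
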