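import Pool.Agent.Lib_MP_cc07e8_cd.Ds
import Pool.Agent.Lib_MP_cc07e8_ck.CkAsmDefs

/-! # MP_cc07e8_co: row checks of the explicit start, part 117 -/

namespace Pool.Agent.Moser.Ck.Cr

/-- row check 203 -/
noncomputable def p203 : RP := ⟨nat_lit 21, nat_lit 2, nat_lit 20, nat_lit 28, nat_lit 192449, nat_lit 194980, nat_lit 192461, nat_lit 0x560bbb898a390, nat_lit 0x572d6e5bf80b9, nat_lit 0x100000000000000000, nat_lit 0x1, nat_lit 54, nat_lit 176733, nat_lit 175984, nat_lit 176736, [nat_lit 0x3df8a600001001b7, nat_lit 0x3dd2940000100139], nat_lit 175969, nat_lit 175969, []⟩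

set_option maxRecDepth 100000 in
theorem h203 : rchk Cd.ms p203 = true := by
  decide +kernel

/-- row check 204 -/
noncomputable def p204 : RP := ⟨nat_lit 22, nat_lit 1, nat_lit 20, nat_lit 28, nat_lit 194929, nat_lit 197426, nat_lit 194939, nat_lit 0x54fad22eccd1d, nat_lit 0x56117eea76953, nat_lit 0x100000000000000000, nat_lit 0x1, nat_lit 42, nat_lit 177469, nat_lit 176736, nat_lit 177472, [nat_lit 0x41c3a000001001b9, nat_lit 0x3d56440000100127], nat_lit 176721, nat_lit 176721, []⟩

set_option maxRecDepth 100000 in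
theorem h204 : rchk Cd.ms p204 = true := by
  decide +kernel

/-- the row checks of this file -/
noncomputable def rs117 : List RP := [p203, p204]

theorem R117 : RCk Cd.ms rs117 :=
  RCk.cons h203 (RCk.cons h204 RCk.nil)

end Pool.Agent.Moser.Ck.Cr
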