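import Pool.Agent.Lib_MP_cc07e8_cd.Ds
import Pool.Agent.Lib_MP_cc07e8_ck.CkAsmDefs

/-! # MP_cc07e8_co: row checks of the explicit start, part 118 -/

namespace Pool.Agent.Moser.Ck.Cr

/-- row check 205 -/
noncomputable def p205 : RP := ⟨nat_lit 22, nat_lit 1, nat_lit 20, nat_lit 28, nat_lit 197371, nat_lit 199893, nat_lit 197385, nat_lit 0x53ee54e82850e, nat_lit 0x5500e21f59856, nat_lit 0x100000000000000000, nat_lit 0x1, nat_lit 43, nat_lit 178205, nat_lit 177472, nat_lit 178208, [nat_lit 0x3df78a00001001bb, nat_lit 0x3c740f0000100125], nat_lit 177457, nat_lit 177457, []⟩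

set_option maxRecDepth 100000 in
theorem h205 : rchk Cd.ms p205 = true := by
  decide +kernel

/-- row check 206 -/
noncomputable def p206 : RP := ⟨nat_lit 22, nat_lit 1, nat_lit 20, nat_lit 28, nat_lit 199843, nat_lit 202380, nat_lit 199851, nat_lit 0x52e64a8d095b0, nat_lit 0x53f3b51cc71d4, nat_lit 0x100000000000000000, nat_lit 0x1, nat_lit 34, nat_lit 178941, nat_lit 178208, nat_lit 178944, [nat_lit 0x3e4b0300001001bd, nat_lit 0x3c61b30000100123], nat_lit 178193, nat_lit 178193, []⟩

set_option maxRecDepth 100000 in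
theorem h206 : rchk Cd.ms p206 = true := by
  decide +kernel

/-- the row checks of this file -/
noncomputable def rs118 : List RP := [p205, p206]

theorem R118 : RCk Cd.ms rs118 :=
  RCk.cons h205 (RCk.cons h206 RCk.nil)

end Pool.Agent.Moser.Ck.Cr
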