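import Pool.Agent.Lib_MP_cc07e8_cd.Ds
import Pool.Agent.Lib_MP_cc07e8_ck.CkAsmDefs

/-! # MP_cc07e8_co: row checks of the explicit start, part 119 -/

namespace Pool.Agent.Moser.Ck.Cr

/-- row check 207 -/
noncomputable def p207 : RP := ⟨nat_lit 22, nat_lit 1, nat_lit 20, nat_lit 28, nat_lit 202329, nat_lit 204887, nat_lit 202338, nat_lit 0x51e29d6f84d51, nat_lit 0x52eba3feb305c, nat_lit 0x100000000000000000, nat_lit 0x1, nat_lit 33, nat_lit 179677, nat_lit 178944, nat_lit 179680, [nat_lit 0x3be0c700001001bf, nat_lit 0x3bbc8c0000100121], nat_lit 178929, nat_lit 178929, []⟩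

set_option maxRecDepth 100000 in
theorem h207 : rchk Cd.ms p207 = true := by
  decide +kernel

/-- row check 208 -/
noncomputable def p208 : RP := ⟨nat_lit 22, nat_lit 1, nat_lit 20, nat_lit 28, nat_lit 204825, nat_lit 207360, nat_lit 204845, nat_lit 0x50e89cc2afb93, nat_lit 0x51e8f5d709999, nat_lit 0x100000000000000000, nat_lit 0x1, nat_lit 58, nat_lit 180397, nat_lit 179680, nat_lit 180400, [nat_lit 0x3c916900001001c1, nat_lit 0x3c1483000010010f], nat_lit 179665, nat_lit 179665, []⟩

set_option maxRecDepth 100000 in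
theorem h208 : rchk Cd.ms p208 = true := by
  decide +kernel

/-- the row checks of this file -/
noncomputable def rs119 : List RP := [p207, p208]

theorem R119 : RCk Cd.ms rs119 :=
  RCk.cons h207 (RCk.cons h208 RCk.nil)

end Pool.Agent.Moser.Ck.Cr
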