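import Pool.Agent.Lib_MP_cc07e8_cd.Ds
import Pool.Agent.Lib_MP_cc07e8_ck.CkAsmDefs

/-! # MP_cc07e8_co: row checks of the explicit start, part 120 -/

namespace Pool.Agent.Moser.Ck.Cr

/-- row check 209 -/
noncomputable def p209 : RP := ⟨nat_lit 22, nat_lit 1, nat_lit 20, nat_lit 28, nat_lit 207318, nat_lit 209853, nat_lit 207318, nat_lit 0x4ff28d431ce5f, nat_lit 0x50eccef722f01, nat_lit 0x100000000000000000, nat_lit 0x1, nat_lit 38, nat_lit 181117, nat_lit 180400, nat_lit 181120, [nat_lit 0x3c0db100001001c3, nat_lit 0x3b96c5000010010d], nat_lit 180385, nat_lit 180385, []⟩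

set_option maxRecDepth 100000 in
theorem h209 : rchk Cd.ms p209 = true := by
  decide +kernel

/-- row check 210 -/
noncomputable def p210 : RP := ⟨nat_lit 22, nat_lit 2, nat_lit 20, nat_lit 28, nat_lit 209783, nat_lit 212366, nat_lit 209810, nat_lit 0x4f005d326df17, nat_lit 0x4ff9618c3d34a, nat_lit 0x100000000000000000, nat_lit 0x1, nat_lit 34, nat_lit 181837, nat_lit 181120, nat_lit 181840, [nat_lit 0x3b498400001001c4, nat_lit 0x3a99fc000010010c], nat_lit 181105, nat_lit 181105, []⟩

set_option maxRecDepth 100000 in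
theorem h210 : rchk Cd.ms p210 = true := by
  decide +kernel

/-- the row checks of this file -/
noncomputable def rs120 : List RP := [p209, p210]

theorem R120 : RCk Cd.ms rs120 :=
  RCk.cons h209 (RCk.cons h210 RCk.nil)

end Pool.Agent.Moser.Ck.Cr
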