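import Pool.Agent.Lib_MP_cc07e8_cd.Ds
import Pool.Agent.Lib_MP_cc07e8_ck.CkAsmDefs

/-! # MP_cc07e8_co: row checks of the explicit start, part 121 -/

namespace Pool.Agent.Moser.Ck.Cr

/-- row check 211 -/
noncomputable def p211 : RP := ⟨nat_lit 23, nat_lit 1, nat_lit 20, nat_lit 28, nat_lit 212322, nat_lit 214898, nat_lit 212323, nat_lit 0x4e1212e7284bb, nat_lit 0x4f048e2139865, nat_lit 0x100000000000000000, nat_lit 0x1, nat_lit 43, nat_lit 182557, nat_lit 181840, nat_lit 182560, [nat_lit 0x3b020600001001c6, nat_lit 0x3b39d1000010010a], nat_lit 181825, nat_lit 181825, []⟩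

set_option maxRecDepth 100000 in
theorem h211 : rchk Cd.ms p211 = true := by
  decide +kernel

/-- row check 212 -/
noncomputable def p212 : RP := ⟨nat_lit 23, nat_lit 1, nat_lit 20, nat_lit 28, nat_lit 214855, nat_lit 217451, nat_lit 214855, nat_lit 0x4d276d028b49c, nat_lit 0x4e1612e16a54a, nat_lit 0x100000000000000000, nat_lit 0x1, nat_lit 61, nat_lit 183277, nat_lit 182560, nat_lit 183280, [nat_lit 0x3b90f200001001c8, nat_lit 0x3a76f50000100108], nat_lit 182545, nat_lit 182545, []⟩

set_option maxRecDepth 100000 in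
theorem h212 : rchk Cd.ms p212 = true := by
  decide +kernel

/-- the row checks of this file -/
noncomputable def rs121 : List RP := [p211, p212]

theorem R121 : RCk Cd.ms rs121 :=
  RCk.cons h211 (RCk.cons h212 RCk.nil)

end Pool.Agent.Moser.Ck.Cr
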