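import Pool.Agent.Lib_MP_cc07e8_cd.Ds
import Pool.Agent.Lib_MP_cc07e8_ck.CkAsmDefs

/-! # MP_cc07e8_co: row checks of the explicit start, part 122 -/

namespace Pool.Agent.Moser.Ck.Cr

/-- row check 213 -/
noncomputable def p213 : RP := ⟨nat_lit 23, nat_lit 1, nat_lit 20, nat_lit 28, nat_lit 217404, nat_lit 220024, nat_lit 217407, nat_lit 0x4c4072f92d5bb, nat_lit 0x4d2bb221d8d23, nat_lit 0x100000000000000000, nat_lit 0x1, nat_lit 42, nat_lit 183997, nat_lit 183280, nat_lit 184000, [nat_lit 0x3a7a3500001001ca, nat_lit 0x3a78ab0000100106], nat_lit 183265, nat_lit 183265, []⟩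

set_option maxRecDepth 100000 in
theorem h213 : rchk Cd.ms p213 = true := by
  decide +kernel

/-- row check 214 -/
noncomputable def p214 : RP := ⟨nat_lit 23, nat_lit 1, nat_lit 20, nat_lit 28, nat_lit 219962, nat_lit 222559, nat_lit 219980, nat_lit 0x4b621b46f5e2c, nat_lit 0x4c45f3873fe20, nat_lit 0x100000000000000000, nat_lit 0x1, nat_lit 39, nat_lit 184701, nat_lit 184000, nat_lit 184704, [nat_lit 0x3b294500001001cc, nat_lit 0x3c24ce00001000f4], nat_lit 183985, nat_lit 183985, []⟩

set_option maxRecDepth 100000 in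
theorem h214 : rchk Cd.ms p214 = true := by
  decide +kernel

/-- the row checks of this file -/
noncomputable def rs122 : List RP := [p213, p214]

theorem R122 : RCk Cd.ms rs122 :=
  RCk.cons h213 (RCk.cons h214 RCk.nil)

end Pool.Agent.Moser.Ck.Cr
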