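import Pool.Agent.Lib_MP_cc07e8_cd.Ds
import Pool.Agent.Lib_MP_cc07e8_ck.CkAsmDefs

/-! # MP_cc07e8_co: row checks of the explicit start, part 123 -/

namespace Pool.Agent.Moser.Ck.Cr

/-- row check 215 -/
noncomputable def p215 : RP := ⟨nat_lit 23, nat_lit 1, nat_lit 20, nat_lit 28, nat_lit 222502, nat_lit 225114, nat_lit 222515, nat_lit 0x4a8713a986f5f, nat_lit 0x4b670cdfea6cc, nat_lit 0x100000000000000000, nat_lit 0x1, nat_lit 51, nat_lit 185405, nat_lit 184704, nat_lit 185408, [nat_lit 0x3acfba00001001cd, nat_lit 0x3a997700001000f3], nat_lit 184689, nat_lit 184689, []⟩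

set_option maxRecDepth 100000 in
theorem h215 : rchk Cd.ms p215 = true := by
  decide +kernel

/-- row check 216 -/
noncomputable def p216 : RP := ⟨nat_lit 23, nat_lit 1, nat_lit 20, nat_lit 28, nat_lit 225059, nat_lit 227688, nat_lit 225069, nat_lit 0x49af6390241f7, nat_lit 0x4a8bbd4684094, nat_lit 0x100000000000000000, nat_lit 0x1, nat_lit 38, nat_lit 186109, nat_lit 185408, nat_lit 186112, [nat_lit 0x3a17c300001001cf, nat_lit 0x3a5a8200001000f1], nat_lit 185393, nat_lit 185393, []⟩

set_option maxRecDepth 100000 in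
theorem h216 : rchk Cd.ms p216 = true := by
  decide +kernel

/-- the row checks of this file -/
noncomputable def rs123 : List RP := [p215, p216]

theorem R123 : RCk Cd.ms rs123 :=
  RCk.cons h215 (RCk.cons h216 RCk.nil)

end Pool.Agent.Moser.Ck.Cr
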