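import Pool.Agent.Lib_MP_cc07e8_cd.Ds
import Pool.Agent.Lib_MP_cc07e8_ck.CkAsmDefs

/-! # MP_cc07e8_co: row checks of the explicit start, part 124 -/

namespace Pool.Agent.Moser.Ck.Cr

/-- row check 217 -/
noncomputable def p217 : RP := ⟨nat_lit 23, nat_lit 2, nat_lit 20, nat_lit 28, nat_lit 227620, nat_lit 230281, nat_lit 227643, nat_lit 0x48dafbf582986, nat_lit 0x49b506342881a, nat_lit 0x100000000000000000, nat_lit 0x1, nat_lit 47, nat_lit 186813, nat_lit 186112, nat_lit 186816, [nat_lit 0x398a1d00001001d1, nat_lit 0x39e7fa00001000ef], nat_lit 186097, nat_lit 186097, []⟩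

set_option maxRecDepth 100000 in
theorem h217 : rchk Cd.ms p217 = true := by
  decide +kernel

/-- row check 218 -/
noncomputable def p218 : RP := ⟨nat_lit 24, nat_lit 1, nat_lit 20, nat_lit 28, nat_lit 230235, nat_lit 232894, nat_lit 230236, nat_lit 0x4809b9d0262a2, nat_lit 0x48deb5ea2b372, nat_lit 0x100000000000000000, nat_lit 0x1, nat_lit 60, nat_lit 187517, nat_lit 186816, nat_lit 187520, [nat_lit 0x3a321200001001d3, nat_lit 0x39458000001000ed], nat_lit 186801, nat_lit 186801, []⟩

set_option maxRecDepth 100000 in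
theorem h218 : rchk Cd.ms p218 = true := by
  decide +kernel

/-- the row checks of this file -/
noncomputable def rs124 : List RP := [p217, p218]

theorem R124 : RCk Cd.ms rs124 :=
  RCk.cons h217 (RCk.cons h218 RCk.nil)

end Pool.Agent.Moser.Ck.Cr
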