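import Pool.Agent.Lib_MP_cc07e8_cd.Ds
import Pool.Agent.Lib_MP_cc07e8_ck.CkAsmDefs

/-! # MP_cc07e8_co: row checks of the explicit start, part 125 -/

namespace Pool.Agent.Moser.Ck.Cr

/-- row check 219 -/
noncomputable def p219 : RP := ⟨nat_lit 24, nat_lit 1, nat_lit 20, nat_lit 28, nat_lit 232832, nat_lit 235467, nat_lit 232849, nat_lit 0x47403581f82ed, nat_lit 0x480ea2f91a996, nat_lit 0x100000000000000000, nat_lit 0x1, nat_lit 45, nat_lit 188205, nat_lit 187520, nat_lit 188208, [nat_lit 0x3969ed00001001d4, nat_lit 0x38ea1000001000dc], nat_lit 187505, nat_lit 187505, []⟩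

set_option maxRecDepth 100000 in
theorem h219 : rchk Cd.ms p219 = true := by
  decide +kernel

/-- row check 220 -/
noncomputable def p220 : RP := ⟨nat_lit 24, nat_lit 1, nat_lit 20, nat_lit 28, nat_lit 235421, nat_lit 238120, nat_lit 235421, nat_lit 0x4674fc9eb3418, nat_lit 0x4743c5e6d38d4, nat_lit 0x100000000000000000, nat_lit 0x1, nat_lit 54, nat_lit 188909, nat_lit 188208, nat_lit 188912, [nat_lit 0x3a468900001001d6, nat_lit 0x38d66e00001000ea], nat_lit 188193, nat_lit 188193, []⟩

set_option maxRecDepth 100000 in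
theorem h220 : rchk Cd.ms p220 = true := by
  decide +kernel

/-- the row checks of this file -/
noncomputable def rs125 : List RP := [p219, p220]

theorem R125 : RCk Cd.ms rs125 :=
  RCk.cons h219 (RCk.cons h220 RCk.nil)

end Pool.Agent.Moser.Ck.Cr
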