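import Pool.Agent.Lib_MP_cc07e8_cd.Ds
import Pool.Agent.Lib_MP_cc07e8_ck.CkAsmDefs

/-! # MP_cc07e8_co: row checks of the explicit start, part 126 -/

namespace Pool.Agent.Moser.Ck.Cr

/-- row check 221 -/
noncomputable def p221 : RP := ⟨nat_lit 24, nat_lit 1, nat_lit 20, nat_lit 28, nat_lit 238060, nat_lit 240731, nat_lit 238073, nat_lit 0x45b15af31c35a, nat_lit 0x46798864edccf, nat_lit 0x100000000000000000, nat_lit 0x1, nat_lit 38, nat_lit 189597, nat_lit 188912, nat_lit 189600, [nat_lit 0x38dae500001001d8, nat_lit 0x38985400001000d8], nat_lit 188897, nat_lit 188897, []⟩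

set_option maxRecDepth 100000 in
theorem h221 : rchk Cd.ms p221 = true := by
  decide +kernel

/-- row check 222 -/
noncomputable def p222 : RP := ⟨nat_lit 24, nat_lit 1, nat_lit 20, nat_lit 28, nat_lit 240684, nat_lit 243422, nat_lit 240684, nat_lit 0x44ec1f0dc31dd, nat_lit 0x45b4d6dab57d7, nat_lit 0x100000000000000000, nat_lit 0x1, nat_lit 62, nat_lit 190301, nat_lit 189600, nat_lit 190304, [nat_lit 0x3938db00001001da, nat_lit 0x38ad5b00001000e6], nat_lit 189585, nat_lit 189585, []⟩

set_option maxRecDepth 100000 in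
theorem h222 : rchk Cd.ms p222 = true := by
  decide +kernel

/-- the row checks of this file -/
noncomputable def rs126 : List RP := [p221, p222]

theorem R126 : RCk Cd.ms rs126 :=
  RCk.cons h221 (RCk.cons h222 RCk.nil)

end Pool.Agent.Moser.Ck.Cr
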