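import Pool.Agent.Lib_MP_cc07e8_cd.Ds
import Pool.Agent.Lib_MP_cc07e8_ck.CkAsmDefs

/-! # MP_cc07e8_co: row checks of the explicit start, part 127 -/

namespace Pool.Agent.Moser.Ck.Cr

/-- row check 223 -/
noncomputable def p223 : RP := ⟨nat_lit 24, nat_lit 1, nat_lit 20, nat_lit 28, nat_lit 243375, nat_lit 246072, nat_lit 243375, nat_lit 0x442e1bae785d2, nat_lit 0x44ef8758842ca, nat_lit 0x100000000000000000, nat_lit 0x1, nat_lit 47, nat_lit 190989, nat_lit 190304, nat_lit 190992, [nat_lit 0x38176300001001db, nat_lit 0x38244700001000d5], nat_lit 190289, nat_lit 190289, []⟩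

set_option maxRecDepth 100000 in
theorem h223 : rchk Cd.ms p223 = true := by
  decide +kernel

/-- row check 224 -/
noncomputable def p224 : RP := ⟨nat_lit 24, nat_lit 2, nat_lit 20, nat_lit 28, nat_lit 246011, nat_lit 248741, nat_lit 246025, nat_lit 0x4372d32d94dc2, nat_lit 0x44326f9cf37f4, nat_lit 0x100000000000000000, nat_lit 0x1, nat_lit 36, nat_lit 191677, nat_lit 190992, nat_lit 191680, [nat_lit 0x380a5300001001dd, nat_lit 0x37f5fb00001000d3], nat_lit 190977, nat_lit 190977, []⟩

set_option maxRecDepth 100000 in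
theorem h224 : rchk Cd.ms p224 = true := by
  decide +kernel

/-- the row checks of this file -/
noncomputable def rs127 : List RP := [p223, p224]

theorem R127 : RCk Cd.ms rs127 :=
  RCk.cons h223 (RCk.cons h224 RCk.nil)

end Pool.Agent.Moser.Ck.Cr
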