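import Pool.Agent.Lib_MP_cc07e8_cd.Ds
import Pool.Agent.Lib_MP_cc07e8_ck.CkAsmDefs

/-! # MP_cc07e8_co: row checks of the explicit start, part 128 -/

namespace Pool.Agent.Moser.Ck.Cr

/-- row check 225 -/
noncomputable def p225 : RP := ⟨nat_lit 25, nat_lit 1, nat_lit 20, nat_lit 28, nat_lit 248693, nat_lit 251429, nat_lit 248693, nat_lit 0x42ba3a280a7bb, nat_lit 0x437628565c6a7, nat_lit 0x100000000000000000, nat_lit 0x1, nat_lit 64, nat_lit 192365, nat_lit 191680, nat_lit 192368, [nat_lit 0x388cfe00001001df, nat_lit 0x37967a00001000d1], nat_lit 191665, nat_lit 191665, []⟩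

set_option maxRecDepth 100000 in
theorem h225 : rchk Cd.ms p225 = true := by
  decide +kernel

/-- row check 226 -/
noncomputable def p226 : RP := ⟨nat_lit 25, nat_lit 1, nat_lit 20, nat_lit 28, nat_lit 251369, nat_lit 254073, nat_lit 251381, nat_lit 0x42087631954e8, nat_lit 0x42be4df8f6734, nat_lit 0x100000000000000000, nat_lit 0x1, nat_lit 41, nat_lit 193037, nat_lit 192368, nat_lit 193040, [nat_lit 0x37accc00001001e0, nat_lit 0x374fe300001000c0], nat_lit 192353, nat_lit 192353, []⟩

set_option maxRecDepth 100000 in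
theorem h226 : rchk Cd.ms p226 = true := by
  decide +kernel

/-- the row checks of this file -/
noncomputable def rs128 : List RP := [p225, p226]

theorem R128 : RCk Cd.ms rs128 :=
  RCk.cons h225 (RCk.cons h226 RCk.nil)

end Pool.Agent.Moser.Ck.Cr
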