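import Pool.Agent.Lib_MP_cc07e8_cd.Ds
import Pool.Agent.Lib_MP_cc07e8_ck.CkAsmDefs

/-! # MP_cc07e8_co: row checks of the explicit start, part 129 -/

namespace Pool.Agent.Moser.Ck.Cr

/-- row check 227 -/
noncomputable def p227 : RP := ⟨nat_lit 25, nat_lit 1, nat_lit 20, nat_lit 28, nat_lit 254025, nat_lit 256800, nat_lit 254025, nat_lit 0x4154f355e8547, nat_lit 0x420ba7ea9c69a, nat_lit 0x100000000000000000, nat_lit 0x1, nat_lit 41, nat_lit 193725, nat_lit 193040, nat_lit 193728, [nat_lit 0x3785d100001001e2, nat_lit 0x386ea700001000ce], nat_lit 193025, nat_lit 193025, []⟩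

set_option maxRecDepth 100000 in
theorem h227 : rchk Cd.ms p227 = true := by
  decide +kernel

/-- row check 228 -/
noncomputable def p228 : RP := ⟨nat_lit 25, nat_lit 1, nat_lit 20, nat_lit 28, nat_lit 256751, nat_lit 259481, nat_lit 256751, nat_lit 0x40a82546f13dd, nat_lit 0x4158247606983, nat_lit 0x100000000000000000, nat_lit 0x1, nat_lit 53, nat_lit 194397, nat_lit 193728, nat_lit 194400, [nat_lit 0x37009800001001e4, nat_lit 0x369b3900001000bc], nat_lit 193713, nat_lit 193713, []⟩

set_option maxRecDepth 100000 in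
theorem h228 : rchk Cd.ms p228 = true := by
  decide +kernel

/-- the row checks of this file -/
noncomputable def rs129 : List RP := [p227, p228]

theorem R129 : RCk Cd.ms rs129 :=
  RCk.cons h227 (RCk.cons h228 RCk.nil)

end Pool.Agent.Moser.Ck.Cr
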