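import Pool.Agent.Lib_MP_cc07e8_cd.Ds
import Pool.Agent.Lib_MP_cc07e8_ck.CkAsmDefs

/-! # MP_cc07e8_co: row checks of the explicit start, part 130 -/

namespace Pool.Agent.Moser.Ck.Cr

/-- row check 229 -/
noncomputable def p229 : RP := ⟨nat_lit 25, nat_lit 1, nat_lit 20, nat_lit 28, nat_lit 259427, nat_lit 262181, nat_lit 259432, nat_lit 0x3ffdb015633a2, nat_lit 0x40ab974928dda, nat_lit 0x100000000000000000, nat_lit 0x1, nat_lit 53, nat_lit 195069, nat_lit 194400, nat_lit 195072, [nat_lit 0x38a2cf00001001e6, nat_lit 0x36ef7100001000ba], nat_lit 194385, nat_lit 194385, []⟩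

set_option maxRecDepth 100000 in
theorem h229 : rchk Cd.ms p229 = true := by
  decide +kernel

/-- row check 230 -/
noncomputable def p230 : RP := ⟨nat_lit 25, nat_lit 1, nat_lit 20, nat_lit 28, nat_lit 262132, nat_lit 264835, nat_lit 262132, nat_lit 0x3f59857e6ffb3, nat_lit 0x4000c0024006c, nat_lit 0x100000000000000000, nat_lit 0x1, nat_lit 68, nat_lit 195725, nat_lit 195072, nat_lit 195728, [nat_lit 0x376b4c00001001e7, nat_lit 0x3640ed00001000a9], nat_lit 195057, nat_lit 195057, []⟩

set_option maxRecDepth 100000 in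
theorem h230 : rchk Cd.ms p230 = true := by
  decide +kernel

/-- the row checks of this file -/
noncomputable def rs130 : List RP := [p229, p230]

theorem R130 : RCk Cd.ms rs130 :=
  RCk.cons h229 (RCk.cons h230 RCk.nil)

end Pool.Agent.Moser.Ck.Cr
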