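import Pool.Agent.Lib_MP_cc07e8_cd.Ds
import Pool.Agent.Lib_MP_cc07e8_ck.CkAsmDefs

/-! # MP_cc07e8_co: row checks of the explicit start, part 131 -/

namespace Pool.Agent.Moser.Ck.Cr

/-- row check 231 -/
noncomputable def p231 : RP := ⟨nat_lit 25, nat_lit 1, nat_lit 20, nat_lit 28, nat_lit 264777, nat_lit 267507, nat_lit 264786, nat_lit 0x3eb78848fbc37, nat_lit 0x3f5d12ee1356c, nat_lit 0x100000000000000000, nat_lit 0x1, nat_lit 36, nat_lit 196381, nat_lit 195728, nat_lit 196384, [nat_lit 0x35f81d00001001e9, nat_lit 0x3504ff00001000a7], nat_lit 195713, nat_lit 195713, []⟩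

set_option maxRecDepth 100000 in
theorem h231 : rchk Cd.ms p231 = true := by
  decide +kernel

/-- row check 232 -/
noncomputable def p232 : RP := ⟨nat_lit 25, nat_lit 2, nat_lit 20, nat_lit 28, nat_lit 267437, nat_lit 270197, nat_lit 267457, nat_lit 0x3e17b0357f48c, nat_lit 0x3ebbbc1beca8f, nat_lit 0x100000000000000000, nat_lit 0x1, nat_lit 33, nat_lit 197037, nat_lit 196384, nat_lit 197040, [nat_lit 0x3b747300001001ea, nat_lit 0x35d61300001000a6], nat_lit 196369, nat_lit 196369, []⟩

set_option maxRecDepth 100000 in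
theorem h232 : rchk Cd.ms p232 = true := by
  decide +kernel

/-- the row checks of this file -/
noncomputable def rs131 : List RP := [p231, p232]

theorem R131 : RCk Cd.ms rs131 :=
  RCk.cons h231 (RCk.cons h232 RCk.nil)

end Pool.Agent.Moser.Ck.Cr
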