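import Pool.Agent.Lib_MP_cc07e8_cd.Ds
import Pool.Agent.Lib_MP_cc07e8_ck.CkAsmDefs

/-! # MP_cc07e8_co: row checks of the explicit start, part 132 -/

namespace Pool.Agent.Moser.Ck.Cr

/-- row check 233 -/
noncomputable def p233 : RP := ⟨nat_lit 26, nat_lit 1, nat_lit 20, nat_lit 28, nat_lit 270147, nat_lit 272905, nat_lit 270147, nat_lit 0x3d79f51fcaa88, nat_lit 0x3e1aa15f4e641, nat_lit 0x100000000000000000, nat_lit 0x1, nat_lit 44, nat_lit 197693, nat_lit 197040, nat_lit 197696, [nat_lit 0x366b1200001001ec, nat_lit 0x35bd1a00001000a4], nat_lit 197025, nat_lit 197025, []⟩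

set_option maxRecDepth 100000 in
theorem h233 : rchk Cd.ms p233 = true := by
  decide +kernel

/-- row check 234 -/
noncomputable def p234 : RP := ⟨nat_lit 26, nat_lit 1, nat_lit 20, nat_lit 28, nat_lit 272839, nat_lit 275630, nat_lit 272854, nat_lit 0x3cde5d7805cf7, nat_lit 0x3d7dc3b90dfa4, nat_lit 0x100000000000000000, nat_lit 0x1, nat_lit 50, nat_lit 198349, nat_lit 197696, nat_lit 198352, [nat_lit 0x3734f200001001ee, nat_lit 0x34e78a00001000a2], nat_lit 197681, nat_lit 197681, []⟩

set_option maxRecDepth 100000 in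
theorem h234 : rchk Cd.ms p234 = true := by
  decide +kernel

/-- the row checks of this file -/
noncomputable def rs132 : List RP := [p233, p234]

theorem R132 : RCk Cd.ms rs132 :=
  RCk.cons h233 (RCk.cons h234 RCk.nil)

end Pool.Agent.Moser.Ck.Cr
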