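import Pool.Agent.Lib_MP_cc07e8_cd.Ds
import Pool.Agent.Lib_MP_cc07e8_ck.CkAsmDefs

/-! # MP_cc07e8_co: row checks of the explicit start, part 133 -/

namespace Pool.Agent.Moser.Ck.Cr

/-- row check 235 -/
noncomputable def p235 : RP := ⟨nat_lit 26, nat_lit 1, nat_lit 20, nat_lit 28, nat_lit 275579, nat_lit 278374, nat_lit 275579, nat_lit 0x3c44c4161b998, nat_lit 0x3ce13fb562f02, nat_lit 0x100000000000000000, nat_lit 0x1, nat_lit 72, nat_lit 199005, nat_lit 198352, nat_lit 199008, [nat_lit 0x36566b00001001ef, nat_lit 0x36b83600001000a1], nat_lit 198337, nat_lit 198337, []⟩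

set_option maxRecDepth 100000 in
theorem h235 : rchk Cd.ms p235 = true := by
  decide +kernel

/-- row check 236 -/
noncomputable def p236 : RP := ⟨nat_lit 26, nat_lit 1, nat_lit 20, nat_lit 28, nat_lit 278312, nat_lit 281136, nat_lit 278323, nat_lit 0x3bad2feb40ca5, nat_lit 0x3c4833fb42d2e, nat_lit 0x100000000000000000, nat_lit 0x1, nat_lit 60, nat_lit 199661, nat_lit 199008, nat_lit 199664, [nat_lit 0x35a00000001001f1, nat_lit 0x348d0a000010009f], nat_lit 198993, nat_lit 198993, []⟩

set_option maxRecDepth 100000 in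
theorem h236 : rchk Cd.ms p236 = true := by
  decide +kernel

/-- the row checks of this file -/
noncomputable def rs133 : List RP := [p235, p236]

theorem R133 : RCk Cd.ms rs133 :=
  RCk.cons h235 (RCk.cons h236 RCk.nil)

end Pool.Agent.Moser.Ck.Cr
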