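import Pool.Agent.Lib_MP_cc07e8_cd.Ds
import Pool.Agent.Lib_MP_cc07e8_ck.CkAsmDefs

/-! # MP_cc07e8_co: row checks of the explicit start, part 134 -/

namespace Pool.Agent.Moser.Ck.Cr

/-- row check 237 -/
noncomputable def p237 : RP := ⟨nat_lit 26, nat_lit 1, nat_lit 20, nat_lit 28, nat_lit 281064, nat_lit 283848, nat_lit 281085, nat_lit 0x3b1b3901b9735, nat_lit 0x3bb119c98a3be, nat_lit 0x100000000000000000, nat_lit 0x1, nat_lit 47, nat_lit 200301, nat_lit 199664, nat_lit 200304, [nat_lit 0x35538300001001f3, nat_lit 0x33fad3000010008d], nat_lit 199649, nat_lit 199649, []⟩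

set_option maxRecDepth 100000 in
theorem h237 : rchk Cd.ms p237 = true := by
  decide +kernel

/-- row check 238 -/
noncomputable def p238 : RP := ⟨nat_lit 26, nat_lit 1, nat_lit 20, nat_lit 28, nat_lit 283787, nat_lit 286578, nat_lit 283796, nat_lit 0x3a8b14604c358, nat_lit 0x3b1e79a2a596a, nat_lit 0x100000000000000000, nat_lit 0x1, nat_lit 35, nat_lit 200941, nat_lit 200304, nat_lit 200944, [nat_lit 0x34ff5c00001001f4, nat_lit 0x34ffee000010008c], nat_lit 200289, nat_lit 200289, []⟩

set_option maxRecDepth 100000 in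
theorem h238 : rchk Cd.ms p238 = true := by
  decide +kernel

/-- the row checks of this file -/
noncomputable def rs134 : List RP := [p237, p238]

theorem R134 : RCk Cd.ms rs134 :=
  RCk.cons h237 (RCk.cons h238 RCk.nil)

end Pool.Agent.Moser.Ck.Cr
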