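import Pool.Agent.Lib_MP_cc07e8_cd.Ds
import Pool.Agent.Lib_MP_cc07e8_ck.CkAsmDefs

/-! # MP_cc07e8_co: row checks of the explicit start, part 135 -/

namespace Pool.Agent.Moser.Ck.Cr

/-- row check 239 -/
noncomputable def p239 : RP := ⟨nat_lit 26, nat_lit 2, nat_lit 20, nat_lit 28, nat_lit 286515, nat_lit 289325, nat_lit 286526, nat_lit 0x39fcc8d9a4de7, nat_lit 0x3a8e6000a8595, nat_lit 0x100000000000000000, nat_lit 0x1, nat_lit 75, nat_lit 201581, nat_lit 200944, nat_lit 201584, [nat_lit 0x35cd3200001001f6, nat_lit 0x36d7be000010008a], nat_lit 200929, nat_lit 200929, []⟩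

set_option maxRecDepth 100000 in
theorem h239 : rchk Cd.ms p239 = true := by
  decide +kernel

/-- row check 240 -/
noncomputable def p240 : RP := ⟨nat_lit 27, nat_lit 1, nat_lit 20, nat_lit 28, nat_lit 289272, nat_lit 292089, nat_lit 289272, nat_lit 0x39704f70e4df1, nat_lit 0x39ff81211587a, nat_lit 0x100000000000000000, nat_lit 0x1, nat_lit 47, nat_lit 202221, nat_lit 201584, nat_lit 202224, [nat_lit 0x36469e00001001f7, nat_lit 0x342e650000100089], nat_lit 201569, nat_lit 201569, []⟩

set_option maxRecDepth 100000 in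
theorem h240 : rchk Cd.ms p240 = true := by
  decide +kernel

/-- the row checks of this file -/
noncomputable def rs135 : List RP := [p239, p240]

theorem R135 : RCk Cd.ms rs135 :=
  RCk.cons h239 (RCk.cons h240 RCk.nil)

end Pool.Agent.Moser.Ck.Cr
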