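import Pool.Agent.Lib_MP_cc07e8_cd.Ds
import Pool.Agent.Lib_MP_cc07e8_ck.CkAsmDefs

/-! # MP_cc07e8_co: row checks of the explicit start, part 136 -/

namespace Pool.Agent.Moser.Ck.Cr

/-- row check 241 -/
noncomputable def p241 : RP := ⟨nat_lit 27, nat_lit 1, nat_lit 20, nat_lit 28, nat_lit 292025, nat_lit 294802, nat_lit 292036, nat_lit 0x38e8fd5bbf6d6, nat_lit 0x3973886c54d1e, nat_lit 0x100000000000000000, nat_lit 0x1, nat_lit 63, nat_lit 202845, nat_lit 202224, nat_lit 202848, [nat_lit 0x36437e00001001f9, nat_lit 0x3664210000100077], nat_lit 202209, nat_lit 202209, []⟩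

set_option maxRecDepth 100000 in
theorem h241 : rchk Cd.ms p241 = true := by
  decide +kernel

/-- row check 242 -/
noncomputable def p242 : RP := ⟨nat_lit 27, nat_lit 1, nat_lit 20, nat_lit 28, nat_lit 294721, nat_lit 297531, nat_lit 294748, nat_lit 0x38635c54fa5d0, nat_lit 0x38ecfe6783627, nat_lit 0x100000000000000000, nat_lit 0x1, nat_lit 63, nat_lit 203469, nat_lit 202848, nat_lit 203472, [nat_lit 0x35928500001001fb, nat_lit 0x340ede0000100075], nat_lit 202833, nat_lit 202833, []⟩

set_option maxRecDepth 100000 in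
theorem h242 : rchk Cd.ms p242 = true := by
  decide +kernel

/-- the row checks of this file -/
noncomputable def rs136 : List RP := [p241, p242]

theorem R136 : RCk Cd.ms rs136 :=
  RCk.cons h241 (RCk.cons h242 RCk.nil)

end Pool.Agent.Moser.Ck.Cr
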