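import Pool.Agent.Lib_MP_cc07e8_cd.Ds
import Pool.Agent.Lib_MP_cc07e8_ck.CkAsmDefs

/-! # MP_cc07e8_co: row checks of the explicit start, part 137 -/

namespace Pool.Agent.Moser.Ck.Cr

/-- row check 243 -/
noncomputable def p243 : RP := ⟨nat_lit 27, nat_lit 1, nat_lit 20, nat_lit 28, nat_lit 297461, nat_lit 300347, nat_lit 297477, nat_lit 0x37dc046dc5a9e, nat_lit 0x3866c1f6d216b, nat_lit 0x100000000000000000, nat_lit 0x1, nat_lit 64, nat_lit 204109, nat_lit 203472, nat_lit 204112, [nat_lit 0x36197a00001001fc, nat_lit 0x3500cb0000100084], nat_lit 203457, nat_lit 203457, []⟩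

set_option maxRecDepth 100000 in
theorem h243 : rchk Cd.ms p243 = true := by
  decide +kernel

/-- row check 244 -/
noncomputable def p244 : RP := ⟨nat_lit 27, nat_lit 1, nat_lit 20, nat_lit 28, nat_lit 300293, nat_lit 303110, nat_lit 300293, nat_lit 0x3759aa5b3eac3, nat_lit 0x37de96bb0c143, nat_lit 0x100000000000000000, nat_lit 0x1, nat_lit 72, nat_lit 204733, nat_lit 204112, nat_lit 204736, [nat_lit 0x34b20800001001fe, nat_lit 0x33d2bd0000100072], nat_lit 204097, nat_lit 204097, []⟩

set_option maxRecDepth 100000 in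
theorem h244 : rchk Cd.ms p244 = true := by
  decide +kernel

/-- the row checks of this file -/
noncomputable def rs137 : List RP := [p243, p244]

theorem R137 : RCk Cd.ms rs137 :=
  RCk.cons h243 (RCk.cons h244 RCk.nil)

end Pool.Agent.Moser.Ck.Cr
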