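import Pool.Agent.Lib_MP_cc07e8_cd.Ds
import Pool.Agent.Lib_MP_cc07e8_ck.CkAsmDefs

/-! # MP_cc07e8_co: row checks of the explicit start, part 138 -/

namespace Pool.Agent.Moser.Ck.Cr

/-- row check 245 -/
noncomputable def p245 : RP := ⟨nat_lit 27, nat_lit 1, nat_lit 20, nat_lit 28, nat_lit 303056, nat_lit 305890, nat_lit 303056, nat_lit 0x36d8e3620a2c6, nat_lit 0x375c30b5dddc0, nat_lit 0x100000000000000000, nat_lit 0x1, nat_lit 41, nat_lit 205357, nat_lit 204736, nat_lit 205360, [nat_lit 0x33cdb600001001ff, nat_lit 0x3339de0000100071], nat_lit 204721, nat_lit 204721, []⟩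

set_option maxRecDepth 100000 in
theorem h245 : rchk Cd.ms p245 = true := by
  decide +kernel

/-- row check 246 -/
noncomputable def p246 : RP := ⟨nat_lit 27, nat_lit 1, nat_lit 20, nat_lit 28, nat_lit 305827, nat_lit 308687, nat_lit 305836, nat_lit 0x3659aa1076447, nat_lit 0x36dbc7d6c84e9, nat_lit 0x100000000000000000, nat_lit 0x1, nat_lit 47, nat_lit 205981, nat_lit 205360, nat_lit 205984, [nat_lit 0x34362f0000100201, nat_lit 0x32eeca000010006f], nat_lit 205345, nat_lit 205345, []⟩

set_option maxRecDepth 100000 in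
theorem h246 : rchk Cd.ms p246 = true := by
  decide +kernel

/-- the row checks of this file -/
noncomputable def rs138 : List RP := [p245, p246]

theorem R138 : RCk Cd.ms rs138 :=
  RCk.cons h245 (RCk.cons h246 RCk.nil)

end Pool.Agent.Moser.Ck.Cr
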