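import Pool.Agent.Lib_MP_cc07e8_cd.Ds
import Pool.Agent.Lib_MP_cc07e8_ck.CkAsmDefs

/-! # MP_cc07e8_co: row checks of the explicit start, part 139 -/

namespace Pool.Agent.Moser.Ck.Cr

/-- row check 247 -/
noncomputable def p247 : RP := ⟨nat_lit 27, nat_lit 2, nat_lit 20, nat_lit 28, nat_lit 308604, nat_lit 311501, nat_lit 308632, nat_lit 0x35dbf90563178, nat_lit 0x365d680c3cc68, nat_lit 0x100000000000000000, nat_lit 0x1, nat_lit 40, nat_lit 206605, nat_lit 205984, nat_lit 206608, [nat_lit 0x32b1230000100202, nat_lit 0x32f88b000010006e], nat_lit 205969, nat_lit 205969, []⟩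

set_option maxRecDepth 100000 in
theorem h247 : rchk Cd.ms p247 = true := by
  decide +kernel

/-- row check 248 -/
noncomputable def p248 : RP := ⟨nat_lit 28, nat_lit 1, nat_lit 20, nat_lit 28, nat_lit 311424, nat_lit 314259, nat_lit 311446, nat_lit 0x3562f77b4870f, nat_lit 0x35df61bfd0dc8, nat_lit 0x100000000000000000, nat_lit 0x1, nat_lit 60, nat_lit 207213, nat_lit 206608, nat_lit 207216, [nat_lit 0x3335c00000100204, nat_lit 0x328427000010005c], nat_lit 206593, nat_lit 206593, []⟩

set_option maxRecDepth 100000 in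
theorem h248 : rchk Cd.ms p248 = true := by
  decide +kernel

/-- the row checks of this file -/
noncomputable def rs139 : List RP := [p247, p248]

theorem R139 : RCk Cd.ms rs139 :=
  RCk.cons h247 (RCk.cons h248 RCk.nil)

end Pool.Agent.Moser.Ck.Cr
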