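import Pool.Agent.Lib_MP_cc07e8_cd.Ds
import Pool.Agent.Lib_MP_cc07e8_ck.CkAsmDefs

/-! # MP_cc07e8_co: row checks of the explicit start, part 140 -/

namespace Pool.Agent.Moser.Ck.Cr

/-- row check 249 -/
noncomputable def p249 : RP := ⟨nat_lit 28, nat_lit 1, nat_lit 20, nat_lit 28, nat_lit 314191, nat_lit 317034, nat_lit 314204, nat_lit 0x34eb56f6e64f8, nat_lit 0x3565ecb5ec5bd, nat_lit 0x100000000000000000, nat_lit 0x1, nat_lit 75, nat_lit 207821, nat_lit 207216, nat_lit 207824, [nat_lit 0x33ae7f0000100206, nat_lit 0x33aaf6000010005a], nat_lit 207201, nat_lit 207201, []⟩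

set_option maxRecDepth 100000 in
theorem h249 : rchk Cd.ms p249 = true := by
  decide +kernel

/-- row check 250 -/
noncomputable def p250 : RP := ⟨nat_lit 28, nat_lit 1, nat_lit 20, nat_lit 28, nat_lit 316978, nat_lit 319824, nat_lit 316978, nat_lit 0x347528a990b4f, nat_lit 0x34edbbabe8ed7, nat_lit 0x100000000000000000, nat_lit 0x1, nat_lit 52, nat_lit 208429, nat_lit 207824, nat_lit 208432, [nat_lit 0x32e0a70000100207, nat_lit 0x32845d0000100059], nat_lit 207809, nat_lit 207809, []⟩

set_option maxRecDepth 100000 in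
theorem h250 : rchk Cd.ms p250 = true := by
  decide +kernel

/-- the row checks of this file -/
noncomputable def rs140 : List RP := [p249, p250]

theorem R140 : RCk Cd.ms rs140 :=
  RCk.cons h249 (RCk.cons h250 RCk.nil)

end Pool.Agent.Moser.Ck.Cr
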