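import Pool.Agent.Lib_MP_cc07e8_cd.Ds
import Pool.Agent.Lib_MP_cc07e8_ck.CkAsmDefs

/-! # MP_cc07e8_co: row checks of the explicit start, part 141 -/

namespace Pool.Agent.Moser.Ck.Cr

/-- row check 251 -/
noncomputable def p251 : RP := ⟨nat_lit 28, nat_lit 1, nat_lit 20, nat_lit 28, nat_lit 319767, nat_lit 322631, nat_lit 319768, nat_lit 0x3400521081820, nat_lit 0x34778d7a6c38a, nat_lit 0x100000000000000000, nat_lit 0x1, nat_lit 65, nat_lit 209037, nat_lit 208432, nat_lit 209040, [nat_lit 0x33bdea0000100209, nat_lit 0x3337f80000100057], nat_lit 208417, nat_lit 208417, []⟩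

set_option maxRecDepth 100000 in
theorem h251 : rchk Cd.ms p251 = true := by
  decide +kernel

/-- row check 252 -/
noncomputable def p252 : RP := ⟨nat_lit 28, nat_lit 1, nat_lit 20, nat_lit 28, nat_lit 322575, nat_lit 325455, nat_lit 322575, nat_lit 0x338ccef6f67da, nat_lit 0x3402a1b21676c, nat_lit 0x100000000000000000, nat_lit 0x1, nat_lit 49, nat_lit 209645, nat_lit 209040, nat_lit 209648, [nat_lit 0x328558000010020a, nat_lit 0x31dac00000100056], nat_lit 209025, nat_lit 209025, []⟩

set_option maxRecDepth 100000 in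
theorem h252 : rchk Cd.ms p252 = true := by
  decide +kernel

/-- the row checks of this file -/
noncomputable def rs141 : List RP := [p251, p252]

theorem R141 : RCk Cd.ms rs141 :=
  RCk.cons h251 (RCk.cons h252 RCk.nil)

end Pool.Agent.Moser.Ck.Cr
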