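import Pool.Agent.Lib_MP_cc07e8_cd.Ds
import Pool.Agent.Lib_MP_cc07e8_ck.CkAsmDefs

/-! # MP_cc07e8_co: row checks of the explicit start, part 142 -/

namespace Pool.Agent.Moser.Ck.Cr

/-- row check 253 -/
noncomputable def p253 : RP := ⟨nat_lit 28, nat_lit 1, nat_lit 20, nat_lit 28, nat_lit 325398, nat_lit 328294, nat_lit 325398, nat_lit 0x331aaf995e081, nat_lit 0x338f1ec1a202d, nat_lit 0x100000000000000000, nat_lit 0x1, nat_lit 62, nat_lit 210253, nat_lit 209648, nat_lit 210256, [nat_lit 0x320e8d000010020c, nat_lit 0x32097e0000100054], nat_lit 209633, nat_lit 209633, []⟩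

set_option maxRecDepth 100000 in
theorem h253 : rchk Cd.ms p253 = true := by
  decide +kernel

/-- row check 254 -/
noncomputable def p254 : RP := ⟨nat_lit 28, nat_lit 1, nat_lit 20, nat_lit 28, nat_lit 328216, nat_lit 331075, nat_lit 328237, nat_lit 0x32accae50dabf, nat_lit 0x331dcb85f97f8, nat_lit 0x100000000000000000, nat_lit 0x1, nat_lit 56, nat_lit 210845, nat_lit 210256, nat_lit 210848, [nat_lit 0x32a8bc000010020d, nat_lit 0x31d5450000100043], nat_lit 210241, nat_lit 210241, []⟩

set_option maxRecDepth 100000 in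
theorem h254 : rchk Cd.ms p254 = true := by
  decide +kernel

/-- the row checks of this file -/
noncomputable def rs142 : List RP := [p253, p254]

theorem R142 : RCk Cd.ms rs142 :=
  RCk.cons h253 (RCk.cons h254 RCk.nil)

end Pool.Agent.Moser.Ck.Cr
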