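import Pool.Agent.Lib_MP_cc07e8_cd.Ds
import Pool.Agent.Lib_MP_cc07e8_ck.CkAsmDefs

/-! # MP_cc07e8_co: row checks of the explicit start, part 143 -/

namespace Pool.Agent.Moser.Ck.Cr

/-- row check 255 -/
noncomputable def p255 : RP := ⟨nat_lit 28, nat_lit 2, nat_lit 20, nat_lit 28, nat_lit 331013, nat_lit 333948, nat_lit 331018, nat_lit 0x323d2f949ab40, nat_lit 0x32af38eff0d12, nat_lit 0x100000000000000000, nat_lit 0x1, nat_lit 45, nat_lit 211453, nat_lit 210848, nat_lit 211456, [nat_lit 0x31ef42000010020f, nat_lit 0x3214580000100051], nat_lit 210833, nat_lit 210833, []⟩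

set_option maxRecDepth 100000 in
theorem h255 : rchk Cd.ms p255 = true := by
  decide +kernel

/-- row check 256 -/
noncomputable def p256 : RP := ⟨nat_lit 29, nat_lit 1, nat_lit 20, nat_lit 28, nat_lit 333872, nat_lit 336760, nat_lit 333890, nat_lit 0x31d1cafb4c8c3, nat_lit 0x32401d0d10cb8, nat_lit 0x100000000000000000, nat_lit 0x1, nat_lit 80, nat_lit 212045, nat_lit 211456, nat_lit 212048, [nat_lit 0x3247f40000100210, nat_lit 0x31f2040000100040], nat_lit 211441, nat_lit 211441, []⟩

set_option maxRecDepth 100000 in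
theorem h256 : rchk Cd.ms p256 = true := by
  decide +kernel

/-- the row checks of this file -/
noncomputable def rs143 : List RP := [p255, p256]

theorem R143 : RCk Cd.ms rs143 :=
  RCk.cons h255 (RCk.cons h256 RCk.nil)

end Pool.Agent.Moser.Ck.Cr
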