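import Pool.Agent.Lib_MP_cc07e8_cd.Ds
import Pool.Agent.Lib_MP_cc07e8_ck.CkAsmDefs

/-! # MP_cc07e8_co: row checks of the explicit start, part 144 -/

namespace Pool.Agent.Moser.Ck.Cr

/-- row check 257 -/
noncomputable def p257 : RP := ⟨nat_lit 29, nat_lit 1, nat_lit 20, nat_lit 28, nat_lit 336691, nat_lit 339666, nat_lit 336702, nat_lit 0x3164ada467508, nat_lit 0x31d4681737c02, nat_lit 0x100000000000000000, nat_lit 0x1, nat_lit 54, nat_lit 212653, nat_lit 212048, nat_lit 212656, [nat_lit 0x320ec30000100212, nat_lit 0x30e58e000010004e], nat_lit 212033, nat_lit 212033, []⟩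

set_option maxRecDepth 100000 in
theorem h257 : rchk Cd.ms p257 = true := by
  decide +kernel

/-- row check 258 -/
noncomputable def p258 : RP := ⟨nat_lit 29, nat_lit 1, nat_lit 20, nat_lit 28, nat_lit 339588, nat_lit 342587, nat_lit 339607, nat_lit 0x30f8ddaf0cc0d, nat_lit 0x316795285e0e9, nat_lit 0x100000000000000000, nat_lit 0x1, nat_lit 70, nat_lit 213261, nat_lit 212656, nat_lit 213264, [nat_lit 0x3375070000100213, nat_lit 0x32497d000010004d], nat_lit 212641, nat_lit 212641, []⟩

set_option maxRecDepth 100000 in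
theorem h258 : rchk Cd.ms p258 = true := by
  decide +kernel

/-- the row checks of this file -/
noncomputable def rs144 : List RP := [p257, p258]

theorem R144 : RCk Cd.ms rs144 :=
  RCk.cons h257 (RCk.cons h258 RCk.nil)

end Pool.Agent.Moser.Ck.Cr
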