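import Pool.Agent.Lib_MP_cc07e8_cd.Ds
import Pool.Agent.Lib_MP_cc07e8_ck.CkAsmDefs

/-! # MP_cc07e8_co: row checks of the explicit start, part 145 -/

namespace Pool.Agent.Moser.Ck.Cr

/-- row check 259 -/
noncomputable def p259 : RP := ⟨nat_lit 29, nat_lit 1, nat_lit 20, nat_lit 28, nat_lit 342528, nat_lit 345448, nat_lit 342528, nat_lit 0x3091091fbf4ec, nat_lit 0x30fb068156dd2, nat_lit 0x100000000000000000, nat_lit 0x1, nat_lit 40, nat_lit 213853, nat_lit 213264, nat_lit 213856, [nat_lit 0x3161180000100215, nat_lit 0x308674000010003b], nat_lit 213249, nat_lit 213249, []⟩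

set_option maxRecDepth 100000 in
theorem h259 : rchk Cd.ms p259 = true := by
  decide +kernel

/-- row check 260 -/
noncomputable def p260 : RP := ⟨nat_lit 29, nat_lit 1, nat_lit 20, nat_lit 28, nat_lit 345389, nat_lit 348325, nat_lit 345389, nat_lit 0x302a583a30a86, nat_lit 0x309328d35edb0, nat_lit 0x100000000000000000, nat_lit 0x1, nat_lit 62, nat_lit 214445, nat_lit 213856, nat_lit 214448, [nat_lit 0x3197f60000100216, nat_lit 0x312843000010003a], nat_lit 213841, nat_lit 213841, []⟩

set_option maxRecDepth 100000 in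
theorem h260 : rchk Cd.ms p260 = true := by
  decide +kernel

/-- the row checks of this file -/
noncomputable def rs145 : List RP := [p259, p260]

theorem R145 : RCk Cd.ms rs145 :=
  RCk.cons h259 (RCk.cons h260 RCk.nil)

end Pool.Agent.Moser.Ck.Cr
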