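import Pool.Agent.Lib_MP_cc07e8_cd.Ds
import Pool.Agent.Lib_MP_cc07e8_ck.CkAsmDefs

/-! # MP_cc07e8_co: row checks of the explicit start, part 146 -/

namespace Pool.Agent.Moser.Ck.Cr

/-- row check 261 -/
noncomputable def p261 : RP := ⟨nat_lit 29, nat_lit 1, nat_lit 20, nat_lit 28, nat_lit 348264, nat_lit 351218, nat_lit 348266, nat_lit 0x2fc4c76b4562d, nat_lit 0x302c811d478c9, nat_lit 0x100000000000000000, nat_lit 0x1, nat_lit 83, nat_lit 215037, nat_lit 214448, nat_lit 215040, [nat_lit 0x3232230000100218, nat_lit 0x304ea90000100038], nat_lit 214433, nat_lit 214433, []⟩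

set_option maxRecDepth 100000 in
theorem h261 : rchk Cd.ms p261 = true := by
  decide +kernel

/-- row check 262 -/
noncomputable def p262 : RP := ⟨nat_lit 29, nat_lit 1, nat_lit 20, nat_lit 28, nat_lit 351158, nat_lit 354127, nat_lit 351158, nat_lit 0x2f605329b5fb5, nat_lit 0x2fc6de5166e8d, nat_lit 0x100000000000000000, nat_lit 0x1, nat_lit 60, nat_lit 215629, nat_lit 215040, nat_lit 215632, [nat_lit 0x3285be0000100219, nat_lit 0x30dac60000100037], nat_lit 215025, nat_lit 215025, []⟩

set_option maxRecDepth 100000 in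
theorem h262 : rchk Cd.ms p262 = true := by
  decide +kernel

/-- the row checks of this file -/
noncomputable def rs146 : List RP := [p261, p262]

theorem R146 : RCk Cd.ms rs146 :=
  RCk.cons h261 (RCk.cons h262 RCk.nil)

end Pool.Agent.Moser.Ck.Cr
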