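import Pool.Agent.Lib_MP_cc07e8_cd.Ds
import Pool.Agent.Lib_MP_cc07e8_ck.CkAsmDefs

/-! # MP_cc07e8_co: row checks of the explicit start, part 147 -/

namespace Pool.Agent.Moser.Ck.Cr

/-- row check 263 -/
noncomputable def p263 : RP := ⟨nat_lit 29, nat_lit 1, nat_lit 20, nat_lit 28, nat_lit 354041, nat_lit 356972, nat_lit 354066, nat_lit 0x2effaa149d125, nat_lit 0x2f63455c88853, nat_lit 0x100000000000000000, nat_lit 0x1, nat_lit 48, nat_lit 216205, nat_lit 215632, nat_lit 216208, [nat_lit 0x328909000010021b, nat_lit 0x3068280000100025], nat_lit 215617, nat_lit 215617, []⟩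

set_option maxRecDepth 100000 in
theorem h263 : rchk Cd.ms p263 = true := by
  decide +kernel

/-- row check 264 -/
noncomputable def p264 : RP := ⟨nat_lit 29, nat_lit 2, nat_lit 20, nat_lit 28, nat_lit 356912, nat_lit 359912, nat_lit 356912, nat_lit 0x2e9d61bb05bdd, nat_lit 0x2f01afdf7fd56, nat_lit 0x100000000000000000, nat_lit 0x1, nat_lit 58, nat_lit 216797, nat_lit 216208, nat_lit 216800, [nat_lit 0x30cd2a000010021c, nat_lit 0x300a5e0000100034], nat_lit 216193, nat_lit 216193, []⟩

set_option maxRecDepth 100000 in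
theorem h264 : rchk Cd.ms p264 = true := by
  decide +kernel

/-- the row checks of this file -/
noncomputable def rs147 : List RP := [p263, p264]

theorem R147 : RCk Cd.ms rs147 :=
  RCk.cons h263 (RCk.cons h264 RCk.nil)

end Pool.Agent.Moser.Ck.Cr
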