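import Pool.Agent.Lib_MP_cc07e8_cd.Ds
import Pool.Agent.Lib_MP_cc07e8_ck.CkAsmDefs

/-! # MP_cc07e8_co: row checks of the explicit start, part 148 -/

namespace Pool.Agent.Moser.Ck.Cr

/-- row check 265 -/
noncomputable def p265 : RP := ⟨nat_lit 30, nat_lit 1, nat_lit 20, nat_lit 28, nat_lit 359841, nat_lit 362789, nat_lit 359852, nat_lit 0x2e3ebf4f5fd8d, nat_lit 0x2e9fbc7ffdb93, nat_lit 0x100000000000000000, nat_lit 0x1, nat_lit 73, nat_lit 217373, nat_lit 216800, nat_lit 217376, [nat_lit 0x3045d9000010021e, nat_lit 0x2eb2ec0000100022], nat_lit 216785, nat_lit 216785, []⟩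

set_option maxRecDepth 100000 in
theorem h265 : rchk Cd.ms p265 = true := by
  decide +kernel

/-- row check 266 -/
noncomputable def p266 : RP := ⟨nat_lit 30, nat_lit 1, nat_lit 20, nat_lit 28, nat_lit 362716, nat_lit 365680, nat_lit 362728, nat_lit 0x2de126fda8b2f, nat_lit 0x2e41214551128, nat_lit 0x100000000000000000, nat_lit 0x1, nat_lit 56, nat_lit 217949, nat_lit 217376, nat_lit 217952, [nat_lit 0x3128c4000010021f, nat_lit 0x2fa2000000100021], nat_lit 217361, nat_lit 217361, []⟩

set_option maxRecDepth 100000 in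
theorem h266 : rchk Cd.ms p266 = true := by
  decide +kernel

/-- the row checks of this file -/
noncomputable def rs148 : List RP := [p265, p266]

theorem R148 : RCk Cd.ms rs148 :=
  RCk.cons h265 (RCk.cons h266 RCk.nil)

end Pool.Agent.Moser.Ck.Cr
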