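import Pool.Agent.Lib_MP_cc07e8_cd.Ds
import Pool.Agent.Lib_MP_cc07e8_ck.CkAsmDefs

/-! # MP_cc07e8_co: row checks of the explicit start, part 149 -/

namespace Pool.Agent.Moser.Ck.Cr

/-- row check 267 -/
noncomputable def p267 : RP := ⟨nat_lit 30, nat_lit 1, nat_lit 20, nat_lit 28, nat_lit 365615, nat_lit 368587, nat_lit 365619, nat_lit 0x2d84850e2440f, nat_lit 0x2de33d8a58214, nat_lit 0x100000000000000000, nat_lit 0x1, nat_lit 88, nat_lit 218525, nat_lit 217952, nat_lit 218528, [nat_lit 0x310e8e0000100220, nat_lit 0x2d94210000100020], nat_lit 217937, nat_lit 217937, []⟩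

set_option maxRecDepth 100000 in
theorem h267 : rchk Cd.ms p267 = true := by
  decide +kernel

/-- row check 268 -/
noncomputable def p268 : RP := ⟨nat_lit 30, nat_lit 1, nat_lit 20, nat_lit 28, nat_lit 368526, nat_lit 371510, nat_lit 368526, nat_lit 0x2d28d6c88c083, nat_lit 0x2d8672d255a11, nat_lit 0x100000000000000000, nat_lit 0x1, nat_lit 56, nat_lit 219101, nat_lit 218528, nat_lit 219104, [nat_lit 0x30b7980000100222, nat_lit 0x2eeb70000010001e], nat_lit 218513, nat_lit 218513, []⟩

set_option maxRecDepth 100000 in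
theorem h268 : rchk Cd.ms p268 = true := by
  decide +kernel

/-- the row checks of this file -/
noncomputable def rs149 : List RP := [p267, p268]

theorem R149 : RCk Cd.ms rs149 :=
  RCk.cons h267 (RCk.cons h268 RCk.nil)

end Pool.Agent.Moser.Ck.Cr
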