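import Pool.Agent.Lib_MP_cc07e8_cd.Ds
import Pool.Agent.Lib_MP_cc07e8_ck.CkAsmDefs

/-! # MP_cc07e8_co: row checks of the explicit start, part 150 -/

namespace Pool.Agent.Moser.Ck.Cr

/-- row check 269 -/
noncomputable def p269 : RP := ⟨nat_lit 30, nat_lit 1, nat_lit 20, nat_lit 28, nat_lit 371419, nat_lit 374447, nat_lit 371448, nat_lit 0x2cce29294cd44, nat_lit 0x2d2babe5dc667, nat_lit 0x100000000000000000, nat_lit 0x1, nat_lit 88, nat_lit 219677, nat_lit 219104, nat_lit 219680, [nat_lit 0x311fde0000100223, nat_lit 0x2f965b000010001d], nat_lit 219089, nat_lit 219089, []⟩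

set_option maxRecDepth 100000 in
theorem h269 : rchk Cd.ms p269 = true := by
  decide +kernel

/-- row check 270 -/
noncomputable def p270 : RP := ⟨nat_lit 30, nat_lit 1, nat_lit 20, nat_lit 28, nat_lit 374385, nat_lit 377318, nat_lit 374385, nat_lit 0x2c76e27cdfd08, nat_lit 0x2cd00f6fec515, nat_lit 0x100000000000000000, nat_lit 0x1, nat_lit 48, nat_lit 220237, nat_lit 219680, nat_lit 220240, [nat_lit 0x306f060000100225, nat_lit 0x2db2bd000010000b], nat_lit 219665, nat_lit 219665, []⟩

set_option maxRecDepth 100000 in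
theorem h270 : rchk Cd.ms p270 = true := by
  decide +kernel

/-- the row checks of this file -/
noncomputable def rs150 : List RP := [p269, p270]

theorem R150 : RCk Cd.ms rs150 :=
  RCk.cons h269 (RCk.cons h270 RCk.nil)

end Pool.Agent.Moser.Ck.Cr
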