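import Pool.Agent.Lib_MP_cc07e8_cd.Ds
import Pool.Agent.Lib_MP_cc07e8_ck.CkAsmDefs

/-! # MP_cc07e8_co: row checks of the explicit start, part 151 -/

namespace Pool.Agent.Moser.Ck.Cr

/-- row check 271 -/
noncomputable def p271 : RP := ⟨nat_lit 30, nat_lit 1, nat_lit 20, nat_lit 28, nat_lit 377256, nat_lit 380204, nat_lit 377256, nat_lit 0x2c207b28a7bcf, nat_lit 0x2c78c1641efca, nat_lit 0x100000000000000000, nat_lit 0x1, nat_lit 48, nat_lit 220797, nat_lit 220240, nat_lit 220800, [nat_lit 0x3030980000100226, nat_lit 0x2b1c9d000010000a], nat_lit 220225, nat_lit 220225, []⟩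

set_option maxRecDepth 100000 in
theorem h271 : rchk Cd.ms p271 = true := by
  decide +kernel

/-- row check 272 -/
noncomputable def p272 : RP := ⟨nat_lit 30, nat_lit 2, nat_lit 20, nat_lit 28, nat_lit 380141, nat_lit 383187, nat_lit 380141, nat_lit 0x2bc88a8f5dbf4, nat_lit 0x2c225a6d6b134, nat_lit 0x100000000000000000, nat_lit 0x1, nat_lit 61, nat_lit 221373, nat_lit 220800, nat_lit 221376, [nat_lit 0x2ff2270000100228, nat_lit 0x2e56d40000100018], nat_lit 220785, nat_lit 220785, []⟩

set_option maxRecDepth 100000 in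
theorem h272 : rchk Cd.ms p272 = true := by
  decide +kernel

/-- the row checks of this file -/
noncomputable def rs151 : List RP := [p271, p272]

theorem R151 : RCk Cd.ms rs151 :=
  RCk.cons h271 (RCk.cons h272 RCk.nil)

end Pool.Agent.Moser.Ck.Cr
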