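import Pool.Agent.Lib_MP_cc07e8_cd.Ds
import Pool.Agent.Lib_MP_cc07e8_ck.CkAsmDefs

/-! # MP_cc07e8_co: row checks of the explicit start, part 152 -/

namespace Pool.Agent.Moser.Ck.Cr

/-- row check 273 -/
noncomputable def p273 : RP := ⟨nat_lit 31, nat_lit 1, nat_lit 20, nat_lit 28, nat_lit 383112, nat_lit 386186, nat_lit 383124, nat_lit 0x2b717fcc94a9b, nat_lit 0x2bcabc493c6c2, nat_lit 0x100000000000000000, nat_lit 0x1, nat_lit 79, nat_lit 221949, nat_lit 221376, nat_lit 221952, [nat_lit 0x2f82110000100229, nat_lit 0x2e71290000100017], nat_lit 221361, nat_lit 221361, []⟩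

set_option maxRecDepth 100000 in
theorem h273 : rchk Cd.ms p273 = true := by
  decide +kernel

/-- row check 274 -/
noncomputable def p274 : RP := ⟨nat_lit 31, nat_lit 1, nat_lit 20, nat_lit 28, nat_lit 386108, nat_lit 389116, nat_lit 386122, nat_lit 0x2b1dc16cf8e05, nat_lit 0x2b73bef5af9aa, nat_lit 0x100000000000000000, nat_lit 0x1, nat_lit 88, nat_lit 222509, nat_lit 221952, nat_lit 222512, [nat_lit 0x2fbf5a000010022a, nat_lit 0x2d3d240000100006], nat_lit 221937, nat_lit 221937, []⟩

set_option maxRecDepth 100000 in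
theorem h274 : rchk Cd.ms p274 = true := by
  decide +kernel

/-- the row checks of this file -/
noncomputable def rs152 : List RP := [p273, p274]

theorem R152 : RCk Cd.ms rs152 :=
  RCk.cons h273 (RCk.cons h274 RCk.nil)

end Pool.Agent.Moser.Ck.Cr
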