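import Pool.Agent.Lib_MP_cc07e8_cd.Ds
import Pool.Agent.Lib_MP_cc07e8_ck.CkAsmDefs

/-! # MP_cc07e8_co: row checks of the explicit start, part 153 -/

namespace Pool.Agent.Moser.Ck.Cr

/-- row check 275 -/
noncomputable def p275 : RP := ⟨nat_lit 31, nat_lit 1, nat_lit 20, nat_lit 27, nat_lit 389042, nat_lit 392062, nat_lit 389053, nat_lit 0x2acad10b0df8d, nat_lit 0x2b1fdae5d7ebc, nat_lit 0x100000000000000000, nat_lit 0x1, nat_lit 88, nat_lit 223069, nat_lit 222512, nat_lit 223072, [nat_lit 0x3012e8000010022c, nat_lit 0x2d53c70000100004], nat_lit 222497, nat_lit 222497, []⟩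

set_option maxRecDepth 100000 in
theorem h275 : rchk Cd.ms p275 = true := by
  decide +kernel

/-- row check 276 -/
noncomputable def p276 : RP := ⟨nat_lit 31, nat_lit 1, nat_lit 20, nat_lit 27, nat_lit 391994, nat_lit 395022, nat_lit 391998, nat_lit 0x2a78bab721587, nat_lit 0x2accb788ae681, nat_lit 0x100000000000000000, nat_lit 0x1, nat_lit 71, nat_lit 223629, nat_lit 223072, nat_lit 223632, [nat_lit 0x2f0c4e000010022d, nat_lit 0x2e01b10000100003], nat_lit 223057, nat_lit 223057, []⟩

set_option maxRecDepth 100000 in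
theorem h276 : rchk Cd.ms p276 = true := by
  decide +kernel

/-- the row checks of this file -/
noncomputable def rs153 : List RP := [p275, p276]

theorem R153 : RCk Cd.ms rs153 :=
  RCk.cons h275 (RCk.cons h276 RCk.nil)

end Pool.Agent.Moser.Ck.Cr
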