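import Pool.Agent.Lib_MP_cc07e8_cd.Ds
import Pool.Agent.Lib_MP_cc07e8_ck.CkAsmDefs

/-! # MP_cc07e8_co: row checks of the explicit start, part 154 -/

namespace Pool.Agent.Moser.Ck.Cr

/-- row check 277 -/
noncomputable def p277 : RP := ⟨nat_lit 31, nat_lit 1, nat_lit 20, nat_lit 27, nat_lit 394939, nat_lit 397997, nat_lit 394957, nat_lit 0x2a2774da720f4, nat_lit 0x2a7b03ad0b0e6, nat_lit 0x100000000000000000, nat_lit 0x1, nat_lit 48, nat_lit 224189, nat_lit 223632, nat_lit 224192, [nat_lit 0x2fcccd000010022f, nat_lit 0x2d0f490000100001], nat_lit 223617, nat_lit 223617, []⟩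

set_option maxRecDepth 100000 in
theorem h277 : rchk Cd.ms p277 = true := by
  decide +kernel

/-- row check 278 -/
noncomputable def p278 : RP := ⟨nat_lit 31, nat_lit 1, nat_lit 20, nat_lit 27, nat_lit 397910, nat_lit 400987, nat_lit 397932, nat_lit 0x29d6fd26e8a6a, nat_lit 0x2a29d0e0ac122, nat_lit 0x100000000000000000, nat_lit 0x1, nat_lit 48, nat_lit 224749, nat_lit 224192, nat_lit 224752, [nat_lit 0x2ec6e60000100230], nat_lit 224177, nat_lit 224177, []⟩

set_option maxRecDepth 100000 in
theorem h278 : rchk Cd.ms p278 = true := by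
  decide +kernel

/-- the row checks of this file -/
noncomputable def rs154 : List RP := [p277, p278]

theorem R154 : RCk Cd.ms rs154 :=
  RCk.cons h277 (RCk.cons h278 RCk.nil)

end Pool.Agent.Moser.Ck.Cr
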