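import Pool.Agent.Lib_MP_cc07e8_cd.Ds
import Pool.Agent.Lib_MP_cc07e8_ck.CkAsmDefs

/-! # MP_cc07e8_co: row checks of the explicit start, part 155 -/

namespace Pool.Agent.Moser.Ck.Cr

/-- row check 279 -/
noncomputable def p279 : RP := ⟨nat_lit 31, nat_lit 1, nat_lit 20, nat_lit 27, nat_lit 400905, nat_lit 403992, nat_lit 400922, nat_lit 0x2987515418ad8, nat_lit 0x29d92dfeeb14e, nat_lit 0x100000000000000000, nat_lit 0x1, nat_lit 52, nat_lit 225309, nat_lit 224752, nat_lit 225312, [nat_lit 0x2eaf610000100230], nat_lit 224737, nat_lit 224737, []⟩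

set_option maxRecDepth 100000 in
theorem h279 : rchk Cd.ms p279 = true := by
  decide +kernel

/-- row check 280 -/
noncomputable def p280 : RP := ⟨nat_lit 31, nat_lit 1, nat_lit 20, nat_lit 27, nat_lit 403913, nat_lit 407098, nat_lit 403926, nat_lit 0x293634715e141, nat_lit 0x298965a3fd1e1, nat_lit 0x100000000000000000, nat_lit 0x1, nat_lit 66, nat_lit 225885, nat_lit 225312, nat_lit 225888, [nat_lit 0x2f0dbb0000100233, nat_lit 0x2c6a8c000010000d], nat_lit 225297, nat_lit 225297, []⟩

set_option maxRecDepth 100000 in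
theorem h280 : rchk Cd.ms p280 = true := by
  decide +kernel

/-- the row checks of this file -/
noncomputable def rs155 : List RP := [p279, p280]

theorem R155 : RCk Cd.ms rs155 :=
  RCk.cons h279 (RCk.cons h280 RCk.nil)

end Pool.Agent.Moser.Ck.Cr
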