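import Pool.Agent.Lib_MP_cc07e8_cd.Ds
import Pool.Agent.Lib_MP_cc07e8_ck.CkAsmDefs

/-! # MP_cc07e8_co: row checks of the explicit start, part 156 -/

namespace Pool.Agent.Moser.Ck.Cr

/-- row check 281 -/
noncomputable def p281 : RP := ⟨nat_lit 31, nat_lit 2, nat_lit 20, nat_lit 27, nat_lit 407032, nat_lit 410220, nat_lit 407032, nat_lit 0x28e5e97817398, nat_lit 0x2937ea626d55e, nat_lit 0x100000000000000000, nat_lit 0x1, nat_lit 66, nat_lit 226461, nat_lit 225888, nat_lit 226464, [nat_lit 0x2fd08e0000100234, nat_lit 0x2dc963000010000c], nat_lit 225873, nat_lit 225873, []⟩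

set_option maxRecDepth 100000 in
theorem h281 : rchk Cd.ms p281 = true := by
  decide +kernel

/-- row check 282 -/
noncomputable def p282 : RP := ⟨nat_lit 32, nat_lit 1, nat_lit 20, nat_lit 27, nat_lit 410154, nat_lit 413271, nat_lit 410154, nat_lit 0x28989dffbb2d4, nat_lit 0x28e798c506054, nat_lit 0x100000000000000000, nat_lit 0x1, nat_lit 93, nat_lit 227021, nat_lit 226464, nat_lit 227024, [nat_lit 0x3152310000100230], nat_lit 226449, nat_lit 226449, []⟩

set_option maxRecDepth 100000 in
theorem h282 : rchk Cd.ms p282 = true := by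
  decide +kernel

/-- the row checks of this file -/
noncomputable def rs156 : List RP := [p281, p282]

theorem R156 : RCk Cd.ms rs156 :=
  RCk.cons h281 (RCk.cons h282 RCk.nil)

end Pool.Agent.Moser.Ck.Cr
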