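import Pool.Agent.Lib_MP_cc07e8_cd.Ds
import Pool.Agent.Lib_MP_cc07e8_ck.CkAsmDefs

/-! # MP_cc07e8_co: row checks of the explicit start, part 157 -/

namespace Pool.Agent.Moser.Ck.Cr

/-- row check 283 -/
noncomputable def p283 : RP := ⟨nat_lit 32, nat_lit 1, nat_lit 20, nat_lit 27, nat_lit 413204, nat_lit 416337, nat_lit 413204, nat_lit 0x284c156687cd7, nat_lit 0x289a4d64deb5d, nat_lit 0x100000000000000000, nat_lit 0x1, nat_lit 79, nat_lit 227581, nat_lit 227024, nat_lit 227584, [nat_lit 0x2edf170000100230], nat_lit 227009, nat_lit 227009, []⟩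

set_option maxRecDepth 100000 in
theorem h283 : rchk Cd.ms p283 = true := by
  decide +kernel

/-- row check 284 -/
noncomputable def p284 : RP := ⟨nat_lit 32, nat_lit 1, nat_lit 20, nat_lit 27, nat_lit 416251, nat_lit 419418, nat_lit 416270, nat_lit 0x28004d8096292, nat_lit 0x284e3707b9f65, nat_lit 0x100000000000000000, nat_lit 0x1, nat_lit 76, nat_lit 228141, nat_lit 227584, nat_lit 228144, [nat_lit 0x2e75270000100230], nat_lit 227569, nat_lit 227569, []⟩

set_option maxRecDepth 100000 in
theorem h284 : rchk Cd.ms p284 = true := by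
  decide +kernel

/-- the row checks of this file -/
noncomputable def rs157 : List RP := [p283, p284]

theorem R157 : RCk Cd.ms rs157 :=
  RCk.cons h283 (RCk.cons h284 RCk.nil)

end Pool.Agent.Moser.Ck.Cr
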