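import Pool.Agent.Lib_MP_cc07e8_cd.Ds
import Pool.Agent.Lib_MP_cc07e8_ck.CkAsmDefs

/-! # MP_cc07e8_co: row checks of the explicit start, part 158 -/

namespace Pool.Agent.Moser.Ck.Cr

/-- row check 285 -/
noncomputable def p285 : RP := ⟨nat_lit 32, nat_lit 1, nat_lit 20, nat_lit 27, nat_lit 419351, nat_lit 422514, nat_lit 419351, nat_lit 0x27b54427aa192, nat_lit 0x2801f0580dc46, nat_lit 0x100000000000000000, nat_lit 0x1, nat_lit 68, nat_lit 228701, nat_lit 228144, nat_lit 228704, [nat_lit 0x2e48460000100230], nat_lit 228129, nat_lit 228129, []⟩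

set_option maxRecDepth 100000 in
theorem h285 : rchk Cd.ms p285 = true := by
  decide +kernel

/-- row check 286 -/
noncomputable def p286 : RP := ⟨nat_lit 32, nat_lit 1, nat_lit 20, nat_lit 27, nat_lit 422446, nat_lit 425625, nat_lit 422446, nat_lit 0x276af73b2f626, nat_lit 0x27b6e70aa0216, nat_lit 0x100000000000000000, nat_lit 0x1, nat_lit 51, nat_lit 229261, nat_lit 228704, nat_lit 229264, [nat_lit 0x2e18f00000100230], nat_lit 228689, nat_lit 228689, []⟩

set_option maxRecDepth 100000 in
theorem h286 : rchk Cd.ms p286 = true := by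
  decide +kernel

/-- the row checks of this file -/
noncomputable def rs158 : List RP := [p285, p286]

theorem R158 : RCk Cd.ms rs158 :=
  RCk.cons h285 (RCk.cons h286 RCk.nil)

end Pool.Agent.Moser.Ck.Cr
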