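import Pool.Agent.Lib_MP_cc07e8_cd.Ds
import Pool.Agent.Lib_MP_cc07e8_ck.CkAsmDefs

/-! # MP_cc07e8_co: row checks of the explicit start, part 159 -/

namespace Pool.Agent.Moser.Ck.Cr

/-- row check 287 -/
noncomputable def p287 : RP := ⟨nat_lit 32, nat_lit 1, nat_lit 20, nat_lit 27, nat_lit 425551, nat_lit 428752, nat_lit 425557, nat_lit 0x27215ea5061ac, nat_lit 0x276cb871d7783, nat_lit 0x100000000000000000, nat_lit 0x1, nat_lit 43, nat_lit 229821, nat_lit 229264, nat_lit 229824, [nat_lit 0x2dfa770000100230], nat_lit 229249, nat_lit 229249, []⟩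

set_option maxRecDepth 100000 in
theorem h287 : rchk Cd.ms p287 = true := by
  decide +kernel

/-- row check 288 -/
noncomputable def p288 : RP := ⟨nat_lit 32, nat_lit 1, nat_lit 20, nat_lit 27, nat_lit 428663, nat_lit 431804, nat_lit 428684, nat_lit 0x26da9114914b3, nat_lit 0x27237314b8f1e, nat_lit 0x100000000000000000, nat_lit 0x1, nat_lit 97, nat_lit 230365, nat_lit 229824, nat_lit 230368, [nat_lit 0x2eb2130000100220], nat_lit 229809, nat_lit 229809, []⟩

set_option maxRecDepth 100000 in
theorem h288 : rchk Cd.ms p288 = true := by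
  decide +kernel

/-- the row checks of this file -/
noncomputable def rs159 : List RP := [p287, p288]

theorem R159 : RCk Cd.ms rs159 :=
  RCk.cons h287 (RCk.cons h288 RCk.nil)

end Pool.Agent.Moser.Ck.Cr
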