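import Pool.Agent.Lib_MP_cc07e8_cd.Ds
import Pool.Agent.Lib_MP_cc07e8_ck.CkAsmDefs

/-! # MP_cc07e8_co: row checks of the explicit start, part 160 -/

namespace Pool.Agent.Moser.Ck.Cr

/-- row check 289 -/
noncomputable def p289 : RP := ⟨nat_lit 32, nat_lit 2, nat_lit 20, nat_lit 27, nat_lit 431735, nat_lit 434870, nat_lit 431735, nat_lit 0x2694708ab3ec1, nat_lit 0x26dc2808b6ce5, nat_lit 0x100000000000000000, nat_lit 0x1, nat_lit 59, nat_lit 230909, nat_lit 230368, nat_lit 230912, [nat_lit 0x2da1bf0000100220], nat_lit 230353, nat_lit 230353, []⟩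

set_option maxRecDepth 100000 in
theorem h289 : rchk Cd.ms p289 = true := by
  decide +kernel

/-- row check 290 -/
noncomputable def p290 : RP := ⟨nat_lit 33, nat_lit 1, nat_lit 20, nat_lit 27, nat_lit 434774, nat_lit 437951, nat_lit 434801, nat_lit 0x264ef56258921, nat_lit 0x26969ed10f0ab, nat_lit 0x100000000000000000, nat_lit 0x1, nat_lit 66, nat_lit 231453, nat_lit 230912, nat_lit 231456, [nat_lit 0x2e2bdb0000100220], nat_lit 230897, nat_lit 230897, []⟩

set_option maxRecDepth 100000 in
theorem h290 : rchk Cd.ms p290 = true := by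
  decide +kernel

/-- the row checks of this file -/
noncomputable def rs160 : List RP := [p289, p290]

theorem R160 : RCk Cd.ms rs160 :=
  RCk.cons h289 (RCk.cons h290 RCk.nil)

end Pool.Agent.Moser.Ck.Cr
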