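import Pool.Agent.Lib_MP_cc07e8_cd.Ds
import Pool.Agent.Lib_MP_cc07e8_ck.CkAsmDefs

/-! # MP_cc07e8_co: row checks of the explicit start, part 161 -/

namespace Pool.Agent.Moser.Ck.Cr

/-- row check 291 -/
noncomputable def p291 : RP := ⟨nat_lit 33, nat_lit 1, nat_lit 20, nat_lit 27, nat_lit 437849, nat_lit 441046, nat_lit 437882, nat_lit 0x260a239bd5bd4, nat_lit 0x26513e3de2219, nat_lit 0x100000000000000000, nat_lit 0x1, nat_lit 84, nat_lit 231997, nat_lit 231456, nat_lit 232000, [nat_lit 0x2e60910000100220], nat_lit 231441, nat_lit 231441, []⟩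

set_option maxRecDepth 100000 in
theorem h291 : rchk Cd.ms p291 = true := by
  decide +kernel

/-- row check 292 -/
noncomputable def p292 : RP := ⟨nat_lit 33, nat_lit 1, nat_lit 20, nat_lit 27, nat_lit 440933, nat_lit 444064, nat_lit 440977, nat_lit 0x25c7f4a2db6b0, nat_lit 0x260ca27e0d1f5, nat_lit 0x100000000000000000, nat_lit 0x1, nat_lit 75, nat_lit 232525, nat_lit 232000, nat_lit 232528, [nat_lit 0x2d6d920000100210], nat_lit 231985, nat_lit 231985, []⟩

set_option maxRecDepth 100000 in
theorem h292 : rchk Cd.ms p292 = true := by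
  decide +kernel

/-- the row checks of this file -/
noncomputable def rs161 : List RP := [p291, p292]

theorem R161 : RCk Cd.ms rs161 :=
  RCk.cons h291 (RCk.cons h292 RCk.nil)

end Pool.Agent.Moser.Ck.Cr
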