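import Pool.Agent.Lib_MP_cc07e8_cd.Ds
import Pool.Agent.Lib_MP_cc07e8_ck.CkAsmDefs

/-! # MP_cc07e8_co: row checks of the explicit start, part 162 -/

namespace Pool.Agent.Moser.Ck.Cr

/-- row check 293 -/
noncomputable def p293 : RP := ⟨nat_lit 33, nat_lit 1, nat_lit 20, nat_lit 27, nat_lit 443984, nat_lit 447188, nat_lit 443994, nat_lit 0x258463766a6ff, nat_lit 0x25c9b2c8368a9, nat_lit 0x100000000000000000, nat_lit 0x1, nat_lit 72, nat_lit 233069, nat_lit 232528, nat_lit 233072, [nat_lit 0x2f79c80000100220], nat_lit 232513, nat_lit 232513, []⟩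

set_option maxRecDepth 100000 in
theorem h293 : rchk Cd.ms p293 = true := by
  decide +kernel

/-- row check 294 -/
noncomputable def p294 : RP := ⟨nat_lit 33, nat_lit 1, nat_lit 20, nat_lit 27, nat_lit 447105, nat_lit 450327, nat_lit 447118, nat_lit 0x254170f455dfb, nat_lit 0x25862be597361, nat_lit 0x100000000000000000, nat_lit 0x1, nat_lit 103, nat_lit 233613, nat_lit 233072, nat_lit 233616, [nat_lit 0x2eca540000100220], nat_lit 233057, nat_lit 233057, []⟩

set_option maxRecDepth 100000 in
theorem h294 : rchk Cd.ms p294 = true := by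
  decide +kernel

/-- the row checks of this file -/
noncomputable def rs162 : List RP := [p293, p294]

theorem R162 : RCk Cd.ms rs162 :=
  RCk.cons h293 (RCk.cons h294 RCk.nil)

end Pool.Agent.Moser.Ck.Cr
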