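import Pool.Agent.Lib_MP_cc07e8_cd.Ds
import Pool.Agent.Lib_MP_cc07e8_ck.CkAsmDefs

/-! # MP_cc07e8_co: row checks of the explicit start, part 163 -/

namespace Pool.Agent.Moser.Ck.Cr

/-- row check 295 -/
noncomputable def p295 : RP := ⟨nat_lit 33, nat_lit 1, nat_lit 20, nat_lit 27, nat_lit 450241, nat_lit 453387, nat_lit 450256, nat_lit 0x25011234efea4, nat_lit 0x2543435195551, nat_lit 0x100000000000000000, nat_lit 0x1, nat_lit 103, nat_lit 234141, nat_lit 233616, nat_lit 234144, [nat_lit 0x2deef50000100210], nat_lit 233601, nat_lit 233601, []⟩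

set_option maxRecDepth 100000 in
theorem h295 : rchk Cd.ms p295 = true := by
  decide +kernel

/-- row check 296 -/
noncomputable def p296 : RP := ⟨nat_lit 33, nat_lit 1, nat_lit 20, nat_lit 27, nat_lit 453302, nat_lit 456461, nat_lit 453316, nat_lit 0x24c1468604c41, nat_lit 0x2502d8f214cfd, nat_lit 0x100000000000000000, nat_lit 0x1, nat_lit 61, nat_lit 234669, nat_lit 234144, nat_lit 234672, [nat_lit 0x2d56b40000100210], nat_lit 234129, nat_lit 234129, []⟩

set_option maxRecDepth 100000 in
theorem h296 : rchk Cd.ms p296 = true := by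
  decide +kernel

/-- the row checks of this file -/
noncomputable def rs163 : List RP := [p295, p296]

theorem R163 : RCk Cd.ms rs163 :=
  RCk.cons h295 (RCk.cons h296 RCk.nil)

end Pool.Agent.Moser.Ck.Cr
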