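import Pool.Agent.Lib_MP_cc07e8_cd.Ds
import Pool.Agent.Lib_MP_cc07e8_ck.CkAsmDefs

/-! # MP_cc07e8_co: row checks of the explicit start, part 164 -/

namespace Pool.Agent.Moser.Ck.Cr

/-- row check 297 -/
noncomputable def p297 : RP := ⟨nat_lit 33, nat_lit 2, nat_lit 20, nat_lit 27, nat_lit 456379, nat_lit 459643, nat_lit 456390, nat_lit 0x2480232561d77, nat_lit 0x24c2f75213f99, nat_lit 0x100000000000000000, nat_lit 0x1, nat_lit 61, nat_lit 235213, nat_lit 234672, nat_lit 235216, [nat_lit 0x2d3d860000100220], nat_lit 234657, nat_lit 234657, []⟩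

set_option maxRecDepth 100000 in
theorem h297 : rchk Cd.ms p297 = true := by
  decide +kernel

/-- row check 298 -/
noncomputable def p298 : RP := ⟨nat_lit 34, nat_lit 1, nat_lit 20, nat_lit 27, nat_lit 459558, nat_lit 462745, nat_lit 459572, nat_lit 0x24417fc44e282, nat_lit 0x2481dd96e7d72, nat_lit 0x100000000000000000, nat_lit 0x1, nat_lit 70, nat_lit 235741, nat_lit 235216, nat_lit 235744, [nat_lit 0x2cdb510000100210], nat_lit 235201, nat_lit 235201, []⟩

set_option maxRecDepth 100000 in
theorem h298 : rchk Cd.ms p298 = true := by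
  decide +kernel

/-- the row checks of this file -/
noncomputable def rs164 : List RP := [p297, p298]

theorem R164 : RCk Cd.ms rs164 :=
  RCk.cons h297 (RCk.cons h298 RCk.nil)

end Pool.Agent.Moser.Ck.Cr
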