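import Pool.Agent.Lib_MP_cc07e8_cd.Ds
import Pool.Agent.Lib_MP_cc07e8_ck.CkAsmDefs

/-! # MP_cc07e8_co: row checks of the explicit start, part 165 -/

namespace Pool.Agent.Moser.Ck.Cr

/-- row check 299 -/
noncomputable def p299 : RP := ⟨nat_lit 34, nat_lit 1, nat_lit 20, nat_lit 27, nat_lit 462646, nat_lit 465862, nat_lit 462674, nat_lit 0x240365f2169ff, nat_lit 0x24437c365f8fc, nat_lit 0x100000000000000000, nat_lit 0x2, nat_lit 67, nat_lit 236269, nat_lit 235744, nat_lit 236272, [nat_lit 0x2d3b130000100210], nat_lit 235729, nat_lit 235729, []⟩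

set_option maxRecDepth 100000 in
theorem h299 : rchk Cd.ms p299 = true := by
  decide +kernel

/-- row check 300 -/
noncomputable def p300 : RP := ⟨nat_lit 34, nat_lit 1, nat_lit 20, nat_lit 27, nat_lit 465790, nat_lit 468992, nat_lit 465790, nat_lit 0x23c5de767f70e, nat_lit 0x2404d2c5597d6, nat_lit 0x100000000000000000, nat_lit 0x2, nat_lit 90, nat_lit 236797, nat_lit 236272, nat_lit 236800, [nat_lit 0x2d788a0000100210], nat_lit 236257, nat_lit 236257, []⟩

set_option maxRecDepth 100000 in
theorem h300 : rchk Cd.ms p300 = true := by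
  decide +kernel

/-- the row checks of this file -/
noncomputable def rs165 : List RP := [p299, p300]

theorem R165 : RCk Cd.ms rs165 :=
  RCk.cons h299 (RCk.cons h300 RCk.nil)

end Pool.Agent.Moser.Ck.Cr
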