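import Pool.Agent.Lib_MP_cc07e8_cd.Ds
import Pool.Agent.Lib_MP_cc07e8_ck.CkAsmDefs

/-! # MP_cc07e8_co: row checks of the explicit start, part 166 -/

namespace Pool.Agent.Moser.Ck.Cr

/-- row check 301 -/
noncomputable def p301 : RP := ⟨nat_lit 34, nat_lit 1, nat_lit 20, nat_lit 27, nat_lit 468920, nat_lit 472136, nat_lit 468920, nat_lit 0x2388e2c6d5406, nat_lit 0x23c7466f3470b, nat_lit 0x100000000000000000, nat_lit 0x2, nat_lit 68, nat_lit 237325, nat_lit 236800, nat_lit 237328, [nat_lit 0x2cbffc0000100210], nat_lit 236785, nat_lit 236785, []⟩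

set_option maxRecDepth 100000 in
theorem h301 : rchk Cd.ms p301 = true := by
  decide +kernel

/-- row check 302 -/
noncomputable def p302 : RP := ⟨nat_lit 34, nat_lit 1, nat_lit 20, nat_lit 27, nat_lit 472059, nat_lit 475294, nat_lit 472064, nat_lit 0x234c717e1006e, nat_lit 0x238a5ea3cbf78, nat_lit 0x100000000000000000, nat_lit 0x2, nat_lit 108, nat_lit 237853, nat_lit 237328, nat_lit 237856, [nat_lit 0x2d2a8f0000100210], nat_lit 237313, nat_lit 237313, []⟩

set_option maxRecDepth 100000 in
theorem h302 : rchk Cd.ms p302 = true := by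
  decide +kernel

/-- the row checks of this file -/
noncomputable def rs166 : List RP := [p301, p302]

theorem R166 : RCk Cd.ms rs166 :=
  RCk.cons h301 (RCk.cons h302 RCk.nil)

end Pool.Agent.Moser.Ck.Cr
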