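import Pool.Agent.Lib_MP_cc07e8_cd.Ds
import Pool.Agent.Lib_MP_cc07e8_ck.CkAsmDefs

/-! # MP_cc07e8_co: row checks of the explicit start, part 167 -/

namespace Pool.Agent.Moser.Ck.Cr

/-- row check 303 -/
noncomputable def p303 : RP := ⟨nat_lit 34, nat_lit 1, nat_lit 20, nat_lit 27, nat_lit 475208, nat_lit 478370, nat_lit 475221, nat_lit 0x231256647fc7f, nat_lit 0x234e1424bc5e3, nat_lit 0x100000000000000000, nat_lit 0x2, nat_lit 77, nat_lit 238365, nat_lit 237856, nat_lit 238368, [nat_lit 0x2cdb930000100200], nat_lit 237841, nat_lit 237841, []⟩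

set_option maxRecDepth 100000 in
theorem h303 : rchk Cd.ms p303 = true := by
  decide +kernel

/-- row check 304 -/
noncomputable def p304 : RP := ⟨nat_lit 34, nat_lit 1, nat_lit 21, nat_lit 28, nat_lit 239148, nat_lit 241408, nat_lit 239148, nat_lit 0x22bfa920d92de, nat_lit 0x2313ba0002313, nat_lit 0x80000000000000000, nat_lit 0x2, nat_lit 34, nat_lit 239101, nat_lit 238368, nat_lit 239104, [nat_lit 0x2d26610000100253, nat_lit 0x2cbcbe000010008d], nat_lit 238353, nat_lit 238353, []⟩

set_option maxRecDepth 100000 in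
theorem h304 : rchk Cd.ms p304 = true := by
  decide +kernel

/-- the row checks of this file -/
noncomputable def rs167 : List RP := [p303, p304]

theorem R167 : RCk Cd.ms rs167 :=
  RCk.cons h303 (RCk.cons h304 RCk.nil)

end Pool.Agent.Moser.Ck.Cr
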