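import Pool.Agent.Lib_MP_cc07e8_cd.Ds
import Pool.Agent.Lib_MP_cc07e8_ck.CkAsmDefs

/-! # MP_cc07e8_co: row checks of the explicit start, part 168 -/

namespace Pool.Agent.Moser.Ck.Cr

/-- row check 305 -/
noncomputable def p305 : RP := ⟨nat_lit 34, nat_lit 2, nat_lit 21, nat_lit 28, nat_lit 241371, nat_lit 243644, nat_lit 241371, nat_lit 0x226e05b51d123, nat_lit 0x22c106375a66a, nat_lit 0x80000000000000000, nat_lit 0x2, nat_lit 25, nat_lit 239837, nat_lit 239104, nat_lit 239840, [nat_lit 0x2cd14e0000100255, nat_lit 0x2c16a7000010008b], nat_lit 239089, nat_lit 239089, []⟩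

set_option maxRecDepth 100000 in
theorem h305 : rchk Cd.ms p305 = true := by
  decide +kernel

/-- row check 306 -/
noncomputable def p306 : RP := ⟨nat_lit 35, nat_lit 1, nat_lit 21, nat_lit 28, nat_lit 243606, nat_lit 245894, nat_lit 243606, nat_lit 0x221d5f19a8af6, nat_lit 0x226f65ae4792b, nat_lit 0x80000000000000000, nat_lit 0x2, nat_lit 47, nat_lit 240573, nat_lit 239840, nat_lit 240576, [nat_lit 0x2d01af0000100257, nat_lit 0x2c95c50000100089], nat_lit 239825, nat_lit 239825, []⟩

set_option maxRecDepth 100000 in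
theorem h306 : rchk Cd.ms p306 = true := by
  decide +kernel

/-- the row checks of this file -/
noncomputable def rs168 : List RP := [p305, p306]

theorem R168 : RCk Cd.ms rs168 :=
  RCk.cons h305 (RCk.cons h306 RCk.nil)

end Pool.Agent.Moser.Ck.Cr
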