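import Pool.Agent.Lib_MP_cc07e8_cd.Ds
import Pool.Agent.Lib_MP_cc07e8_ck.CkAsmDefs

/-! # MP_cc07e8_co: row checks of the explicit start, part 169 -/

namespace Pool.Agent.Moser.Ck.Cr

/-- row check 307 -/
noncomputable def p307 : RP := ⟨nat_lit 35, nat_lit 1, nat_lit 21, nat_lit 28, nat_lit 245856, nat_lit 248158, nat_lit 245856, nat_lit 0x21cdb1eca064a, nat_lit 0x221eb8a944681, nat_lit 0x80000000000000000, nat_lit 0x2, nat_lit 37, nat_lit 241309, nat_lit 240576, nat_lit 241312, [nat_lit 0x2c31430000100259, nat_lit 0x2dc4cf0000100087], nat_lit 240561, nat_lit 240561, []⟩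

set_option maxRecDepth 100000 in
theorem h307 : rchk Cd.ms p307 = true := by
  decide +kernel

/-- row check 308 -/
noncomputable def p308 : RP := ⟨nat_lit 35, nat_lit 1, nat_lit 21, nat_lit 28, nat_lit 248120, nat_lit 250386, nat_lit 248120, nat_lit 0x2180b132a935f, nat_lit 0x21cf0535545d6, nat_lit 0x80000000000000000, nat_lit 0x2, nat_lit 53, nat_lit 242029, nat_lit 241312, nat_lit 242032, [nat_lit 0x2c9796000010025b, nat_lit 0x2c596d0000100075], nat_lit 241297, nat_lit 241297, []⟩

set_option maxRecDepth 100000 in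
theorem h308 : rchk Cd.ms p308 = true := by
  decide +kernel

/-- the row checks of this file -/
noncomputable def rs169 : List RP := [p307, p308]

theorem R169 : RCk Cd.ms rs169 :=
  RCk.cons h307 (RCk.cons h308 RCk.nil)

end Pool.Agent.Moser.Ck.Cr
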