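import Pool.Agent.Lib_MP_cc07e8_cd.Ds
import Pool.Agent.Lib_MP_cc07e8_ck.CkAsmDefs

/-! # MP_cc07e8_co: row checks of the explicit start, part 170 -/

namespace Pool.Agent.Moser.Ck.Cr

/-- row check 309 -/
noncomputable def p309 : RP := ⟨nat_lit 35, nat_lit 1, nat_lit 21, nat_lit 28, nat_lit 250342, nat_lit 252627, nat_lit 250347, nat_lit 0x21349c34c5741, nat_lit 0x21823319f6be5, nat_lit 0x80000000000000000, nat_lit 0x2, nat_lit 24, nat_lit 242749, nat_lit 242032, nat_lit 242752, [nat_lit 0x2c14bf000010025d, nat_lit 0x2b3cff0000100073], nat_lit 242017, nat_lit 242017, []⟩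

set_option maxRecDepth 100000 in
theorem h309 : rchk Cd.ms p309 = true := by
  decide +kernel

/-- row check 310 -/
noncomputable def p310 : RP := ⟨nat_lit 35, nat_lit 1, nat_lit 21, nat_lit 28, nat_lit 252582, nat_lit 254881, nat_lit 252588, nat_lit 0x20e96fb617cb4, nat_lit 0x21361fe8f8f8d, nat_lit 0x80000000000000000, nat_lit 0x2, nat_lit 40, nat_lit 243469, nat_lit 242752, nat_lit 243472, [nat_lit 0x2c340b000010025e, nat_lit 0x2ba1510000100072], nat_lit 242737, nat_lit 242737, []⟩

set_option maxRecDepth 100000 in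
theorem h310 : rchk Cd.ms p310 = true := by
  decide +kernel

/-- the row checks of this file -/
noncomputable def rs170 : List RP := [p309, p310]

theorem R170 : RCk Cd.ms rs170 :=
  RCk.cons h309 (RCk.cons h310 RCk.nil)

end Pool.Agent.Moser.Ck.Cr
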