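import Pool.Agent.Lib_MP_cc07e8_cd.Ds
import Pool.Agent.Lib_MP_cc07e8_ck.CkAsmDefs

/-! # MP_cc07e8_co: row checks of the explicit start, part 171 -/

namespace Pool.Agent.Moser.Ck.Cr

/-- row check 311 -/
noncomputable def p311 : RP := ⟨nat_lit 35, nat_lit 2, nat_lit 21, nat_lit 28, nat_lit 254841, nat_lit 257149, nat_lit 254843, nat_lit 0x209f20345750e, nat_lit 0x20eac242f0e9a, nat_lit 0x80000000000000000, nat_lit 0x2, nat_lit 41, nat_lit 244189, nat_lit 243472, nat_lit 244192, [nat_lit 0x2c40460000100260, nat_lit 0x2b8d3a0000100070], nat_lit 243457, nat_lit 243457, []⟩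

set_option maxRecDepth 100000 in
theorem h311 : rchk Cd.ms p311 = true := by
  decide +kernel

/-- the row checks of this file -/
noncomputable def rs171 : List RP := [p311]

theorem R171 : RCk Cd.ms rs171 :=
  RCk.cons h311 RCk.nil

end Pool.Agent.Moser.Ck.Cr
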