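import Pool.Agent.Lib_MP_cc07e8_cd.Ds
import Pool.Agent.Lib_MP_cc07e8_ck.CkAsmDefs

/-! # MP_cc07e8_co: row checks of the explicit start, part 172 -/

namespace Pool.Agent.Moser.Ck.Cr

/-- row check 312 -/
noncomputable def p312 : RP := ⟨nat_lit 35, nat_lit 2, nat_lit 21, nat_lit 28, nat_lit 257105, nat_lit 259431, nat_lit 257110, nat_lit 0x2055aaf83822b, nat_lit 0x20a08e1322a9d, nat_lit 0x80000000000000000, nat_lit 0x2, nat_lit 40, nat_lit 244909, nat_lit 244192, nat_lit 244912, [nat_lit 0x2c3f050000100262, nat_lit 0x2bbf62000010006e], nat_lit 244177, nat_lit 244177, []⟩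

set_option maxRecDepth 100000 in
theorem h312 : rchk Cd.ms p312 = true := by
  decide +kernel

/-- row check 313 -/
noncomputable def p313 : RP := ⟨nat_lit 36, nat_lit 1, nat_lit 21, nat_lit 28, nat_lit 259392, nat_lit 261674, nat_lit 259392, nat_lit 0x200eb6c0e1878, nat_lit 0x2056e993bd0c1, nat_lit 0x80000000000000000, nat_lit 0x2, nat_lit 47, nat_lit 245613, nat_lit 244912, nat_lit 245616, [nat_lit 0x2c242d0000100264, nat_lit 0x2bcf3a000010005c], nat_lit 244897, nat_lit 244897, []⟩

set_option maxRecDepth 100000 in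
theorem h313 : rchk Cd.ms p313 = true := by
  decide +kernel

/-- the row checks of this file -/
noncomputable def rs172 : List RP := [p312, p313]

theorem R172 : RCk Cd.ms rs172 :=
  RCk.cons h312 (RCk.cons h313 RCk.nil)

end Pool.Agent.Moser.Ck.Cr
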