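import Pool.Agent.Lib_MP_cc07e8_cd.Ds
import Pool.Agent.Lib_MP_cc07e8_ck.CkAsmDefs

/-! # MP_cc07e8_co: row checks of the explicit start, part 173 -/

namespace Pool.Agent.Moser.Ck.Cr

/-- row check 314 -/
noncomputable def p314 : RP := ⟨nat_lit 36, nat_lit 1, nat_lit 21, nat_lit 28, nat_lit 261634, nat_lit 263982, nat_lit 261635, nat_lit 0x1fc6f660c54dd, nat_lit 0x200ff7f3fe050, nat_lit 0x80000000000000000, nat_lit 0x2, nat_lit 45, nat_lit 246333, nat_lit 245616, nat_lit 246336, [nat_lit 0x2c73690000100266, nat_lit 0x2bc3f4000010006a], nat_lit 245601, nat_lit 245601, []⟩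

set_option maxRecDepth 100000 in
theorem h314 : rchk Cd.ms p314 = true := by
  decide +kernel

/-- row check 315 -/
noncomputable def p315 : RP := ⟨nat_lit 36, nat_lit 1, nat_lit 21, nat_lit 28, nat_lit 263941, nat_lit 266252, nat_lit 263943, nat_lit 0x1f819b0ef3070, nat_lit 0x1fc839e06ee56, nat_lit 0x80000000000000000, nat_lit 0x2, nat_lit 57, nat_lit 247037, nat_lit 246336, nat_lit 247040, [nat_lit 0x2b9b940000100267, nat_lit 0x2b59d70000100059], nat_lit 246321, nat_lit 246321, []⟩

set_option maxRecDepth 100000 in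
theorem h315 : rchk Cd.ms p315 = true := by
  decide +kernel

/-- the row checks of this file -/
noncomputable def rs173 : List RP := [p314, p315]

theorem R173 : RCk Cd.ms rs173 :=
  RCk.cons h314 (RCk.cons h315 RCk.nil)

end Pool.Agent.Moser.Ck.Cr
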