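import Pool.Agent.Lib_MP_cc07e8_cd.Ds
import Pool.Agent.Lib_MP_cc07e8_ck.CkAsmDefs

/-! # MP_cc07e8_co: row checks of the explicit start, part 174 -/

namespace Pool.Agent.Moser.Ck.Cr

/-- row check 316 -/
noncomputable def p316 : RP := ⟨nat_lit 36, nat_lit 1, nat_lit 21, nat_lit 28, nat_lit 266212, nat_lit 268535, nat_lit 266212, nat_lit 0x1f3d08d2321fa, nat_lit 0x1f82d14e7f28d, nat_lit 0x80000000000000000, nat_lit 0x2, nat_lit 31, nat_lit 247741, nat_lit 247040, nat_lit 247744, [nat_lit 0x2b587a0000100269, nat_lit 0x2a4eff0000100057], nat_lit 247025, nat_lit 247025, []⟩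

set_option maxRecDepth 100000 in
theorem h316 : rchk Cd.ms p316 = true := by
  decide +kernel

/-- row check 317 -/
noncomputable def p317 : RP := ⟨nat_lit 36, nat_lit 1, nat_lit 21, nat_lit 28, nat_lit 268479, nat_lit 270778, nat_lit 268495, nat_lit 0x1efaca6c3e547, nat_lit 0x1f3eb3d6eb26b, nat_lit 0x80000000000000000, nat_lit 0x2, nat_lit 32, nat_lit 248429, nat_lit 247744, nat_lit 248432, [nat_lit 0x2be1e9000010026b, nat_lit 0x2a8e1e0000100045], nat_lit 247729, nat_lit 247729, []⟩

set_option maxRecDepth 100000 in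
theorem h317 : rchk Cd.ms p317 = true := by
  decide +kernel

/-- the row checks of this file -/
noncomputable def rs174 : List RP := [p316, p317]

theorem R174 : RCk Cd.ms rs174 :=
  RCk.cons h316 (RCk.cons h317 RCk.nil)

end Pool.Agent.Moser.Ck.Cr
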