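import Pool.Agent.Lib_MP_cc07e8_cd.Ds
import Pool.Agent.Lib_MP_cc07e8_ck.CkAsmDefs

/-! # MP_cc07e8_co: row checks of the explicit start, part 175 -/

namespace Pool.Agent.Moser.Ck.Cr

/-- row check 318 -/
noncomputable def p318 : RP := ⟨nat_lit 36, nat_lit 2, nat_lit 21, nat_lit 28, nat_lit 270731, nat_lit 273087, nat_lit 270738, nat_lit 0x1eb7bc047ef44, nat_lit 0x1efc2ae359fd2, nat_lit 0x80000000000000000, nat_lit 0x2, nat_lit 38, nat_lit 249133, nat_lit 248432, nat_lit 249136, [nat_lit 0x2b483a000010026d, nat_lit 0x2be6640000100053], nat_lit 248417, nat_lit 248417, []⟩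

set_option maxRecDepth 100000 in
theorem h318 : rchk Cd.ms p318 = true := by
  decide +kernel

/-- row check 319 -/
noncomputable def p319 : RP := ⟨nat_lit 37, nat_lit 1, nat_lit 21, nat_lit 28, nat_lit 273045, nat_lit 275356, nat_lit 273046, nat_lit 0x1e76ef7478444, nat_lit 0x1eb8f1ad3aa38, nat_lit 0x80000000000000000, nat_lit 0x2, nat_lit 42, nat_lit 249821, nat_lit 249136, nat_lit 249824, [nat_lit 0x2abe40000010026e, nat_lit 0x29fe010000100042], nat_lit 249121, nat_lit 249121, []⟩

set_option maxRecDepth 100000 in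
theorem h319 : rchk Cd.ms p319 = true := by
  decide +kernel

/-- the row checks of this file -/
noncomputable def rs175 : List RP := [p318, p319]

theorem R175 : RCk Cd.ms rs175 :=
  RCk.cons h318 (RCk.cons h319 RCk.nil)

end Pool.Agent.Moser.Ck.Cr
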