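import Pool.Agent.Lib_MP_cc07e8_cd.Ds
import Pool.Agent.Lib_MP_cc07e8_ck.CkAsmDefs

/-! # MP_cc07e8_co: row checks of the explicit start, part 176 -/

namespace Pool.Agent.Moser.Ck.Cr

/-- row check 320 -/
noncomputable def p320 : RP := ⟨nat_lit 37, nat_lit 1, nat_lit 21, nat_lit 28, nat_lit 275315, nat_lit 277637, nat_lit 275315, nat_lit 0x1e36dc7502a5b, nat_lit 0x1e7818c74aa69, nat_lit 0x80000000000000000, nat_lit 0x2, nat_lit 50, nat_lit 250509, nat_lit 249824, nat_lit 250512, [nat_lit 0x2b8f2f0000100270, nat_lit 0x2914550000100040], nat_lit 249809, nat_lit 249809, []⟩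

set_option maxRecDepth 100000 in
theorem h320 : rchk Cd.ms p320 = true := by
  decide +kernel

/-- row check 321 -/
noncomputable def p321 : RP := ⟨nat_lit 37, nat_lit 1, nat_lit 21, nat_lit 28, nat_lit 277590, nat_lit 279931, nat_lit 277596, nat_lit 0x1df77994dd727, nat_lit 0x1e382bb884411, nat_lit 0x80000000000000000, nat_lit 0x2, nat_lit 60, nat_lit 251197, nat_lit 250512, nat_lit 251200, [nat_lit 0x2aede50000100272, nat_lit 0x291951000010003e], nat_lit 250497, nat_lit 250497, []⟩

set_option maxRecDepth 100000 in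
theorem h321 : rchk Cd.ms p321 = true := by
  decide +kernel

/-- the row checks of this file -/
noncomputable def rs176 : List RP := [p320, p321]

theorem R176 : RCk Cd.ms rs176 :=
  RCk.cons h320 (RCk.cons h321 RCk.nil)

end Pool.Agent.Moser.Ck.Cr
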