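import Pool.Agent.Lib_MP_cc07e8_cd.Ds
import Pool.Agent.Lib_MP_cc07e8_ck.CkAsmDefs

/-! # MP_cc07e8_co: row checks of the explicit start, part 177 -/

namespace Pool.Agent.Moser.Ck.Cr

/-- row check 322 -/
noncomputable def p322 : RP := ⟨nat_lit 37, nat_lit 1, nat_lit 21, nat_lit 28, nat_lit 279888, nat_lit 282237, nat_lit 279890, nat_lit 0x1db8cbad6d41e, nat_lit 0x1df8a74cfde0c, nat_lit 0x80000000000000000, nat_lit 0x2, nat_lit 45, nat_lit 251885, nat_lit 251200, nat_lit 251888, [nat_lit 0x2b35360000100274, nat_lit 0x2a5edc000010003c], nat_lit 251185, nat_lit 251185, []⟩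

set_option maxRecDepth 100000 in
theorem h322 : rchk Cd.ms p322 = true := by
  decide +kernel

/-- row check 323 -/
noncomputable def p323 : RP := ⟨nat_lit 37, nat_lit 1, nat_lit 21, nat_lit 28, nat_lit 282188, nat_lit 284556, nat_lit 282196, nat_lit 0x1d7ac995f3187, nat_lit 0x1dba1de890b74, nat_lit 0x80000000000000000, nat_lit 0x2, nat_lit 32, nat_lit 252573, nat_lit 251888, nat_lit 252576, [nat_lit 0x2b84640000100275, nat_lit 0x2a7740000010003b], nat_lit 251873, nat_lit 251873, []⟩

set_option maxRecDepth 100000 in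
theorem h323 : rchk Cd.ms p323 = true := by
  decide +kernel

/-- the row checks of this file -/
noncomputable def rs177 : List RP := [p322, p323]

theorem R177 : RCk Cd.ms rs177 :=
  RCk.cons h322 (RCk.cons h323 RCk.nil)

end Pool.Agent.Moser.Ck.Cr
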