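import Pool.Agent.Lib_MP_cc07e8_cd.Ds
import Pool.Agent.Lib_MP_cc07e8_ck.CkAsmDefs

/-! # MP_cc07e8_co: row checks of the explicit start, part 178 -/

namespace Pool.Agent.Moser.Ck.Cr

/-- row check 324 -/
noncomputable def p324 : RP := ⟨nat_lit 37, nat_lit 2, nat_lit 21, nat_lit 28, nat_lit 284515, nat_lit 286833, nat_lit 284515, nat_lit 0x1d3ee0bde586c, nat_lit 0x1d7bdffe3e5ee, nat_lit 0x80000000000000000, nat_lit 0x2, nat_lit 34, nat_lit 253245, nat_lit 252576, nat_lit 253248, [nat_lit 0x29fba00000100277, nat_lit 0x295ba90000100029], nat_lit 252561, nat_lit 252561, []⟩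

set_option maxRecDepth 100000 in
theorem h324 : rchk Cd.ms p324 = true := by
  decide +kernel

/-- row check 325 -/
noncomputable def p325 : RP := ⟨nat_lit 38, nat_lit 1, nat_lit 21, nat_lit 28, nat_lit 286792, nat_lit 289123, nat_lit 286792, nat_lit 0x1d0393faf5c8e, nat_lit 0x1d3ff2bf06017, nat_lit 0x80000000000000000, nat_lit 0x2, nat_lit 43, nat_lit 253917, nat_lit 253248, nat_lit 253920, [nat_lit 0x2bab400000100279, nat_lit 0x2820ff0000100027], nat_lit 253233, nat_lit 253233, []⟩

set_option maxRecDepth 100000 in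
theorem h325 : rchk Cd.ms p325 = true := by
  decide +kernel

/-- the row checks of this file -/
noncomputable def rs178 : List RP := [p324, p325]

theorem R178 : RCk Cd.ms rs178 :=
  RCk.cons h324 (RCk.cons h325 RCk.nil)

end Pool.Agent.Moser.Ck.Cr
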