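import Pool.Agent.Lib_MP_cc07e8_cd.Ds
import Pool.Agent.Lib_MP_cc07e8_ck.CkAsmDefs

/-! # MP_cc07e8_co: row checks of the explicit start, part 179 -/

namespace Pool.Agent.Moser.Ck.Cr

/-- row check 326 -/
noncomputable def p326 : RP := ⟨nat_lit 38, nat_lit 1, nat_lit 21, nat_lit 28, nat_lit 289073, nat_lit 291424, nat_lit 289081, nat_lit 0x1cc8ee9989c4a, nat_lit 0x1d04dcde9af56, nat_lit 0x80000000000000000, nat_lit 0x2, nat_lit 37, nat_lit 254589, nat_lit 253920, nat_lit 254592, [nat_lit 0x2a4f73000010027a, nat_lit 0x29af790000100026], nat_lit 253905, nat_lit 253905, []⟩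

set_option maxRecDepth 100000 in
theorem h326 : rchk Cd.ms p326 = true := by
  decide +kernel

/-- row check 327 -/
noncomputable def p327 : RP := ⟨nat_lit 38, nat_lit 1, nat_lit 21, nat_lit 28, nat_lit 291377, nat_lit 293738, nat_lit 291382, nat_lit 0x1c8ee19c2402e, nat_lit 0x1cca1ee3acdc6, nat_lit 0x80000000000000000, nat_lit 0x2, nat_lit 40, nat_lit 255261, nat_lit 254592, nat_lit 255264, [nat_lit 0x2a0555000010027c, nat_lit 0x296dcb0000100024], nat_lit 254577, nat_lit 254577, []⟩

set_option maxRecDepth 100000 in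
theorem h327 : rchk Cd.ms p327 = true := by
  decide +kernel

/-- the row checks of this file -/
noncomputable def rs179 : List RP := [p326, p327]

theorem R179 : RCk Cd.ms rs179 :=
  RCk.cons h326 (RCk.cons h327 RCk.nil)

end Pool.Agent.Moser.Ck.Cr
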