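import Pool.Agent.Lib_MP_cc07e8_cd.Ds
import Pool.Agent.Lib_MP_cc07e8_ck.CkAsmDefs

/-! # MP_cc07e8_co: row checks of the explicit start, part 180 -/

namespace Pool.Agent.Moser.Ck.Cr

/-- row check 328 -/
noncomputable def p328 : RP := ⟨nat_lit 38, nat_lit 1, nat_lit 21, nat_lit 28, nat_lit 293661, nat_lit 296009, nat_lit 293696, nat_lit 0x1c56caaf6f9b4, nat_lit 0x1c90cc5a5be6e, nat_lit 0x80000000000000000, nat_lit 0x2, nat_lit 63, nat_lit 255917, nat_lit 255264, nat_lit 255920, [nat_lit 0x29f403000010027e, nat_lit 0x294d170000100012], nat_lit 255249, nat_lit 255249, []⟩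

set_option maxRecDepth 100000 in
theorem h328 : rchk Cd.ms p328 = true := by
  decide +kernel

/-- row check 329 -/
noncomputable def p329 : RP := ⟨nat_lit 38, nat_lit 1, nat_lit 21, nat_lit 28, nat_lit 295963, nat_lit 298347, nat_lit 295966, nat_lit 0x1c1df0815031f, nat_lit 0x1c57eb582d8d8, nat_lit 0x80000000000000000, nat_lit 0x2, nat_lit 47, nat_lit 256589, nat_lit 255920, nat_lit 256592, [nat_lit 0x2d9306000010027f, nat_lit 0x2783f20000100021], nat_lit 255905, nat_lit 255905, []⟩

set_option maxRecDepth 100000 in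
theorem h329 : rchk Cd.ms p329 = true := by
  decide +kernel

/-- the row checks of this file -/
noncomputable def rs180 : List RP := [p328, p329]

theorem R180 : RCk Cd.ms rs180 :=
  RCk.cons h328 (RCk.cons h329 RCk.nil)

end Pool.Agent.Moser.Ck.Cr
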