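import Pool.Agent.Lib_MP_cc07e8_cd.Ds
import Pool.Agent.Lib_MP_cc07e8_ck.CkAsmDefs

/-! # MP_cc07e8_co: row checks of the explicit start, part 181 -/

namespace Pool.Agent.Moser.Ck.Cr

/-- row check 330 -/
noncomputable def p330 : RP := ⟨nat_lit 38, nat_lit 1, nat_lit 21, nat_lit 28, nat_lit 298298, nat_lit 300697, nat_lit 298304, nat_lit 0x1be5afb1ef227, nat_lit 0x1c1f1f3135252, nat_lit 0x80000000000000000, nat_lit 0x2, nat_lit 64, nat_lit 257261, nat_lit 256592, nat_lit 257264, [nat_lit 0x2b38b20000100281, nat_lit 0x28b8a2000010001f], nat_lit 256577, nat_lit 256577, []⟩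

set_option maxRecDepth 100000 in
theorem h330 : rchk Cd.ms p330 = true := by
  decide +kernel

/-- row check 331 -/
noncomputable def p331 : RP := ⟨nat_lit 38, nat_lit 2, nat_lit 21, nat_lit 28, nat_lit 300654, nat_lit 303059, nat_lit 300654, nat_lit 0x1bae0665dd629, nat_lit 0x1be6b52d638af, nat_lit 0x80000000000000000, nat_lit 0x2, nat_lit 31, nat_lit 257933, nat_lit 257264, nat_lit 257936, [nat_lit 0x29151c0000100283, nat_lit 0x28e926000010001d], nat_lit 257249, nat_lit 257249, []⟩

set_option maxRecDepth 100000 in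
theorem h331 : rchk Cd.ms p331 = true := by
  decide +kernel

/-- the row checks of this file -/
noncomputable def rs181 : List RP := [p330, p331]

theorem R181 : RCk Cd.ms rs181 :=
  RCk.cons h330 (RCk.cons h331 RCk.nil)

end Pool.Agent.Moser.Ck.Cr
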