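import Pool.Agent.Lib_MP_cc07e8_cd.Ds
import Pool.Agent.Lib_MP_cc07e8_ck.CkAsmDefs

/-! # MP_cc07e8_co: row checks of the explicit start, part 182 -/

namespace Pool.Agent.Moser.Ck.Cr

/-- row check 332 -/
noncomputable def p332 : RP := ⟨nat_lit 39, nat_lit 1, nat_lit 21, nat_lit 28, nat_lit 303016, nat_lit 305434, nat_lit 303016, nat_lit 0x1b76ece296d9b, nat_lit 0x1baf07d1e0e57, nat_lit 0x80000000000000000, nat_lit 0x2, nat_lit 42, nat_lit 258605, nat_lit 257936, nat_lit 258608, [nat_lit 0x294a440000100284, nat_lit 0x275c95000010001c], nat_lit 257921, nat_lit 257921, []⟩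

set_option maxRecDepth 100000 in
theorem h332 : rchk Cd.ms p332 = true := by
  decide +kernel

/-- row check 333 -/
noncomputable def p333 : RP := ⟨nat_lit 39, nat_lit 1, nat_lit 21, nat_lit 27, nat_lit 305375, nat_lit 307765, nat_lit 305391, nat_lit 0x1b41ac62acd8d, nat_lit 0x1b7848a360938, nat_lit 0x80000000000000000, nat_lit 0x2, nat_lit 46, nat_lit 259261, nat_lit 258608, nat_lit 259264, [nat_lit 0x2977350000100286, nat_lit 0x251ba2000010000a], nat_lit 258593, nat_lit 258593, []⟩

set_option maxRecDepth 100000 in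
theorem h333 : rchk Cd.ms p333 = true := by
  decide +kernel

/-- the row checks of this file -/
noncomputable def rs182 : List RP := [p332, p333]

theorem R182 : RCk Cd.ms rs182 :=
  RCk.cons h332 (RCk.cons h333 RCk.nil)

end Pool.Agent.Moser.Ck.Cr
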