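import Pool.Agent.Lib_MP_cc07e8_cd.Ds
import Pool.Agent.Lib_MP_cc07e8_ck.CkAsmDefs

/-! # MP_cc07e8_co: row checks of the explicit start, part 183 -/

namespace Pool.Agent.Moser.Ck.Cr

/-- row check 334 -/
noncomputable def p334 : RP := ⟨nat_lit 39, nat_lit 1, nat_lit 21, nat_lit 27, nat_lit 307721, nat_lit 310107, nat_lit 307721, nat_lit 0x1b0cf9f38f343, nat_lit 0x1b42abcce06f9, nat_lit 0x80000000000000000, nat_lit 0x2, nat_lit 44, nat_lit 259917, nat_lit 259264, nat_lit 259920, [nat_lit 0x29a6850000100288, nat_lit 0x24b7900000100008], nat_lit 259249, nat_lit 259249, []⟩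

set_option maxRecDepth 100000 in
theorem h334 : rchk Cd.ms p334 = true := by
  decide +kernel

/-- row check 335 -/
noncomputable def p335 : RP := ⟨nat_lit 39, nat_lit 1, nat_lit 21, nat_lit 27, nat_lit 310059, nat_lit 312461, nat_lit 310063, nat_lit 0x1ad8ce2eacf75, nat_lit 0x1b0e0c6573d60, nat_lit 0x80000000000000000, nat_lit 0x2, nat_lit 56, nat_lit 260573, nat_lit 259920, nat_lit 260576, [nat_lit 0x28f6d00000100289, nat_lit 0x2529360000100007], nat_lit 259905, nat_lit 259905, []⟩

set_option maxRecDepth 100000 in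
theorem h335 : rchk Cd.ms p335 = true := by
  decide +kernel

/-- the row checks of this file -/
noncomputable def rs183 : List RP := [p334, p335]

theorem R183 : RCk Cd.ms rs183 :=
  RCk.cons h334 (RCk.cons h335 RCk.nil)

end Pool.Agent.Moser.Ck.Cr
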