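import Pool.Agent.Lib_MP_cc07e8_cd.Ds
import Pool.Agent.Lib_MP_cc07e8_ck.CkAsmDefs

/-! # MP_cc07e8_co: row checks of the explicit start, part 184 -/

namespace Pool.Agent.Moser.Ck.Cr

/-- row check 336 -/
noncomputable def p336 : RP := ⟨nat_lit 39, nat_lit 1, nat_lit 21, nat_lit 27, nat_lit 312409, nat_lit 314826, nat_lit 312416, nat_lit 0x1aa52d219dfd5, nat_lit 0x1ad9f309c239c, nat_lit 0x80000000000000000, nat_lit 0x2, nat_lit 56, nat_lit 261229, nat_lit 260576, nat_lit 261232, [nat_lit 0x296a65000010028b, nat_lit 0x2445260000100005], nat_lit 260561, nat_lit 260561, []⟩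

set_option maxRecDepth 100000 in
theorem h336 : rchk Cd.ms p336 = true := by
  decide +kernel

/-- row check 337 -/
noncomputable def p337 : RP := ⟨nat_lit 39, nat_lit 2, nat_lit 21, nat_lit 27, nat_lit 314777, nat_lit 317204, nat_lit 314782, nat_lit 0x1a720a249d43e, nat_lit 0x1aa63cf54967c, nat_lit 0x80000000000000000, nat_lit 0x2, nat_lit 36, nat_lit 261885, nat_lit 261232, nat_lit 261888, [nat_lit 0x28eae0000010028d, nat_lit 0x25a1fb0000100003], nat_lit 261217, nat_lit 261217, []⟩

set_option maxRecDepth 100000 in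
theorem h337 : rchk Cd.ms p337 = true := by
  decide +kernel

/-- the row checks of this file -/
noncomputable def rs184 : List RP := [p336, p337]

theorem R184 : RCk Cd.ms rs184 :=
  RCk.cons h336 (RCk.cons h337 RCk.nil)

end Pool.Agent.Moser.Ck.Cr
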