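import Pool.Agent.Lib_MP_cc07e8_cd.Ds
import Pool.Agent.Lib_MP_cc07e8_ck.CkAsmDefs

/-! # MP_cc07e8_co: row checks of the explicit start, part 185 -/

namespace Pool.Agent.Moser.Ck.Cr

/-- row check 338 -/
noncomputable def p338 : RP := ⟨nat_lit 39, nat_lit 2, nat_lit 21, nat_lit 27, nat_lit 317160, nat_lit 319594, nat_lit 317160, nat_lit 0x1a3f69622047e, nat_lit 0x1a72fa9512cc1, nat_lit 0x80000000000000000, nat_lit 0x2, nat_lit 52, nat_lit 262541, nat_lit 261888, nat_lit 262544, [nat_lit 0x292c1f000010028e, nat_lit 0x2763300000100002], nat_lit 261873, nat_lit 261873, []⟩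

set_option maxRecDepth 100000 in
theorem h338 : rchk Cd.ms p338 = true := by
  decide +kernel

/-- row check 339 -/
noncomputable def p339 : RP := ⟨nat_lit 40, nat_lit 1, nat_lit 21, nat_lit 27, nat_lit 319549, nat_lit 321996, nat_lit 319549, nat_lit 0x1a0d4966bf770, nat_lit 0x1a405b9f9fc9a, nat_lit 0x80000000000000000, nat_lit 0x2, nat_lit 65, nat_lit 263197, nat_lit 262544, nat_lit 263200, [nat_lit 0x28e5e80000100290], nat_lit 262529, nat_lit 262529, []⟩

set_option maxRecDepth 100000 in
theorem h339 : rchk Cd.ms p339 = true := by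
  decide +kernel

/-- the row checks of this file -/
noncomputable def rs185 : List RP := [p338, p339]

theorem R185 : RCk Cd.ms rs185 :=
  RCk.cons h338 (RCk.cons h339 RCk.nil)

end Pool.Agent.Moser.Ck.Cr
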