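import Pool.Agent.Lib_MP_cc07e8_cd.Ds
import Pool.Agent.Lib_MP_cc07e8_ck.CkAsmDefs

/-! # MP_cc07e8_co: row checks of the explicit start, part 186 -/

namespace Pool.Agent.Moser.Ck.Cr

/-- row check 340 -/
noncomputable def p340 : RP := ⟨nat_lit 40, nat_lit 1, nat_lit 21, nat_lit 27, nat_lit 321944, nat_lit 324409, nat_lit 321950, nat_lit 0x19dbadfc03021, nat_lit 0x1a0e5d2b1c640, nat_lit 0x80000000000000000, nat_lit 0x2, nat_lit 49, nat_lit 263853, nat_lit 263200, nat_lit 263856, [nat_lit 0x28489c0000100290], nat_lit 263185, nat_lit 263185, []⟩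

set_option maxRecDepth 100000 in
theorem h340 : rchk Cd.ms p340 = true := by
  decide +kernel

/-- row check 341 -/
noncomputable def p341 : RP := ⟨nat_lit 40, nat_lit 1, nat_lit 21, nat_lit 27, nat_lit 324359, nat_lit 326835, nat_lit 324364, nat_lit 0x19aa8b2f7bf26, nat_lit 0x19dcb33692fe9, nat_lit 0x80000000000000000, nat_lit 0x2, nat_lit 46, nat_lit 264509, nat_lit 263856, nat_lit 264512, [nat_lit 0x29eef70000100290], nat_lit 263841, nat_lit 263841, []⟩

set_option maxRecDepth 100000 in
theorem h341 : rchk Cd.ms p341 = true := by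
  decide +kernel

/-- the row checks of this file -/
noncomputable def rs186 : List RP := [p340, p341]

theorem R186 : RCk Cd.ms rs186 :=
  RCk.cons h340 (RCk.cons h341 RCk.nil)

end Pool.Agent.Moser.Ck.Cr
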