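import Pool.Agent.Lib_MP_cc07e8_cd.Ds
import Pool.Agent.Lib_MP_cc07e8_ck.CkAsmDefs

/-! # MP_cc07e8_co: row checks of the explicit start, part 187 -/

namespace Pool.Agent.Moser.Ck.Cr

/-- row check 342 -/
noncomputable def p342 : RP := ⟨nat_lit 40, nat_lit 1, nat_lit 21, nat_lit 27, nat_lit 326779, nat_lit 329273, nat_lit 326789, nat_lit 0x1979e4e620cc6, nat_lit 0x19abab707a2c6, nat_lit 0x80000000000000000, nat_lit 0x3, nat_lit 47, nat_lit 265165, nat_lit 264512, nat_lit 265168, [nat_lit 0x2857990000100290], nat_lit 264497, nat_lit 264497, []⟩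

set_option maxRecDepth 100000 in
theorem h342 : rchk Cd.ms p342 = true := by
  decide +kernel

/-- row check 343 -/
noncomputable def p343 : RP := ⟨nat_lit 40, nat_lit 1, nat_lit 21, nat_lit 27, nat_lit 329227, nat_lit 331663, nat_lit 329227, nat_lit 0x194ae58aed7ef, nat_lit 0x197ace2d9d455, nat_lit 0x80000000000000000, nat_lit 0x3, nat_lit 56, nat_lit 265805, nat_lit 265168, nat_lit 265808, [nat_lit 0x27efa40000100280], nat_lit 265153, nat_lit 265153, []⟩

set_option maxRecDepth 100000 in
theorem h343 : rchk Cd.ms p343 = true := by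
  decide +kernel

/-- the row checks of this file -/
noncomputable def rs187 : List RP := [p342, p343]

theorem R187 : RCk Cd.ms rs187 :=
  RCk.cons h342 (RCk.cons h343 RCk.nil)

end Pool.Agent.Moser.Ck.Cr
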