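import Pool.Agent.Lib_MP_cc07e8_cd.Ds
import Pool.Agent.Lib_MP_cc07e8_ck.CkAsmDefs

/-! # MP_cc07e8_co: row checks of the explicit start, part 188 -/

namespace Pool.Agent.Moser.Ck.Cr

/-- row check 344 -/
noncomputable def p344 : RP := ⟨nat_lit 40, nat_lit 2, nat_lit 21, nat_lit 27, nat_lit 331617, nat_lit 334064, nat_lit 331617, nat_lit 0x191c5c2794334, nat_lit 0x194bcb78c3f3b, nat_lit 0x80000000000000000, nat_lit 0x3, nat_lit 36, nat_lit 266445, nat_lit 265808, nat_lit 266448, [nat_lit 0x286cbd0000100280], nat_lit 265793, nat_lit 265793, []⟩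

set_option maxRecDepth 100000 in
theorem h344 : rchk Cd.ms p344 = true := by
  decide +kernel

/-- row check 345 -/
noncomputable def p345 : RP := ⟨nat_lit 41, nat_lit 1, nat_lit 21, nat_lit 27, nat_lit 334018, nat_lit 336477, nat_lit 334018, nat_lit 0x18ee42859e17a, nat_lit 0x191d3eca4a58a, nat_lit 0x80000000000000000, nat_lit 0x3, nat_lit 38, nat_lit 267085, nat_lit 266448, nat_lit 267088, [nat_lit 0x27c93e0000100280], nat_lit 266433, nat_lit 266433, []⟩

set_option maxRecDepth 100000 in
theorem h345 : rchk Cd.ms p345 = true := by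
  decide +kernel

/-- the row checks of this file -/
noncomputable def rs188 : List RP := [p344, p345]

theorem R188 : RCk Cd.ms rs188 :=
  RCk.cons h344 (RCk.cons h345 RCk.nil)

end Pool.Agent.Moser.Ck.Cr
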