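import Pool.Agent.Lib_MP_cc07e8_cd.Ds
import Pool.Agent.Lib_MP_cc07e8_ck.CkAsmDefs

/-! # MP_cc07e8_co: row checks of the explicit start, part 189 -/

namespace Pool.Agent.Moser.Ck.Cr

/-- row check 346 -/
noncomputable def p346 : RP := ⟨nat_lit 41, nat_lit 1, nat_lit 21, nat_lit 27, nat_lit 336431, nat_lit 338902, nat_lit 336431, nat_lit 0x18c09782df6a1, nat_lit 0x18ef21eb1c05d, nat_lit 0x80000000000000000, nat_lit 0x3, nat_lit 54, nat_lit 267725, nat_lit 267088, nat_lit 267728, [nat_lit 0x27fc4e0000100280], nat_lit 267073, nat_lit 267073, []⟩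

set_option maxRecDepth 100000 in
theorem h346 : rchk Cd.ms p346 = true := by
  decide +kernel

/-- row check 347 -/
noncomputable def p347 : RP := ⟨nat_lit 41, nat_lit 1, nat_lit 21, nat_lit 27, nat_lit 338846, nat_lit 341338, nat_lit 338855, nat_lit 0x18935eb75936d, nat_lit 0x18c1a39a07ebb, nat_lit 0x80000000000000000, nat_lit 0x3, nat_lit 55, nat_lit 268365, nat_lit 267728, nat_lit 268368, [nat_lit 0x27ccd30000100280], nat_lit 267713, nat_lit 267713, []⟩

set_option maxRecDepth 100000 in
theorem h347 : rchk Cd.ms p347 = true := by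
  decide +kernel

/-- the row checks of this file -/
noncomputable def rs189 : List RP := [p346, p347]

theorem R189 : RCk Cd.ms rs189 :=
  RCk.cons h346 (RCk.cons h347 RCk.nil)

end Pool.Agent.Moser.Ck.Cr
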