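import Pool.Agent.Lib_MP_cc07e8_cd.Ds
import Pool.Agent.Lib_MP_cc07e8_ck.CkAsmDefs

/-! # MP_cc07e8_co: row checks of the explicit start, part 190 -/

namespace Pool.Agent.Moser.Ck.Cr

/-- row check 348 -/
noncomputable def p348 : RP := ⟨nat_lit 41, nat_lit 1, nat_lit 21, nat_lit 27, nat_lit 341283, nat_lit 343786, nat_lit 341291, nat_lit 0x1866922b2fca4, nat_lit 0x189462460389f, nat_lit 0x80000000000000000, nat_lit 0x3, nat_lit 69, nat_lit 269005, nat_lit 268368, nat_lit 269008, [nat_lit 0x28236e0000100280], nat_lit 268353, nat_lit 268353, []⟩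

set_option maxRecDepth 100000 in
theorem h348 : rchk Cd.ms p348 = true := by
  decide +kernel

/-- row check 349 -/
noncomputable def p349 : RP := ⟨nat_lit 41, nat_lit 1, nat_lit 21, nat_lit 27, nat_lit 343715, nat_lit 346184, nat_lit 343739, nat_lit 0x183b4d203f6b3, nat_lit 0x1867dc7e6627d, nat_lit 0x80000000000000000, nat_lit 0x3, nat_lit 40, nat_lit 269629, nat_lit 269008, nat_lit 269632, [nat_lit 0x2717f10000100270], nat_lit 268993, nat_lit 268993, []⟩

set_option maxRecDepth 100000 in
theorem h349 : rchk Cd.ms p349 = true := by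
  decide +kernel

/-- the row checks of this file -/
noncomputable def rs190 : List RP := [p348, p349]

theorem R190 : RCk Cd.ms rs190 :=
  RCk.cons h348 (RCk.cons h349 RCk.nil)

end Pool.Agent.Moser.Ck.Cr
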