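import Pool.Agent.Lib_MP_cc07e8_cd.Ds
import Pool.Agent.Lib_MP_cc07e8_ck.CkAsmDefs

/-! # MP_cc07e8_co: row checks of the explicit start, part 191 -/

namespace Pool.Agent.Moser.Ck.Cr

/-- row check 350 -/
noncomputable def p350 : RP := ⟨nat_lit 41, nat_lit 1, nat_lit 21, nat_lit 27, nat_lit 346137, nat_lit 348593, nat_lit 346137, nat_lit 0x18106eb89b6fa, nat_lit 0x183c24c1f8a05, nat_lit 0x80000000000000000, nat_lit 0x3, nat_lit 47, nat_lit 270253, nat_lit 269632, nat_lit 270256, [nat_lit 0x2795310000100270], nat_lit 269617, nat_lit 269617, []⟩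

set_option maxRecDepth 100000 in
theorem h350 : rchk Cd.ms p350 = true := by
  decide +kernel

/-- row check 351 -/
noncomputable def p351 : RP := ⟨nat_lit 41, nat_lit 2, nat_lit 21, nat_lit 27, nat_lit 348545, nat_lit 351013, nat_lit 348545, nat_lit 0x17e5f5df68e2a, nat_lit 0x181147e871960, nat_lit 0x80000000000000000, nat_lit 0x3, nat_lit 43, nat_lit 270877, nat_lit 270256, nat_lit 270880, [nat_lit 0x2730f00000100270], nat_lit 270241, nat_lit 270241, []⟩

set_option maxRecDepth 100000 in
theorem h351 : rchk Cd.ms p351 = true := by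
  decide +kernel

/-- the row checks of this file -/
noncomputable def rs191 : List RP := [p350, p351]

theorem R191 : RCk Cd.ms rs191 :=
  RCk.cons h350 (RCk.cons h351 RCk.nil)

end Pool.Agent.Moser.Ck.Cr
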