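import Pool.Agent.Lib_MP_cc07e8_cd.Ds
import Pool.Agent.Lib_MP_cc07e8_ck.CkAsmDefs

/-! # MP_cc07e8_co: row checks of the explicit start, part 192 -/

namespace Pool.Agent.Moser.Ck.Cr

/-- row check 352 -/
noncomputable def p352 : RP := ⟨nat_lit 42, nat_lit 1, nat_lit 21, nat_lit 27, nat_lit 350962, nat_lit 353445, nat_lit 350965, nat_lit 0x17bbdd1beaaaf, nat_lit 0x17e6d976ec7ce, nat_lit 0x80000000000000000, nat_lit 0x3, nat_lit 60, nat_lit 271501, nat_lit 270880, nat_lit 271504, [nat_lit 0x2782e90000100270], nat_lit 270865, nat_lit 270865, []⟩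

set_option maxRecDepth 100000 in
theorem h352 : rchk Cd.ms p352 = true := by
  decide +kernel

/-- row check 353 -/
noncomputable def p353 : RP := ⟨nat_lit 42, nat_lit 1, nat_lit 21, nat_lit 27, nat_lit 353390, nat_lit 355887, nat_lit 353397, nat_lit 0x17922c3b48086, nat_lit 0x17bccf300aa3e, nat_lit 0x80000000000000000, nat_lit 0x3, nat_lit 41, nat_lit 272125, nat_lit 271504, nat_lit 272128, [nat_lit 0x26cfa90000100270], nat_lit 271489, nat_lit 271489, []⟩

set_option maxRecDepth 100000 in
theorem h353 : rchk Cd.ms p353 = true := by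
  decide +kernel

/-- the row checks of this file -/
noncomputable def rs192 : List RP := [p352, p353]

theorem R192 : RCk Cd.ms rs192 :=
  RCk.cons h352 (RCk.cons h353 RCk.nil)

end Pool.Agent.Moser.Ck.Cr
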