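import Pool.Agent.Lib_MP_cc07e8_cd.Ds
import Pool.Agent.Lib_MP_cc07e8_ck.CkAsmDefs

/-! # MP_cc07e8_co: row checks of the explicit start, part 193 -/

namespace Pool.Agent.Moser.Ck.Cr

/-- row check 354 -/
noncomputable def p354 : RP := ⟨nat_lit 42, nat_lit 1, nat_lit 21, nat_lit 27, nat_lit 355831, nat_lit 358341, nat_lit 355839, nat_lit 0x1768d9727d53e, nat_lit 0x17931f57510c7, nat_lit 0x80000000000000000, nat_lit 0x3, nat_lit 32, nat_lit 272749, nat_lit 272128, nat_lit 272752, [nat_lit 0x26e72b0000100270], nat_lit 272113, nat_lit 272113, []⟩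

set_option maxRecDepth 100000 in
theorem h354 : rchk Cd.ms p354 = true := by
  decide +kernel

/-- row check 355 -/
noncomputable def p355 : RP := ⟨nat_lit 42, nat_lit 1, nat_lit 21, nat_lit 27, nat_lit 358293, nat_lit 360806, nat_lit 358293, nat_lit 0x173fe81d5889d, nat_lit 0x1769a6fa4b157, nat_lit 0x80000000000000000, nat_lit 0x3, nat_lit 52, nat_lit 273373, nat_lit 272752, nat_lit 273376, [nat_lit 0x2730e30000100270], nat_lit 272737, nat_lit 272737, []⟩

set_option maxRecDepth 100000 in
theorem h355 : rchk Cd.ms p355 = true := by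
  decide +kernel

/-- the row checks of this file -/
noncomputable def rs193 : List RP := [p354, p355]

theorem R193 : RCk Cd.ms rs193 :=
  RCk.cons h354 (RCk.cons h355 RCk.nil)

end Pool.Agent.Moser.Ck.Cr
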