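import Pool.Agent.Lib_MP_cc07e8_cd.Ds
import Pool.Agent.Lib_MP_cc07e8_ck.CkAsmDefs

/-! # MP_cc07e8_co: row checks of the explicit start, part 194 -/

namespace Pool.Agent.Moser.Ck.Cr

/-- row check 356 -/
noncomputable def p356 : RP := ⟨nat_lit 42, nat_lit 1, nat_lit 21, nat_lit 27, nat_lit 360718, nat_lit 363219, nat_lit 360758, nat_lit 0x17185daee6842, nat_lit 0x17415bd492827, nat_lit 0x80000000000000000, nat_lit 0x3, nat_lit 74, nat_lit 273981, nat_lit 273376, nat_lit 273984, [nat_lit 0x27885b0000100260], nat_lit 273361, nat_lit 273361, []⟩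

set_option maxRecDepth 100000 in
theorem h356 : rchk Cd.ms p356 = true := by
  decide +kernel

/-- row check 357 -/
noncomputable def p357 : RP := ⟨nat_lit 42, nat_lit 2, nat_lit 21, nat_lit 27, nat_lit 363148, nat_lit 365642, nat_lit 363170, nat_lit 0x16f12fbca1401, nat_lit 0x1719859ab5261, nat_lit 0x80000000000000000, nat_lit 0x3, nat_lit 55, nat_lit 274589, nat_lit 273984, nat_lit 274592, [nat_lit 0x26ae300000100260], nat_lit 273969, nat_lit 273969, []⟩

set_option maxRecDepth 100000 in
theorem h357 : rchk Cd.ms p357 = true := by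
  decide +kernel

/-- the row checks of this file -/
noncomputable def rs194 : List RP := [p356, p357]

theorem R194 : RCk Cd.ms rs194 :=
  RCk.cons h356 (RCk.cons h357 RCk.nil)

end Pool.Agent.Moser.Ck.Cr
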