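import Pool.Agent.Lib_MP_cc07e8_cd.Ds
import Pool.Agent.Lib_MP_cc07e8_ck.CkAsmDefs

/-! # MP_cc07e8_co: row checks of the explicit start, part 195 -/

namespace Pool.Agent.Moser.Ck.Cr

/-- row check 358 -/
noncomputable def p358 : RP := ⟨nat_lit 43, nat_lit 1, nat_lit 21, nat_lit 27, nat_lit 365585, nat_lit 368141, nat_lit 365593, nat_lit 0x16c9517ee83e5, nat_lit 0x16f21a28ebcaf, nat_lit 0x80000000000000000, nat_lit 0x3, nat_lit 50, nat_lit 275213, nat_lit 274592, nat_lit 275216, [nat_lit 0x26b7730000100270], nat_lit 274577, nat_lit 274577, []⟩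

set_option maxRecDepth 100000 in
theorem h358 : rchk Cd.ms p358 = true := by
  decide +kernel

/-- row check 359 -/
noncomputable def p359 : RP := ⟨nat_lit 43, nat_lit 1, nat_lit 21, nat_lit 27, nat_lit 368070, nat_lit 370586, nat_lit 368091, nat_lit 0x16a2d50465ca5, nat_lit 0x16ca718e5f1c6, nat_lit 0x80000000000000000, nat_lit 0x3, nat_lit 42, nat_lit 275821, nat_lit 275216, nat_lit 275824, [nat_lit 0x26534b0000100260], nat_lit 275201, nat_lit 275201, []⟩

set_option maxRecDepth 100000 in
theorem h359 : rchk Cd.ms p359 = true := by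
  decide +kernel

/-- the row checks of this file -/
noncomputable def rs195 : List RP := [p358, p359]

theorem R195 : RCk Cd.ms rs195 :=
  RCk.cons h358 (RCk.cons h359 RCk.nil)

end Pool.Agent.Moser.Ck.Cr
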