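import Pool.Agent.Lib_MP_cc07e8_cd.Ds
import Pool.Agent.Lib_MP_cc07e8_ck.CkAsmDefs

/-! # MP_cc07e8_co: row checks of the explicit start, part 196 -/

namespace Pool.Agent.Moser.Ck.Cr

/-- row check 360 -/
noncomputable def p360 : RP := ⟨nat_lit 43, nat_lit 1, nat_lit 21, nat_lit 27, nat_lit 370537, nat_lit 373042, nat_lit 370537, nat_lit 0x167cae3c6fc82, nat_lit 0x16a3993163bc6, nat_lit 0x80000000000000000, nat_lit 0x3, nat_lit 45, nat_lit 276429, nat_lit 275824, nat_lit 276432, [nat_lit 0x267b320000100260], nat_lit 275809, nat_lit 275809, []⟩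

set_option maxRecDepth 100000 in
theorem h360 : rchk Cd.ms p360 = true := by
  decide +kernel

/-- row check 361 -/
noncomputable def p361 : RP := ⟨nat_lit 43, nat_lit 1, nat_lit 21, nat_lit 27, nat_lit 372981, nat_lit 375509, nat_lit 372992, nat_lit 0x1656dc5449ab4, nat_lit 0x167d9f41dc7a5, nat_lit 0x80000000000000000, nat_lit 0x3, nat_lit 64, nat_lit 277037, nat_lit 276432, nat_lit 277040, [nat_lit 0x276fda0000100260], nat_lit 276417, nat_lit 276417, []⟩

set_option maxRecDepth 100000 in
theorem h361 : rchk Cd.ms p361 = true := by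
  decide +kernel

/-- the row checks of this file -/
noncomputable def rs196 : List RP := [p360, p361]

theorem R196 : RCk Cd.ms rs196 :=
  RCk.cons h360 (RCk.cons h361 RCk.nil)

end Pool.Agent.Moser.Ck.Cr
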