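import Pool.Agent.Lib_MP_cc07e8_cd.Ds
import Pool.Agent.Lib_MP_cc07e8_ck.CkAsmDefs

/-! # MP_cc07e8_co: row checks of the explicit start, part 197 -/

namespace Pool.Agent.Moser.Ck.Cr

/-- row check 362 -/
noncomputable def p362 : RP := ⟨nat_lit 43, nat_lit 1, nat_lit 21, nat_lit 27, nat_lit 375459, nat_lit 377987, nat_lit 375459, nat_lit 0x16315e7ae8f34, nat_lit 0x16579f4b5d13d, nat_lit 0x80000000000000000, nat_lit 0x3, nat_lit 48, nat_lit 277645, nat_lit 277040, nat_lit 277648, [nat_lit 0x25e7b60000100260], nat_lit 277025, nat_lit 277025, []⟩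

set_option maxRecDepth 100000 in
theorem h362 : rchk Cd.ms p362 = true := by
  decide +kernel

/-- row check 363 -/
noncomputable def p363 : RP := ⟨nat_lit 43, nat_lit 1, nat_lit 21, nat_lit 27, nat_lit 377937, nat_lit 380475, nat_lit 377937, nat_lit 0x160c37ad2a391, nat_lit 0x16321ee5acfa7, nat_lit 0x80000000000000000, nat_lit 0x3, nat_lit 43, nat_lit 278253, nat_lit 277648, nat_lit 278256, [nat_lit 0x2602a40000100260], nat_lit 277633, nat_lit 277633, []⟩

set_option maxRecDepth 100000 in
theorem h363 : rchk Cd.ms p363 = true := by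
  decide +kernel

/-- the row checks of this file -/
noncomputable def rs197 : List RP := [p362, p363]

theorem R197 : RCk Cd.ms rs197 :=
  RCk.cons h362 (RCk.cons h363 RCk.nil)

end Pool.Agent.Moser.Ck.Cr
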