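import Pool.Agent.Lib_MP_cc07e8_cd.Ds
import Pool.Agent.Lib_MP_cc07e8_ck.CkAsmDefs

/-! # MP_cc07e8_co: row checks of the explicit start, part 198 -/

namespace Pool.Agent.Moser.Ck.Cr

/-- row check 364 -/
noncomputable def p364 : RP := ⟨nat_lit 43, nat_lit 2, nat_lit 21, nat_lit 27, nat_lit 380419, nat_lit 382975, nat_lit 380425, nat_lit 0x15e75f785d000, nat_lit 0x160d0c609efc9, nat_lit 0x80000000000000000, nat_lit 0x3, nat_lit 41, nat_lit 278861, nat_lit 278256, nat_lit 278864, [nat_lit 0x2694440000100260], nat_lit 278241, nat_lit 278241, []⟩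

set_option maxRecDepth 100000 in
theorem h364 : rchk Cd.ms p364 = true := by
  decide +kernel

/-- row check 365 -/
noncomputable def p365 : RP := ⟨nat_lit 44, nat_lit 1, nat_lit 21, nat_lit 27, nat_lit 382924, nat_lit 385485, nat_lit 382924, nat_lit 0x15c2dc9cb8221, nat_lit 0x15e81ea814e6b, nat_lit 0x80000000000000000, nat_lit 0x3, nat_lit 58, nat_lit 279469, nat_lit 278864, nat_lit 279472, [nat_lit 0x2612420000100260], nat_lit 278849, nat_lit 278849, []⟩

set_option maxRecDepth 100000 in
theorem h365 : rchk Cd.ms p365 = true := by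
  decide +kernel

/-- the row checks of this file -/
noncomputable def rs198 : List RP := [p364, p365]

theorem R198 : RCk Cd.ms rs198 :=
  RCk.cons h364 (RCk.cons h365 RCk.nil)

end Pool.Agent.Moser.Ck.Cr
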