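import Pool.Agent.Lib_MP_cc07e8_cd.Ds
import Pool.Agent.Lib_MP_cc07e8_ck.CkAsmDefs

/-! # MP_cc07e8_co: row checks of the explicit start, part 199 -/

namespace Pool.Agent.Moser.Ck.Cr

/-- row check 366 -/
noncomputable def p366 : RP := ⟨nat_lit 44, nat_lit 1, nat_lit 21, nat_lit 27, nat_lit 385435, nat_lit 388007, nat_lit 385435, nat_lit 0x159ea6dd8daea, nat_lit 0x15c3959dc0a2a, nat_lit 0x80000000000000000, nat_lit 0x3, nat_lit 79, nat_lit 280077, nat_lit 279472, nat_lit 280080, [nat_lit 0x2641ca0000100260], nat_lit 279457, nat_lit 279457, []⟩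

set_option maxRecDepth 100000 in
theorem h366 : rchk Cd.ms p366 = true := by
  decide +kernel

/-- row check 367 -/
noncomputable def p367 : RP := ⟨nat_lit 44, nat_lit 1, nat_lit 21, nat_lit 27, nat_lit 387955, nat_lit 390472, nat_lit 387956, nat_lit 0x157bb657138ef, nat_lit 0x159f64c7024c5, nat_lit 0x80000000000000000, nat_lit 0x3, nat_lit 79, nat_lit 280669, nat_lit 280080, nat_lit 280672, [nat_lit 0x26fa890000100250], nat_lit 280065, nat_lit 280065, []⟩

set_option maxRecDepth 100000 in
theorem h367 : rchk Cd.ms p367 = true := by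
  decide +kernel

/-- the row checks of this file -/
noncomputable def rs199 : List RP := [p366, p367]

theorem R199 : RCk Cd.ms rs199 :=
  RCk.cons h366 (RCk.cons h367 RCk.nil)

end Pool.Agent.Moser.Ck.Cr
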