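import Pool.Agent.Lib_MP_cc07e8_cd.Ds
import Pool.Agent.Lib_MP_cc07e8_ck.CkAsmDefs

/-! # MP_cc07e8_co: row checks of the explicit start, part 200 -/

namespace Pool.Agent.Moser.Ck.Cr

/-- row check 368 -/
noncomputable def p368 : RP := ⟨nat_lit 44, nat_lit 1, nat_lit 21, nat_lit 27, nat_lit 390415, nat_lit 392948, nat_lit 390421, nat_lit 0x15590edf42f45, nat_lit 0x157c83e52fc54, nat_lit 0x80000000000000000, nat_lit 0x3, nat_lit 53, nat_lit 281261, nat_lit 280672, nat_lit 281264, [nat_lit 0x25c5f30000100250], nat_lit 280657, nat_lit 280657, []⟩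

set_option maxRecDepth 100000 in
theorem h368 : rchk Cd.ms p368 = true := by
  decide +kernel

/-- row check 369 -/
noncomputable def p369 : RP := ⟨nat_lit 44, nat_lit 1, nat_lit 21, nat_lit 27, nat_lit 392886, nat_lit 395435, nat_lit 392897, nat_lit 0x1536afd451c53, nat_lit 0x1559eba6f6343, nat_lit 0x80000000000000000, nat_lit 0x3, nat_lit 67, nat_lit 281853, nat_lit 281264, nat_lit 281856, [nat_lit 0x25d04b0000100250], nat_lit 281249, nat_lit 281249, []⟩

set_option maxRecDepth 100000 in
theorem h369 : rchk Cd.ms p369 = true := by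
  decide +kernel

/-- the row checks of this file -/
noncomputable def rs200 : List RP := [p368, p369]

theorem R200 : RCk Cd.ms rs200 :=
  RCk.cons h368 (RCk.cons h369 RCk.nil)

end Pool.Agent.Moser.Ck.Cr
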