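import Pool.Agent.Lib_MP_cc07e8_cd.Ds
import Pool.Agent.Lib_MP_cc07e8_ck.CkAsmDefs

/-! # MP_cc07e8_co: row checks of the explicit start, part 201 -/

namespace Pool.Agent.Moser.Ck.Cr

/-- row check 370 -/
noncomputable def p370 : RP := ⟨nat_lit 44, nat_lit 1, nat_lit 21, nat_lit 27, nat_lit 395364, nat_lit 397932, nat_lit 395383, nat_lit 0x15149c0e31c09, nat_lit 0x1537a97e4eb34, nat_lit 0x80000000000000000, nat_lit 0x3, nat_lit 35, nat_lit 282445, nat_lit 281856, nat_lit 282448, [nat_lit 0x2541a20000100250], nat_lit 281841, nat_lit 281841, []⟩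

set_option maxRecDepth 100000 in
theorem h370 : rchk Cd.ms p370 = true := by
  decide +kernel

/-- row check 371 -/
noncomputable def p371 : RP := ⟨nat_lit 44, nat_lit 2, nat_lit 21, nat_lit 27, nat_lit 397880, nat_lit 400439, nat_lit 397880, nat_lit 0x14f2d2cbbced6, nat_lit 0x1515509c8f479, nat_lit 0x80000000000000000, nat_lit 0x3, nat_lit 49, nat_lit 283037, nat_lit 282448, nat_lit 283040, [nat_lit 0x2572a30000100250], nat_lit 282433, nat_lit 282433, []⟩

set_option maxRecDepth 100000 in
theorem h371 : rchk Cd.ms p371 = true := by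
  decide +kernel

/-- the row checks of this file -/
noncomputable def rs201 : List RP := [p370, p371]

theorem R201 : RCk Cd.ms rs201 :=
  RCk.cons h370 (RCk.cons h371 RCk.nil)

end Pool.Agent.Moser.Ck.Cr
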