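import Pool.Agent.Lib_MP_cc07e8_cd.Ds
import Pool.Agent.Lib_MP_cc07e8_ck.CkAsmDefs

/-! # MP_cc07e8_co: row checks of the explicit start, part 202 -/

namespace Pool.Agent.Moser.Ck.Cr

/-- row check 372 -/
noncomputable def p372 : RP := ⟨nat_lit 45, nat_lit 1, nat_lit 21, nat_lit 27, nat_lit 400372, nat_lit 402957, nat_lit 400387, nat_lit 0x14d14feb02734, nat_lit 0x14f3b88a41397, nat_lit 0x80000000000000000, nat_lit 0x3, nat_lit 43, nat_lit 283629, nat_lit 283040, nat_lit 283632, [nat_lit 0x25409b0000100250], nat_lit 283025, nat_lit 283025, []⟩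

set_option maxRecDepth 100000 in
theorem h372 : rchk Cd.ms p372 = true := by
  decide +kernel

/-- row check 373 -/
noncomputable def p373 : RP := ⟨nat_lit 45, nat_lit 1, nat_lit 21, nat_lit 27, nat_lit 402879, nat_lit 405417, nat_lit 402905, nat_lit 0x14b0f98effef5, nat_lit 0x14d2580e5eed2, nat_lit 0x80000000000000000, nat_lit 0x4, nat_lit 43, nat_lit 284205, nat_lit 283632, nat_lit 284208, [nat_lit 0x255ba70000100240], nat_lit 283617, nat_lit 283617, []⟩

set_option maxRecDepth 100000 in
theorem h373 : rchk Cd.ms p373 = true := by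
  decide +kernel

/-- the row checks of this file -/
noncomputable def rs202 : List RP := [p372, p373]

theorem R202 : RCk Cd.ms rs202 :=
  RCk.cons h372 (RCk.cons h373 RCk.nil)

end Pool.Agent.Moser.Ck.Cr
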