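import Pool.Agent.Lib_MP_cc07e8_cd.Ds
import Pool.Agent.Lib_MP_cc07e8_ck.CkAsmDefs

/-! # MP_cc07e8_co: row checks of the explicit start, part 203 -/

namespace Pool.Agent.Moser.Ck.Cr

/-- row check 374 -/
noncomputable def p374 : RP := ⟨nat_lit 45, nat_lit 1, nat_lit 21, nat_lit 27, nat_lit 405360, nat_lit 407956, nat_lit 405365, nat_lit 0x1490020c58343, nat_lit 0x14b1b83cb55b7, nat_lit 0x80000000000000000, nat_lit 0x4, nat_lit 58, nat_lit 284797, nat_lit 284208, nat_lit 284800, [nat_lit 0x2624450000100250], nat_lit 284193, nat_lit 284193, []⟩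

set_option maxRecDepth 100000 in
theorem h374 : rchk Cd.ms p374 = true := by
  decide +kernel

/-- row check 375 -/
noncomputable def p375 : RP := ⟨nat_lit 45, nat_lit 1, nat_lit 21, nat_lit 27, nat_lit 407896, nat_lit 410505, nat_lit 407903, nat_lit 0x146f5250523f8, nat_lit 0x1490c845ee510, nat_lit 0x80000000000000000, nat_lit 0x4, nat_lit 62, nat_lit 285389, nat_lit 284800, nat_lit 285392, [nat_lit 0x2534150000100250], nat_lit 284785, nat_lit 284785, []⟩

set_option maxRecDepth 100000 in
theorem h375 : rchk Cd.ms p375 = true := by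
  decide +kernel

/-- the row checks of this file -/
noncomputable def rs203 : List RP := [p374, p375]

theorem R203 : RCk Cd.ms rs203 :=
  RCk.cons h374 (RCk.cons h375 RCk.nil)

end Pool.Agent.Moser.Ck.Cr
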