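import Pool.Agent.Lib_MP_cc07e8_cd.Ds
import Pool.Agent.Lib_MP_cc07e8_ck.CkAsmDefs

/-! # MP_cc07e8_co: row checks of the explicit start, part 204 -/

namespace Pool.Agent.Moser.Ck.Cr

/-- row check 376 -/
noncomputable def p376 : RP := ⟨nat_lit 45, nat_lit 1, nat_lit 21, nat_lit 27, nat_lit 410452, nat_lit 413065, nat_lit 410452, nat_lit 0x144ee6697e6b8, nat_lit 0x146fff3dd8073, nat_lit 0x80000000000000000, nat_lit 0x4, nat_lit 59, nat_lit 285981, nat_lit 285392, nat_lit 285984, [nat_lit 0x26ecec0000100250], nat_lit 285377, nat_lit 285377, []⟩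

set_option maxRecDepth 100000 in
theorem h376 : rchk Cd.ms p376 = true := by
  decide +kernel

/-- row check 377 -/
noncomputable def p377 : RP := ⟨nat_lit 45, nat_lit 1, nat_lit 21, nat_lit 27, nat_lit 413011, nat_lit 415636, nat_lit 413012, nat_lit 0x142ebdbfb151c, nat_lit 0x144f946d03c11, nat_lit 0x80000000000000000, nat_lit 0x4, nat_lit 79, nat_lit 286573, nat_lit 285984, nat_lit 286576, [nat_lit 0x25a4990000100250], nat_lit 285969, nat_lit 285969, []⟩

set_option maxRecDepth 100000 in
theorem h377 : rchk Cd.ms p377 = true := by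
  decide +kernel

/-- the row checks of this file -/
noncomputable def rs204 : List RP := [p376, p377]

theorem R204 : RCk Cd.ms rs204 :=
  RCk.cons h376 (RCk.cons h377 RCk.nil)

end Pool.Agent.Moser.Ck.Cr
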