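import Pool.Agent.Lib_MP_cc07e8_cd.Ds
import Pool.Agent.Lib_MP_cc07e8_ck.CkAsmDefs

/-! # MP_cc07e8_co: row checks of the explicit start, part 205 -/

namespace Pool.Agent.Moser.Ck.Cr

/-- row check 378 -/
noncomputable def p378 : RP := ⟨nat_lit 45, nat_lit 2, nat_lit 21, nat_lit 27, nat_lit 415574, nat_lit 418147, nat_lit 415582, nat_lit 0x140fb6ef441c5, nat_lit 0x142f8314f90d7, nat_lit 0x80000000000000000, nat_lit 0x4, nat_lit 47, nat_lit 287149, nat_lit 286576, nat_lit 287152, [nat_lit 0x2619cb0000100240], nat_lit 286561, nat_lit 286561, []⟩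

set_option maxRecDepth 100000 in
theorem h378 : rchk Cd.ms p378 = true := by
  decide +kernel

/-- row check 379 -/
noncomputable def p379 : RP := ⟨nat_lit 46, nat_lit 1, nat_lit 21, nat_lit 27, nat_lit 418072, nat_lit 420668, nat_lit 418093, nat_lit 0x13f0efe0cd90b, nat_lit 0x1410a2caf8c8c, nat_lit 0x80000000000000000, nat_lit 0x4, nat_lit 43, nat_lit 287725, nat_lit 287152, nat_lit 287728, [nat_lit 0x24ac210000100240], nat_lit 287137, nat_lit 287137, []⟩

set_option maxRecDepth 100000 in
theorem h379 : rchk Cd.ms p379 = true := by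
  decide +kernel

/-- the row checks of this file -/
noncomputable def rs205 : List RP := [p378, p379]

theorem R205 : RCk Cd.ms rs205 :=
  RCk.cons h378 (RCk.cons h379 RCk.nil)

end Pool.Agent.Moser.Ck.Cr
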