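import Pool.Agent.Lib_MP_cc07e8_cd.Ds
import Pool.Agent.Lib_MP_cc07e8_ck.CkAsmDefs

/-! # MP_cc07e8_co: row checks of the explicit start, part 206 -/

namespace Pool.Agent.Moser.Ck.Cr

/-- row check 380 -/
noncomputable def p380 : RP := ⟨nat_lit 46, nat_lit 1, nat_lit 21, nat_lit 27, nat_lit 420603, nat_lit 423200, nat_lit 420615, nat_lit 0x13d264edc8e8c, nat_lit 0x13f1b9d746758, nat_lit 0x80000000000000000, nat_lit 0x4, nat_lit 68, nat_lit 288301, nat_lit 287728, nat_lit 288304, [nat_lit 0x24db3b0000100240], nat_lit 287713, nat_lit 287713, []⟩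

set_option maxRecDepth 100000 in
theorem h380 : rchk Cd.ms p380 = true := by
  decide +kernel

/-- row check 381 -/
noncomputable def p381 : RP := ⟨nat_lit 46, nat_lit 1, nat_lit 21, nat_lit 27, nat_lit 423140, nat_lit 425741, nat_lit 423146, nat_lit 0x13b41bafbc475, nat_lit 0x13d31d212bc54, nat_lit 0x80000000000000000, nat_lit 0x4, nat_lit 51, nat_lit 288877, nat_lit 288304, nat_lit 288880, [nat_lit 0x243e160000100240], nat_lit 288289, nat_lit 288289, []⟩

set_option maxRecDepth 100000 in
theorem h381 : rchk Cd.ms p381 = true := by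
  decide +kernel

/-- the row checks of this file -/
noncomputable def rs206 : List RP := [p380, p381]

theorem R206 : RCk Cd.ms rs206 :=
  RCk.cons h380 (RCk.cons h381 RCk.nil)

end Pool.Agent.Moser.Ck.Cr
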