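import Pool.Agent.Lib_MP_cc07e8_cd.Ds
import Pool.Agent.Lib_MP_cc07e8_ck.CkAsmDefs

/-! # MP_cc07e8_co: row checks of the explicit start, part 207 -/

namespace Pool.Agent.Moser.Ck.Cr

/-- row check 382 -/
noncomputable def p382 : RP := ⟨nat_lit 46, nat_lit 1, nat_lit 21, nat_lit 27, nat_lit 425682, nat_lit 428293, nat_lit 425687, nat_lit 0x13960d79ea5db, nat_lit 0x13b4cea933040, nat_lit 0x80000000000000000, nat_lit 0x4, nat_lit 46, nat_lit 289453, nat_lit 288880, nat_lit 289456, [nat_lit 0x250ea10000100240], nat_lit 288865, nat_lit 288865, []⟩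

set_option maxRecDepth 100000 in
theorem h382 : rchk Cd.ms p382 = true := by
  decide +kernel

/-- row check 383 -/
noncomputable def p383 : RP := ⟨nat_lit 46, nat_lit 1, nat_lit 21, nat_lit 27, nat_lit 428239, nat_lit 430855, nat_lit 428239, nat_lit 0x13783cccca5dc, nat_lit 0x1396af55c6ae9, nat_lit 0x80000000000000000, nat_lit 0x4, nat_lit 65, nat_lit 290029, nat_lit 289456, nat_lit 290032, [nat_lit 0x2489f00000100240], nat_lit 289441, nat_lit 289441, []⟩

set_option maxRecDepth 100000 in
theorem h383 : rchk Cd.ms p383 = true := by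
  decide +kernel

/-- the row checks of this file -/
noncomputable def rs207 : List RP := [p382, p383]

theorem R207 : RCk Cd.ms rs207 :=
  RCk.cons h382 (RCk.cons h383 RCk.nil)

end Pool.Agent.Moser.Ck.Cr
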