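import Pool.Agent.Lib_MP_cc07e8_cd.Ds
import Pool.Agent.Lib_MP_cc07e8_ck.CkAsmDefs

/-! # MP_cc07e8_co: row checks of the explicit start, part 208 -/

namespace Pool.Agent.Moser.Ck.Cr

/-- row check 384 -/
noncomputable def p384 : RP := ⟨nat_lit 46, nat_lit 2, nat_lit 21, nat_lit 27, nat_lit 430800, nat_lit 433356, nat_lit 430800, nat_lit 0x135b78e7bd53b, nat_lit 0x1378dfb3a1f2a, nat_lit 0x80000000000000000, nat_lit 0x4, nat_lit 65, nat_lit 290589, nat_lit 290032, nat_lit 290592, [nat_lit 0x2427560000100230], nat_lit 290017, nat_lit 290017, []⟩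

set_option maxRecDepth 100000 in
theorem h384 : rchk Cd.ms p384 = true := by
  decide +kernel

/-- row check 385 -/
noncomputable def p385 : RP := ⟨nat_lit 47, nat_lit 1, nat_lit 21, nat_lit 27, nat_lit 433293, nat_lit 435866, nat_lit 433301, nat_lit 0x133eef79d2fbf, nat_lit 0x135c315b82357, nat_lit 0x80000000000000000, nat_lit 0x4, nat_lit 55, nat_lit 291149, nat_lit 290592, nat_lit 291152, [nat_lit 0x23d46e0000100230], nat_lit 290577, nat_lit 290577, []⟩

set_option maxRecDepth 100000 in
theorem h385 : rchk Cd.ms p385 = true := by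
  decide +kernel

/-- the row checks of this file -/
noncomputable def rs208 : List RP := [p384, p385]

theorem R208 : RCk Cd.ms rs208 :=
  RCk.cons h384 (RCk.cons h385 RCk.nil)

end Pool.Agent.Moser.Ck.Cr
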