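import Pool.Agent.Lib_MP_cc07e8_cd.Ds
import Pool.Agent.Lib_MP_cc07e8_ck.CkAsmDefs

/-! # MP_cc07e8_co: row checks of the explicit start, part 209 -/

namespace Pool.Agent.Moser.Ck.Cr

/-- row check 386 -/
noncomputable def p386 : RP := ⟨nat_lit 47, nat_lit 1, nat_lit 21, nat_lit 27, nat_lit 435809, nat_lit 438458, nat_lit 435811, nat_lit 0x1321cf2afcd32, nat_lit 0x133f947139055, nat_lit 0x80000000000000000, nat_lit 0x4, nat_lit 84, nat_lit 291725, nat_lit 291152, nat_lit 291728, [nat_lit 0x24b8570000100240], nat_lit 291137, nat_lit 291137, []⟩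

set_option maxRecDepth 100000 in
theorem h386 : rchk Cd.ms p386 = true := by
  decide +kernel

/-- row check 387 -/
noncomputable def p387 : RP := ⟨nat_lit 47, nat_lit 1, nat_lit 21, nat_lit 27, nat_lit 438383, nat_lit 440988, nat_lit 438403, nat_lit 0x1305b5bec5fbb, nat_lit 0x1322a5adc805b, nat_lit 0x80000000000000000, nat_lit 0x4, nat_lit 84, nat_lit 292285, nat_lit 291728, nat_lit 292288, [nat_lit 0x23febb0000100230], nat_lit 291713, nat_lit 291713, []⟩

set_option maxRecDepth 100000 in
theorem h387 : rchk Cd.ms p387 = true := by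
  decide +kernel

/-- the row checks of this file -/
noncomputable def rs209 : List RP := [p386, p387]

theorem R209 : RCk Cd.ms rs209 :=
  RCk.cons h386 (RCk.cons h387 RCk.nil)

end Pool.Agent.Moser.Ck.Cr
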