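import Pool.Agent.Lib_MP_cc07e8_cd.Ds
import Pool.Agent.Lib_MP_cc07e8_ck.CkAsmDefs

/-! # MP_cc07e8_co: row checks of the explicit start, part 210 -/

namespace Pool.Agent.Moser.Ck.Cr

/-- row check 388 -/
noncomputable def p388 : RP := ⟨nat_lit 47, nat_lit 1, nat_lit 21, nat_lit 27, nat_lit 440917, nat_lit 443527, nat_lit 440932, nat_lit 0x12e9d53cfa366, nat_lit 0x13067e7d79102, nat_lit 0x80000000000000000, nat_lit 0x4, nat_lit 47, nat_lit 292845, nat_lit 292288, nat_lit 292848, [nat_lit 0x23e8c20000100230], nat_lit 292273, nat_lit 292273, []⟩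

set_option maxRecDepth 100000 in
theorem h388 : rchk Cd.ms p388 = true := by
  decide +kernel

/-- row check 389 -/
noncomputable def p389 : RP := ⟨nat_lit 47, nat_lit 1, nat_lit 21, nat_lit 27, nat_lit 443472, nat_lit 446077, nat_lit 443472, nat_lit 0x12ce2794d1e78, nat_lit 0x12ea6ef6bc6fe, nat_lit 0x80000000000000000, nat_lit 0x4, nat_lit 45, nat_lit 293405, nat_lit 292848, nat_lit 293408, [nat_lit 0x23e2640000100230], nat_lit 292833, nat_lit 292833, []⟩

set_option maxRecDepth 100000 in
theorem h389 : rchk Cd.ms p389 = true := by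
  decide +kernel

/-- the row checks of this file -/
noncomputable def rs210 : List RP := [p388, p389]

theorem R210 : RCk Cd.ms rs210 :=
  RCk.cons h388 (RCk.cons h389 RCk.nil)

end Pool.Agent.Moser.Ck.Cr
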