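import Pool.Agent.Lib_MP_cc07e8_cd.Ds
import Pool.Agent.Lib_MP_cc07e8_ck.CkAsmDefs

/-! # MP_cc07e8_co: row checks of the explicit start, part 211 -/

namespace Pool.Agent.Moser.Ck.Cr

/-- row check 390 -/
noncomputable def p390 : RP := ⟨nat_lit 47, nat_lit 1, nat_lit 21, nat_lit 27, nat_lit 446021, nat_lit 448636, nat_lit 446021, nat_lit 0x12b2b1e43691c, nat_lit 0x12cec2515c017, nat_lit 0x80000000000000000, nat_lit 0x4, nat_lit 72, nat_lit 293965, nat_lit 293408, nat_lit 293968, [nat_lit 0x23a13c0000100230], nat_lit 293393, nat_lit 293393, []⟩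

set_option maxRecDepth 100000 in
theorem h390 : rchk Cd.ms p390 = true := by
  decide +kernel

/-- row check 391 -/
noncomputable def p391 : RP := ⟨nat_lit 47, nat_lit 1, nat_lit 21, nat_lit 27, nat_lit 448570, nat_lit 451204, nat_lit 448580, nat_lit 0x129773a311b69, nat_lit 0x12b3663057d30, nat_lit 0x80000000000000000, nat_lit 0x4, nat_lit 35, nat_lit 294525, nat_lit 293968, nat_lit 294528, [nat_lit 0x231e3d0000100230], nat_lit 293953, nat_lit 293953, []⟩

set_option maxRecDepth 100000 in
theorem h391 : rchk Cd.ms p391 = true := by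
  decide +kernel

/-- the row checks of this file -/
noncomputable def rs211 : List RP := [p390, p391]

theorem R211 : RCk Cd.ms rs211 :=
  RCk.cons h390 (RCk.cons h391 RCk.nil)

end Pool.Agent.Moser.Ck.Cr
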