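import Pool.Agent.Lib_MP_cc07e8_cd.Ds
import Pool.Agent.Lib_MP_cc07e8_ck.CkAsmDefs

/-! # MP_cc07e8_co: row checks of the explicit start, part 212 -/

namespace Pool.Agent.Moser.Ck.Cr

/-- row check 392 -/
noncomputable def p392 : RP := ⟨nat_lit 47, nat_lit 2, nat_lit 21, nat_lit 27, nat_lit 451148, nat_lit 453783, nat_lit 451148, nat_lit 0x127c66f3c27cd, nat_lit 0x12980ae0705cc, nat_lit 0x80000000000000000, nat_lit 0x4, nat_lit 65, nat_lit 295085, nat_lit 294528, nat_lit 295088, [nat_lit 0x244dd40000100230], nat_lit 294513, nat_lit 294513, []⟩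

set_option maxRecDepth 100000 in
theorem h392 : rchk Cd.ms p392 = true := by
  decide +kernel

/-- row check 393 -/
noncomputable def p393 : RP := ⟨nat_lit 48, nat_lit 1, nat_lit 21, nat_lit 27, nat_lit 453727, nat_lit 456371, nat_lit 453727, nat_lit 0x126190c6ca6a5, nat_lit 0x127cfc7a43fdc, nat_lit 0x80000000000000000, nat_lit 0x4, nat_lit 41, nat_lit 295645, nat_lit 295088, nat_lit 295648, [nat_lit 0x2316720000100230], nat_lit 295073, nat_lit 295073, []⟩

set_option maxRecDepth 100000 in
theorem h393 : rchk Cd.ms p393 = true := by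
  decide +kernel

/-- the row checks of this file -/
noncomputable def rs212 : List RP := [p392, p393]

theorem R212 : RCk Cd.ms rs212 :=
  RCk.cons h392 (RCk.cons h393 RCk.nil)

end Pool.Agent.Moser.Ck.Cr
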