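import Pool.Agent.Lib_MP_cc07e8_cd.Ds
import Pool.Agent.Lib_MP_cc07e8_ck.CkAsmDefs

/-! # MP_cc07e8_co: row checks of the explicit start, part 213 -/

namespace Pool.Agent.Moser.Ck.Cr

/-- row check 394 -/
noncomputable def p394 : RP := ⟨nat_lit 48, nat_lit 1, nat_lit 21, nat_lit 27, nat_lit 456304, nat_lit 458970, nat_lit 456315, nat_lit 0x1246eb5f5dd3b, nat_lit 0x126241a766f81, nat_lit 0x80000000000000000, nat_lit 0x4, nat_lit 62, nat_lit 296205, nat_lit 295648, nat_lit 296208, [nat_lit 0x238a520000100230], nat_lit 295633, nat_lit 295633, []⟩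

set_option maxRecDepth 100000 in
theorem h394 : rchk Cd.ms p394 = true := by
  decide +kernel

/-- row check 395 -/
noncomputable def p395 : RP := ⟨nat_lit 48, nat_lit 1, nat_lit 21, nat_lit 27, nat_lit 458907, nat_lit 461578, nat_lit 458913, nat_lit 0x122c7b9090e01, nat_lit 0x12478fcf6b0f2, nat_lit 0x80000000000000000, nat_lit 0x4, nat_lit 53, nat_lit 296765, nat_lit 296208, nat_lit 296768, [nat_lit 0x23df5e0000100230], nat_lit 296193, nat_lit 296193, []⟩

set_option maxRecDepth 100000 in
theorem h395 : rchk Cd.ms p395 = true := by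
  decide +kernel

/-- the row checks of this file -/
noncomputable def rs213 : List RP := [p394, p395]

theorem R213 : RCk Cd.ms rs213 :=
  RCk.cons h394 (RCk.cons h395 RCk.nil)

end Pool.Agent.Moser.Ck.Cr
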