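import Pool.Agent.Lib_MP_cc07e8_cd.Ds
import Pool.Agent.Lib_MP_cc07e8_ck.CkAsmDefs

/-! # MP_cc07e8_co: row checks of the explicit start, part 214 -/

namespace Pool.Agent.Moser.Ck.Cr

/-- row check 396 -/
noncomputable def p396 : RP := ⟨nat_lit 48, nat_lit 1, nat_lit 21, nat_lit 27, nat_lit 461521, nat_lit 464196, nat_lit 461521, nat_lit 0x12123e4ac298d, nat_lit 0x122d0ea9c5624, nat_lit 0x80000000000000000, nat_lit 0x4, nat_lit 59, nat_lit 297325, nat_lit 296768, nat_lit 297328, [nat_lit 0x245bbf0000100230], nat_lit 296753, nat_lit 296753, []⟩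

set_option maxRecDepth 100000 in
theorem h396 : rchk Cd.ms p396 = true := by
  decide +kernel

/-- row check 397 -/
noncomputable def p397 : RP := ⟨nat_lit 48, nat_lit 1, nat_lit 21, nat_lit 27, nat_lit 464138, nat_lit 466823, nat_lit 464138, nat_lit 0x11f835a89cbaa, nat_lit 0x1212d249ad69e, nat_lit 0x80000000000000000, nat_lit 0x5, nat_lit 56, nat_lit 297885, nat_lit 297328, nat_lit 297888, [nat_lit 0x236a750000100230], nat_lit 297313, nat_lit 297313, []⟩

set_option maxRecDepth 100000 in
theorem h397 : rchk Cd.ms p397 = true := by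
  decide +kernel

/-- the row checks of this file -/
noncomputable def rs214 : List RP := [p396, p397]

theorem R214 : RCk Cd.ms rs214 :=
  RCk.cons h396 (RCk.cons h397 RCk.nil)

end Pool.Agent.Moser.Ck.Cr
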