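import Pool.Agent.Lib_MP_cc07e8_cd.Ds
import Pool.Agent.Lib_MP_cc07e8_ck.CkAsmDefs

/-! # MP_cc07e8_co: row checks of the explicit start, part 215 -/

namespace Pool.Agent.Moser.Ck.Cr

/-- row check 398 -/
noncomputable def p398 : RP := ⟨nat_lit 48, nat_lit 1, nat_lit 21, nat_lit 27, nat_lit 466754, nat_lit 469461, nat_lit 466766, nat_lit 0x11de5c2cdfd4a, nat_lit 0x11f8e3c025234, nat_lit 0x80000000000000000, nat_lit 0x5, nat_lit 90, nat_lit 298445, nat_lit 297888, nat_lit 298448, [nat_lit 0x23369a0000100230], nat_lit 297873, nat_lit 297873, []⟩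

set_option maxRecDepth 100000 in
theorem h398 : rchk Cd.ms p398 = true := by
  decide +kernel

/-- row check 399 -/
noncomputable def p399 : RP := ⟨nat_lit 48, nat_lit 2, nat_lit 21, nat_lit 27, nat_lit 469404, nat_lit 472109, nat_lit 469404, nat_lit 0x11c4b3fb0d72c, nat_lit 0x11deea5ff8f30, nat_lit 0x80000000000000000, nat_lit 0x5, nat_lit 57, nat_lit 299005, nat_lit 298448, nat_lit 299008, [nat_lit 0x22f6e00000100230], nat_lit 298433, nat_lit 298433, []⟩

set_option maxRecDepth 100000 in
theorem h399 : rchk Cd.ms p399 = true := by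
  decide +kernel

/-- the row checks of this file -/
noncomputable def rs215 : List RP := [p398, p399]

theorem R215 : RCk Cd.ms rs215 :=
  RCk.cons h398 (RCk.cons h399 RCk.nil)

end Pool.Agent.Moser.Ck.Cr
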