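import Pool.Agent.Lib_MP_cc07e8_cd.Ds
import Pool.Agent.Lib_MP_cc07e8_ck.CkAsmDefs

/-! # MP_cc07e8_co: row checks of the explicit start, part 216 -/

namespace Pool.Agent.Moser.Ck.Cr

/-- row check 400 -/
noncomputable def p400 : RP := ⟨nat_lit 49, nat_lit 1, nat_lit 21, nat_lit 27, nat_lit 472047, nat_lit 474766, nat_lit 472051, nat_lit 0x11ab3f1aa623e, nat_lit 0x11c54cecdb4fc, nat_lit 0x80000000000000000, nat_lit 0x5, nat_lit 47, nat_lit 299565, nat_lit 299008, nat_lit 299568, [nat_lit 0x22c2ba0000100230], nat_lit 298993, nat_lit 298993, []⟩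

set_option maxRecDepth 100000 in
theorem h400 : rchk Cd.ms p400 = true := by
  decide +kernel

/-- row check 401 -/
noncomputable def p401 : RP := ⟨nat_lit 49, nat_lit 1, nat_lit 21, nat_lit 27, nat_lit 474693, nat_lit 477358, nat_lit 474708, nat_lit 0x1192af8f79795, nat_lit 0x11abf12d90ce9, nat_lit 0x80000000000000000, nat_lit 0x5, nat_lit 77, nat_lit 300109, nat_lit 299568, nat_lit 300112, [nat_lit 0x230a220000100220], nat_lit 299553, nat_lit 299553, []⟩

set_option maxRecDepth 100000 in
theorem h401 : rchk Cd.ms p401 = true := by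
  decide +kernel

/-- the row checks of this file -/
noncomputable def rs216 : List RP := [p400, p401]

theorem R216 : RCk Cd.ms rs216 :=
  RCk.cons h400 (RCk.cons h401 RCk.nil)

end Pool.Agent.Moser.Ck.Cr
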