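import Pool.Agent.Lib_MP_cc07e8_cd.Ds
import Pool.Agent.Lib_MP_cc07e8_ck.CkAsmDefs

/-! # MP_cc07e8_co: row checks of the explicit start, part 217 -/

namespace Pool.Agent.Moser.Ck.Cr

/-- row check 402 -/
noncomputable def p402 : RP := ⟨nat_lit 49, nat_lit 1, nat_lit 21, nat_lit 27, nat_lit 477288, nat_lit 480035, nat_lit 477299, nat_lit 0x1179991ae8039, nat_lit 0x1193587737f99, nat_lit 0x80000000000000000, nat_lit 0x5, nat_lit 51, nat_lit 300669, nat_lit 300112, nat_lit 300672, [nat_lit 0x22e83c0000100230], nat_lit 300097, nat_lit 300097, []⟩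

set_option maxRecDepth 100000 in
theorem h402 : rchk Cd.ms p402 = true := by
  decide +kernel

/-- row check 403 -/
noncomputable def p403 : RP := ⟨nat_lit 49, nat_lit 1, nat_lit 21, nat_lit 27, nat_lit 479976, nat_lit 482722, nat_lit 479976, nat_lit 0x1160b24a953a3, nat_lit 0x117a25e1a0db6, nat_lit 0x80000000000000000, nat_lit 0x5, nat_lit 68, nat_lit 301229, nat_lit 300672, nat_lit 301232, [nat_lit 0x2309970000100230], nat_lit 300657, nat_lit 300657, []⟩

set_option maxRecDepth 100000 in
theorem h403 : rchk Cd.ms p403 = true := by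
  decide +kernel

/-- the row checks of this file -/
noncomputable def rs217 : List RP := [p402, p403]

theorem R217 : RCk Cd.ms rs217 :=
  RCk.cons h402 (RCk.cons h403 RCk.nil)

end Pool.Agent.Moser.Ck.Cr
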