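import Pool.Agent.Lib_MP_cc07e8_cd.Ds
import Pool.Agent.Lib_MP_cc07e8_ck.CkAsmDefs

/-! # MP_cc07e8_co: row checks of the explicit start, part 218 -/

namespace Pool.Agent.Moser.Ck.Cr

/-- row check 404 -/
noncomputable def p404 : RP := ⟨nat_lit 49, nat_lit 1, nat_lit 21, nat_lit 27, nat_lit 482652, nat_lit 485419, nat_lit 482663, nat_lit 0x1147fab8d41ca, nat_lit 0x11615776a36d7, nat_lit 0x80000000000000000, nat_lit 0x5, nat_lit 41, nat_lit 301789, nat_lit 301232, nat_lit 301792, [nat_lit 0x21e6790000100230], nat_lit 301217, nat_lit 301217, []⟩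

set_option maxRecDepth 100000 in
theorem h404 : rchk Cd.ms p404 = true := by
  decide +kernel

/-- row check 405 -/
noncomputable def p405 : RP := ⟨nat_lit 49, nat_lit 1, nat_lit 21, nat_lit 27, nat_lit 485360, nat_lit 488049, nat_lit 485360, nat_lit 0x113023b1981fa, nat_lit 0x114884647e25c, nat_lit 0x80000000000000000, nat_lit 0x5, nat_lit 44, nat_lit 302333, nat_lit 301792, nat_lit 302336, [nat_lit 0x21e4a40000100220], nat_lit 301777, nat_lit 301777, []⟩

set_option maxRecDepth 100000 in
theorem h405 : rchk Cd.ms p405 = true := by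
  decide +kernel

/-- the row checks of this file -/
noncomputable def rs218 : List RP := [p404, p405]

theorem R218 : RCk Cd.ms rs218 :=
  RCk.cons h404 (RCk.cons h405 RCk.nil)

end Pool.Agent.Moser.Ck.Cr
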