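import Pool.Agent.Lib_MP_cc07e8_cd.Ds
import Pool.Agent.Lib_MP_cc07e8_ck.CkAsmDefs

/-! # MP_cc07e8_co: row checks of the explicit start, part 219 -/

namespace Pool.Agent.Moser.Ck.Cr

/-- row check 406 -/
noncomputable def p406 : RP := ⟨nat_lit 49, nat_lit 2, nat_lit 21, nat_lit 27, nat_lit 487984, nat_lit 490766, nat_lit 487990, nat_lit 0x1117c778bbf25, nat_lit 0x1130b9bc76d24, nat_lit 0x80000000000000000, nat_lit 0x5, nat_lit 66, nat_lit 302893, nat_lit 302336, nat_lit 302896, [nat_lit 0x2164610000100230], nat_lit 302321, nat_lit 302321, []⟩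

set_option maxRecDepth 100000 in
theorem h406 : rchk Cd.ms p406 = true := by
  decide +kernel

/-- row check 407 -/
noncomputable def p407 : RP := ⟨nat_lit 50, nat_lit 1, nat_lit 21, nat_lit 27, nat_lit 490707, nat_lit 493493, nat_lit 490707, nat_lit 0x10ff99586bf00, nat_lit 0x11184e288fd79, nat_lit 0x80000000000000000, nat_lit 0x5, nat_lit 94, nat_lit 303453, nat_lit 302896, nat_lit 303456, [nat_lit 0x21ebe60000100230], nat_lit 302881, nat_lit 302881, []⟩

set_option maxRecDepth 100000 in
theorem h407 : rchk Cd.ms p407 = true := by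
  decide +kernel

/-- the row checks of this file -/
noncomputable def rs219 : List RP := [p406, p407]

theorem R219 : RCk Cd.ms rs219 :=
  RCk.cons h406 (RCk.cons h407 RCk.nil)

end Pool.Agent.Moser.Ck.Cr
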