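import Pool.Agent.Lib_MP_cc07e8_cd.Ds
import Pool.Agent.Lib_MP_cc07e8_ck.CkAsmDefs

/-! # MP_cc07e8_co: row checks of the explicit start, part 220 -/

namespace Pool.Agent.Moser.Ck.Cr

/-- row check 408 -/
noncomputable def p408 : RP := ⟨nat_lit 50, nat_lit 1, nat_lit 21, nat_lit 27, nat_lit 493418, nat_lit 496152, nat_lit 493434, nat_lit 0x10e84718bef78, nat_lit 0x110042ad057e9, nat_lit 0x80000000000000000, nat_lit 0x5, nat_lit 63, nat_lit 303997, nat_lit 303456, nat_lit 304000, [nat_lit 0x2176850000100220], nat_lit 303441, nat_lit 303441, []⟩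

set_option maxRecDepth 100000 in
theorem h408 : rchk Cd.ms p408 = true := by
  decide +kernel

/-- row check 409 -/
noncomputable def p409 : RP := ⟨nat_lit 50, nat_lit 1, nat_lit 21, nat_lit 27, nat_lit 496092, nat_lit 498899, nat_lit 496092, nat_lit 0x10d0721870361, nat_lit 0x10e8cd1bd9f21, nat_lit 0x80000000000000000, nat_lit 0x5, nat_lit 57, nat_lit 304557, nat_lit 304000, nat_lit 304560, [nat_lit 0x20eb640000100230], nat_lit 303985, nat_lit 303985, []⟩

set_option maxRecDepth 100000 in
theorem h409 : rchk Cd.ms p409 = true := by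
  decide +kernel

/-- the row checks of this file -/
noncomputable def rs220 : List RP := [p408, p409]

theorem R220 : RCk Cd.ms rs220 :=
  RCk.cons h408 (RCk.cons h409 RCk.nil)

end Pool.Agent.Moser.Ck.Cr
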