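import Pool.Agent.Lib_MP_cc07e8_cd.Ds
import Pool.Agent.Lib_MP_cc07e8_ck.CkAsmDefs

/-! # MP_cc07e8_co: row checks of the explicit start, part 221 -/

namespace Pool.Agent.Moser.Ck.Cr

/-- row check 410 -/
noncomputable def p410 : RP := ⟨nat_lit 50, nat_lit 1, nat_lit 21, nat_lit 27, nat_lit 498823, nat_lit 501656, nat_lit 498839, nat_lit 0x10b8ca10fdc45, nat_lit 0x10d119fc3a58f, nat_lit 0x80000000000000000, nat_lit 0x5, nat_lit 45, nat_lit 305117, nat_lit 304560, nat_lit 305120, [nat_lit 0x20e22f0000100230], nat_lit 304545, nat_lit 304545, []⟩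

set_option maxRecDepth 100000 in
theorem h410 : rchk Cd.ms p410 = true := by
  decide +kernel

/-- row check 411 -/
noncomputable def p411 : RP := ⟨nat_lit 50, nat_lit 1, nat_lit 21, nat_lit 27, nat_lit 501596, nat_lit 504423, nat_lit 501596, nat_lit 0x10a14ea1d57de, nat_lit 0x10b94d275eb90, nat_lit 0x80000000000000000, nat_lit 0x5, nat_lit 48, nat_lit 305677, nat_lit 305120, nat_lit 305680, [nat_lit 0x20b36b0000100230], nat_lit 305105, nat_lit 305105, []⟩

set_option maxRecDepth 100000 in
theorem h411 : rchk Cd.ms p411 = true := by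
  decide +kernel

/-- the row checks of this file -/
noncomputable def rs221 : List RP := [p410, p411]

theorem R221 : RCk Cd.ms rs221 :=
  RCk.cons h410 (RCk.cons h411 RCk.nil)

end Pool.Agent.Moser.Ck.Cr
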