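import Pool.Agent.Lib_MP_cc07e8_cd.Ds
import Pool.Agent.Lib_MP_cc07e8_ck.CkAsmDefs

/-! # MP_cc07e8_co: row checks of the explicit start, part 222 -/

namespace Pool.Agent.Moser.Ck.Cr

/-- row check 412 -/
noncomputable def p412 : RP := ⟨nat_lit 50, nat_lit 1, nat_lit 21, nat_lit 27, nat_lit 504356, nat_lit 507201, nat_lit 504363, nat_lit 0x1089fd4811aa6, nat_lit 0x10a1df69dab82, nat_lit 0x80000000000000000, nat_lit 0x5, nat_lit 51, nat_lit 306237, nat_lit 305680, nat_lit 306240, [nat_lit 0x1f7f8b0000100230], nat_lit 305665, nat_lit 305665, []⟩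

set_option maxRecDepth 100000 in
theorem h412 : rchk Cd.ms p412 = true := by
  decide +kernel

/-- row check 413 -/
noncomputable def p413 : RP := ⟨nat_lit 50, nat_lit 2, nat_lit 21, nat_lit 27, nat_lit 507140, nat_lit 509988, nat_lit 507140, nat_lit 0x1072d9f0c0885, nat_lit 0x108a7fa7de0fd, nat_lit 0x80000000000000000, nat_lit 0x5, nat_lit 82, nat_lit 306797, nat_lit 306240, nat_lit 306800, [nat_lit 0x2057b70000100230], nat_lit 306225, nat_lit 306225, []⟩

set_option maxRecDepth 100000 in
theorem h413 : rchk Cd.ms p413 = true := by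
  decide +kernel

/-- the row checks of this file -/
noncomputable def rs222 : List RP := [p412, p413]

theorem R222 : RCk Cd.ms rs222 :=
  RCk.cons h412 (RCk.cons h413 RCk.nil)

end Pool.Agent.Moser.Ck.Cr
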