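import Pool.Agent.Lib_MP_cc07e8_cd.Ds
import Pool.Agent.Lib_MP_cc07e8_ck.CkAsmDefs

/-! # MP_cc07e8_co: row checks of the explicit start, part 223 -/

namespace Pool.Agent.Moser.Ck.Cr

/-- row check 414 -/
noncomputable def p414 : RP := ⟨nat_lit 51, nat_lit 1, nat_lit 21, nat_lit 27, nat_lit 509927, nat_lit 512786, nat_lit 509927, nat_lit 0x105bdffd38637, nat_lit 0x10735ae4bd375, nat_lit 0x80000000000000000, nat_lit 0x5, nat_lit 82, nat_lit 307357, nat_lit 306800, nat_lit 307360, [nat_lit 0x1f03b00000100230], nat_lit 306785, nat_lit 306785, []⟩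

set_option maxRecDepth 100000 in
theorem h414 : rchk Cd.ms p414 = true := by
  decide +kernel

/-- row check 415 -/
noncomputable def p415 : RP := ⟨nat_lit 51, nat_lit 1, nat_lit 21, nat_lit 27, nat_lit 512698, nat_lit 515594, nat_lit 512725, nat_lit 0x10451132c23a0, nat_lit 0x105c980138ead, nat_lit 0x80000000000000000, nat_lit 0x5, nat_lit 73, nat_lit 307917, nat_lit 307360, nat_lit 307920, [nat_lit 0x1feefe0000100230], nat_lit 307345, nat_lit 307345, []⟩

set_option maxRecDepth 100000 in
theorem h415 : rchk Cd.ms p415 = true := by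
  decide +kernel

/-- the row checks of this file -/
noncomputable def rs223 : List RP := [p414, p415]

theorem R223 : RCk Cd.ms rs223 :=
  RCk.cons h414 (RCk.cons h415 RCk.nil)

end Pool.Agent.Moser.Ck.Cr
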