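import Pool.Agent.Lib_MP_cc07e8_cd.Ds
import Pool.Agent.Lib_MP_cc07e8_ck.CkAsmDefs

/-! # MP_cc07e8_co: row checks of the explicit start, part 224 -/

namespace Pool.Agent.Moser.Ck.Cr

/-- row check 416 -/
noncomputable def p416 : RP := ⟨nat_lit 51, nat_lit 1, nat_lit 21, nat_lit 27, nat_lit 515522, nat_lit 518412, nat_lit 515533, nat_lit 0x102e6d34529f0, nat_lit 0x1045a61dc5eff, nat_lit 0x80000000000000000, nat_lit 0x5, nat_lit 59, nat_lit 308477, nat_lit 307920, nat_lit 308480, [nat_lit 0x1f50ac0000100230], nat_lit 307905, nat_lit 307905, []⟩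

set_option maxRecDepth 100000 in
theorem h416 : rchk Cd.ms p416 = true := by
  decide +kernel

/-- row check 417 -/
noncomputable def p417 : RP := ⟨nat_lit 51, nat_lit 1, nat_lit 21, nat_lit 27, nat_lit 518347, nat_lit 521241, nat_lit 518351, nat_lit 0x1017f19f9c57b, nat_lit 0x102ef22f4c752, nat_lit 0x80000000000000000, nat_lit 0x6, nat_lit 94, nat_lit 309037, nat_lit 308480, nat_lit 309040, [nat_lit 0x1f0f0d0000100230], nat_lit 308465, nat_lit 308465, []⟩

set_option maxRecDepth 100000 in
theorem h417 : rchk Cd.ms p417 = true := by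
  decide +kernel

/-- the row checks of this file -/
noncomputable def rs224 : List RP := [p416, p417]

theorem R224 : RCk Cd.ms rs224 :=
  RCk.cons h416 (RCk.cons h417 RCk.nil)

end Pool.Agent.Moser.Ck.Cr
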