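import Pool.Agent.Lib_MP_cc07e8_cd.Ds
import Pool.Agent.Lib_MP_cc07e8_ck.CkAsmDefs

/-! # MP_cc07e8_co: row checks of the explicit start, part 225 -/

namespace Pool.Agent.Moser.Ck.Cr

/-- row check 418 -/
noncomputable def p418 : RP := ⟨nat_lit 51, nat_lit 1, nat_lit 21, nat_lit 27, nat_lit 521170, nat_lit 524079, nat_lit 521179, nat_lit 0x1001a22aac9ad, nat_lit 0x1018814eddd23, nat_lit 0x80000000000000000, nat_lit 0x6, nat_lit 63, nat_lit 309597, nat_lit 309040, nat_lit 309600, [nat_lit 0x1efb2d0000100230], nat_lit 309025, nat_lit 309025, []⟩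

set_option maxRecDepth 100000 in
theorem h418 : rchk Cd.ms p418 = true := by
  decide +kernel

/-- row check 419 -/
noncomputable def p419 : RP := ⟨nat_lit 51, nat_lit 1, nat_lit 21, nat_lit 27, nat_lit 524012, nat_lit 526928, nat_lit 524017, nat_lit 0xfeb7a742646a, nat_lit 0x1002284a6e07d, nat_lit 0x80000000000000000, nat_lit 0x6, nat_lit 67, nat_lit 310157, nat_lit 309600, nat_lit 310160, [nat_lit 0x1ea0030000100230], nat_lit 309585, nat_lit 309585, []⟩

set_option maxRecDepth 100000 in
theorem h419 : rchk Cd.ms p419 = true := by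
  decide +kernel

/-- the row checks of this file -/
noncomputable def rs225 : List RP := [p418, p419]

theorem R225 : RCk Cd.ms rs225 :=
  RCk.cons h418 (RCk.cons h419 RCk.nil)

end Pool.Agent.Moser.Ck.Cr
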