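import Pool.Agent.Lib_MP_cc07e8_cd.Ds
import Pool.Agent.Lib_MP_cc07e8_ck.CkAsmDefs

/-! # MP_cc07e8_co: row checks of the explicit start, part 226 -/

namespace Pool.Agent.Moser.Ck.Cr

/-- row check 420 -/
noncomputable def p420 : RP := ⟨nat_lit 51, nat_lit 1, nat_lit 21, nat_lit 27, nat_lit 526859, nat_lit 529788, nat_lit 526866, nat_lit 0xfd57a3255d28, nat_lit 0xfec03179e39b, nat_lit 0x80000000000000000, nat_lit 0x6, nat_lit 68, nat_lit 310717, nat_lit 310160, nat_lit 310720, [nat_lit 0x1e8cc90000100230], nat_lit 310145, nat_lit 310145, []⟩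

set_option maxRecDepth 100000 in
theorem h420 : rchk Cd.ms p420 = true := by
  decide +kernel

/-- row check 421 -/
noncomputable def p421 : RP := ⟨nat_lit 51, nat_lit 2, nat_lit 21, nat_lit 27, nat_lit 529706, nat_lit 532657, nat_lit 529725, nat_lit 0xfbfa4fbee020, nat_lit 0xfd61ad582a81, nat_lit 0x80000000000000000, nat_lit 0x6, nat_lit 51, nat_lit 311277, nat_lit 310720, nat_lit 311280, [nat_lit 0x1e779d0000100230], nat_lit 310705, nat_lit 310705, []⟩

set_option maxRecDepth 100000 in
theorem h421 : rchk Cd.ms p421 = true := by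
  decide +kernel

/-- the row checks of this file -/
noncomputable def rs226 : List RP := [p420, p421]

theorem R226 : RCk Cd.ms rs226 :=
  RCk.cons h420 (RCk.cons h421 RCk.nil)

end Pool.Agent.Moser.Ck.Cr
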