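import Pool.Agent.Lib_MP_cc07e8_cd.Ds
import Pool.Agent.Lib_MP_cc07e8_ck.CkAsmDefs

/-! # MP_cc07e8_co: row checks of the explicit start, part 227 -/

namespace Pool.Agent.Moser.Ck.Cr

/-- row check 422 -/
noncomputable def p422 : RP := ⟨nat_lit 52, nat_lit 1, nat_lit 21, nat_lit 27, nat_lit 532593, nat_lit 535537, nat_lit 532595, nat_lit 0xfa9f69288649, nat_lit 0xfc02102252cf, nat_lit 0x80000000000000000, nat_lit 0x6, nat_lit 54, nat_lit 311837, nat_lit 311280, nat_lit 311840, [nat_lit 0x1d25270000100230], nat_lit 311265, nat_lit 311265, []⟩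

set_option maxRecDepth 100000 in
theorem h422 : rchk Cd.ms p422 = true := by
  decide +kernel

/-- row check 423 -/
noncomputable def p423 : RP := ⟨nat_lit 52, nat_lit 1, nat_lit 21, nat_lit 27, nat_lit 535470, nat_lit 538428, nat_lit 535474, nat_lit 0xf946eadd6c3b, nat_lit 0xfaa7704aa474, nat_lit 0x80000000000000000, nat_lit 0x6, nat_lit 39, nat_lit 312397, nat_lit 311840, nat_lit 312400, [nat_lit 0x1dc72e0000100230], nat_lit 311825, nat_lit 311825, []⟩

set_option maxRecDepth 100000 in
theorem h423 : rchk Cd.ms p423 = true := by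
  decide +kernel

/-- the row checks of this file -/
noncomputable def rs227 : List RP := [p422, p423]

theorem R227 : RCk Cd.ms rs227 :=
  RCk.cons h422 (RCk.cons h423 RCk.nil)

end Pool.Agent.Moser.Ck.Cr
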