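import Pool.Agent.Lib_MP_cc07e8_cd.Ds
import Pool.Agent.Lib_MP_cc07e8_ck.CkAsmDefs

/-! # MP_cc07e8_co: row checks of the explicit start, part 228 -/

namespace Pool.Agent.Moser.Ck.Cr

/-- row check 424 -/
noncomputable def p424 : RP := ⟨nat_lit 52, nat_lit 1, nat_lit 21, nat_lit 27, nat_lit 538347, nat_lit 541328, nat_lit 538365, nat_lit 0xf7f10c66d08c, nat_lit 0xf95084e1cc73, nat_lit 0x80000000000000000, nat_lit 0x6, nat_lit 42, nat_lit 312957, nat_lit 312400, nat_lit 312960, [nat_lit 0x1ce14b0000100230], nat_lit 312385, nat_lit 312385, []⟩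

set_option maxRecDepth 100000 in
theorem h424 : rchk Cd.ms p424 = true := by
  decide +kernel

/-- row check 425 -/
noncomputable def p425 : RP := ⟨nat_lit 52, nat_lit 1, nat_lit 21, nat_lit 27, nat_lit 541253, nat_lit 544239, nat_lit 541265, nat_lit 0xf69d8bfa03ce, nat_lit 0xf7f9d7ff203d, nat_lit 0x80000000000000000, nat_lit 0x6, nat_lit 77, nat_lit 313517, nat_lit 312960, nat_lit 313520, [nat_lit 0x1dcccb0000100230], nat_lit 312945, nat_lit 312945, []⟩

set_option maxRecDepth 100000 in
theorem h425 : rchk Cd.ms p425 = true := by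
  decide +kernel

/-- the row checks of this file -/
noncomputable def rs228 : List RP := [p424, p425]

theorem R228 : RCk Cd.ms rs228 :=
  RCk.cons h424 (RCk.cons h425 RCk.nil)

end Pool.Agent.Moser.Ck.Cr
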