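import Pool.Agent.Lib_MP_cc07e8_cd.Ds
import Pool.Agent.Lib_MP_cc07e8_ck.CkAsmDefs

/-! # MP_cc07e8_co: row checks of the explicit start, part 229 -/

namespace Pool.Agent.Moser.Ck.Cr

/-- row check 426 -/
noncomputable def p426 : RP := ⟨nat_lit 52, nat_lit 1, nat_lit 21, nat_lit 27, nat_lit 544176, nat_lit 547161, nat_lit 544176, nat_lit 0xf54c6528b5b5, nat_lit 0xf6a4db18613f, nat_lit 0x80000000000000000, nat_lit 0x6, nat_lit 83, nat_lit 314077, nat_lit 313520, nat_lit 314080, [nat_lit 0x1ec0b80000100230], nat_lit 313505, nat_lit 313505, []⟩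

set_option maxRecDepth 100000 in
theorem h426 : rchk Cd.ms p426 = true := by
  decide +kernel

/-- row check 427 -/
noncomputable def p427 : RP := ⟨nat_lit 52, nat_lit 1, nat_lit 21, nat_lit 27, nat_lit 547086, nat_lit 550093, nat_lit 547097, nat_lit 0xf3fdb09b996e, nat_lit 0xf55501001cfd, nat_lit 0x80000000000000000, nat_lit 0x6, nat_lit 79, nat_lit 314637, nat_lit 314080, nat_lit 314640, [nat_lit 0x1cf3180000100230], nat_lit 314065, nat_lit 314065, []⟩

set_option maxRecDepth 100000 in
theorem h427 : rchk Cd.ms p427 = true := by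
  decide +kernel

/-- the row checks of this file -/
noncomputable def rs229 : List RP := [p426, p427]

theorem R229 : RCk Cd.ms rs229 :=
  RCk.cons h426 (RCk.cons h427 RCk.nil)

end Pool.Agent.Moser.Ck.Cr
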