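import Pool.Agent.Lib_MP_cc07e8_cd.Ds
import Pool.Agent.Lib_MP_cc07e8_ck.CkAsmDefs

/-! # MP_cc07e8_co: row checks of the explicit start, part 230 -/

namespace Pool.Agent.Moser.Ck.Cr

/-- row check 428 -/
noncomputable def p428 : RP := ⟨nat_lit 52, nat_lit 1, nat_lit 21, nat_lit 27, nat_lit 550006, nat_lit 553035, nat_lit 550029, nat_lit 0xf2b16902a2a2, nat_lit 0xf40791f01df3, nat_lit 0x80000000000000000, nat_lit 0x6, nat_lit 99, nat_lit 315197, nat_lit 314640, nat_lit 315200, [nat_lit 0x1c76850000100230], nat_lit 314625, nat_lit 314625, []⟩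

set_option maxRecDepth 100000 in
theorem h428 : rchk Cd.ms p428 = true := by
  decide +kernel

/-- row check 429 -/
noncomputable def p429 : RP := ⟨nat_lit 52, nat_lit 2, nat_lit 21, nat_lit 27, nat_lit 552971, nat_lit 556073, nat_lit 552971, nat_lit 0xf15dfa5625bd, nat_lit 0xf2b899d857ab, nat_lit 0x80000000000000000, nat_lit 0x6, nat_lit 60, nat_lit 315773, nat_lit 315200, nat_lit 315776, [nat_lit 0x1bff4a0000100240], nat_lit 315185, nat_lit 315185, []⟩

set_option maxRecDepth 100000 in
theorem h429 : rchk Cd.ms p429 = true := by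
  decide +kernel

/-- the row checks of this file -/
noncomputable def rs230 : List RP := [p428, p429]

theorem R230 : RCk Cd.ms rs230 :=
  RCk.cons h428 (RCk.cons h429 RCk.nil)

end Pool.Agent.Moser.Ck.Cr
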