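import Pool.Agent.Lib_MP_cc07e8_cd.Ds
import Pool.Agent.Lib_MP_cc07e8_ck.CkAsmDefs

/-! # MP_cc07e8_co: row checks of the explicit start, part 231 -/

namespace Pool.Agent.Moser.Ck.Cr

/-- row check 430 -/
noncomputable def p430 : RP := ⟨nat_lit 53, nat_lit 1, nat_lit 21, nat_lit 27, nat_lit 556008, nat_lit 559121, nat_lit 556008, nat_lit 0xf00d2297fe95, nat_lit 0xf16533905d0e, nat_lit 0x80000000000000000, nat_lit 0x6, nat_lit 64, nat_lit 316349, nat_lit 315776, nat_lit 316352, [nat_lit 0x1cb12f0000100240], nat_lit 315761, nat_lit 315761, []⟩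

set_option maxRecDepth 100000 in
theorem h430 : rchk Cd.ms p430 = true := by
  decide +kernel

/-- row check 431 -/
noncomputable def p431 : RP := ⟨nat_lit 53, nat_lit 1, nat_lit 21, nat_lit 27, nat_lit 559055, nat_lit 562181, nat_lit 559057, nat_lit 0xeebea3f0016f, nat_lit 0xf01463db531a, nat_lit 0x80000000000000000, nat_lit 0x6, nat_lit 67, nat_lit 316925, nat_lit 316352, nat_lit 316928, [nat_lit 0x1b545f0000100240], nat_lit 316337, nat_lit 316337, []⟩

set_option maxRecDepth 100000 in
theorem h431 : rchk Cd.ms p431 = true := by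
  decide +kernel

/-- the row checks of this file -/
noncomputable def rs231 : List RP := [p430, p431]

theorem R231 : RCk Cd.ms rs231 :=
  RCk.cons h430 (RCk.cons h431 RCk.nil)

end Pool.Agent.Moser.Ck.Cr
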