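import Pool.Agent.Lib_MP_cc07e8_cd.Ds
import Pool.Agent.Lib_MP_cc07e8_ck.CkAsmDefs

/-! # MP_cc07e8_co: row checks of the explicit start, part 232 -/

namespace Pool.Agent.Moser.Ck.Cr

/-- row check 432 -/
noncomputable def p432 : RP := ⟨nat_lit 53, nat_lit 1, nat_lit 21, nat_lit 27, nat_lit 562094, nat_lit 565252, nat_lit 562116, nat_lit 0xed729596eadb, nat_lit 0xeec819a85c51, nat_lit 0x80000000000000000, nat_lit 0x6, nat_lit 57, nat_lit 317501, nat_lit 316928, nat_lit 317504, [nat_lit 0x1b60f50000100240], nat_lit 316913, nat_lit 316913, []⟩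

set_option maxRecDepth 100000 in
theorem h432 : rchk Cd.ms p432 = true := by
  decide +kernel

/-- row check 433 -/
noncomputable def p433 : RP := ⟨nat_lit 53, nat_lit 1, nat_lit 21, nat_lit 27, nat_lit 565173, nat_lit 568334, nat_lit 565187, nat_lit 0xec28f25d7dcb, nat_lit 0xed7b14c2ad1a, nat_lit 0x80000000000000000, nat_lit 0x6, nat_lit 48, nat_lit 318077, nat_lit 317504, nat_lit 318080, [nat_lit 0x1c26aa0000100240], nat_lit 317489, nat_lit 317489, []⟩

set_option maxRecDepth 100000 in
theorem h433 : rchk Cd.ms p433 = true := by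
  decide +kernel

/-- the row checks of this file -/
noncomputable def rs232 : List RP := [p432, p433]

theorem R232 : RCk Cd.ms rs232 :=
  RCk.cons h432 (RCk.cons h433 RCk.nil)

end Pool.Agent.Moser.Ck.Cr
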