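import Pool.Agent.Lib_MP_cc07e8_cd.Ds
import Pool.Agent.Lib_MP_cc07e8_ck.CkAsmDefs

/-! # MP_cc07e8_co: row checks of the explicit start, part 233 -/

namespace Pool.Agent.Moser.Ck.Cr

/-- row check 434 -/
noncomputable def p434 : RP := ⟨nat_lit 53, nat_lit 1, nat_lit 21, nat_lit 27, nat_lit 568269, nat_lit 571427, nat_lit 568269, nat_lit 0xeae1b51ec3fd, nat_lit 0xec2fdca8eea9, nat_lit 0x80000000000000000, nat_lit 0x7, nat_lit 41, nat_lit 318653, nat_lit 318080, nat_lit 318656, [nat_lit 0x1af3280000100240], nat_lit 318065, nat_lit 318065, []⟩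

set_option maxRecDepth 100000 in
theorem h434 : rchk Cd.ms p434 = true := by
  decide +kernel

/-- row check 435 -/
noncomputable def p435 : RP := ⟨nat_lit 53, nat_lit 1, nat_lit 21, nat_lit 27, nat_lit 571360, nat_lit 574531, nat_lit 571361, nat_lit 0xe99cd8c007f4, nat_lit 0xeae8c230a987, nat_lit 0x80000000000000000, nat_lit 0x7, nat_lit 55, nat_lit 319229, nat_lit 318656, nat_lit 319232, [nat_lit 0x1be4930000100240], nat_lit 318641, nat_lit 318641, []⟩

set_option maxRecDepth 100000 in
theorem h435 : rchk Cd.ms p435 = true := by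
  decide +kernel

/-- the row checks of this file -/
noncomputable def rs233 : List RP := [p434, p435]

theorem R233 : RCk Cd.ms rs233 :=
  RCk.cons h434 (RCk.cons h435 RCk.nil)

end Pool.Agent.Moser.Ck.Cr
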