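import Pool.Agent.Lib_MP_cc07e8_cd.Ds
import Pool.Agent.Lib_MP_cc07e8_ck.CkAsmDefs

/-! # MP_cc07e8_co: row checks of the explicit start, part 234 -/

namespace Pool.Agent.Moser.Ck.Cr

/-- row check 436 -/
noncomputable def p436 : RP := ⟨nat_lit 53, nat_lit 1, nat_lit 21, nat_lit 27, nat_lit 574466, nat_lit 577647, nat_lit 574466, nat_lit 0xe85a3dd45570, nat_lit 0xe9a39d0f25a2, nat_lit 0x80000000000000000, nat_lit 0x7, nat_lit 88, nat_lit 319805, nat_lit 319232, nat_lit 319808, [nat_lit 0x19b03b0000100240], nat_lit 319217, nat_lit 319217, []⟩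

set_option maxRecDepth 100000 in
theorem h436 : rchk Cd.ms p436 = true := by
  decide +kernel

/-- row check 437 -/
noncomputable def p437 : RP := ⟨nat_lit 53, nat_lit 2, nat_lit 21, nat_lit 27, nat_lit 577576, nat_lit 580774, nat_lit 577581, nat_lit 0xe719fa42ca59, nat_lit 0xe8618db3f4a3, nat_lit 0x80000000000000000, nat_lit 0x7, nat_lit 74, nat_lit 320381, nat_lit 319808, nat_lit 320384, [nat_lit 0x1ad20a0000100240], nat_lit 319793, nat_lit 319793, []⟩

set_option maxRecDepth 100000 in
theorem h437 : rchk Cd.ms p437 = true := by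
  decide +kernel

/-- the row checks of this file -/
noncomputable def rs234 : List RP := [p436, p437]

theorem R234 : RCk Cd.ms rs234 :=
  RCk.cons h436 (RCk.cons h437 RCk.nil)

end Pool.Agent.Moser.Ck.Cr
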