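import Pool.Agent.Lib_MP_cc07e8_cd.Ds
import Pool.Agent.Lib_MP_cc07e8_ck.CkAsmDefs

/-! # MP_cc07e8_co: row checks of the explicit start, part 235 -/

namespace Pool.Agent.Moser.Ck.Cr

/-- row check 438 -/
noncomputable def p438 : RP := ⟨nat_lit 54, nat_lit 1, nat_lit 21, nat_lit 27, nat_lit 580705, nat_lit 583912, nat_lit 580707, nat_lit 0xe5dc090c8d8b, nat_lit 0xe72101dc972f, nat_lit 0x80000000000000000, nat_lit 0x7, nat_lit 53, nat_lit 320957, nat_lit 320384, nat_lit 320960, [nat_lit 0x1943ca0000100240], nat_lit 320369, nat_lit 320369, []⟩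

set_option maxRecDepth 100000 in
theorem h438 : rchk Cd.ms p438 = true := by
  decide +kernel

/-- row check 439 -/
noncomputable def p439 : RP := ⟨nat_lit 54, nat_lit 1, nat_lit 21, nat_lit 27, nat_lit 583822, nat_lit 587061, nat_lit 583845, nat_lit 0xe4a0653cf654, nat_lit 0xe5e51b4662b0, nat_lit 0x80000000000000000, nat_lit 0x7, nat_lit 63, nat_lit 321533, nat_lit 320960, nat_lit 321536, [nat_lit 0x197bfa0000100240], nat_lit 320945, nat_lit 320945, []⟩

set_option maxRecDepth 100000 in
theorem h439 : rchk Cd.ms p439 = true := by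
  decide +kernel

/-- the row checks of this file -/
noncomputable def rs235 : List RP := [p438, p439]

theorem R235 : RCk Cd.ms rs235 :=
  RCk.cons h438 (RCk.cons h439 RCk.nil)

end Pool.Agent.Moser.Ck.Cr
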