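import Pool.Agent.Lib_MP_cc07e8_cd.Ds
import Pool.Agent.Lib_MP_cc07e8_ck.CkAsmDefs

/-! # MP_cc07e8_co: row checks of the explicit start, part 236 -/

namespace Pool.Agent.Moser.Ck.Cr

/-- row check 440 -/
noncomputable def p440 : RP := ⟨nat_lit 54, nat_lit 1, nat_lit 21, nat_lit 27, nat_lit 586980, nat_lit 590222, nat_lit 586994, nat_lit 0xe366f0a989d3, nat_lit 0xe4a878d8b9be, nat_lit 0x80000000000000000, nat_lit 0x7, nat_lit 106, nat_lit 322109, nat_lit 321536, nat_lit 322112, [nat_lit 0x1927a90000100240], nat_lit 321521, nat_lit 321521, []⟩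

set_option maxRecDepth 100000 in
theorem h440 : rchk Cd.ms p440 = true := by
  decide +kernel

/-- row check 441 -/
noncomputable def p441 : RP := ⟨nat_lit 54, nat_lit 1, nat_lit 21, nat_lit 27, nat_lit 590140, nat_lit 593482, nat_lit 590155, nat_lit 0xe2272a435830, nat_lit 0xe36f07705026, nat_lit 0x80000000000000000, nat_lit 0x7, nat_lit 72, nat_lit 322701, nat_lit 322112, nat_lit 322704, [nat_lit 0x19a7db0000100250], nat_lit 322097, nat_lit 322097, []⟩

set_option maxRecDepth 100000 in
theorem h441 : rchk Cd.ms p441 = true := by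
  decide +kernel

/-- the row checks of this file -/
noncomputable def rs236 : List RP := [p440, p441]

theorem R236 : RCk Cd.ms rs236 :=
  RCk.cons h440 (RCk.cons h441 RCk.nil)

end Pool.Agent.Moser.Ck.Cr
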