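import Pool.Agent.Lib_MP_cc07e8_cd.Ds
import Pool.Agent.Lib_MP_cc07e8_ck.CkAsmDefs

/-! # MP_cc07e8_co: row checks of the explicit start, part 237 -/

namespace Pool.Agent.Moser.Ck.Cr

/-- row check 442 -/
noncomputable def p442 : RP := ⟨nat_lit 54, nat_lit 1, nat_lit 21, nat_lit 27, nat_lit 593415, nat_lit 596754, nat_lit 593415, nat_lit 0xe0e9b9e2731a, nat_lit 0xe22db3a88a88, nat_lit 0x80000000000000000, nat_lit 0x7, nat_lit 68, nat_lit 323293, nat_lit 322704, nat_lit 323296, [nat_lit 0x190d190000100250], nat_lit 322689, nat_lit 322689, []⟩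

set_option maxRecDepth 100000 in
theorem h442 : rchk Cd.ms p442 = true := by
  decide +kernel

/-- row check 443 -/
noncomputable def p443 : RP := ⟨nat_lit 54, nat_lit 1, nat_lit 21, nat_lit 27, nat_lit 596687, nat_lit 600039, nat_lit 596687, nat_lit 0xdfae823059da, nat_lit 0xe0f030fa8cca, nat_lit 0x80000000000000000, nat_lit 0x7, nat_lit 47, nat_lit 323885, nat_lit 323296, nat_lit 323888, [nat_lit 0x1898770000100250], nat_lit 323281, nat_lit 323281, []⟩

set_option maxRecDepth 100000 in
theorem h443 : rchk Cd.ms p443 = true := by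
  decide +kernel

/-- the row checks of this file -/
noncomputable def rs237 : List RP := [p442, p443]

theorem R237 : RCk Cd.ms rs237 :=
  RCk.cons h442 (RCk.cons h443 RCk.nil)

end Pool.Agent.Moser.Ck.Cr
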