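import Pool.Agent.Lib_MP_cc07e8_cd.Ds
import Pool.Agent.Lib_MP_cc07e8_ck.CkAsmDefs

/-! # MP_cc07e8_co: row checks of the explicit start, part 238 -/

namespace Pool.Agent.Moser.Ck.Cr

/-- row check 444 -/
noncomputable def p444 : RP := ⟨nat_lit 54, nat_lit 1, nat_lit 21, nat_lit 27, nat_lit 599957, nat_lit 603335, nat_lit 599971, nat_lit 0xde75af6e7736, nat_lit 0xdfb655c1baf9, nat_lit 0x80000000000000000, nat_lit 0x7, nat_lit 61, nat_lit 324477, nat_lit 323888, nat_lit 324480, [nat_lit 0x177d3c0000100250], nat_lit 323873, nat_lit 323873, []⟩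

set_option maxRecDepth 100000 in
theorem h444 : rchk Cd.ms p444 = true := by
  decide +kernel

/-- row check 445 -/
noncomputable def p445 : RP := ⟨nat_lit 54, nat_lit 1, nat_lit 21, nat_lit 27, nat_lit 603258, nat_lit 606643, nat_lit 603267, nat_lit 0xdd3f2413a49b, nat_lit 0xde7cf4505c53, nat_lit 0x80000000000000000, nat_lit 0x7, nat_lit 61, nat_lit 325069, nat_lit 324480, nat_lit 325072, [nat_lit 0x176ee50000100250], nat_lit 324465, nat_lit 324465, []⟩

set_option maxRecDepth 100000 in
theorem h445 : rchk Cd.ms p445 = true := by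
  decide +kernel

/-- the row checks of this file -/
noncomputable def rs238 : List RP := [p444, p445]

theorem R238 : RCk Cd.ms rs238 :=
  RCk.cons h444 (RCk.cons h445 RCk.nil)

end Pool.Agent.Moser.Ck.Cr
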