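import Pool.Agent.Lib_MP_cc07e8_cd.Ds
import Pool.Agent.Lib_MP_cc07e8_ck.CkAsmDefs

/-! # MP_cc07e8_co: row checks of the explicit start, part 239 -/

namespace Pool.Agent.Moser.Ck.Cr

/-- row check 446 -/
noncomputable def p446 : RP := ⟨nat_lit 54, nat_lit 2, nat_lit 21, nat_lit 27, nat_lit 606574, nat_lit 610054, nat_lit 606575, nat_lit 0xdc02743b01e4, nat_lit 0xdd459576169c, nat_lit 0x80000000000000000, nat_lit 0x7, nat_lit 57, nat_lit 325677, nat_lit 325072, nat_lit 325680, [nat_lit 0x1721860000100260], nat_lit 325057, nat_lit 325057, []⟩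

set_option maxRecDepth 100000 in
theorem h446 : rchk Cd.ms p446 = true := by
  decide +kernel

/-- the row checks of this file -/
noncomputable def rs239 : List RP := [p446]

theorem R239 : RCk Cd.ms rs239 :=
  RCk.cons h446 RCk.nil

end Pool.Agent.Moser.Ck.Cr
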