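import Pool.Agent.Lib_MP_cc07e8_cd.Ds
import Pool.Agent.Lib_MP_cc07e8_ck.CkAsmDefs

/-! # MP_cc07e8_co: row checks of the explicit start, part 240 -/

namespace Pool.Agent.Moser.Ck.Cr

/-- row check 447 -/
noncomputable def p447 : RP := ⟨nat_lit 55, nat_lit 1, nat_lit 21, nat_lit 27, nat_lit 609979, nat_lit 613477, nat_lit 609985, nat_lit 0xdac831789287, nat_lit 0xdc09611058ab, nat_lit 0x80000000000000000, nat_lit 0x7, nat_lit 82, nat_lit 326285, nat_lit 325680, nat_lit 326288, [nat_lit 0x17271c0000100260], nat_lit 325665, nat_lit 325665, []⟩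

set_option maxRecDepth 100000 in
theorem h447 : rchk Cd.ms p447 = true := by
  decide +kernel

/-- row check 448 -/
noncomputable def p448 : RP := ⟨nat_lit 55, nat_lit 1, nat_lit 21, nat_lit 26, nat_lit 613408, nat_lit 616912, nat_lit 613408, nat_lit 0xd9905627881d, nat_lit 0xdace7e4f83da, nat_lit 0x80000000000000000, nat_lit 0x8, nat_lit 94, nat_lit 326893, nat_lit 326288, nat_lit 326896, [nat_lit 0x176c540000100260], nat_lit 326273, nat_lit 326273, []⟩

set_option maxRecDepth 100000 in
theorem h448 : rchk Cd.ms p448 = true := by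
  decide +kernel

/-- the row checks of this file -/
noncomputable def rs240 : List RP := [p447, p448]

theorem R240 : RCk Cd.ms rs240 :=
  RCk.cons h447 (RCk.cons h448 RCk.nil)

end Pool.Agent.Moser.Ck.Cr
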