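import Pool.Agent.Lib_MP_cc07e8_cd.Ds
import Pool.Agent.Lib_MP_cc07e8_ck.CkAsmDefs

/-! # MP_cc07e8_co: row checks of the explicit start, part 241 -/

namespace Pool.Agent.Moser.Ck.Cr

/-- row check 449 -/
noncomputable def p449 : RP := ⟨nat_lit 55, nat_lit 1, nat_lit 21, nat_lit 26, nat_lit 616844, nat_lit 620361, nat_lit 616844, nat_lit 0xd85aaefa694b, nat_lit 0xd99679f6ffc7, nat_lit 0x80000000000000000, nat_lit 0x8, nat_lit 79, nat_lit 327501, nat_lit 326896, nat_lit 327504, [nat_lit 0x16ad7b0000100260], nat_lit 326881, nat_lit 326881, []⟩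

set_option maxRecDepth 100000 in
theorem h449 : rchk Cd.ms p449 = true := by
  decide +kernel

/-- row check 450 -/
noncomputable def p450 : RP := ⟨nat_lit 55, nat_lit 1, nat_lit 21, nat_lit 26, nat_lit 620285, nat_lit 623914, nat_lit 620292, nat_lit 0xd71f45f29be9, nat_lit 0xd861783fdbbb, nat_lit 0x80000000000000000, nat_lit 0x8, nat_lit 67, nat_lit 328125, nat_lit 327504, nat_lit 328128, [nat_lit 0x16749d0000100270], nat_lit 327489, nat_lit 327489, []⟩

set_option maxRecDepth 100000 in
theorem h450 : rchk Cd.ms p450 = true := by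
  decide +kernel

/-- the row checks of this file -/
noncomputable def rs241 : List RP := [p449, p450]

theorem R241 : RCk Cd.ms rs241 :=
  RCk.cons h449 (RCk.cons h450 RCk.nil)

end Pool.Agent.Moser.Ck.Cr
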