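import Pool.Agent.Lib_MP_cc07e8_cd.Ds
import Pool.Agent.Lib_MP_cc07e8_ck.CkAsmDefs

/-! # MP_cc07e8_co: row checks of the explicit start, part 242 -/

namespace Pool.Agent.Moser.Ck.Cr

/-- row check 451 -/
noncomputable def p451 : RP := ⟨nat_lit 55, nat_lit 1, nat_lit 21, nat_lit 26, nat_lit 623823, nat_lit 627480, nat_lit 623844, nat_lit 0xd5e64cea763c, nat_lit 0xd7274e8676ac, nat_lit 0x80000000000000000, nat_lit 0x8, nat_lit 113, nat_lit 328749, nat_lit 328128, nat_lit 328752, [nat_lit 0x1685890000100270], nat_lit 328113, nat_lit 328113, []⟩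

set_option maxRecDepth 100000 in
theorem h451 : rchk Cd.ms p451 = true := by
  decide +kernel

/-- row check 452 -/
noncomputable def p452 : RP := ⟨nat_lit 55, nat_lit 1, nat_lit 21, nat_lit 26, nat_lit 627376, nat_lit 631060, nat_lit 627410, nat_lit 0xd4afa82b15c5, nat_lit 0xd5ef60b2a09e, nat_lit 0x80000000000000000, nat_lit 0x8, nat_lit 112, nat_lit 329373, nat_lit 328752, nat_lit 329376, [nat_lit 0x1683f00000100270], nat_lit 328737, nat_lit 328737, []⟩

set_option maxRecDepth 100000 in
theorem h452 : rchk Cd.ms p452 = true := by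
  decide +kernel

/-- the row checks of this file -/
noncomputable def rs242 : List RP := [p451, p452]

theorem R242 : RCk Cd.ms rs242 :=
  RCk.cons h451 (RCk.cons h452 RCk.nil)

end Pool.Agent.Moser.Ck.Cr
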