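import Pool.Agent.Lib_MP_cc07e8_cd.Ds
import Pool.Agent.Lib_MP_cc07e8_ck.CkAsmDefs

/-! # MP_cc07e8_co: row checks of the explicit start, part 243 -/

namespace Pool.Agent.Moser.Ck.Cr

/-- row check 453 -/
noncomputable def p453 : RP := ⟨nat_lit 55, nat_lit 1, nat_lit 21, nat_lit 26, nat_lit 630989, nat_lit 634746, nat_lit 630990, nat_lit 0xd3737a0f0f43, nat_lit 0xd4b5c89074d0, nat_lit 0x80000000000000000, nat_lit 0x8, nat_lit 68, nat_lit 330013, nat_lit 329376, nat_lit 330016, [nat_lit 0x1622900000100280], nat_lit 329361, nat_lit 329361, []⟩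

set_option maxRecDepth 100000 in
theorem h453 : rchk Cd.ms p453 = true := by
  decide +kernel

/-- row check 454 -/
noncomputable def p454 : RP := ⟨nat_lit 55, nat_lit 1, nat_lit 21, nat_lit 26, nat_lit 634676, nat_lit 638446, nat_lit 634676, nat_lit 0xd239c478b16c, nat_lit 0xd37972745b53, nat_lit 0x80000000000000000, nat_lit 0x8, nat_lit 54, nat_lit 330653, nat_lit 330016, nat_lit 330656, [nat_lit 0x14b55b0000100280], nat_lit 330001, nat_lit 330001, []⟩

set_option maxRecDepth 100000 in
theorem h454 : rchk Cd.ms p454 = true := by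
  decide +kernel

/-- the row checks of this file -/
noncomputable def rs243 : List RP := [p453, p454]

theorem R243 : RCk Cd.ms rs243 :=
  RCk.cons h453 (RCk.cons h454 RCk.nil)

end Pool.Agent.Moser.Ck.Cr
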