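import Pool.Agent.Lib_MP_cc07e8_cd.Ds
import Pool.Agent.Lib_MP_cc07e8_ck.CkAsmDefs

/-! # MP_cc07e8_co: row checks of the explicit start, part 244 -/

namespace Pool.Agent.Moser.Ck.Cr

/-- row check 455 -/
noncomputable def p455 : RP := ⟨nat_lit 55, nat_lit 1, nat_lit 21, nat_lit 26, nat_lit 638375, nat_lit 642160, nat_lit 638375, nat_lit 0xd10281b9b24c, nat_lit 0xd23fc0c96501, nat_lit 0x80000000000000000, nat_lit 0x8, nat_lit 61, nat_lit 331293, nat_lit 330656, nat_lit 331296, [nat_lit 0x14e6a30000100280], nat_lit 330641, nat_lit 330641, []⟩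

set_option maxRecDepth 100000 in
theorem h455 : rchk Cd.ms p455 = true := by
  decide +kernel

/-- row check 456 -/
noncomputable def p456 : RP := ⟨nat_lit 55, nat_lit 2, nat_lit 21, nat_lit 26, nat_lit 642078, nat_lit 645889, nat_lit 642090, nat_lit 0xcfcd971a863a, nat_lit 0xd109570f1612, nat_lit 0x80000000000000000, nat_lit 0x8, nat_lit 51, nat_lit 331933, nat_lit 331296, nat_lit 331936, [nat_lit 0x14d86e0000100280], nat_lit 331281, nat_lit 331281, []⟩

set_option maxRecDepth 100000 in
theorem h456 : rchk Cd.ms p456 = true := by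
  decide +kernel

/-- the row checks of this file -/
noncomputable def rs244 : List RP := [p455, p456]

theorem R244 : RCk Cd.ms rs244 :=
  RCk.cons h455 (RCk.cons h456 RCk.nil)

end Pool.Agent.Moser.Ck.Cr
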