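import Pool.Agent.Lib_MP_cc07e8_cd.Ds
import Pool.Agent.Lib_MP_cc07e8_ck.CkAsmDefs

/-! # MP_cc07e8_co: row checks of the explicit start, part 245 -/

namespace Pool.Agent.Moser.Ck.Cr

/-- row check 457 -/
noncomputable def p457 : RP := ⟨nat_lit 56, nat_lit 1, nat_lit 21, nat_lit 26, nat_lit 645813, nat_lit 649632, nat_lit 645818, nat_lit 0xce9b1497acf9, nat_lit 0xcfd3d9c0f7ef, nat_lit 0x80000000000000000, nat_lit 0x8, nat_lit 98, nat_lit 332573, nat_lit 331936, nat_lit 332576, [nat_lit 0x13fe240000100280], nat_lit 331921, nat_lit 331921, []⟩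

set_option maxRecDepth 100000 in
theorem h457 : rchk Cd.ms p457 = true := by
  decide +kernel

/-- row check 458 -/
noncomputable def p458 : RP := ⟨nat_lit 56, nat_lit 1, nat_lit 21, nat_lit 26, nat_lit 649561, nat_lit 653390, nat_lit 649561, nat_lit 0xcd6ae00b356c, nat_lit 0xcea0dc96e2fe, nat_lit 0x80000000000000000, nat_lit 0x8, nat_lit 74, nat_lit 333213, nat_lit 332576, nat_lit 333216, [nat_lit 0x14b19c0000100280], nat_lit 332561, nat_lit 332561, []⟩

set_option maxRecDepth 100000 in
theorem h458 : rchk Cd.ms p458 = true := by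
  decide +kernel

/-- the row checks of this file -/
noncomputable def rs245 : List RP := [p457, p458]

theorem R245 : RCk Cd.ms rs245 :=
  RCk.cons h457 (RCk.cons h458 RCk.nil)

end Pool.Agent.Moser.Ck.Cr
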