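import Pool.Agent.Lib_MP_cc07e8_cd.Ds
import Pool.Agent.Lib_MP_cc07e8_ck.CkAsmDefs

/-! # MP_cc07e8_co: row checks of the explicit start, part 246 -/

namespace Pool.Agent.Moser.Ck.Cr

/-- row check 459 -/
noncomputable def p459 : RP := ⟨nat_lit 56, nat_lit 1, nat_lit 21, nat_lit 26, nat_lit 653318, nat_lit 657257, nat_lit 653318, nat_lit 0xcc357a5f3870, nat_lit 0xcd70abac22b4, nat_lit 0x80000000000000000, nat_lit 0x8, nat_lit 88, nat_lit 333869, nat_lit 333216, nat_lit 333872, [nat_lit 0x143a530000100290], nat_lit 333201, nat_lit 333201, []⟩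

set_option maxRecDepth 100000 in
theorem h459 : rchk Cd.ms p459 = true := by
  decide +kernel

/-- row check 460 -/
noncomputable def p460 : RP := ⟨nat_lit 56, nat_lit 1, nat_lit 21, nat_lit 26, nat_lit 657185, nat_lit 661138, nat_lit 657185, nat_lit 0xcb02998845d3, nat_lit 0xcc3b3497ce94, nat_lit 0x80000000000000000, nat_lit 0x9, nat_lit 84, nat_lit 334525, nat_lit 333872, nat_lit 334528, [nat_lit 0x13f7060000100290], nat_lit 333857, nat_lit 333857, []⟩

set_option maxRecDepth 100000 in
theorem h460 : rchk Cd.ms p460 = true := by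
  decide +kernel

/-- the row checks of this file -/
noncomputable def rs246 : List RP := [p459, p460]

theorem R246 : RCk Cd.ms rs246 :=
  RCk.cons h459 (RCk.cons h460 RCk.nil)

end Pool.Agent.Moser.Ck.Cr
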