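import Pool.Agent.Lib_MP_cc07e8_cd.Ds
import Pool.Agent.Lib_MP_cc07e8_ck.CkAsmDefs

/-! # MP_cc07e8_co: row checks of the explicit start, part 247 -/

namespace Pool.Agent.Moser.Ck.Cr

/-- row check 461 -/
noncomputable def p461 : RP := ⟨nat_lit 56, nat_lit 1, nat_lit 21, nat_lit 26, nat_lit 661024, nat_lit 665036, nat_lit 661066, nat_lit 0xc9d1fb8816d3, nat_lit 0xcb0b90048f82, nat_lit 0x80000000000000000, nat_lit 0x9, nat_lit 112, nat_lit 335181, nat_lit 334528, nat_lit 335184, [nat_lit 0x1379720000100290], nat_lit 334513, nat_lit 334513, []⟩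

set_option maxRecDepth 100000 in
theorem h461 : rchk Cd.ms p461 = true := by
  decide +kernel

/-- row check 462 -/
noncomputable def p462 : RP := ⟨nat_lit 56, nat_lit 1, nat_lit 21, nat_lit 26, nat_lit 664957, nat_lit 668948, nat_lit 664963, nat_lit 0xc8a3d72a57a7, nat_lit 0xc9d81ee68f13, nat_lit 0x80000000000000000, nat_lit 0x9, nat_lit 67, nat_lit 335837, nat_lit 335184, nat_lit 335840, [nat_lit 0x12b2c10000100290], nat_lit 335169, nat_lit 335169, []⟩

set_option maxRecDepth 100000 in
theorem h462 : rchk Cd.ms p462 = true := by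
  decide +kernel

/-- the row checks of this file -/
noncomputable def rs247 : List RP := [p461, p462]

theorem R247 : RCk Cd.ms rs247 :=
  RCk.cons h461 (RCk.cons h462 RCk.nil)

end Pool.Agent.Moser.Ck.Cr
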