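import Pool.Agent.Lib_MP_cc07e8_cd.Ds
import Pool.Agent.Lib_MP_cc07e8_ck.CkAsmDefs

/-! # MP_cc07e8_co: row checks of the explicit start, part 248 -/

namespace Pool.Agent.Moser.Ck.Cr

/-- row check 463 -/
noncomputable def p463 : RP := ⟨nat_lit 56, nat_lit 1, nat_lit 21, nat_lit 26, nat_lit 668870, nat_lit 672972, nat_lit 668875, nat_lit 0xc770b691959f, nat_lit 0xc8a9d48c1d5d, nat_lit 0x80000000000000000, nat_lit 0x9, nat_lit 72, nat_lit 336509, nat_lit 335840, nat_lit 336512, [nat_lit 0x12c34800001002a0], nat_lit 335825, nat_lit 335825, []⟩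

set_option maxRecDepth 100000 in
theorem h463 : rchk Cd.ms p463 = true := by
  decide +kernel

/-- row check 464 -/
noncomputable def p464 : RP := ⟨nat_lit 56, nat_lit 1, nat_lit 21, nat_lit 26, nat_lit 672895, nat_lit 677011, nat_lit 672899, nat_lit 0xc6401cc63e2d, nat_lit 0xc7768e3d827b, nat_lit 0x80000000000000000, nat_lit 0x9, nat_lit 53, nat_lit 337181, nat_lit 336512, nat_lit 337184, [nat_lit 0x12b51200001002a0], nat_lit 336497, nat_lit 336497, []⟩

set_option maxRecDepth 100000 in
theorem h464 : rchk Cd.ms p464 = true := by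
  decide +kernel

/-- the row checks of this file -/
noncomputable def rs248 : List RP := [p463, p464]

theorem R248 : RCk Cd.ms rs248 :=
  RCk.cons h463 (RCk.cons h464 RCk.nil)

end Pool.Agent.Moser.Ck.Cr
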