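import Pool.Agent.Lib_MP_cc07e8_cd.Ds
import Pool.Agent.Lib_MP_cc07e8_ck.CkAsmDefs

/-! # MP_cc07e8_co: row checks of the explicit start, part 249 -/

namespace Pool.Agent.Moser.Ck.Cr

/-- row check 465 -/
noncomputable def p465 : RP := ⟨nat_lit 56, nat_lit 1, nat_lit 22, nat_lit 27, nat_lit 338465, nat_lit 341357, nat_lit 338469, nat_lit 0xc49828902d0e, nat_lit 0xc6462f6f2170, nat_lit 0x40000000000000000, nat_lit 0x9, nat_lit 48, nat_lit 338125, nat_lit 337184, nat_lit 338128, [nat_lit 0x11e7f8000010034a, nat_lit 0x10bfae0000100066], nat_lit 337169, nat_lit 337169, []⟩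

set_option maxRecDepth 100000 in
theorem h465 : rchk Cd.ms p465 = true := by
  decide +kernel

/-- the row checks of this file -/
noncomputable def rs249 : List RP := [p465]

theorem R249 : RCk Cd.ms rs249 :=
  RCk.cons h465 RCk.nil

end Pool.Agent.Moser.Ck.Cr
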