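import Pool.Agent.Lib_MP_cc07e8_cd.Ds
import Pool.Agent.Lib_MP_cc07e8_ck.CkAsmDefs

/-! # MP_cc07e8_co: row checks of the explicit start, part 250 -/

namespace Pool.Agent.Moser.Ck.Cr

/-- row check 466 -/
noncomputable def p466 : RP := ⟨nat_lit 56, nat_lit 2, nat_lit 22, nat_lit 27, nat_lit 341318, nat_lit 344224, nat_lit 341320, nat_lit 0xc2f4fb376d36, nat_lit 0xc49de8ba5b3b, nat_lit 0x40000000000000000, nat_lit 0x9, nat_lit 46, nat_lit 339069, nat_lit 338128, nat_lit 339072, [nat_lit 0x13795f000010034d, nat_lit 0x110a8a0000100063], nat_lit 338113, nat_lit 338113, []⟩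

set_option maxRecDepth 100000 in
theorem h466 : rchk Cd.ms p466 = true := by
  decide +kernel

/-- the row checks of this file -/
noncomputable def rs250 : List RP := [p466]

theorem R250 : RCk Cd.ms rs250 :=
  RCk.cons h466 RCk.nil

end Pool.Agent.Moser.Ck.Cr
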