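import Pool.Agent.Lib_MP_cc07e8_cd.Ds
import Pool.Agent.Lib_MP_cc07e8_ck.CkAsmDefs

/-! # MP_cc07e8_co: row checks of the explicit start, part 251 -/

namespace Pool.Agent.Moser.Ck.Cr

/-- row check 467 -/
noncomputable def p467 : RP := ⟨nat_lit 57, nat_lit 1, nat_lit 22, nat_lit 27, nat_lit 344187, nat_lit 347156, nat_lit 344187, nat_lit 0xc14f7624c54f, nat_lit 0xc2fa58b53708, nat_lit 0x40000000000000000, nat_lit 0x9, nat_lit 40, nat_lit 340029, nat_lit 339072, nat_lit 340032, [nat_lit 0x119700000010034f, nat_lit 0x113b5d0000100071], nat_lit 339057, nat_lit 339057, []⟩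

set_option maxRecDepth 100000 in
theorem h467 : rchk Cd.ms p467 = true := by
  decide +kernel

/-- row check 468 -/
noncomputable def p468 : RP := ⟨nat_lit 57, nat_lit 1, nat_lit 22, nat_lit 27, nat_lit 347118, nat_lit 350105, nat_lit 347118, nat_lit 0xbfae9e8d0f7c, nat_lit 0xc154e10845f6, nat_lit 0x40000000000000000, nat_lit 0xa, nat_lit 42, nat_lit 340989, nat_lit 340032, nat_lit 340992, [nat_lit 0x1131e30000100352, nat_lit 0x10c148000010006e], nat_lit 340017, nat_lit 340017, []⟩

set_option maxRecDepth 100000 in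
theorem h468 : rchk Cd.ms p468 = true := by
  decide +kernel

/-- the row checks of this file -/
noncomputable def rs251 : List RP := [p467, p468]

theorem R251 : RCk Cd.ms rs251 :=
  RCk.cons h467 (RCk.cons h468 RCk.nil)

end Pool.Agent.Moser.Ck.Cr
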