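import Pool.Agent.Lib_MP_cc07e8_cd.Ds
import Pool.Agent.Lib_MP_cc07e8_ck.CkAsmDefs

/-! # MP_cc07e8_co: row checks of the explicit start, part 252 -/

namespace Pool.Agent.Moser.Ck.Cr

/-- row check 469 -/
noncomputable def p469 : RP := ⟨nat_lit 57, nat_lit 1, nat_lit 22, nat_lit 27, nat_lit 350063, nat_lit 353120, nat_lit 350067, nat_lit 0xbe0ba556b1c0, nat_lit 0xbfb481baa9ae, nat_lit 0x40000000000000000, nat_lit 0xa, nat_lit 60, nat_lit 341965, nat_lit 340992, nat_lit 341968, [nat_lit 0x10c3340000100354, nat_lit 0x118cda000010007c], nat_lit 340977, nat_lit 340977, []⟩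

set_option maxRecDepth 100000 in
theorem h469 : rchk Cd.ms p469 = true := by
  decide +kernel

/-- row check 470 -/
noncomputable def p470 : RP := ⟨nat_lit 57, nat_lit 1, nat_lit 22, nat_lit 27, nat_lit 353082, nat_lit 356152, nat_lit 353082, nat_lit 0xbc6d76b74f4d, nat_lit 0xbe10e1c5ddb0, nat_lit 0x40000000000000000, nat_lit 0xa, nat_lit 38, nat_lit 342941, nat_lit 341968, nat_lit 342944, [nat_lit 0x10825b0000100356, nat_lit 0x1045e6000010007a], nat_lit 341953, nat_lit 341953, []⟩

set_option maxRecDepth 100000 in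
theorem h470 : rchk Cd.ms p470 = true := by
  decide +kernel

/-- the row checks of this file -/
noncomputable def rs252 : List RP := [p469, p470]

theorem R252 : RCk Cd.ms rs252 :=
  RCk.cons h469 (RCk.cons h470 RCk.nil)

end Pool.Agent.Moser.Ck.Cr
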