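import Pool.Agent.Lib_MP_cc07e8_cd.Ds
import Pool.Agent.Lib_MP_cc07e8_ck.CkAsmDefs

/-! # MP_cc07e8_co: row checks of the explicit start, part 253 -/

namespace Pool.Agent.Moser.Ck.Cr

/-- row check 471 -/
noncomputable def p471 : RP := ⟨nat_lit 57, nat_lit 1, nat_lit 22, nat_lit 27, nat_lit 356113, nat_lit 359251, nat_lit 356113, nat_lit 0xbacd5a9475d9, nat_lit 0xbc72bf1a8f0a, nat_lit 0x40000000000000000, nat_lit 0xa, nat_lit 34, nat_lit 343933, nat_lit 342944, nat_lit 343936, [nat_lit 0x10864b0000100359, nat_lit 0x107c780000100087], nat_lit 342929, nat_lit 342929, []⟩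

set_option maxRecDepth 100000 in
theorem h471 : rchk Cd.ms p471 = true := by
  decide +kernel

/-- row check 472 -/
noncomputable def p472 : RP := ⟨nat_lit 57, nat_lit 1, nat_lit 22, nat_lit 27, nat_lit 359212, nat_lit 362369, nat_lit 359213, nat_lit 0xb931e022628a, nat_lit 0xbad28bbc1e97, nat_lit 0x40000000000000000, nat_lit 0xa, nat_lit 51, nat_lit 344925, nat_lit 343936, nat_lit 344928, [nat_lit 0x10051e000010035b, nat_lit 0xea0410000100085], nat_lit 343921, nat_lit 343921, []⟩

set_option maxRecDepth 100000 in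
theorem h472 : rchk Cd.ms p472 = true := by
  decide +kernel

/-- the row checks of this file -/
noncomputable def rs253 : List RP := [p471, p472]

theorem R253 : RCk Cd.ms rs253 :=
  RCk.cons h471 (RCk.cons h472 RCk.nil)

end Pool.Agent.Moser.Ck.Cr
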