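import Pool.Agent.Lib_MP_cc07e8_cd.Ds
import Pool.Agent.Lib_MP_cc07e8_ck.CkAsmDefs

/-! # MP_cc07e8_co: row checks of the explicit start, part 254 -/

namespace Pool.Agent.Moser.Ck.Cr

/-- row check 473 -/
noncomputable def p473 : RP := ⟨nat_lit 57, nat_lit 1, nat_lit 22, nat_lit 27, nat_lit 362330, nat_lit 365555, nat_lit 362330, nat_lit 0xb794ac8ed646, nat_lit 0xb936fa83558b, nat_lit 0x40000000000000000, nat_lit 0xa, nat_lit 33, nat_lit 345933, nat_lit 344928, nat_lit 345936, [nat_lit 0xf56a4000010035e, nat_lit 0xe26fe0000100092], nat_lit 344913, nat_lit 344913, []⟩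

set_option maxRecDepth 100000 in
theorem h473 : rchk Cd.ms p473 = true := by
  decide +kernel

/-- the row checks of this file -/
noncomputable def rs254 : List RP := [p473]

theorem R254 : RCk Cd.ms rs254 :=
  RCk.cons h473 RCk.nil

end Pool.Agent.Moser.Ck.Cr
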