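import Pool.Agent.Lib_MP_cc07e8_cd.Ds
import Pool.Agent.Lib_MP_cc07e8_ck.CkAsmDefs

/-! # MP_cc07e8_co: row checks of the explicit start, part 255 -/

namespace Pool.Agent.Moser.Ck.Cr

/-- row check 474 -/
noncomputable def p474 : RP := ⟨nat_lit 57, nat_lit 2, nat_lit 22, nat_lit 27, nat_lit 365516, nat_lit 368811, nat_lit 365516, nat_lit 0xb5f5c5203c59, nat_lit 0xb799b0435ef5, nat_lit 0x40000000000000000, nat_lit 0xb, nat_lit 42, nat_lit 346957, nat_lit 345936, nat_lit 346960, [nat_lit 0xedc4a0000100360, nat_lit 0xe38e400001000a0], nat_lit 345921, nat_lit 345921, []⟩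

set_option maxRecDepth 100000 in
theorem h474 : rchk Cd.ms p474 = true := by
  decide +kernel

/-- the row checks of this file -/
noncomputable def rs255 : List RP := [p474]

theorem R255 : RCk Cd.ms rs255 :=
  RCk.cons h474 RCk.nil

end Pool.Agent.Moser.Ck.Cr
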