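import Pool.Agent.Lib_MP_cc07e8_cd.Ds
import Pool.Agent.Lib_MP_cc07e8_ck.CkAsmDefs

/-! # MP_cc07e8_co: row checks of the explicit start, part 256 -/

namespace Pool.Agent.Moser.Ck.Cr

/-- row check 475 -/
noncomputable def p475 : RP := ⟨nat_lit 58, nat_lit 1, nat_lit 22, nat_lit 26, nat_lit 368772, nat_lit 372086, nat_lit 368772, nat_lit 0xb45bc519bfe4, nat_lit 0xb5fab24391fb, nat_lit 0x40000000000000000, nat_lit 0xb, nat_lit 45, nat_lit 347981, nat_lit 346960, nat_lit 347984, [nat_lit 0xed5c00000100363, nat_lit 0xde3ac000010009d], nat_lit 346945, nat_lit 346945, []⟩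

set_option maxRecDepth 100000 in
theorem h475 : rchk Cd.ms p475 = true := by
  decide +kernel

/-- row check 476 -/
noncomputable def p476 : RP := ⟨nat_lit 58, nat_lit 1, nat_lit 22, nat_lit 26, nat_lit 372047, nat_lit 375484, nat_lit 372047, nat_lit 0xb2b9ee71501d, nat_lit 0xb4609c228026, nat_lit 0x40000000000000000, nat_lit 0xb, nat_lit 64, nat_lit 349037, nat_lit 347984, nat_lit 349040, [nat_lit 0xe6f150000100365, nat_lit 0xd286100001000bb], nat_lit 347969, nat_lit 347969, []⟩

set_option maxRecDepth 100000 in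
theorem h476 : rchk Cd.ms p476 = true := by
  decide +kernel

/-- the row checks of this file -/
noncomputable def rs256 : List RP := [p475, p476]

theorem R256 : RCk Cd.ms rs256 :=
  RCk.cons h475 (RCk.cons h476 RCk.nil)

end Pool.Agent.Moser.Ck.Cr
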