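import Pool.Agent.Lib_MP_cc07e8_cd.Ds
import Pool.Agent.Lib_MP_cc07e8_ck.CkAsmDefs

/-! # MP_cc07e8_co: row checks of the explicit start, part 257 -/

namespace Pool.Agent.Moser.Ck.Cr

/-- row check 477 -/
noncomputable def p477 : RP := ⟨nat_lit 58, nat_lit 1, nat_lit 22, nat_lit 26, nat_lit 375442, nat_lit 378902, nat_lit 375444, nat_lit 0xb11d31ba6ae4, nat_lit 0xb2bf0cc14304, nat_lit 0x40000000000000000, nat_lit 0xb, nat_lit 40, nat_lit 350093, nat_lit 349040, nat_lit 350096, [nat_lit 0xe2c4e0000100368, nat_lit 0xd854600001000b8], nat_lit 349025, nat_lit 349025, []⟩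

set_option maxRecDepth 100000 in
theorem h477 : rchk Cd.ms p477 = true := by
  decide +kernel

/-- row check 478 -/
noncomputable def p478 : RP := ⟨nat_lit 58, nat_lit 1, nat_lit 22, nat_lit 26, nat_lit 378849, nat_lit 382446, nat_lit 378862, nat_lit 0xaf79084ff341, nat_lit 0xb1238990e46b, nat_lit 0x40000000000000000, nat_lit 0xb, nat_lit 34, nat_lit 351181, nat_lit 350096, nat_lit 351184, [nat_lit 0xd8b22000010036b, nat_lit 0xcbeed00001000d5], nat_lit 350081, nat_lit 350081, []⟩

set_option maxRecDepth 100000 in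
theorem h478 : rchk Cd.ms p478 = true := by
  decide +kernel

/-- the row checks of this file -/
noncomputable def rs257 : List RP := [p477, p478]

theorem R257 : RCk Cd.ms rs257 :=
  RCk.cons h477 (RCk.cons h478 RCk.nil)

end Pool.Agent.Moser.Ck.Cr
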