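import Pool.Agent.Lib_MP_cc07e8_cd.Ds
import Pool.Agent.Lib_MP_cc07e8_ck.CkAsmDefs

/-! # MP_cc07e8_co: row checks of the explicit start, part 258 -/

namespace Pool.Agent.Moser.Ck.Cr

/-- row check 479 -/
noncomputable def p479 : RP := ⟨nat_lit 58, nat_lit 1, nat_lit 22, nat_lit 26, nat_lit 382397, nat_lit 386011, nat_lit 382406, nat_lit 0xadda2a30e86a, nat_lit 0xaf7ec9e25400, nat_lit 0x40000000000000000, nat_lit 0xc, nat_lit 55, nat_lit 352269, nat_lit 351184, nat_lit 352272, [nat_lit 0xe1f01000010036d, nat_lit 0xbcac100001000d3], nat_lit 351169, nat_lit 351169, []⟩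

set_option maxRecDepth 100000 in
theorem h479 : rchk Cd.ms p479 = true := by
  decide +kernel

/-- row check 480 -/
noncomputable def p480 : RP := ⟨nat_lit 58, nat_lit 1, nat_lit 22, nat_lit 26, nat_lit 385963, nat_lit 389599, nat_lit 385971, nat_lit 0xac4049622343, nat_lit 0xaddfb32516f8, nat_lit 0x40000000000000000, nat_lit 0xc, nat_lit 49, nat_lit 353357, nat_lit 352272, nat_lit 353360, [nat_lit 0xcd3d30000100370, nat_lit 0xbb5c800001000d0], nat_lit 352257, nat_lit 352257, []⟩

set_option maxRecDepth 100000 in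
theorem h480 : rchk Cd.ms p480 = true := by
  decide +kernel

/-- the row checks of this file -/
noncomputable def rs258 : List RP := [p479, p480]

theorem R258 : RCk Cd.ms rs258 :=
  RCk.cons h479 (RCk.cons h480 RCk.nil)

end Pool.Agent.Moser.Ck.Cr
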