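import Pool.Agent.Lib_MP_cc07e8_cd.Ds
import Pool.Agent.Lib_MP_cc07e8_ck.CkAsmDefs

/-! # MP_cc07e8_co: row checks of the explicit start, part 259 -/

namespace Pool.Agent.Moser.Ck.Cr

/-- row check 481 -/
noncomputable def p481 : RP := ⟨nat_lit 58, nat_lit 1, nat_lit 22, nat_lit 26, nat_lit 389558, nat_lit 393316, nat_lit 389558, nat_lit 0xaa9f8ef206e8, nat_lit 0xac44ed7c3d8b, nat_lit 0x40000000000000000, nat_lit 0xc, nat_lit 47, nat_lit 354477, nat_lit 353360, nat_lit 354480, [nat_lit 0xca2790000100373, nat_lit 0xbf2f900001000ed], nat_lit 353345, nat_lit 353345, []⟩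

set_option maxRecDepth 100000 in
theorem h481 : rchk Cd.ms p481 = true := by
  decide +kernel

/-- row check 482 -/
noncomputable def p482 : RP := ⟨nat_lit 58, nat_lit 1, nat_lit 22, nat_lit 26, nat_lit 393275, nat_lit 397055, nat_lit 393275, nat_lit 0xa9043c3f6b7d, nat_lit 0xaaa41cb23b27, nat_lit 0x40000000000000000, nat_lit 0xc, nat_lit 67, nat_lit 355597, nat_lit 354480, nat_lit 355600, [nat_lit 0xbbe870000100376, nat_lit 0xae71800001000ea], nat_lit 354465, nat_lit 354465, []⟩

set_option maxRecDepth 100000 in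
theorem h482 : rchk Cd.ms p482 = true := by
  decide +kernel

/-- the row checks of this file -/
noncomputable def rs259 : List RP := [p481, p482]

theorem R259 : RCk Cd.ms rs259 :=
  RCk.cons h481 (RCk.cons h482 RCk.nil)

end Pool.Agent.Moser.Ck.Cr
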