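import Pool.Agent.Lib_MP_cc07e8_cd.Ds
import Pool.Agent.Lib_MP_cc07e8_ck.CkAsmDefs

/-! # MP_cc07e8_co: row checks of the explicit start, part 260 -/

namespace Pool.Agent.Moser.Ck.Cr

/-- row check 483 -/
noncomputable def p483 : RP := ⟨nat_lit 58, nat_lit 1, nat_lit 22, nat_lit 26, nat_lit 397010, nat_lit 400927, nat_lit 397014, nat_lit 0xa7625e030b0e, nat_lit 0xa90923c20273, nat_lit 0x40000000000000000, nat_lit 0xc, nat_lit 40, nat_lit 356749, nat_lit 355600, nat_lit 356752, [nat_lit 0xafda70000100379, nat_lit 0xa74390000100107], nat_lit 355585, nat_lit 355585, []⟩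

set_option maxRecDepth 100000 in
theorem h483 : rchk Cd.ms p483 = true := by
  decide +kernel

/-- the row checks of this file -/
noncomputable def rs260 : List RP := [p483]

theorem R260 : RCk Cd.ms rs260 :=
  RCk.cons h483 RCk.nil

end Pool.Agent.Moser.Ck.Cr
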