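import Pool.Agent.Lib_MP_cc07e8_cd.Ds
import Pool.Agent.Lib_MP_cc07e8_ck.CkAsmDefs

/-! # MP_cc07e8_co: row checks of the explicit start, part 261 -/

namespace Pool.Agent.Moser.Ck.Cr

/-- row check 484 -/
noncomputable def p484 : RP := ⟨nat_lit 58, nat_lit 2, nat_lit 22, nat_lit 26, nat_lit 400882, nat_lit 404823, nat_lit 400885, nat_lit 0xa5c5fa200f66, nat_lit 0xa7672d6324d9, nat_lit 0x40000000000000000, nat_lit 0xd, nat_lit 36, nat_lit 357901, nat_lit 356752, nat_lit 357904, [nat_lit 0xaa74e000010037b, nat_lit 0xa3c470000100105], nat_lit 356737, nat_lit 356737, []⟩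

set_option maxRecDepth 100000 in
theorem h484 : rchk Cd.ms p484 = true := by
  decide +kernel

/-- the row checks of this file -/
noncomputable def rs261 : List RP := [p484]

theorem R261 : RCk Cd.ms rs261 :=
  RCk.cons h484 RCk.nil

end Pool.Agent.Moser.Ck.Cr
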