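import Pool.Agent.Lib_MP_cc07e8_cd.Ds
import Pool.Agent.Lib_MP_cc07e8_ck.CkAsmDefs

/-! # MP_cc07e8_co: row checks of the explicit start, part 262 -/

namespace Pool.Agent.Moser.Ck.Cr

/-- row check 485 -/
noncomputable def p485 : RP := ⟨nat_lit 59, nat_lit 1, nat_lit 22, nat_lit 26, nat_lit 404782, nat_lit 408854, nat_lit 404782, nat_lit 0xa42391dd4a0e, nat_lit 0xa5ca468ad205, nat_lit 0x40000000000000000, nat_lit 0xd, nat_lit 59, nat_lit 359085, nat_lit 357904, nat_lit 359088, [nat_lit 0xa8b5d000010037e, nat_lit 0xa3b280000100122], nat_lit 357889, nat_lit 357889, []⟩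

set_option maxRecDepth 100000 in
theorem h485 : rchk Cd.ms p485 = true := by
  decide +kernel

/-- the row checks of this file -/
noncomputable def rs262 : List RP := [p485]

theorem R262 : RCk Cd.ms rs262 :=
  RCk.cons h485 RCk.nil

end Pool.Agent.Moser.Ck.Cr
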