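import Pool.Agent.Lib_MP_cc07e8_cd.Ds
import Pool.Agent.Lib_MP_cc07e8_ck.CkAsmDefs

/-! # MP_cc07e8_co: row checks of the explicit start, part 263 -/

namespace Pool.Agent.Moser.Ck.Cr

/-- row check 486 -/
noncomputable def p486 : RP := ⟨nat_lit 59, nat_lit 1, nat_lit 22, nat_lit 26, nat_lit 408812, nat_lit 412912, nat_lit 408812, nat_lit 0xa2869c8dda5d, nat_lit 0xa427e301145f, nat_lit 0x40000000000000000, nat_lit 0xd, nat_lit 59, nat_lit 360269, nat_lit 359088, nat_lit 360272, [nat_lit 0xaeb770000100381, nat_lit 0x9f800000010011f], nat_lit 359073, nat_lit 359073, []⟩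

set_option maxRecDepth 100000 in
theorem h486 : rchk Cd.ms p486 = true := by
  decide +kernel

/-- the row checks of this file -/
noncomputable def rs263 : List RP := [p486]

theorem R263 : RCk Cd.ms rs263 :=
  RCk.cons h486 RCk.nil

end Pool.Agent.Moser.Ck.Cr
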