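import Pool.Agent.Lib_MP_cc07e8_cd.Ds
import Pool.Agent.Lib_MP_cc07e8_ck.CkAsmDefs

/-! # MP_cc07e8_co: row checks of the explicit start, part 264 -/

namespace Pool.Agent.Moser.Ck.Cr

/-- row check 487 -/
noncomputable def p487 : RP := ⟨nat_lit 59, nat_lit 1, nat_lit 22, nat_lit 26, nat_lit 412870, nat_lit 417107, nat_lit 412870, nat_lit 0xa0e4288ca0ac, nat_lit 0xa28ad813d4e8, nat_lit 0x40000000000000000, nat_lit 0xd, nat_lit 48, nat_lit 361485, nat_lit 360272, nat_lit 361488, [nat_lit 0xa83040000100384, nat_lit 0x9a23e000010013c], nat_lit 360257, nat_lit 360257, []⟩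

set_option maxRecDepth 100000 in
theorem h487 : rchk Cd.ms p487 = true := by
  decide +kernel

/-- the row checks of this file -/
noncomputable def rs264 : List RP := [p487]

theorem R264 : RCk Cd.ms rs264 :=
  RCk.cons h487 RCk.nil

end Pool.Agent.Moser.Ck.Cr
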