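import Pool.Agent.Lib_MP_cc07e8_cd.Ds
import Pool.Agent.Lib_MP_cc07e8_ck.CkAsmDefs

/-! # MP_cc07e8_co: row checks of the explicit start, part 265 -/

namespace Pool.Agent.Moser.Ck.Cr

/-- row check 488 -/
noncomputable def p488 : RP := ⟨nat_lit 59, nat_lit 1, nat_lit 22, nat_lit 26, nat_lit 417065, nat_lit 421442, nat_lit 417065, nat_lit 0x9f3c7e0a7fbc, nat_lit 0xa0e84e62eb1f, nat_lit 0x40000000000000000, nat_lit 0xe, nat_lit 68, nat_lit 362733, nat_lit 361488, nat_lit 362736, [nat_lit 0xbd57f0000100387, nat_lit 0x8e35d0000100159], nat_lit 361473, nat_lit 361473, []⟩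

set_option maxRecDepth 100000 in
theorem h488 : rchk Cd.ms p488 = true := by
  decide +kernel

/-- the row checks of this file -/
noncomputable def rs265 : List RP := [p488]

theorem R265 : RCk Cd.ms rs265 :=
  RCk.cons h488 RCk.nil

end Pool.Agent.Moser.Ck.Cr
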