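import Pool.Agent.Lib_MP_cc07e8_cd.Ds
import Pool.Agent.Lib_MP_cc07e8_ck.CkAsmDefs

/-! # MP_cc07e8_co: row checks of the explicit start, part 266 -/

namespace Pool.Agent.Moser.Ck.Cr

/-- row check 489 -/
noncomputable def p489 : RP := ⟨nat_lit 59, nat_lit 1, nat_lit 22, nat_lit 26, nat_lit 421399, nat_lit 425807, nat_lit 421399, nat_lit 0x9d9a9c4ac756, nat_lit 0x9f40a6e972f0, nat_lit 0x40000000000000000, nat_lit 0xe, nat_lit 37, nat_lit 363981, nat_lit 362736, nat_lit 363984, [nat_lit 0x8bd72000010038a, nat_lit 0x8abde0000100156], nat_lit 362721, nat_lit 362721, []⟩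

set_option maxRecDepth 100000 in
theorem h489 : rchk Cd.ms p489 = true := by
  decide +kernel

/-- the row checks of this file -/
noncomputable def rs266 : List RP := [p489]

theorem R266 : RCk Cd.ms rs266 :=
  RCk.cons h489 RCk.nil

end Pool.Agent.Moser.Ck.Cr
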