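import Pool.Agent.Lib_MP_cc07e8_cd.Ds
import Pool.Agent.Lib_MP_cc07e8_ck.CkAsmDefs

/-! # MP_cc07e8_co: row checks of the explicit start, part 267 -/

namespace Pool.Agent.Moser.Ck.Cr

/-- row check 490 -/
noncomputable def p490 : RP := ⟨nat_lit 59, nat_lit 1, nat_lit 22, nat_lit 26, nat_lit 425764, nat_lit 430315, nat_lit 425764, nat_lit 0x9bf3f002d897, nat_lit 0x9d9eaf710aa3, nat_lit 0x40000000000000000, nat_lit 0xe, nat_lit 36, nat_lit 365261, nat_lit 363984, nat_lit 365264, [nat_lit 0x9c045000010038d, nat_lit 0x82c1c0000100173], nat_lit 363969, nat_lit 363969, []⟩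

set_option maxRecDepth 100000 in
theorem h490 : rchk Cd.ms p490 = true := by
  decide +kernel

/-- the row checks of this file -/
noncomputable def rs267 : List RP := [p490]

theorem R267 : RCk Cd.ms rs267 :=
  RCk.cons h490 RCk.nil

end Pool.Agent.Moser.Ck.Cr
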