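import Pool.Agent.Lib_MP_cc07e8_cd.Ds
import Pool.Agent.Lib_MP_cc07e8_ck.CkAsmDefs

/-! # MP_cc07e8_co: row checks of the explicit start, part 268 -/

namespace Pool.Agent.Moser.Ck.Cr

/-- row check 491 -/
noncomputable def p491 : RP := ⟨nat_lit 59, nat_lit 1, nat_lit 22, nat_lit 26, nat_lit 430272, nat_lit 434969, nat_lit 430272, nat_lit 0x9a48c450e33c, nat_lit 0x9bf7ed6af636, nat_lit 0x40000000000000000, nat_lit 0xe, nat_lit 59, nat_lit 366573, nat_lit 365264, nat_lit 366576, [nat_lit 0x833300000100391, nat_lit 0x7a0a7000010018f], nat_lit 365249, nat_lit 365249, []⟩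

set_option maxRecDepth 100000 in
theorem h491 : rchk Cd.ms p491 = true := by
  decide +kernel

/-- the row checks of this file -/
noncomputable def rs268 : List RP := [p491]

theorem R268 : RCk Cd.ms rs268 :=
  RCk.cons h491 RCk.nil

end Pool.Agent.Moser.Ck.Cr
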