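import Pool.Agent.Lib_MP_cc07e8_cd.Ds
import Pool.Agent.Lib_MP_cc07e8_ck.CkAsmDefs

/-! # MP_cc07e8_co: row checks of the explicit start, part 269 -/

namespace Pool.Agent.Moser.Ck.Cr

/-- row check 492 -/
noncomputable def p492 : RP := ⟨nat_lit 59, nat_lit 1, nat_lit 22, nat_lit 26, nat_lit 434925, nat_lit 439771, nat_lit 434925, nat_lit 0x98997d323b0c, nat_lit 0x9a4cc33b4a31, nat_lit 0x40000000000000000, nat_lit 0xf, nat_lit 56, nat_lit 367917, nat_lit 366576, nat_lit 367920, [nat_lit 0x810260000100394, nat_lit 0x783a600001001ac], nat_lit 366561, nat_lit 366561, []⟩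

set_option maxRecDepth 100000 in
theorem h492 : rchk Cd.ms p492 = true := by
  decide +kernel

/-- the row checks of this file -/
noncomputable def rs269 : List RP := [p492]

theorem R269 : RCk Cd.ms rs269 :=
  RCk.cons h492 RCk.nil

end Pool.Agent.Moser.Ck.Cr
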