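import Pool.Agent.Lib_MP_cc07e8_cd.Ds
import Pool.Agent.Lib_MP_cc07e8_ck.CkAsmDefs

/-! # MP_cc07e8_co: row checks of the explicit start, part 270 -/

namespace Pool.Agent.Moser.Ck.Cr

/-- row check 493 -/
noncomputable def p493 : RP := ⟨nat_lit 59, nat_lit 1, nat_lit 22, nat_lit 26, nat_lit 439724, nat_lit 444723, nat_lit 439727, nat_lit 0x96e67e76e851, nat_lit 0x989daa215a24, nat_lit 0x40000000000000000, nat_lit 0xf, nat_lit 56, nat_lit 369293, nat_lit 367920, nat_lit 369296, [nat_lit 0x741cb0000100397, nat_lit 0x6ba3500001001c9], nat_lit 367905, nat_lit 367905, []⟩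

set_option maxRecDepth 100000 in
theorem h493 : rchk Cd.ms p493 = true := by
  decide +kernel

/-- the row checks of this file -/
noncomputable def rs270 : List RP := [p493]

theorem R270 : RCk Cd.ms rs270 :=
  RCk.cons h493 RCk.nil

end Pool.Agent.Moser.Ck.Cr
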