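import Pool.Agent.Lib_MP_cc07e8_cd.Ds
import Pool.Agent.Lib_MP_cc07e8_ck.CkAsmDefs

/-! # MP_cc07e8_co: row checks of the explicit start, part 271 -/

namespace Pool.Agent.Moser.Ck.Cr

/-- row check 494 -/
noncomputable def p494 : RP := ⟨nat_lit 59, nat_lit 1, nat_lit 22, nat_lit 26, nat_lit 444671, nat_lit 449830, nat_lit 444679, nat_lit 0x952fea461da9, nat_lit 0x96eb02ef7ebc, nat_lit 0x40000000000000000, nat_lit 0xf, nat_lit 72, nat_lit 370701, nat_lit 369296, nat_lit 370704, [nat_lit 0x7393b000010039b, nat_lit 0x6df1800001001e5], nat_lit 369281, nat_lit 369281, []⟩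

set_option maxRecDepth 100000 in
theorem h494 : rchk Cd.ms p494 = true := by
  decide +kernel

/-- the row checks of this file -/
noncomputable def rs271 : List RP := [p494]

theorem R271 : RCk Cd.ms rs271 :=
  RCk.cons h494 RCk.nil

end Pool.Agent.Moser.Ck.Cr
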