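import Pool.Agent.Lib_MP_cc07e8_cd.Ds
import Pool.Agent.Lib_MP_cc07e8_ck.CkAsmDefs

/-! # MP_cc07e8_co: row checks of the explicit start, part 272 -/

namespace Pool.Agent.Moser.Ck.Cr

/-- row check 495 -/
noncomputable def p495 : RP := ⟨nat_lit 59, nat_lit 1, nat_lit 22, nat_lit 26, nat_lit 449785, nat_lit 455210, nat_lit 449785, nat_lit 0x936c89194517, nat_lit 0x9533bc744b10, nat_lit 0x40000000000000000, nat_lit 0x10, nat_lit 38, nat_lit 372173, nat_lit 370704, nat_lit 372176, [nat_lit 0x6140c000010039e, nat_lit 0x5ce130000100222], nat_lit 370689, nat_lit 370689, []⟩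

set_option maxRecDepth 100000 in
theorem h495 : rchk Cd.ms p495 = true := by
  decide +kernel

/-- the row checks of this file -/
noncomputable def rs272 : List RP := [p495]

theorem R272 : RCk Cd.ms rs272 :=
  RCk.cons h495 RCk.nil

end Pool.Agent.Moser.Ck.Cr
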