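import Pool.Agent.Lib_MP_cc07e8_cd.Ds
import Pool.Agent.Lib_MP_cc07e8_ck.CkAsmDefs

/-! # MP_cc07e8_co: row checks of the explicit start, part 273 -/

namespace Pool.Agent.Moser.Ck.Cr

/-- row check 496 -/
noncomputable def p496 : RP := ⟨nat_lit 59, nat_lit 1, nat_lit 22, nat_lit 26, nat_lit 455158, nat_lit 460632, nat_lit 455165, nat_lit 0x91b04cc1c270, nat_lit 0x9370d8e54991, nat_lit 0x40000000000000000, nat_lit 0x10, nat_lit 62, nat_lit 373645, nat_lit 372176, nat_lit 373648, [nat_lit 0x6c27d00001003a2, nat_lit 0x5a4bd000010021e], nat_lit 372161, nat_lit 372161, []⟩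

set_option maxRecDepth 100000 in
theorem h496 : rchk Cd.ms p496 = true := by
  decide +kernel

/-- the row checks of this file -/
noncomputable def rs273 : List RP := [p496]

theorem R273 : RCk Cd.ms rs273 :=
  RCk.cons h496 RCk.nil

end Pool.Agent.Moser.Ck.Cr
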