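import Pool.Agent.Lib_MP_cc07e8_cd.Ds
import Pool.Agent.Lib_MP_cc07e8_ck.CkAsmDefs

/-! # MP_cc07e8_co: row checks of the explicit start, part 274 -/

namespace Pool.Agent.Moser.Ck.Cr

/-- row check 497 -/
noncomputable def p497 : RP := ⟨nat_lit 59, nat_lit 1, nat_lit 22, nat_lit 25, nat_lit 460587, nat_lit 466217, nat_lit 460587, nat_lit 0x8ff183354757, nat_lit 0x91b3f19876e0, nat_lit 0x40000000000000000, nat_lit 0x11, nat_lit 53, nat_lit 375149, nat_lit 373648, nat_lit 375152, [nat_lit 0x6213400001003a6, nat_lit 0x564f9000010023a], nat_lit 373633, nat_lit 373633, []⟩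

set_option maxRecDepth 100000 in
theorem h497 : rchk Cd.ms p497 = true := by
  decide +kernel

/-- the row checks of this file -/
noncomputable def rs274 : List RP := [p497]

theorem R274 : RCk Cd.ms rs274 :=
  RCk.cons h497 RCk.nil

end Pool.Agent.Moser.Ck.Cr
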