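import Pool.Agent.Lib_MP_cc07e8_cd.Ds
import Pool.Agent.Lib_MP_cc07e8_ck.CkAsmDefs

/-! # MP_cc07e8_co: row checks of the explicit start, part 275 -/

namespace Pool.Agent.Moser.Ck.Cr

/-- row check 498 -/
noncomputable def p498 : RP := ⟨nat_lit 59, nat_lit 1, nat_lit 22, nat_lit 25, nat_lit 466171, nat_lit 472208, nat_lit 466171, nat_lit 0x8e1dfec4ad72, nat_lit 0x8ff526116568, nat_lit 0x40000000000000000, nat_lit 0x11, nat_lit 57, nat_lit 376749, nat_lit 375152, nat_lit 376752, [nat_lit 0x7d13c00001003a9, nat_lit 0x61c1a0000100297], nat_lit 375137, nat_lit 375137, []⟩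

set_option maxRecDepth 100000 in
theorem h498 : rchk Cd.ms p498 = true := by
  decide +kernel

/-- the row checks of this file -/
noncomputable def rs275 : List RP := [p498]

theorem R275 : RCk Cd.ms rs275 :=
  RCk.cons h498 RCk.nil

end Pool.Agent.Moser.Ck.Cr
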