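import Pool.Agent.Lib_MP_cc07e8_cd.Ds
import Pool.Agent.Lib_MP_cc07e8_ck.CkAsmDefs

/-! # MP_cc07e8_co: row checks of the explicit start, part 276 -/

namespace Pool.Agent.Moser.Ck.Cr

/-- row check 499 -/
noncomputable def p499 : RP := ⟨nat_lit 59, nat_lit 1, nat_lit 22, nat_lit 25, nat_lit 472162, nat_lit 479950, nat_lit 472162, nat_lit 0x8bd31f6f4b31, nat_lit 0x8e218a282312, nat_lit 0x40000000000000000, nat_lit 0x12, nat_lit 77, nat_lit 378797, nat_lit 376752, nat_lit 378800, [nat_lit 0x4f7dd00001003ad, nat_lit 0x382ac00001003b0, nat_lit 0xe73f00001000a3], nat_lit 376737, nat_lit 376737, []⟩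

set_option maxRecDepth 100000 in
theorem h499 : rchk Cd.ms p499 = true := by
  decide +kernel

/-- row check 500 -/
noncomputable def p500 : RP := ⟨nat_lit 59, nat_lit 2, nat_lit 22, nat_lit 21, nat_lit 479904, nat_lit 494447, nat_lit 479904, nat_lit 0x87b99f8df661, nat_lit 0x8bd68dc8ba21, nat_lit 0x40000000000000000, nat_lit 0x13, nat_lit 66, nat_lit 382573, nat_lit 378800, nat_lit 382576, [nat_lit 0xace900001003b3, nat_lit 0xff0900001003b5, nat_lit 0x1baec000400001d, nat_lit 0x7fe30001800001], nat_lit 378785, nat_lit 378785, []⟩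

set_option maxRecDepth 100000 in
theorem h500 : rchk Cd.ms p500 = true := by
  decide +kernel

/-- the row checks of this file -/
noncomputable def rs276 : List RP := [p499, p500]

theorem R276 : RCk Cd.ms rs276 :=
  RCk.cons h499 (RCk.cons h500 RCk.nil)

end Pool.Agent.Moser.Ck.Cr
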