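import Pool.Agent.Lib_MP_cc07e8_cd.Ds
import Pool.Agent.Lib_MP_cc07e8_ck.CkAsmDefs

/-! # MP_cc07e8_co: row checks of the explicit start, part 277 -/

namespace Pool.Agent.Moser.Ck.Cr

/-- row check 501 -/
noncomputable def p501 : RP := ⟨nat_lit 60, nat_lit 1, nat_lit 24, nat_lit 23, nat_lit 123587, nat_lit 134592, nat_lit 123599, nat_lit 0x7ca703c60e5d, nat_lit 0x87c094e07345, nat_lit 0x10000000000000000, nat_lit 0x16, nat_lit 21, nat_lit 393581, nat_lit 382576, nat_lit 393584, [nat_lit 0x3ef14000400001d, nat_lit 0x25f1d000400001e, nat_lit 0x28944000400001e, nat_lit 0x34b6c000400001e, nat_lit 0x21f76000400001e, nat_lit 0x2b0840004000017], nat_lit 382561, nat_lit 382561, []⟩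

set_option maxRecDepth 100000 in
theorem h501 : rchk Cd.ms p501 = true := by
  decide +kernel

/-- row check 502 -/
noncomputable def p502 : RP := ⟨nat_lit 60, nat_lit 1, nat_lit 25, nat_lit 23, nat_lit 67289, nat_lit 75771, nat_lit 67289, nat_lit 0x6eb5c311ff70, nat_lit 0x7caa559bc841, nat_lit 0x8000000000000000, nat_lit 0x1c, nat_lit 11, nat_lit 409453, nat_lit 393584, nat_lit 409456, [nat_lit 0x1ea38000400001e, nat_lit 0x185cb000400001e, nat_lit 0x1d836000400001f, nat_lit 0x2adcb000400001f, nat_lit 0x256c4000400001f, nat_lit 0x13a63000400001f, nat_lit 0x2c697000400001f, nat_lit 0x2349c000400001f, nat_lit 0x124510004000002], nat_lit 393569, nat_lit 393569, []⟩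

set_option maxRecDepth 100000 in
theorem h502 : rchk Cd.ms p502 = true := by
  decide +kernel

/-- row check 503 -/
noncomputable def p503 : RP := ⟨nat_lit 60, nat_lit 1, nat_lit 25, nat_lit 23, nat_lit 75761, nat_lit 85082, nat_lit 75763, nat_lit 0x62982a071cea, nat_lit 0x6eb980c07874, nat_lit 0x8000000000000000, nat_lit 0x23, nat_lit 12, nat_lit 425581, nat_lit 409456, nat_lit 425584, [nat_lit 0x1b5e2000400001f, nat_lit 0x1c1910004000020, nat_lit 0x1d9860004000020, nat_lit 0x1a5750004000020, nat_lit 0x214300004000020, nat_lit 0x1ddb40004000020, nat_lit 0x15eec0004000020, nat_lit 0x16f3e000400001d], nat_lit 409441, nat_lit 409441, []⟩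

set_option maxRecDepth 100000 in
theorem h503 : rchk Cd.ms p503 = true := by
  decide +kernel

/-- the row checks of this file -/
noncomputable def rs277 : List RP := [p501, p502, p503]

theorem R277 : RCk Cd.ms rs277 :=
  RCk.cons h501 (RCk.cons h502 (RCk.cons h503 RCk.nil))

end Pool.Agent.Moser.Ck.Cr
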