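import Pool.Agent.Lib_MP_cc07e8_cd.Ds
import Pool.Agent.Lib_MP_cc07e8_ck.CkAsmDefs

/-! # MP_cc07e8_co: row checks of the explicit start, part 278 -/

namespace Pool.Agent.Moser.Ck.Cr

/-- row check 504 -/
noncomputable def p504 : RP := ⟨nat_lit 60, nat_lit 1, nat_lit 25, nat_lit 23, nat_lit 85073, nat_lit 94795, nat_lit 85073, nat_lit 0x587df9d65a15, nat_lit 0x629ad598fee9, nat_lit 0x8000000000000000, nat_lit 0x2b, nat_lit 13, nat_lit 441197, nat_lit 425584, nat_lit 441200, [nat_lit 0x130370004000021, nat_lit 0x2e20f0004000021, nat_lit 0x1cd810004000021, nat_lit 0x1aefe0004000021, nat_lit 0x29cff0004000021, nat_lit 0x1aa130004000022, nat_lit 0x1d0d50004000022, nat_lit 0xdc73000400000b], nat_lit 425569, nat_lit 425569, []⟩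

set_option maxRecDepth 100000 in
theorem h504 : rchk Cd.ms p504 = true := by
  decide +kernel

/-- row check 505 -/
noncomputable def p505 : RP := ⟨nat_lit 60, nat_lit 1, nat_lit 25, nat_lit 23, nat_lit 94786, nat_lit 105398, nat_lit 94786, nat_lit 0x4f96fe89adda, nat_lit 0x5880207f0bee, nat_lit 0x8000000000000000, nat_lit 0x35, nat_lit 15, nat_lit 457069, nat_lit 441200, nat_lit 457072, [nat_lit 0x1665a0004000022, nat_lit 0x287310004000022, nat_lit 0x12da30004000022, nat_lit 0xe6de0004000022, nat_lit 0xffa60004000023, nat_lit 0x2849a0004000023, nat_lit 0x1eb9d0004000023, nat_lit 0x110b40004000007], nat_lit 441185, nat_lit 441185, []⟩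

set_option maxRecDepth 100000 in
theorem h505 : rchk Cd.ms p505 = true := by
  decide +kernel

/-- row check 506 -/
noncomputable def p506 : RP := ⟨nat_lit 60, nat_lit 1, nat_lit 25, nat_lit 23, nat_lit 105389, nat_lit 116007, nat_lit 105389, nat_lit 0x484fac48c2eb, nat_lit 0x4f98bbf92169, nat_lit 0x8000000000000000, nat_lit 0x40, nat_lit 16, nat_lit 471917, nat_lit 457072, nat_lit 471920, [nat_lit 0x160de0004000023, nat_lit 0x168850004000023, nat_lit 0x170880004000024, nat_lit 0xe4840004000024, nat_lit 0xc6e10004000024, nat_lit 0x18a5f0004000024, nat_lit 0x1acca0004000012], nat_lit 457057, nat_lit 457057, []⟩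

set_option maxRecDepth 100000 in
theorem h506 : rchk Cd.ms p506 = true := by
  decide +kernel

/-- the row checks of this file -/
noncomputable def rs278 : List RP := [p504, p505, p506]

theorem R278 : RCk Cd.ms rs278 :=
  RCk.cons h504 (RCk.cons h505 (RCk.cons h506 RCk.nil))

end Pool.Agent.Moser.Ck.Cr
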