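import Pool.Agent.Lib_MP_cc07e8_cd.Ds
import Pool.Agent.Lib_MP_cc07e8_ck.CkAsmDefs

/-! # MP_cc07e8_co: row checks of the explicit start, part 279 -/

namespace Pool.Agent.Moser.Ck.Cr

/-- row check 507 -/
noncomputable def p507 : RP := ⟨nat_lit 60, nat_lit 1, nat_lit 25, nat_lit 22, nat_lit 115987, nat_lit 127506, nat_lit 115997, nat_lit 0x41ca3767e499, nat_lit 0x4852dd7157ed, nat_lit 0x8000000000000000, nat_lit 0x4d, nat_lit 17, nat_lit 487021, nat_lit 471920, nat_lit 487024, [nat_lit 0x312c30004000024, nat_lit 0x114680004000025, nat_lit 0x10d530004000025, nat_lit 0xf1400004000025, nat_lit 0xf1f10004000025, nat_lit 0xd5b20004000025, nat_lit 0xcb20000400000f], nat_lit 471905, nat_lit 471905, []⟩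

set_option maxRecDepth 100000 in
theorem h507 : rchk Cd.ms p507 = true := by
  decide +kernel

/-- row check 508 -/
noncomputable def p508 : RP := ⟨nat_lit 60, nat_lit 1, nat_lit 25, nat_lit 22, nat_lit 127496, nat_lit 139101, nat_lit 127496, nat_lit 0x3c4e4e0d089c, nat_lit 0x41cb8994ec21, nat_lit 0x8000000000000000, nat_lit 0x5c, nat_lit 18, nat_lit 501357, nat_lit 487024, nat_lit 501360, [nat_lit 0xbfd00004000026, nat_lit 0xea4f0004000026, nat_lit 0x15fdc0004000026, nat_lit 0x8d960004000026, nat_lit 0x1e0fe0004000026, nat_lit 0x111410004000022], nat_lit 487009, nat_lit 487009, []⟩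

set_option maxRecDepth 100000 in
theorem h508 : rchk Cd.ms p508 = true := by
  decide +kernel

/-- row check 509 -/
noncomputable def p509 : RP := ⟨nat_lit 60, nat_lit 1, nat_lit 25, nat_lit 22, nat_lit 139087, nat_lit 150702, nat_lit 139090, nat_lit 0x37a9de46ee7e, nat_lit 0x3c4fdbdda7a6, nat_lit 0x8000000000000000, nat_lit 0x6c, nat_lit 18, nat_lit 514925, nat_lit 501360, nat_lit 514928, [nat_lit 0xab910004000027, nat_lit 0xb4830004000027, nat_lit 0x1649f0004000027, nat_lit 0x109610004000027, nat_lit 0xd76b0004000027, nat_lit 0x15a290004000011], nat_lit 501345, nat_lit 501345, []⟩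

set_option maxRecDepth 100000 in
theorem h509 : rchk Cd.ms p509 = true := by
  decide +kernel

/-- the row checks of this file -/
noncomputable def rs279 : List RP := [p507, p508, p509]

theorem R279 : RCk Cd.ms rs279 :=
  RCk.cons h507 (RCk.cons h508 (RCk.cons h509 RCk.nil))

end Pool.Agent.Moser.Ck.Cr
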