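import Pool.Agent.Lib_MP_cc07e8_cd.Ds
import Pool.Agent.Lib_MP_cc07e8_ck.CkAsmDefs

/-! # MP_cc07e8_co: row checks of the explicit start, part 280 -/

namespace Pool.Agent.Moser.Ck.Cr

/-- row check 510 -/
noncomputable def p510 : RP := ⟨nat_lit 60, nat_lit 1, nat_lit 25, nat_lit 22, nat_lit 150691, nat_lit 162222, nat_lit 150691, nat_lit 0x33b5ee582a17, nat_lit 0x37aae8916146, nat_lit 0x8000000000000000, nat_lit 0x7d, nat_lit 20, nat_lit 527725, nat_lit 514928, nat_lit 527728, [nat_lit 0x17a560004000028, nat_lit 0xdce80004000028, nat_lit 0xab3a0004000028, nat_lit 0xcae70004000028, nat_lit 0xf24c0004000028], nat_lit 514913, nat_lit 514913, []⟩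

set_option maxRecDepth 100000 in
theorem h510 : rchk Cd.ms p510 = true := by
  decide +kernel

/-- row check 511 -/
noncomputable def p511 : RP := ⟨nat_lit 60, nat_lit 1, nat_lit 25, nat_lit 22, nat_lit 162207, nat_lit 173820, nat_lit 162210, nat_lit 0x3042a4057d94, nat_lit 0x33b727bb60e8, nat_lit 0x8000000000000000, nat_lit 0x8f, nat_lit 21, nat_lit 540013, nat_lit 527728, nat_lit 540016, [nat_lit 0x175240004000029, nat_lit 0x1e8a20004000029, nat_lit 0x841f0004000029, nat_lit 0x9c9b0004000029, nat_lit 0xbb05000400001c], nat_lit 527713, nat_lit 527713, []⟩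

set_option maxRecDepth 100000 in
theorem h511 : rchk Cd.ms p511 = true := by
  decide +kernel

/-- row check 512 -/
noncomputable def p512 : RP := ⟨nat_lit 60, nat_lit 2, nat_lit 25, nat_lit 21, nat_lit 173805, nat_lit 185958, nat_lit 173808, nat_lit 0x2d1c37faf4b8, nat_lit 0x3043b4fb42fa, nat_lit 0x8000000000000000, nat_lit 0xa4, nat_lit 22, nat_lit 552301, nat_lit 540016, nat_lit 552304, [nat_lit 0x21aa9000400002a, nat_lit 0x7e12000400002a, nat_lit 0xd09e000400002a, nat_lit 0xd05b000400002a, nat_lit 0xacfa0004000018], nat_lit 540001, nat_lit 540001, []⟩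

set_option maxRecDepth 100000 in
theorem h512 : rchk Cd.ms p512 = true := by
  decide +kernel

/-- the row checks of this file -/
noncomputable def rs280 : List RP := [p510, p511, p512]

theorem R280 : RCk Cd.ms rs280 :=
  RCk.cons h510 (RCk.cons h511 (RCk.cons h512 RCk.nil))

end Pool.Agent.Moser.Ck.Cr
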