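import Pool.Agent.Lib_MP_cc07e8_cd.Ds
import Pool.Agent.Lib_MP_cc07e8_ck.CkAsmDefs

/-! # MP_cc07e8_co: row checks of the explicit start, part 281 -/

namespace Pool.Agent.Moser.Ck.Cr

/-- row check 513 -/
noncomputable def p513 : RP := ⟨nat_lit 61, nat_lit 1, nat_lit 26, nat_lit 22, nat_lit 92970, nat_lit 103433, nat_lit 92972, nat_lit 0x288d09880679, nat_lit 0x2d1d562ba0ae, nat_lit 0x4000000000000000, nat_lit 0xcb, nat_lit 12, nat_lit 572269, nat_lit 552304, nat_lit 572272, [nat_lit 0x92bc000400002b, nat_lit 0xcc84000400002b, nat_lit 0x1490c000400002b, nat_lit 0x9a4e000400002b, nat_lit 0x114ed000400002c, nat_lit 0x6b2f000400002c, nat_lit 0xb75f000400002c, nat_lit 0x55cd0004000008], nat_lit 552289, nat_lit 552289, []⟩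

set_option maxRecDepth 100000 in
theorem h513 : rchk Cd.ms p513 = true := by
  decide +kernel

/-- row check 514 -/
noncomputable def p514 : RP := ⟨nat_lit 61, nat_lit 1, nat_lit 26, nat_lit 22, nat_lit 103425, nat_lit 114345, nat_lit 103425, nat_lit 0x24ae5ea508a3, nat_lit 0x288dd7182e32, nat_lit 0x4000000000000000, nat_lit 0xf8, nat_lit 12, nat_lit 591725, nat_lit 572272, nat_lit 591728, [nat_lit 0x19a1b000400002c, nat_lit 0xd4b8000400002c, nat_lit 0x9f1b000400002d, nat_lit 0x7188000400002d, nat_lit 0x748b000400002d, nat_lit 0x577d000400002d, nat_lit 0x947a0004000024], nat_lit 572257, nat_lit 572257, []⟩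

set_option maxRecDepth 100000 in
theorem h514 : rchk Cd.ms p514 = true := by
  decide +kernel

/-- row check 515 -/
noncomputable def p515 : RP := ⟨nat_lit 61, nat_lit 1, nat_lit 26, nat_lit 21, nat_lit 114337, nat_lit 125683, nat_lit 114337, nat_lit 0x215f41169426, nat_lit 0x24af06d83842, nat_lit 0x4000000000000000, nat_lit 0x12b, nat_lit 14, nat_lit 610669, nat_lit 591728, nat_lit 610672, [nat_lit 0xb2d2000400002e, nat_lit 0xe3d5000400002e, nat_lit 0xccfe000400002e, nat_lit 0x9a15000400002e, nat_lit 0x755a000400002f, nat_lit 0x9e01000400002f, nat_lit 0x53160004000012], nat_lit 591713, nat_lit 591713, []⟩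

set_option maxRecDepth 100000 in
theorem h515 : rchk Cd.ms p515 = true := by
  decide +kernel

/-- row check 516 -/
noncomputable def p516 : RP := ⟨nat_lit 61, nat_lit 1, nat_lit 26, nat_lit 21, nat_lit 125673, nat_lit 137746, nat_lit 125674, nat_lit 0x1e7315d84023, nat_lit 0x215fef1df88a, nat_lit 0x4000000000000000, nat_lit 0x167, nat_lit 15, nat_lit 629613, nat_lit 610672, nat_lit 629616, [nat_lit 0xc275000400002f, nat_lit 0x1005f000400002f, nat_lit 0x84420004000030, nat_lit 0xe2590004000030, nat_lit 0xaec60004000030, nat_lit 0xbfde0004000030, nat_lit 0x404c000400000a], nat_lit 610657, nat_lit 610657, []⟩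

set_option maxRecDepth 100000 in
theorem h516 : rchk Cd.ms p516 = true := by
  decide +kernel

/-- row check 517 -/
noncomputable def p517 : RP := ⟨nat_lit 61, nat_lit 1, nat_lit 26, nat_lit 21, nat_lit 137737, nat_lit 149845, nat_lit 137737, nat_lit 0x1bfdaef1156c, nat_lit 0x1e73983cbd51, nat_lit 0x4000000000000000, nat_lit 0x1a9, nat_lit 16, nat_lit 647533, nat_lit 629616, nat_lit 647536, [nat_lit 0x773a0004000031, nat_lit 0x137ad0004000031, nat_lit 0xaa3f0004000031, nat_lit 0x90280004000031, nat_lit 0xc4600004000032, nat_lit 0xb3940004000022], nat_lit 629601, nat_lit 629601, []⟩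

set_option maxRecDepth 100000 in
theorem h517 : rchk Cd.ms p517 = true := by
  decide +kernel

/-- row check 518 -/
noncomputable def p518 : RP := ⟨nat_lit 61, nat_lit 1, nat_lit 26, nat_lit 21, nat_lit 149836, nat_lit 161884, nat_lit 149836, nat_lit 0x19e8c90cdc1a, nat_lit 0x1bfe1d20898e, nat_lit 0x4000000000000000, nat_lit 0x1f0, nat_lit 16, nat_lit 664429, nat_lit 647536, nat_lit 664432, [nat_lit 0x56020004000032, nat_lit 0x7e7d0004000032, nat_lit 0xa8be0004000033, nat_lit 0x53f20004000033, nat_lit 0x104950004000033, nat_lit 0x3e11000400000b], nat_lit 647521, nat_lit 647521, []⟩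

set_option maxRecDepth 100000 in
theorem h518 : rchk Cd.ms p518 = true := by
  decide +kernel

/-- the row checks of this file -/
noncomputable def rs281 : List RP := [p513, p514, p515, p516, p517, p518]

theorem R281 : RCk Cd.ms rs281 :=
  RCk.cons h513 (RCk.cons h514 (RCk.cons h515 (RCk.cons h516 (RCk.cons h517 (RCk.cons h518 RCk.nil)))))

end Pool.Agent.Moser.Ck.Cr
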