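import Pool.Agent.Lib_MP_cc07e8_cd.Ds
import Pool.Agent.Lib_MP_cc07e8_ck.CkAsmDefs

/-! # MP_cc07e8_co: row checks of the explicit start, part 282 -/

namespace Pool.Agent.Moser.Ck.Cr

/-- row check 519 -/
noncomputable def p519 : RP := ⟨nat_lit 61, nat_lit 1, nat_lit 26, nat_lit 21, nat_lit 161872, nat_lit 173961, nat_lit 161874, nat_lit 0x181c503fbcd9, nat_lit 0x19e946ed4ce6, nat_lit 0x4000000000000000, nat_lit 0x23d, nat_lit 17, nat_lit 680557, nat_lit 664432, nat_lit 680560, [nat_lit 0x85eb0004000033, nat_lit 0x7ea40004000024, nat_lit 0xe60400040000a5], nat_lit 664417, nat_lit 664417, []⟩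

set_option maxRecDepth 100000 in
theorem h519 : rchk Cd.ms p519 = true := by
  decide +kernel

/-- row check 520 -/
noncomputable def p520 : RP := ⟨nat_lit 61, nat_lit 1, nat_lit 26, nat_lit 20, nat_lit 173950, nat_lit 186624, nat_lit 173950, nat_lit 0x167980e0bf08, nat_lit 0x181cb42b7ac2, nat_lit 0x4000000000000000, nat_lit 0x293, nat_lit 19, nat_lit 696685, nat_lit 680560, nat_lit 696688, [nat_lit 0x90ca00040000d4, nat_lit 0x455f0004000028], nat_lit 680545, nat_lit 680545, []⟩

set_option maxRecDepth 100000 in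
theorem h520 : rchk Cd.ms p520 = true := by
  decide +kernel

/-- row check 521 -/
noncomputable def p521 : RP := ⟨nat_lit 61, nat_lit 1, nat_lit 26, nat_lit 20, nat_lit 186613, nat_lit 199241, nat_lit 186613, nat_lit 0x150d29365fea, nat_lit 0x1679d7b2d673, nat_lit 0x4000000000000000, nat_lit 0x2ef, nat_lit 19, nat_lit 712045, nat_lit 696688, nat_lit 712048, [nat_lit 0x882f00040000d9, nat_lit 0x48110004000017], nat_lit 696673, nat_lit 696673, []⟩

set_option maxRecDepth 100000 in
theorem h521 : rchk Cd.ms p521 = true := by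
  decide +kernel

/-- row check 522 -/
noncomputable def p522 : RP := ⟨nat_lit 61, nat_lit 1, nat_lit 26, nat_lit 20, nat_lit 199230, nat_lit 211967, nat_lit 199230, nat_lit 0x13c99bc2a95b, nat_lit 0x150d756292cc, nat_lit 0x4000000000000000, nat_lit 0x352, nat_lit 21, nat_lit 726893, nat_lit 712048, nat_lit 726896, [nat_lit 0x12e9e00040000de, nat_lit 0x1f3a000400000a], nat_lit 712033, nat_lit 712033, []⟩

set_option maxRecDepth 100000 in
theorem h522 : rchk Cd.ms p522 = true := by
  decide +kernel

/-- row check 523 -/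
noncomputable def p523 : RP := ⟨nat_lit 61, nat_lit 1, nat_lit 26, nat_lit 20, nat_lit 211954, nat_lit 224525, nat_lit 211956, nat_lit 0x12ae4824e0cd, nat_lit 0x13c9eb4c5388, nat_lit 0x4000000000000000, nat_lit 0x3ba, nat_lit 21, nat_lit 740973, nat_lit 726896, nat_lit 740976, [nat_lit 0x151be00040000dc], nat_lit 726881, nat_lit 726881, []⟩

set_option maxRecDepth 100000 in
theorem h523 : rchk Cd.ms p523 = true := by
  decide +kernel

/-- row check 524 -/
noncomputable def p524 : RP := ⟨nat_lit 61, nat_lit 1, nat_lit 26, nat_lit 20, nat_lit 224513, nat_lit 237086, nat_lit 224513, nat_lit 0x11b0e9ae56b0, nat_lit 0x12ae89946c20, nat_lit 0x4000000000000000, nat_lit 0x428, nat_lit 22, nat_lit 754541, nat_lit 740976, nat_lit 754544, [nat_lit 0x798200040000d4], nat_lit 740961, nat_lit 740961, []⟩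

set_option maxRecDepth 100000 in
theorem h524 : rchk Cd.ms p524 = true := by
  decide +kernel

/-- the row checks of this file -/
noncomputable def rs282 : List RP := [p519, p520, p521, p522, p523, p524]

theorem R282 : RCk Cd.ms rs282 :=
  RCk.cons h519 (RCk.cons h520 (RCk.cons h521 (RCk.cons h522 (RCk.cons h523 (RCk.cons h524 RCk.nil)))))

end Pool.Agent.Moser.Ck.Cr
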