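import Pool.Agent.Lib_MP_cc07e8_cd.Ds
import Pool.Agent.Lib_MP_cc07e8_ck.CkAsmDefs

/-! # MP_cc07e8_co: row checks of the explicit start, part 283 -/

namespace Pool.Agent.Moser.Ck.Cr

/-- row check 525 -/
noncomputable def p525 : RP := ⟨nat_lit 61, nat_lit 1, nat_lit 26, nat_lit 20, nat_lit 237074, nat_lit 249857, nat_lit 237074, nat_lit 0x10c96ce88b4d, nat_lit 0x11b1245dd778, nat_lit 0x4000000000000000, nat_lit 0x49d, nat_lit 23, nat_lit 767853, nat_lit 754544, nat_lit 767856, [nat_lit 0xe8dc00040000d0], nat_lit 754529, nat_lit 754529, []⟩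

set_option maxRecDepth 100000 in
theorem h525 : rchk Cd.ms p525 = true := by
  decide +kernel

/-- row check 526 -/
noncomputable def p526 : RP := ⟨nat_lit 61, nat_lit 1, nat_lit 26, nat_lit 19, nat_lit 249844, nat_lit 263079, nat_lit 249844, nat_lit 0xff1714acdf2, nat_lit 0x10c9a626c39f, nat_lit 0x4000000000000000, nat_lit 0x51e, nat_lit 25, nat_lit 781165, nat_lit 767856, nat_lit 781168, [nat_lit 0x9e4b00040000d0], nat_lit 767841, nat_lit 767841, []⟩

set_option maxRecDepth 100000 in
theorem h526 : rchk Cd.ms p526 = true := by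
  decide +kernel

/-- row check 527 -/
noncomputable def p527 : RP := ⟨nat_lit 61, nat_lit 1, nat_lit 27, nat_lit 20, nat_lit 131529, nat_lit 144074, nat_lit 131532, nat_lit 0xe8e5af44314, nat_lit 0xff1c4b3ed66, nat_lit 0x2000000000000000, nat_lit 0x623, nat_lit 12, nat_lit 805229, nat_lit 781168, nat_lit 805232, [nat_lit 0x9b1800040000f4, nat_lit 0x5a2c0004000084], nat_lit 781153, nat_lit 781153, []⟩

set_option maxRecDepth 100000 in
theorem h527 : rchk Cd.ms p527 = true := by
  decide +kernel

/-- row check 528 -/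
noncomputable def p528 : RP := ⟨nat_lit 61, nat_lit 1, nat_lit 27, nat_lit 20, nat_lit 144067, nat_lit 156799, nat_lit 144067, nat_lit 0xd5ff1872fa8, nat_lit 0xe8e894e14bc, nat_lit 0x2000000000000000, nat_lit 0x745, nat_lit 13, nat_lit 828269, nat_lit 805232, nat_lit 828272, [nat_lit 0x543500040000fb, nat_lit 0x654f000400006d], nat_lit 805217, nat_lit 805217, []⟩

set_option maxRecDepth 100000 in
theorem h528 : rchk Cd.ms p528 = true := by
  decide +kernel

/-- row check 529 -/
noncomputable def p529 : RP := ⟨nat_lit 61, nat_lit 1, nat_lit 27, nat_lit 20, nat_lit 156791, nat_lit 169331, nat_lit 156791, nat_lit 0xc628a8c1b85, nat_lit 0xd601e40646b, nat_lit 0x2000000000000000, nat_lit 0x87a, nat_lit 15, nat_lit 849773, nat_lit 828272, nat_lit 849776, [nat_lit 0xd6290004000102, nat_lit 0x6c7a000400004e], nat_lit 828257, nat_lit 828257, []⟩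

set_option maxRecDepth 100000 in
theorem h529 : rchk Cd.ms p529 = true := by
  decide +kernel

/-- row check 530 -/
noncomputable def p530 : RP := ⟨nat_lit 61, nat_lit 1, nat_lit 27, nat_lit 19, nat_lit 169323, nat_lit 182514, nat_lit 169323, nat_lit 0xb7d88639edb, nat_lit 0xc62b0e54d21, nat_lit 0x2000000000000000, nat_lit 0x9d9, nat_lit 15, nat_lit 871277, nat_lit 849776, nat_lit 871280, [nat_lit 0x5d610004000109, nat_lit 0x59f00004000047], nat_lit 849761, nat_lit 849761, []⟩

set_option maxRecDepth 100000 in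
theorem h530 : rchk Cd.ms p530 = true := by
  decide +kernel

/-- the row checks of this file -/
noncomputable def rs283 : List RP := [p525, p526, p527, p528, p529, p530]

theorem R283 : RCk Cd.ms rs283 :=
  RCk.cons h525 (RCk.cons h526 (RCk.cons h527 (RCk.cons h528 (RCk.cons h529 (RCk.cons h530 RCk.nil)))))

end Pool.Agent.Moser.Ck.Cr
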