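import Pool.Agent.Lib_MP_cc07e8_cd.Ds
import Pool.Agent.Lib_MP_cc07e8_ck.CkAsmDefs

/-! # MP_cc07e8_co: row checks of the explicit start, part 284 -/

namespace Pool.Agent.Moser.Ck.Cr

/-- row check 531 -/
noncomputable def p531 : RP := ⟨nat_lit 61, nat_lit 1, nat_lit 27, nat_lit 19, nat_lit 182506, nat_lit 195689, nat_lit 182506, nat_lit 0xab77d91417b, nat_lit 0xb7da965cf70, nat_lit 0x2000000000000000, nat_lit 0xb52, nat_lit 16, nat_lit 891757, nat_lit 871280, nat_lit 891760, [nat_lit 0x5c630004000110, nat_lit 0x4e790004000030], nat_lit 871265, nat_lit 871265, []⟩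

set_option maxRecDepth 100000 in
theorem h531 : rchk Cd.ms p531 = true := by
  decide +kernel

/-- row check 532 -/
noncomputable def p532 : RP := ⟨nat_lit 61, nat_lit 2, nat_lit 27, nat_lit 19, nat_lit 195680, nat_lit 209131, nat_lit 195680, nat_lit 0xa0726b98db3, nat_lit 0xab79ddec280, nat_lit 0x2000000000000000, nat_lit 0xcee, nat_lit 18, nat_lit 911725, nat_lit 891760, nat_lit 911728, [nat_lit 0x68d70004000116, nat_lit 0x412d0004000022], nat_lit 891745, nat_lit 891745, []⟩

set_option maxRecDepth 100000 in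
theorem h532 : rchk Cd.ms p532 = true := by
  decide +kernel

/-- row check 533 -/
noncomputable def p533 : RP := ⟨nat_lit 62, nat_lit 1, nat_lit 27, nat_lit 19, nat_lit 209122, nat_lit 222440, nat_lit 209122, nat_lit 0x96d8dc73ad2, nat_lit 0xa07430225ae, nat_lit 0x2000000000000000, nat_lit 0xea1, nat_lit 18, nat_lit 930669, nat_lit 911728, nat_lit 930672, [nat_lit 0x8aca000400011c, nat_lit 0x2666000400000c], nat_lit 911713, nat_lit 911713, []⟩

set_option maxRecDepth 100000 in
theorem h533 : rchk Cd.ms p533 = true := by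
  decide +kernel

/-- row check 534 -/
noncomputable def p534 : RP := ⟨nat_lit 62, nat_lit 1, nat_lit 27, nat_lit 18, nat_lit 222430, nat_lit 233613, nat_lit 222430, nat_lit 0x8fa1ef1ac0a, nat_lit 0x96da98e70cd, nat_lit 0x2000000000000000, nat_lit 0x1022, nat_lit 18, nat_lit 945997, nat_lit 930672, nat_lit 946000, [nat_lit 0x4fc700040000ef, nat_lit 0x2000001], nat_lit 930657, nat_lit 930657, []⟩

set_option maxRecDepth 100000 in
theorem h534 : rchk Cd.ms p534 = true := by
  decide +kernel

/-- row check 535 -/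
noncomputable def p535 : RP := ⟨nat_lit 62, nat_lit 1, nat_lit 26, nat_lit 18, nat_lit 467206, nat_lit 481401, nat_lit 467206, nat_lit 0x8b673b65fb3, nat_lit 0x8fa3820eb8d, nat_lit 0x4000000000000000, nat_lit 0x1121, nat_lit 26, nat_lit 955469, nat_lit 946000, nat_lit 955472, [nat_lit 0x4f870004000094], nat_lit 945985, nat_lit 945985, []⟩

set_option maxRecDepth 100000 in
theorem h535 : rchk Cd.ms p535 = true := by
  decide +kernel

/-- row check 536 -/
noncomputable def p536 : RP := ⟨nat_lit 62, nat_lit 1, nat_lit 26, nat_lit 18, nat_lit 481381, nat_lit 495465, nat_lit 481381, nat_lit 0x87723bd19fd, nat_lit 0x8b68b6f8595, nat_lit 0x4000000000000000, nat_lit 0x1224, nat_lit 39, nat_lit 964685, nat_lit 955472, nat_lit 964688, [nat_lit 0x8a9e0004000090], nat_lit 955457, nat_lit 955457, []⟩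

set_option maxRecDepth 100000 in
theorem h536 : rchk Cd.ms p536 = true := by
  decide +kernel

/-- the row checks of this file -/
noncomputable def rs284 : List RP := [p531, p532, p533, p534, p535, p536]

theorem R284 : RCk Cd.ms rs284 :=
  RCk.cons h531 (RCk.cons h532 (RCk.cons h533 (RCk.cons h534 (RCk.cons h535 (RCk.cons h536 RCk.nil)))))

end Pool.Agent.Moser.Ck.Cr
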