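import Pool.Agent.Lib_MP_cc07e8_cd.Ds
import Pool.Agent.Lib_MP_cc07e8_ck.CkAsmDefs

/-! # MP_cc07e8_co: row checks of the explicit start, part 285 -/

namespace Pool.Agent.Moser.Ck.Cr

/-- row check 537 -/
noncomputable def p537 : RP := ⟨nat_lit 62, nat_lit 1, nat_lit 26, nat_lit 17, nat_lit 495446, nat_lit 510204, nat_lit 495446, nat_lit 0x83888c8a7e6, nat_lit 0x8773903af22, nat_lit 0x4000000000000000, nat_lit 0x133d, nat_lit 27, nat_lit 974157, nat_lit 964688, nat_lit 974160, [nat_lit 0x6b810004000094], nat_lit 964673, nat_lit 964673, []⟩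

set_option maxRecDepth 100000 in
theorem h537 : rchk Cd.ms p537 = true := by
  decide +kernel

/-- row check 538 -/
noncomputable def p538 : RP := ⟨nat_lit 62, nat_lit 1, nat_lit 26, nat_lit 17, nat_lit 510184, nat_lit 525231, nat_lit 510184, nat_lit 0x7fc52b16c8e, nat_lit 0x8389de770de, nat_lit 0x4000000000000000, nat_lit 0x1463, nat_lit 41, nat_lit 983629, nat_lit 974160, nat_lit 983632, [nat_lit 0x34e00004000094], nat_lit 974145, nat_lit 974145, []⟩

set_option maxRecDepth 100000 in
theorem h538 : rchk Cd.ms p538 = true := by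
  decide +kernel

/-- row check 539 -/
noncomputable def p539 : RP := ⟨nat_lit 62, nat_lit 1, nat_lit 26, nat_lit 18, nat_lit 525211, nat_lit 539298, nat_lit 525211, nat_lit 0x7c6ffc3f7f9, nat_lit 0x7fc669f3ffa, nat_lit 0x4000000000000000, nat_lit 0x157f, nat_lit 42, nat_lit 992333, nat_lit 983632, nat_lit 992336, [nat_lit 0x55b70004000088], nat_lit 983617, nat_lit 983617, []⟩

set_option maxRecDepth 100000 in
theorem h539 : rchk Cd.ms p539 = true := by
  decide +kernel

/-- row check 540 -/
noncomputable def p540 : RP := ⟨nat_lit 62, nat_lit 1, nat_lit 26, nat_lit 17, nat_lit 539273, nat_lit 554039, nat_lit 539278, nat_lit 0x7920694a748, nat_lit 0x7c71764f37a, nat_lit 0x4000000000000000, nat_lit 0x16af, nat_lit 31, nat_lit 1001293, nat_lit 992336, nat_lit 1001296, [nat_lit 0x3dd0000400008c], nat_lit 992321, nat_lit 992321, []⟩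

set_option maxRecDepth 100000 in
theorem h540 : rchk Cd.ms p540 = true := by
  decide +kernel

/-- row check 541 -/
noncomputable def p541 : RP := ⟨nat_lit 62, nat_lit 1, nat_lit 26, nat_lit 17, nat_lit 554018, nat_lit 569046, nat_lit 554018, nat_lit 0x75eea6a75dc, nat_lit 0x7921962f900, nat_lit 0x4000000000000000, nat_lit 0x17ee, nat_lit 41, nat_lit 1010253, nat_lit 1001296, nat_lit 1010256, [nat_lit 0x2f06000400008c], nat_lit 1001281, nat_lit 1001281, []⟩

set_option maxRecDepth 100000 in
theorem h541 : rchk Cd.ms p541 = true := by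
  decide +kernel

/-- row check 542 -/
noncomputable def p542 : RP := ⟨nat_lit 62, nat_lit 1, nat_lit 26, nat_lit 17, nat_lit 569024, nat_lit 583881, nat_lit 569024, nat_lit 0x72ef946c4a7, nat_lit 0x75efd178625, nat_lit 0x4000000000000000, nat_lit 0x1932, nat_lit 34, nat_lit 1018957, nat_lit 1010256, nat_lit 1018960, [nat_lit 0x21ed0004000088], nat_lit 1010241, nat_lit 1010241, []⟩

set_option maxRecDepth 100000 in
theorem h542 : rchk Cd.ms p542 = true := by
  decide +kernel

/-- the row checks of this file -/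
noncomputable def rs285 : List RP := [p537, p538, p539, p540, p541, p542]

theorem R285 : RCk Cd.ms rs285 :=
  RCk.cons h537 (RCk.cons h538 (RCk.cons h539 (RCk.cons h540 (RCk.cons h541 (RCk.cons h542 RCk.nil)))))

end Pool.Agent.Moser.Ck.Cr
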