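import Pool.Agent.Lib_MP_cc07e8_cd.Ds
import Pool.Agent.Lib_MP_cc07e8_ck.CkAsmDefs

/-! # MP_cc07e8_co: row checks of the explicit start, part 286 -/

namespace Pool.Agent.Moser.Ck.Cr

/-- row check 543 -/
noncomputable def p543 : RP := ⟨nat_lit 62, nat_lit 1, nat_lit 26, nat_lit 17, nat_lit 583859, nat_lit 598524, nat_lit 583859, nat_lit 0x701fb9fa2fb, nat_lit 0x72f0b03f698, nat_lit 0x4000000000000000, nat_lit 0x1a79, nat_lit 43, nat_lit 1027405, nat_lit 1018960, nat_lit 1027408, [nat_lit 0x3f5e0004000084], nat_lit 1018945, nat_lit 1018945, []⟩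

set_option maxRecDepth 100000 in
theorem h543 : rchk Cd.ms p543 = true := by
  decide +kernel

/-- row check 544 -/
noncomputable def p544 : RP := ⟨nat_lit 62, nat_lit 1, nat_lit 26, nat_lit 17, nat_lit 598502, nat_lit 613410, nat_lit 598502, nat_lit 0x6d6727c73c3, nat_lit 0x7020c8157f0, nat_lit 0x4000000000000000, nat_lit 0x1bcf, nat_lit 36, nat_lit 1035853, nat_lit 1027408, nat_lit 1035856, [nat_lit 0x4a450004000084], nat_lit 1027393, nat_lit 1027393, []⟩

set_option maxRecDepth 100000 in
theorem h544 : rchk Cd.ms p544 = true := by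
  decide +kernel

/-- row check 545 -/
noncomputable def p545 : RP := ⟨nat_lit 62, nat_lit 1, nat_lit 26, nat_lit 17, nat_lit 613388, nat_lit 628079, nat_lit 613388, nat_lit 0x6ad909e73c4, nat_lit 0x6d6828ef209, nat_lit 0x4000000000000000, nat_lit 0x1d27, nat_lit 31, nat_lit 1044045, nat_lit 1035856, nat_lit 1044048, [nat_lit 0x48770004000080], nat_lit 1035841, nat_lit 1035841, []⟩

set_option maxRecDepth 100000 in
theorem h545 : rchk Cd.ms p545 = true := by
  decide +kernel

/-- row check 546 -/
noncomputable def p546 : RP := ⟨nat_lit 62, nat_lit 1, nat_lit 26, nat_lit 17, nat_lit 628056, nat_lit 642980, nat_lit 628056, nat_lit 0x685f2277123, nat_lit 0x6ada0a563fe, nat_lit 0x4000000000000000, nat_lit 0x1e8d, nat_lit 45, nat_lit 1052237, nat_lit 1044048, nat_lit 1052240, [nat_lit 0x504c0004000080], nat_lit 1044033, nat_lit 1044033, []⟩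

set_option maxRecDepth 100000 in
theorem h546 : rchk Cd.ms p546 = true := by
  decide +kernel

/-- row check 547 -/
noncomputable def p547 : RP := ⟨nat_lit 62, nat_lit 1, nat_lit 26, nat_lit 17, nat_lit 642957, nat_lit 657876, nat_lit 642957, nat_lit 0x660225178ba, nat_lit 0x68601726902, nat_lit 0x4000000000000000, nat_lit 0x1ffc, nat_lit 38, nat_lit 1060301, nat_lit 1052240, nat_lit 1060304, [nat_lit 0x440d000400007e], nat_lit 1052225, nat_lit 1052225, []⟩

set_option maxRecDepth 100000 in
theorem h547 : rchk Cd.ms p547 = true := by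
  decide +kernel

/-- row check 548 -/
noncomputable def p548 : RP := ⟨nat_lit 62, nat_lit 1, nat_lit 26, nat_lit 17, nat_lit 657853, nat_lit 672759, nat_lit 657853, nat_lit 0x63c0706422a, nat_lit 0x66030ed2773, nat_lit 0x4000000000000000, nat_lit 0x2173, nat_lit 48, nat_lit 1068237, nat_lit 1060304, nat_lit 1068240, [nat_lit 0x6129000400007c], nat_lit 1060289, nat_lit 1060289, []⟩

set_option maxRecDepth 100000 in
theorem h548 : rchk Cd.ms p548 = true := by
  decide +kernel

/-- the row checks of this file -/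
noncomputable def rs286 : List RP := [p543, p544, p545, p546, p547, p548]

theorem R286 : RCk Cd.ms rs286 :=
  RCk.cons h543 (RCk.cons h544 (RCk.cons h545 (RCk.cons h546 (RCk.cons h547 (RCk.cons h548 RCk.nil)))))

end Pool.Agent.Moser.Ck.Cr
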