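import Pool.Agent.Lib_MP_cc07e8_cd.Ds
import Pool.Agent.Lib_MP_cc07e8_ck.CkAsmDefs

/-! # MP_cc07e8_co: row checks of the explicit start, part 287 -/

namespace Pool.Agent.Moser.Ck.Cr

/-- row check 549 -/
noncomputable def p549 : RP := ⟨nat_lit 62, nat_lit 1, nat_lit 26, nat_lit 17, nat_lit 672735, nat_lit 687619, nat_lit 672735, nat_lit 0x61989376971, nat_lit 0x63c1599cb16, nat_lit 0x4000000000000000, nat_lit 0x22f1, nat_lit 36, nat_lit 1076045, nat_lit 1068240, nat_lit 1076048, [nat_lit 0x412b000400007a], nat_lit 1068225, nat_lit 1068225, []⟩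

set_option maxRecDepth 100000 in
theorem h549 : rchk Cd.ms p549 = true := by
  decide +kernel

/-- row check 550 -/
noncomputable def p550 : RP := ⟨nat_lit 62, nat_lit 1, nat_lit 26, nat_lit 17, nat_lit 687595, nat_lit 702448, nat_lit 687595, nat_lit 0x5f8923e0dcb, nat_lit 0x619972b675e, nat_lit 0x4000000000000000, nat_lit 0x2477, nat_lit 47, nat_lit 1083725, nat_lit 1076048, nat_lit 1083728, [nat_lit 0x4f750004000078], nat_lit 1076033, nat_lit 1076033, []⟩

set_option maxRecDepth 100000 in
theorem h550 : rchk Cd.ms p550 = true := by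
  decide +kernel

/-- row check 551 -/
noncomputable def p551 : RP := ⟨nat_lit 62, nat_lit 1, nat_lit 26, nat_lit 16, nat_lit 702423, nat_lit 718245, nat_lit 702423, nat_lit 0x5d6f3b887fd, nat_lit 0x5f8a02b7159, nat_lit 0x4000000000000000, nat_lit 0x2620, nat_lit 29, nat_lit 1091789, nat_lit 1083728, nat_lit 1091792, [nat_lit 0x18cd000400007e], nat_lit 1083713, nat_lit 1083713, []⟩

set_option maxRecDepth 100000 in
theorem h551 : rchk Cd.ms p551 = true := by
  decide +kernel

/-- row check 552 -/
noncomputable def p552 : RP := ⟨nat_lit 62, nat_lit 1, nat_lit 26, nat_lit 16, nat_lit 718221, nat_lit 733509, nat_lit 718221, nat_lit 0x5b7d7bdc671, nat_lit 0x5d700826497, nat_lit 0x4000000000000000, nat_lit 0x27c3, nat_lit 39, nat_lit 1099469, nat_lit 1091792, nat_lit 1099472, [nat_lit 0x2e4e0004000078], nat_lit 1091777, nat_lit 1091777, []⟩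

set_option maxRecDepth 100000 in
theorem h552 : rchk Cd.ms p552 = true := by
  decide +kernel

/-- row check 553 -/
noncomputable def p553 : RP := ⟨nat_lit 62, nat_lit 1, nat_lit 27, nat_lit 17, nat_lit 366742, nat_lit 381552, nat_lit 366742, nat_lit 0x57f1248294f, nat_lit 0x5b7e483981d, nat_lit 0x2000000000000000, nat_lit 0x2b09, nat_lit 25, nat_lit 1114061, nat_lit 1099472, nat_lit 1114064, [nat_lit 0x410900040000e4], nat_lit 1099457, nat_lit 1099457, []⟩

set_option maxRecDepth 100000 in
theorem h553 : rchk Cd.ms p553 = true := by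
  decide +kernel

/-- row check 554 -/
noncomputable def p554 : RP := ⟨nat_lit 62, nat_lit 1, nat_lit 27, nat_lit 17, nat_lit 381539, nat_lit 396472, nat_lit 381539, nat_lit 0x54a1ee13545, nat_lit 0x57f1e8e1ec2, nat_lit 0x2000000000000000, nat_lit 0x2e77, nat_lit 26, nat_lit 1128397, nat_lit 1114064, nat_lit 1128400, [nat_lit 0x58ad00040000e0], nat_lit 1114049, nat_lit 1114049, []⟩

set_option maxRecDepth 100000 in
theorem h554 : rchk Cd.ms p554 = true := by
  decide +kernel

/-- the row checks of this file -/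
noncomputable def rs287 : List RP := [p549, p550, p551, p552, p553, p554]

theorem R287 : RCk Cd.ms rs287 :=
  RCk.cons h549 (RCk.cons h550 (RCk.cons h551 (RCk.cons h552 (RCk.cons h553 (RCk.cons h554 RCk.nil)))))

end Pool.Agent.Moser.Ck.Cr
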