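import Pool.Agent.Lib_MP_cc07e8_cd.Ds
import Pool.Agent.Lib_MP_cc07e8_ck.CkAsmDefs

/-! # MP_cc07e8_co: row checks of the explicit start, part 288 -/

namespace Pool.Agent.Moser.Ck.Cr

/-- row check 555 -/
noncomputable def p555 : RP := ⟨nat_lit 62, nat_lit 1, nat_lit 27, nat_lit 18, nat_lit 396458, nat_lit 410670, nat_lit 396458, nat_lit 0x51b4e0f5146, nat_lit 0x54a2b1efc44, nat_lit 0x2000000000000000, nat_lit 0x31da, nat_lit 22, nat_lit 1141709, nat_lit 1128400, nat_lit 1141712, [nat_lit 0x4e6500040000d0], nat_lit 1128385, nat_lit 1128385, []⟩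

set_option maxRecDepth 100000 in
theorem h555 : rchk Cd.ms p555 = true := by
  decide +kernel

/-- row check 556 -/
noncomputable def p556 : RP := ⟨nat_lit 62, nat_lit 1, nat_lit 27, nat_lit 18, nat_lit 410656, nat_lit 424638, nat_lit 410656, nat_lit 0x4f04d74ceca, nat_lit 0x51b59782675, nat_lit 0x2000000000000000, nat_lit 0x354d, nat_lit 28, nat_lit 1154509, nat_lit 1141712, nat_lit 1154512, [nat_lit 0x548a00040000c8], nat_lit 1141697, nat_lit 1141697, []⟩

set_option maxRecDepth 100000 in
theorem h556 : rchk Cd.ms p556 = true := by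
  decide +kernel

/-- row check 557 -/
noncomputable def p557 : RP := ⟨nat_lit 62, nat_lit 1, nat_lit 27, nat_lit 17, nat_lit 424624, nat_lit 439497, nat_lit 424624, nat_lit 0x4c58ec09599, nat_lit 0x4f05820a486, nat_lit 0x2000000000000000, nat_lit 0x3919, nat_lit 27, nat_lit 1167821, nat_lit 1154512, nat_lit 1167824, [nat_lit 0x512800040000d0], nat_lit 1154497, nat_lit 1154497, []⟩

set_option maxRecDepth 100000 in
theorem h557 : rchk Cd.ms p557 = true := by
  decide +kernel

/-- row check 558 -/
noncomputable def p558 : RP := ⟨nat_lit 62, nat_lit 1, nat_lit 27, nat_lit 17, nat_lit 439482, nat_lit 454403, nat_lit 439482, nat_lit 0x49d7c7d1f15, nat_lit 0x4c5996cfba5, nat_lit 0x2000000000000000, nat_lit 0x3d09, nat_lit 22, nat_lit 1180877, nat_lit 1167824, nat_lit 1180880, [nat_lit 0x3d7d00040000cc], nat_lit 1167809, nat_lit 1167809, []⟩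

set_option maxRecDepth 100000 in
theorem h558 : rchk Cd.ms p558 = true := by
  decide +kernel

/-- row check 559 -/
noncomputable def p559 : RP := ⟨nat_lit 62, nat_lit 1, nat_lit 27, nat_lit 17, nat_lit 454388, nat_lit 469340, nat_lit 454388, nat_lit 0x477e2850a80, nat_lit 0x49d8679316c, nat_lit 0x2000000000000000, nat_lit 0x411d, nat_lit 29, nat_lit 1193677, nat_lit 1180880, nat_lit 1193680, [nat_lit 0x462600040000c8], nat_lit 1180865, nat_lit 1180865, []⟩

set_option maxRecDepth 100000 in
theorem h559 : rchk Cd.ms p559 = true := by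
  decide +kernel

/-- row check 560 -/
noncomputable def p560 : RP := ⟨nat_lit 62, nat_lit 1, nat_lit 27, nat_lit 17, nat_lit 469325, nat_lit 484292, nat_lit 469325, nat_lit 0x4549190cb38, nat_lit 0x477ebe1009a, nat_lit 0x2000000000000000, nat_lit 0x4554, nat_lit 24, nat_lit 1206221, nat_lit 1193680, nat_lit 1206224, [nat_lit 0x3e8400040000c4], nat_lit 1193665, nat_lit 1193665, []⟩

set_option maxRecDepth 100000 in
theorem h560 : rchk Cd.ms p560 = true := by
  decide +kernel

/-- the row checks of this file -/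
noncomputable def rs288 : List RP := [p555, p556, p557, p558, p559, p560]

theorem R288 : RCk Cd.ms rs288 :=
  RCk.cons h555 (RCk.cons h556 (RCk.cons h557 (RCk.cons h558 (RCk.cons h559 (RCk.cons h560 RCk.nil)))))

end Pool.Agent.Moser.Ck.Cr
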