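import Pool.Agent.Lib_MP_cc07e8_cd.Ds
import Pool.Agent.Lib_MP_cc07e8_ck.CkAsmDefs

/-! # MP_cc07e8_co: row checks of the explicit start, part 289 -/

namespace Pool.Agent.Moser.Ck.Cr

/-- row check 561 -/
noncomputable def p561 : RP := ⟨nat_lit 62, nat_lit 1, nat_lit 27, nat_lit 17, nat_lit 484277, nat_lit 499244, nat_lit 484277, nat_lit 0x4335e26d5e6, nat_lit 0x4549a5b175d, nat_lit 0x2000000000000000, nat_lit 0x49ad, nat_lit 30, nat_lit 1218509, nat_lit 1206224, nat_lit 1218512, [nat_lit 0x483900040000c0], nat_lit 1206209, nat_lit 1206209, []⟩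

set_option maxRecDepth 100000 in
theorem h561 : rchk Cd.ms p561 = true := by
  decide +kernel

/-- row check 562 -/
noncomputable def p562 : RP := ⟨nat_lit 62, nat_lit 1, nat_lit 27, nat_lit 17, nat_lit 499228, nat_lit 514180, nat_lit 499228, nat_lit 0x414215a9ec2, nat_lit 0x43366f9885d, nat_lit 0x2000000000000000, nat_lit 0x4e26, nat_lit 22, nat_lit 1230541, nat_lit 1218512, nat_lit 1230544, [nat_lit 0x2e7400040000bc], nat_lit 1218497, nat_lit 1218497, []⟩

set_option maxRecDepth 100000 in
theorem h562 : rchk Cd.ms p562 = true := by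
  decide +kernel

/-- row check 563 -/
noncomputable def p563 : RP := ⟨nat_lit 62, nat_lit 1, nat_lit 27, nat_lit 16, nat_lit 514164, nat_lit 530065, nat_lit 514164, nat_lit 0x3f4d6fb14ff, nat_lit 0x41429abffc0, nat_lit 0x2000000000000000, nat_lit 0x530d, nat_lit 32, nat_lit 1243085, nat_lit 1230544, nat_lit 1243088, [nat_lit 0x22ee00040000c4], nat_lit 1230529, nat_lit 1230529, []⟩

set_option maxRecDepth 100000 in
theorem h563 : rchk Cd.ms p563 = true := by
  decide +kernel

/-- row check 564 -/
noncomputable def p564 : RP := ⟨nat_lit 62, nat_lit 1, nat_lit 27, nat_lit 16, nat_lit 530049, nat_lit 545940, nat_lit 530049, nat_lit 0x3d7635c0b61, nat_lit 0x3f4decebead, nat_lit 0x2000000000000000, nat_lit 0x581a, nat_lit 32, nat_lit 1255373, nat_lit 1243088, nat_lit 1255376, [nat_lit 0x2df900040000c0], nat_lit 1243073, nat_lit 1243073, []⟩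

set_option maxRecDepth 100000 in
theorem h564 : rchk Cd.ms p564 = true := by
  decide +kernel

/-- row check 565 -/
noncomputable def p565 : RP := ⟨nat_lit 62, nat_lit 1, nat_lit 27, nat_lit 16, nat_lit 545924, nat_lit 561789, nat_lit 545924, nat_lit 0x3bba5261495, nat_lit 0x3d76abcdfa7, nat_lit 0x2000000000000000, nat_lit 0x5d4a, nat_lit 26, nat_lit 1267405, nat_lit 1255376, nat_lit 1267408, [nat_lit 0x395000040000bc], nat_lit 1255361, nat_lit 1255361, []⟩

set_option maxRecDepth 100000 in
theorem h565 : rchk Cd.ms p565 = true := by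
  decide +kernel

/-- row check 566 -/
noncomputable def p566 : RP := ⟨nat_lit 62, nat_lit 1, nat_lit 27, nat_lit 16, nat_lit 561772, nat_lit 577594, nat_lit 561772, nat_lit 0x3a17ecc6651, nat_lit 0x3bbac8d535a, nat_lit 0x2000000000000000, nat_lit 0x629d, nat_lit 34, nat_lit 1279181, nat_lit 1267408, nat_lit 1279184, [nat_lit 0x1f0f00040000b8], nat_lit 1267393, nat_lit 1267393, []⟩

set_option maxRecDepth 100000 in
theorem h566 : rchk Cd.ms p566 = true := by
  decide +kernel

/-- the row checks of this file -/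
noncomputable def rs289 : List RP := [p561, p562, p563, p564, p565, p566]

theorem R289 : RCk Cd.ms rs289 :=
  RCk.cons h561 (RCk.cons h562 (RCk.cons h563 (RCk.cons h564 (RCk.cons h565 (RCk.cons h566 RCk.nil)))))

end Pool.Agent.Moser.Ck.Cr
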