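import Pool.Agent.Lib_MP_cc07e8_cd.Ds
import Pool.Agent.Lib_MP_cc07e8_ck.CkAsmDefs

/-! # MP_cc07e8_co: row checks of the explicit start, part 290 -/

namespace Pool.Agent.Moser.Ck.Cr

/-- row check 567 -/
noncomputable def p567 : RP := ⟨nat_lit 62, nat_lit 1, nat_lit 27, nat_lit 16, nat_lit 577577, nat_lit 593340, nat_lit 577577, nat_lit 0x388d4153dce, nat_lit 0x3a185cd5763, nat_lit 0x2000000000000000, nat_lit 0x6810, nat_lit 27, nat_lit 1290701, nat_lit 1279184, nat_lit 1290704, [nat_lit 0x31de00040000b4], nat_lit 1279169, nat_lit 1279169, []⟩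

set_option maxRecDepth 100000 in
theorem h567 : rchk Cd.ms p567 = true := by
  decide +kernel

/-- row check 568 -/
noncomputable def p568 : RP := ⟨nat_lit 62, nat_lit 1, nat_lit 27, nat_lit 16, nat_lit 593311, nat_lit 609010, nat_lit 593322, nat_lit 0x3718c0557f2, nat_lit 0x388df67aa1b, nat_lit 0x2000000000000000, nat_lit 0x6da2, nat_lit 36, nat_lit 1301965, nat_lit 1290704, nat_lit 1301968, [nat_lit 0x416b00040000b0], nat_lit 1290689, nat_lit 1290689, []⟩

set_option maxRecDepth 100000 in
theorem h568 : rchk Cd.ms p568 = true := by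
  decide +kernel

/-- row check 569 -/
noncomputable def p569 : RP := ⟨nat_lit 62, nat_lit 1, nat_lit 27, nat_lit 15, nat_lit 608985, nat_lit 626051, nat_lit 608992, nat_lit 0x3598d2899ba, nat_lit 0x371954909ce, nat_lit 0x2000000000000000, nat_lit 0x73db, nat_lit 29, nat_lit 1313997, nat_lit 1301968, nat_lit 1314000, [nat_lit 0x160300040000bc], nat_lit 1301953, nat_lit 1301953, []⟩

set_option maxRecDepth 100000 in
theorem h569 : rchk Cd.ms p569 = true := by
  decide +kernel

/-- row check 570 -/
noncomputable def p570 : RP := ⟨nat_lit 62, nat_lit 1, nat_lit 27, nat_lit 16, nat_lit 626033, nat_lit 641918, nat_lit 626033, nat_lit 0x3445ab6b7cf, nat_lit 0x359937880f9, nat_lit 0x2000000000000000, nat_lit 0x79cd, nat_lit 26, nat_lit 1325005, nat_lit 1314000, nat_lit 1325008, [nat_lit 0x2ae100040000ac], nat_lit 1313985, nat_lit 1313985, []⟩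

set_option maxRecDepth 100000 in
theorem h570 : rchk Cd.ms p570 = true := by
  decide +kernel

/-- row check 571 -/
noncomputable def p571 : RP := ⟨nat_lit 62, nat_lit 1, nat_lit 27, nat_lit 16, nat_lit 641899, nat_lit 657672, nat_lit 641899, nat_lit 0x33051f5faa6, nat_lit 0x344610d1d76, nat_lit 0x2000000000000000, nat_lit 0x7fda, nat_lit 38, nat_lit 1335757, nat_lit 1325008, nat_lit 1335760, [nat_lit 0x365500040000a8], nat_lit 1324993, nat_lit 1324993, []⟩

set_option maxRecDepth 100000 in
theorem h571 : rchk Cd.ms p571 = true := by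
  decide +kernel

/-- row check 572 -/
noncomputable def p572 : RP := ⟨nat_lit 62, nat_lit 1, nat_lit 27, nat_lit 16, nat_lit 657653, nat_lit 673297, nat_lit 657653, nat_lit 0x31d6045c0dc, nat_lit 0x33057ff9460, nat_lit 0x2000000000000000, nat_lit 0x8600, nat_lit 25, nat_lit 1346253, nat_lit 1335760, nat_lit 1346256, [nat_lit 0x237000040000a4], nat_lit 1335745, nat_lit 1335745, []⟩

set_option maxRecDepth 100000 in
theorem h572 : rchk Cd.ms p572 = true := by
  decide +kernel

/-- the row checks of this file -/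
noncomputable def rs290 : List RP := [p567, p568, p569, p570, p571, p572]

theorem R290 : RCk Cd.ms rs290 :=
  RCk.cons h567 (RCk.cons h568 (RCk.cons h569 (RCk.cons h570 (RCk.cons h571 (RCk.cons h572 RCk.nil)))))

end Pool.Agent.Moser.Ck.Cr
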