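import Pool.Agent.Lib_MP_cc07e8_cd.Ds
import Pool.Agent.Lib_MP_cc07e8_ck.CkAsmDefs

/-! # MP_cc07e8_co: row checks of the explicit start, part 291 -/

namespace Pool.Agent.Moser.Ck.Cr

/-- row check 573 -/
noncomputable def p573 : RP := ⟨nat_lit 62, nat_lit 1, nat_lit 27, nat_lit 15, nat_lit 673278, nat_lit 689949, nat_lit 673278, nat_lit 0x30a219cd913, nat_lit 0x31d660872dd, nat_lit 0x2000000000000000, nat_lit 0x8cb6, nat_lit 37, nat_lit 1357261, nat_lit 1346256, nat_lit 1357264, [nat_lit 0x1b3b00040000ac], nat_lit 1346241, nat_lit 1346241, []⟩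

set_option maxRecDepth 100000 in
theorem h573 : rchk Cd.ms p573 = true := by
  decide +kernel

/-- row check 574 -/
noncomputable def p574 : RP := ⟨nat_lit 62, nat_lit 1, nat_lit 27, nat_lit 16, nat_lit 689929, nat_lit 705683, nat_lit 689929, nat_lit 0x2f8c8300719, nat_lit 0x30a2763223e, nat_lit 0x2000000000000000, nat_lit 0x9333, nat_lit 26, nat_lit 1367501, nat_lit 1357264, nat_lit 1367504, [nat_lit 0x1b0400040000a0], nat_lit 1357249, nat_lit 1357249, []⟩

set_option maxRecDepth 100000 in
theorem h574 : rchk Cd.ms p574 = true := by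
  decide +kernel

/-- row check 575 -/
noncomputable def p575 : RP := ⟨nat_lit 62, nat_lit 1, nat_lit 27, nat_lit 16, nat_lit 705663, nat_lit 721655, nat_lit 705663, nat_lit 0x2e7f1aa68b4, nat_lit 0x2f8cdb5209d, nat_lit 0x2000000000000000, nat_lit 0x99f0, nat_lit 38, nat_lit 1377741, nat_lit 1367504, nat_lit 1377744, [nat_lit 0x1bca00040000a0], nat_lit 1367489, nat_lit 1367489, []⟩

set_option maxRecDepth 100000 in
theorem h575 : rchk Cd.ms p575 = true := by
  decide +kernel

/-- row check 576 -/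
noncomputable def p576 : RP := ⟨nat_lit 62, nat_lit 1, nat_lit 27, nat_lit 16, nat_lit 721635, nat_lit 737457, nat_lit 721635, nat_lit 0x2d800c4ee35, nat_lit 0x2e7f6f1a638, nat_lit 0x2000000000000000, nat_lit 0xa0c1, nat_lit 27, nat_lit 1387725, nat_lit 1377744, nat_lit 1387728, [nat_lit 0x2579000400009c], nat_lit 1377729, nat_lit 1377729, []⟩

set_option maxRecDepth 100000 in
theorem h576 : rchk Cd.ms p576 = true := by
  decide +kernel

/-- row check 577 -/
noncomputable def p577 : RP := ⟨nat_lit 62, nat_lit 1, nat_lit 27, nat_lit 14, nat_lit 737437, nat_lit 755561, nat_lit 737437, nat_lit 0x2c68f2fbc75, nat_lit 0x2d805d2e1ed, nat_lit 0x2000000000000000, nat_lit 0xa8be, nat_lit 24, nat_lit 1398989, nat_lit 1387728, nat_lit 1398992, [nat_lit 0xc1e00040000b0], nat_lit 1387713, nat_lit 1387713, []⟩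

set_option maxRecDepth 100000 in
theorem h577 : rchk Cd.ms p577 = true := by
  decide +kernel

/-- row check 578 -/
noncomputable def p578 : RP := ⟨nat_lit 62, nat_lit 1, nat_lit 27, nat_lit 16, nat_lit 755541, nat_lit 771432, nat_lit 755541, nat_lit 0x2b7f0d084d3, nat_lit 0x2c694006be7, nat_lit 0x2000000000000000, nat_lit 0xafe8, nat_lit 41, nat_lit 1408717, nat_lit 1398992, nat_lit 1408720, [nat_lit 0x30bf0004000098], nat_lit 1398977, nat_lit 1398977, []⟩

set_option maxRecDepth 100000 in
theorem h578 : rchk Cd.ms p578 = true := by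
  decide +kernel

/-- the row checks of this file -/
noncomputable def rs291 : List RP := [p573, p574, p575, p576, p577, p578]

theorem R291 : RCk Cd.ms rs291 :=
  RCk.cons h573 (RCk.cons h574 (RCk.cons h575 (RCk.cons h576 (RCk.cons h577 (RCk.cons h578 RCk.nil)))))

end Pool.Agent.Moser.Ck.Cr
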