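import Pool.Agent.Lib_MP_cc07e8_cd.Ds
import Pool.Agent.Lib_MP_cc07e8_ck.CkAsmDefs

/-! # MP_cc07e8_co: row checks of the explicit start, part 292 -/

namespace Pool.Agent.Moser.Ck.Cr

/-- row check 579 -/
noncomputable def p579 : RP := ⟨nat_lit 62, nat_lit 1, nat_lit 27, nat_lit 16, nat_lit 771412, nat_lit 787098, nat_lit 771412, nat_lit 0x2aa16cab9b7, nat_lit 0x2b7f56f0111, nat_lit 0x2000000000000000, nat_lit 0xb720, nat_lit 29, nat_lit 1418189, nat_lit 1408720, nat_lit 1418192, [nat_lit 0x3d2a0004000094], nat_lit 1408705, nat_lit 1408705, []⟩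

set_option maxRecDepth 100000 in
theorem h579 : rchk Cd.ms p579 = true := by
  decide +kernel

/-- row check 580 -/
noncomputable def p580 : RP := ⟨nat_lit 62, nat_lit 1, nat_lit 27, nat_lit 16, nat_lit 787077, nat_lit 802975, nat_lit 787077, nat_lit 0x29c9a2eb69c, nat_lit 0x2aa1b73672f, nat_lit 0x2000000000000000, nat_lit 0xbe96, nat_lit 43, nat_lit 1427661, nat_lit 1418192, nat_lit 1427664, [nat_lit 0x43c50004000094], nat_lit 1418177, nat_lit 1418177, []⟩

set_option maxRecDepth 100000 in
theorem h580 : rchk Cd.ms p580 = true := by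
  decide +kernel

/-- row check 581 -/
noncomputable def p581 : RP := ⟨nat_lit 62, nat_lit 1, nat_lit 27, nat_lit 15, nat_lit 802954, nat_lit 819939, nat_lit 802954, nat_lit 0x28ec4f2ff3e, nat_lit 0x29c9ea8b111, nat_lit 0x2000000000000000, nat_lit 0xc6b9, nat_lit 33, nat_lit 1437645, nat_lit 1427664, nat_lit 1437648, [nat_lit 0x1468000400009c], nat_lit 1427649, nat_lit 1427649, []⟩

set_option maxRecDepth 100000 in
theorem h581 : rchk Cd.ms p581 = true := by
  decide +kernel

/-- row check 582 -/
noncomputable def p582 : RP := ⟨nat_lit 62, nat_lit 1, nat_lit 27, nat_lit 15, nat_lit 819918, nat_lit 836697, nat_lit 819918, nat_lit 0x281a7b5cadf, nat_lit 0x28ec93e0bd6, nat_lit 0x2000000000000000, nat_lit 0xceee, nat_lit 29, nat_lit 1447373, nat_lit 1437648, nat_lit 1447376, [nat_lit 0x25790004000098], nat_lit 1437633, nat_lit 1437633, []⟩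

set_option maxRecDepth 100000 in
theorem h582 : rchk Cd.ms p582 = true := by
  decide +kernel

/-- row check 583 -/
noncomputable def p583 : RP := ⟨nat_lit 62, nat_lit 1, nat_lit 27, nat_lit 15, nat_lit 836675, nat_lit 852332, nat_lit 836675, nat_lit 0x275e27db068, nat_lit 0x281ac0784b3, nat_lit 0x2000000000000000, nat_lit 0xd6bc, nat_lit 43, nat_lit 1456333, nat_lit 1447376, nat_lit 1456336, [nat_lit 0x2610000400008c], nat_lit 1447361, nat_lit 1447361, []⟩

set_option maxRecDepth 100000 in
theorem h583 : rchk Cd.ms p583 = true := by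
  decide +kernel

/-- row check 584 -/
noncomputable def p584 : RP := ⟨nat_lit 62, nat_lit 1, nat_lit 27, nat_lit 15, nat_lit 852310, nat_lit 869071, nat_lit 852310, nat_lit 0x269c0ad92c1, nat_lit 0x275e6a7385a, nat_lit 0x2000000000000000, nat_lit 0xdf41, nat_lit 31, nat_lit 1465805, nat_lit 1456336, nat_lit 1465808, [nat_lit 0x25320004000094], nat_lit 1456321, nat_lit 1456321, []⟩

set_option maxRecDepth 100000 in
theorem h584 : rchk Cd.ms p584 = true := by
  decide +kernel

/-- the row checks of this file -/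
noncomputable def rs292 : List RP := [p579, p580, p581, p582, p583, p584]

theorem R292 : RCk Cd.ms rs292 :=
  RCk.cons h579 (RCk.cons h580 (RCk.cons h581 (RCk.cons h582 (RCk.cons h583 (RCk.cons h584 RCk.nil)))))

end Pool.Agent.Moser.Ck.Cr
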