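import Pool.Agent.Lib_MP_cc07e8_cd.Ds
import Pool.Agent.Lib_MP_cc07e8_ck.CkAsmDefs

/-! # MP_cc07e8_co: row checks of the explicit start, part 293 -/

namespace Pool.Agent.Moser.Ck.Cr

/-- row check 585 -/
noncomputable def p585 : RP := ⟨nat_lit 62, nat_lit 1, nat_lit 27, nat_lit 14, nat_lit 869049, nat_lit 886951, nat_lit 869049, nat_lit 0x25d4ca5c3af, nat_lit 0x269c4ae7400, nat_lit 0x2000000000000000, nat_lit 0xe889, nat_lit 29, nat_lit 1475789, nat_lit 1465808, nat_lit 1475792, [nat_lit 0x1055000400009c], nat_lit 1465793, nat_lit 1465793, []⟩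

set_option maxRecDepth 100000 in
theorem h585 : rchk Cd.ms p585 = true := by
  decide +kernel

/-- row check 586 -/
noncomputable def p586 : RP := ⟨nat_lit 62, nat_lit 1, nat_lit 27, nat_lit 15, nat_lit 886928, nat_lit 903671, nat_lit 886928, nat_lit 0x25219977d57, nat_lit 0x25d50aa776f, nat_lit 0x2000000000000000, nat_lit 0xf162, nat_lit 45, nat_lit 1485005, nat_lit 1475792, nat_lit 1485008, [nat_lit 0x178a0004000090], nat_lit 1475777, nat_lit 1475777, []⟩

set_option maxRecDepth 100000 in
theorem h586 : rchk Cd.ms p586 = true := by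
  decide +kernel

/-- row check 587 -/
noncomputable def p587 : RP := ⟨nat_lit 62, nat_lit 1, nat_lit 27, nat_lit 15, nat_lit 903648, nat_lit 920600, nat_lit 903648, nat_lit 0x2472ccd4c5e, nat_lit 0x2521d767a0a, nat_lit 0x2000000000000000, nat_lit 0xfa83, nat_lit 32, nat_lit 1494221, nat_lit 1485008, nat_lit 1494224, [nat_lit 0x10c90004000090], nat_lit 1484993, nat_lit 1484993, []⟩

set_option maxRecDepth 100000 in
theorem h587 : rchk Cd.ms p587 = true := by
  decide +kernel

/-- row check 588 -/
noncomputable def p588 : RP := ⟨nat_lit 62, nat_lit 1, nat_lit 27, nat_lit 14, nat_lit 920577, nat_lit 938698, nat_lit 920577, nat_lit 0x23bee73c4d4, nat_lit 0x24730882c62, nat_lit 0x2000000000000000, nat_lit 0x10475, nat_lit 26, nat_lit 1503949, nat_lit 1494224, nat_lit 1503952, [nat_lit 0x110a0004000098], nat_lit 1494209, nat_lit 1494209, []⟩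

set_option maxRecDepth 100000 in
theorem h588 : rchk Cd.ms p588 = true := by
  decide +kernel

/-- row check 589 -/
noncomputable def p589 : RP := ⟨nat_lit 62, nat_lit 1, nat_lit 27, nat_lit 16, nat_lit 938675, nat_lit 954606, nat_lit 938675, nat_lit 0x23266888fba, nat_lit 0x23bf20a2dbb, nat_lit 0x2000000000000000, nat_lit 0x10d5c, nat_lit 47, nat_lit 1512397, nat_lit 1503952, nat_lit 1512400, [nat_lit 0x3e820004000084], nat_lit 1503937, nat_lit 1503937, []⟩

set_option maxRecDepth 100000 in
theorem h589 : rchk Cd.ms p589 = true := by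
  decide +kernel

/-- row check 590 -/
noncomputable def p590 : RP := ⟨nat_lit 62, nat_lit 1, nat_lit 27, nat_lit 14, nat_lit 954582, nat_lit 972654, nat_lit 954582, nat_lit 0x227f706a959, nat_lit 0x2326a273a73, nat_lit 0x2000000000000000, nat_lit 0x117a4, nat_lit 30, nat_lit 1521869, nat_lit 1512400, nat_lit 1521872, [nat_lit 0x133b0004000094], nat_lit 1512385, nat_lit 1512385, []⟩

set_option maxRecDepth 100000 in
theorem h590 : rchk Cd.ms p590 = true := by
  decide +kernel

/-- the row checks of this file -/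
noncomputable def rs293 : List RP := [p585, p586, p587, p588, p589, p590]

theorem R293 : RCk Cd.ms rs293 :=
  RCk.cons h585 (RCk.cons h586 (RCk.cons h587 (RCk.cons h588 (RCk.cons h589 (RCk.cons h590 RCk.nil)))))

end Pool.Agent.Moser.Ck.Cr
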