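import Pool.Agent.Lib_MP_cc07e8_cd.Ds
import Pool.Agent.Lib_MP_cc07e8_ck.CkAsmDefs

/-! # MP_cc07e8_co: row checks of the explicit start, part 294 -/

namespace Pool.Agent.Moser.Ck.Cr

/-- row check 591 -/
noncomputable def p591 : RP := ⟨nat_lit 62, nat_lit 1, nat_lit 27, nat_lit 14, nat_lit 972630, nat_lit 990432, nat_lit 972630, nat_lit 0x21e0eac49ad, nat_lit 0x227fa8341f6, nat_lit 0x2000000000000000, nat_lit 0x121f5, nat_lit 49, nat_lit 1531085, nat_lit 1521872, nat_lit 1531088, [nat_lit 0x18f20004000090], nat_lit 1521857, nat_lit 1521857, []⟩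

set_option maxRecDepth 100000 in
theorem h591 : rchk Cd.ms p591 = true := by
  decide +kernel

/-- row check 592 -/
noncomputable def p592 : RP := ⟨nat_lit 62, nat_lit 1, nat_lit 27, nat_lit 15, nat_lit 990407, nat_lit 1007419, nat_lit 990407, nat_lit 0x214eacd92be, nat_lit 0x21e122cff24, nat_lit 0x2000000000000000, nat_lit 0x12bfd, nat_lit 50, nat_lit 1539789, nat_lit 1531088, nat_lit 1539792, [nat_lit 0x22330004000088], nat_lit 1531073, nat_lit 1531073, []⟩

set_option maxRecDepth 100000 in
theorem h592 : rchk Cd.ms p592 = true := by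
  decide +kernel

/-- row check 593 -/
noncomputable def p593 : RP := ⟨nat_lit 62, nat_lit 1, nat_lit 27, nat_lit 15, nat_lit 1007395, nat_lit 1024092, nat_lit 1007395, nat_lit 0x20c3daba338, nat_lit 0x214ee0da05f, nat_lit 0x2000000000000000, nat_lit 0x13600, nat_lit 29, nat_lit 1548237, nat_lit 1539792, nat_lit 1548240, [nat_lit 0x16060004000084], nat_lit 1539777, nat_lit 1539777, []⟩

set_option maxRecDepth 100000 in
theorem h593 : rchk Cd.ms p593 = true := by
  decide +kernel

/-- row check 594 -/
noncomputable def p594 : RP := ⟨nat_lit 62, nat_lit 1, nat_lit 27, nat_lit 14, nat_lit 1024067, nat_lit 1041975, nat_lit 1024067, nat_lit 0x2033e5a2c31, nat_lit 0x20c40f25e3e, nat_lit 0x2000000000000000, nat_lit 0x140ec, nat_lit 26, nat_lit 1557197, nat_lit 1548240, nat_lit 1557200, [nat_lit 0x1214000400008c], nat_lit 1548225, nat_lit 1548225, []⟩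

set_option maxRecDepth 100000 in
theorem h594 : rchk Cd.ms p594 = true := by
  decide +kernel

/-- row check 595 -/
noncomputable def p595 : RP := ⟨nat_lit 62, nat_lit 1, nat_lit 28, nat_lit 16, nat_lit 520975, nat_lit 536819, nat_lit 520975, nat_lit 0x1f40c60c370, nat_lit 0x20341845c3d, nat_lit 0x1000000000000000, nat_lit 0x154b9, nat_lit 25, nat_lit 1572813, nat_lit 1557200, nat_lit 1572816, [nat_lit 0x294a00040000f4], nat_lit 1557185, nat_lit 1557185, []⟩

set_option maxRecDepth 100000 in
theorem h595 : rchk Cd.ms p595 = true := by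
  decide +kernel

/-- row check 596 -/
noncomputable def p596 : RP := ⟨nat_lit 62, nat_lit 1, nat_lit 28, nat_lit 15, nat_lit 536806, nat_lit 553771, nat_lit 536806, nat_lit 0x1e4bdabfc39, nat_lit 0x1f40f7a64a5, nat_lit 0x1000000000000000, nat_lit 0x16a95, nat_lit 21, nat_lit 1589197, nat_lit 1572816, nat_lit 1589200, [nat_lit 0x16d10004000100], nat_lit 1572801, nat_lit 1572801, []⟩

set_option maxRecDepth 100000 in
theorem h596 : rchk Cd.ms p596 = true := by
  decide +kernel

/-- the row checks of this file -/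
noncomputable def rs294 : List RP := [p591, p592, p593, p594, p595, p596]

theorem R294 : RCk Cd.ms rs294 :=
  RCk.cons h591 (RCk.cons h592 (RCk.cons h593 (RCk.cons h594 (RCk.cons h595 (RCk.cons h596 RCk.nil)))))

end Pool.Agent.Moser.Ck.Cr
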