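import Pool.Agent.Lib_MP_cc07e8_cd.Ds
import Pool.Agent.Lib_MP_cc07e8_ck.CkAsmDefs

/-! # MP_cc07e8_co: row checks of the explicit start, part 295 -/

namespace Pool.Agent.Moser.Ck.Cr

/-- row check 597 -/
noncomputable def p597 : RP := ⟨nat_lit 62, nat_lit 2, nat_lit 28, nat_lit 15, nat_lit 553757, nat_lit 570802, nat_lit 553757, nat_lit 0x1d64717d6d1, nat_lit 0x1e4c0cf2373, nat_lit 0x1000000000000000, nat_lit 0x1813a, nat_lit 26, nat_lit 1605325, nat_lit 1589200, nat_lit 1605328, [nat_lit 0x1e1900040000a8, nat_lit 0x3000001, nat_lit 0x220004000053, nat_lit 0x1000001], nat_lit 1589185, nat_lit 1589185, []⟩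

set_option maxRecDepth 100000 in
theorem h597 : rchk Cd.ms p597 = true := by
  decide +kernel

/-- row check 598 -/
noncomputable def p598 : RP := ⟨nat_lit 63, nat_lit 1, nat_lit 29, nat_lit 16, nat_lit 285394, nat_lit 301251, nat_lit 285394, nat_lit 0x1bd88d81c99, nat_lit 0x1d64a0bc78b, nat_lit 0x800000000000000, nat_lit 0x1ad34, nat_lit 14, nat_lit 1634509, nat_lit 1605328, nat_lit 1634512, [nat_lit 0x1e9100040001c8], nat_lit 1605313, nat_lit 1605313, []⟩

set_option maxRecDepth 100000 in
theorem h598 : rchk Cd.ms p598 = true := by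
  decide +kernel

/-- row check 599 -/
noncomputable def p599 : RP := ⟨nat_lit 63, nat_lit 1, nat_lit 29, nat_lit 16, nat_lit 301244, nat_lit 317091, nat_lit 301244, nat_lit 0x1a7473c4eb3, nat_lit 0x1bd8b7e990a, nat_lit 0x800000000000000, nat_lit 0x1db86, nat_lit 15, nat_lit 1662669, nat_lit 1634512, nat_lit 1662672, [nat_lit 0x1eca00040001b8], nat_lit 1634497, nat_lit 1634497, []⟩

set_option maxRecDepth 100000 in
theorem h599 : rchk Cd.ms p599 = true := by
  decide +kernel

/-- row check 600 -/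
noncomputable def p600 : RP := ⟨nat_lit 63, nat_lit 1, nat_lit 29, nat_lit 15, nat_lit 317084, nat_lit 334083, nat_lit 317084, nat_lit 0x191bfe8ffdb, nat_lit 0x1a749a0b317, nat_lit 0x800000000000000, nat_lit 0x20fdb, nat_lit 15, nat_lit 1691853, nat_lit 1662672, nat_lit 1691856, [nat_lit 0x123300040001c8], nat_lit 1662657, nat_lit 1662657, []⟩

set_option maxRecDepth 100000 in
theorem h600 : rchk Cd.ms p600 = true := by
  decide +kernel

/-- row check 601 -/
noncomputable def p601 : RP := ⟨nat_lit 63, nat_lit 1, nat_lit 29, nat_lit 15, nat_lit 334075, nat_lit 350731, nat_lit 334075, nat_lit 0x17eae1268de, nat_lit 0x191c25f7e80, nat_lit 0x800000000000000, nat_lit 0x245c5, nat_lit 15, nat_lit 1719501, nat_lit 1691856, nat_lit 1719504, [nat_lit 0x1b3a00040001b0], nat_lit 1691841, nat_lit 1691841, []⟩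

set_option maxRecDepth 100000 in
theorem h601 : rchk Cd.ms p601 = true := by
  decide +kernel

/-- row check 602 -/
noncomputable def p602 : RP := ⟨nat_lit 63, nat_lit 1, nat_lit 30, nat_lit 16, nat_lit 175361, nat_lit 191170, nat_lit 175361, nat_lit 0x15f0af9074d, nat_lit 0x17eb095fa8c, nat_lit 0x400000000000000, nat_lit 0x2b35b, nat_lit 8, nat_lit 1769677, nat_lit 1719504, nat_lit 1769680, [nat_lit 0x1ba60004000219, nat_lit 0x1c1b00040000f7], nat_lit 1719489, nat_lit 1719489, []⟩

set_option maxRecDepth 100000 in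
theorem h602 : rchk Cd.ms p602 = true := by
  decide +kernel

/-- the row checks of this file -/
noncomputable def rs295 : List RP := [p597, p598, p599, p600, p601, p602]

theorem R295 : RCk Cd.ms rs295 :=
  RCk.cons h597 (RCk.cons h598 (RCk.cons h599 (RCk.cons h600 (RCk.cons h601 (RCk.cons h602 RCk.nil)))))

end Pool.Agent.Moser.Ck.Cr
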