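import Pool.Agent.Lib_MP_cc07e8_cd.Ds
import Pool.Agent.Lib_MP_cc07e8_ck.CkAsmDefs

/-! # MP_cc07e8_co: row checks of the explicit start, part 296 -/

namespace Pool.Agent.Moser.Ck.Cr

/-- row check 603 -/
noncomputable def p603 : RP := ⟨nat_lit 63, nat_lit 1, nat_lit 30, nat_lit 16, nat_lit 191165, nat_lit 206845, nat_lit 191165, nat_lit 0x14470bab730, nat_lit 0x15f0d52c232, nat_lit 0x400000000000000, nat_lit 0x32961, nat_lit 8, nat_lit 1816781, nat_lit 1769680, nat_lit 1816784, [nat_lit 0x1c1c0004000229, nat_lit 0x12f400040000b7], nat_lit 1769665, nat_lit 1769665, []⟩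

set_option maxRecDepth 100000 in
theorem h603 : rchk Cd.ms p603 = true := by
  decide +kernel

/-- row check 604 -/
noncomputable def p604 : RP := ⟨nat_lit 63, nat_lit 1, nat_lit 30, nat_lit 16, nat_lit 206840, nat_lit 222619, nat_lit 206840, nat_lit 0x12d739f13f0, nat_lit 0x14472bcb34b, nat_lit 0x400000000000000, nat_lit 0x3a989, nat_lit 8, nat_lit 1861837, nat_lit 1816784, nat_lit 1861840, [nat_lit 0x14cd0004000237, nat_lit 0xfbc0004000089], nat_lit 1816769, nat_lit 1816769, []⟩

set_option maxRecDepth 100000 in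
theorem h604 : rchk Cd.ms p604 = true := by
  decide +kernel

/-- row check 605 -/
noncomputable def p605 : RP := ⟨nat_lit 63, nat_lit 1, nat_lit 30, nat_lit 15, nat_lit 222614, nat_lit 239561, nat_lit 222614, nat_lit 0x11821f70e3e, nat_lit 0x12d755acddb, nat_lit 0x400000000000000, nat_lit 0x43da9, nat_lit 10, nat_lit 1907917, nat_lit 1861840, nat_lit 1907920, [nat_lit 0x11d40004000245, nat_lit 0x22000400008b], nat_lit 1861825, nat_lit 1861825, []⟩

set_option maxRecDepth 100000 in
theorem h605 : rchk Cd.ms p605 = true := by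
  decide +kernel

/-- row check 606 -/
noncomputable def p606 : RP := ⟨nat_lit 63, nat_lit 1, nat_lit 30, nat_lit 16, nat_lit 239555, nat_lit 255323, nat_lit 239555, nat_lit 0x106d6ce5a09, nat_lit 0x11823c2e0aa, nat_lit 0x400000000000000, nat_lit 0x4d13a, nat_lit 9, nat_lit 1948877, nat_lit 1907920, nat_lit 1948880, [nat_lit 0x113f0004000254, nat_lit 0x7e5000400002c], nat_lit 1907905, nat_lit 1907905, []⟩

set_option maxRecDepth 100000 in
theorem h606 : rchk Cd.ms p606 = true := by
  decide +kernel

/-- row check 607 -/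
noncomputable def p607 : RP := ⟨nat_lit 63, nat_lit 1, nat_lit 30, nat_lit 15, nat_lit 255318, nat_lit 272182, nat_lit 255318, nat_lit 0xf68f0cb8ca, nat_lit 0x106d81faf35, nat_lit 0x400000000000000, nat_lit 0x57977, nat_lit 10, nat_lit 1990861, nat_lit 1948880, nat_lit 1990864, [nat_lit 0xf180004000261, nat_lit 0x282000400002f], nat_lit 1948865, nat_lit 1948865, []⟩

set_option maxRecDepth 100000 in
theorem h607 : rchk Cd.ms p607 = true := by
  decide +kernel

/-- row check 608 -/
noncomputable def p608 : RP := ⟨nat_lit 63, nat_lit 1, nat_lit 30, nat_lit 15, nat_lit 272176, nat_lit 288893, nat_lit 272176, nat_lit 0xe84bee81f0, nat_lit 0xf69070eda7, nat_lit 0x400000000000000, nat_lit 0x62ad5, nat_lit 10, nat_lit 2030797, nat_lit 1990864, nat_lit 2030800, [nat_lit 0x16d1000400026e, nat_lit 0x4000002], nat_lit 1990849, nat_lit 1990849, []⟩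

set_option maxRecDepth 100000 in
theorem h608 : rchk Cd.ms p608 = true := by
  decide +kernel

/-- the row checks of this file -/
noncomputable def rs296 : List RP := [p603, p604, p605, p606, p607, p608]

theorem R296 : RCk Cd.ms rs296 :=
  RCk.cons h603 (RCk.cons h604 (RCk.cons h605 (RCk.cons h606 (RCk.cons h607 (RCk.cons h608 RCk.nil)))))

end Pool.Agent.Moser.Ck.Cr
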