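import Pool.Agent.Lib_MP_cc07e8_cd.Ds
import Pool.Agent.Lib_MP_cc07e8_ck.CkAsmDefs

/-! # MP_cc07e8_co: row checks of the explicit start, part 297 -/

namespace Pool.Agent.Moser.Ck.Cr

/-- row check 609 -/
noncomputable def p609 : RP := ⟨nat_lit 63, nat_lit 1, nat_lit 30, nat_lit 15, nat_lit 288887, nat_lit 305819, nat_lit 288887, nat_lit 0xdb70978c45, nat_lit 0xe84d2ab230, nat_lit 0x400000000000000, nat_lit 0x6e943, nat_lit 11, nat_lit 2069709, nat_lit 2030800, nat_lit 2069712, [nat_lit 0x171c0004000260], nat_lit 2030785, nat_lit 2030785, []⟩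

set_option maxRecDepth 100000 in
theorem h609 : rchk Cd.ms p609 = true := by
  decide +kernel

/-- row check 610 -/
noncomputable def p610 : RP := ⟨nat_lit 63, nat_lit 1, nat_lit 30, nat_lit 15, nat_lit 305813, nat_lit 322453, nat_lit 305813, nat_lit 0xd01ead4592, nat_lit 0xdb71b1b46f, nat_lit 0x400000000000000, nat_lit 0x7aef6, nat_lit 11, nat_lit 2106573, nat_lit 2069712, nat_lit 2106576, [nat_lit 0x11880004000240], nat_lit 2069697, nat_lit 2069697, []⟩

set_option maxRecDepth 100000 in
theorem h610 : rchk Cd.ms p610 = true := by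
  decide +kernel

/-- row check 611 -/
noncomputable def p611 : RP := ⟨nat_lit 63, nat_lit 1, nat_lit 30, nat_lit 14, nat_lit 322447, nat_lit 339679, nat_lit 322447, nat_lit 0xc590c7064c, nat_lit 0xd01fab1193, nat_lit 0x400000000000000, nat_lit 0x886bc, nat_lit 12, nat_lit 2143437, nat_lit 2106576, nat_lit 2143440, [nat_lit 0xe540004000240], nat_lit 2106561, nat_lit 2106561, []⟩

set_option maxRecDepth 100000 in
theorem h611 : rchk Cd.ms p611 = true := by
  decide +kernel

/-- row check 612 -/
noncomputable def p612 : RP := ⟨nat_lit 63, nat_lit 1, nat_lit 30, nat_lit 14, nat_lit 339673, nat_lit 356502, nat_lit 339673, nat_lit 0xbc3e1b2588, nat_lit 0xc591abbb8b, nat_lit 0x400000000000000, nat_lit 0x9644a, nat_lit 12, nat_lit 2178253, nat_lit 2143440, nat_lit 2178256, [nat_lit 0x14ab0004000220], nat_lit 2143425, nat_lit 2143425, []⟩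

set_option maxRecDepth 100000 in
theorem h612 : rchk Cd.ms p612 = true := by
  decide +kernel

/-- row check 613 -/
noncomputable def p613 : RP := ⟨nat_lit 63, nat_lit 1, nat_lit 30, nat_lit 14, nat_lit 356495, nat_lit 374390, nat_lit 356495, nat_lit 0xb33fa0dc9a, nat_lit 0xbc3f0d627c, nat_lit 0x400000000000000, nat_lit 0xa5b9f, nat_lit 13, nat_lit 2214093, nat_lit 2178256, nat_lit 2214096, [nat_lit 0x14fd0004000230], nat_lit 2178241, nat_lit 2178241, []⟩

set_option maxRecDepth 100000 in
theorem h613 : rchk Cd.ms p613 = true := by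
  decide +kernel

/-- row check 614 -/
noncomputable def p614 : RP := ⟨nat_lit 63, nat_lit 1, nat_lit 30, nat_lit 14, nat_lit 374383, nat_lit 392331, nat_lit 374383, nat_lit 0xab0d38c8e2, nat_lit 0xb3407c813a, nat_lit 0x400000000000000, nat_lit 0xb5fd8, nat_lit 13, nat_lit 2248909, nat_lit 2214096, nat_lit 2248912, [nat_lit 0x129d0004000220], nat_lit 2214081, nat_lit 2214081, []⟩

set_option maxRecDepth 100000 in
theorem h614 : rchk Cd.ms p614 = true := by
  decide +kernel

/-- the row checks of this file -/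
noncomputable def rs297 : List RP := [p609, p610, p611, p612, p613, p614]

theorem R297 : RCk Cd.ms rs297 :=
  RCk.cons h609 (RCk.cons h610 (RCk.cons h611 (RCk.cons h612 (RCk.cons h613 (RCk.cons h614 RCk.nil)))))

end Pool.Agent.Moser.Ck.Cr
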