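import Pool.Agent.Lib_MP_cc07e8_cd.Ds
import Pool.Agent.Lib_MP_cc07e8_ck.CkAsmDefs

/-! # MP_cc07e8_co: row checks of the explicit start, part 298 -/

namespace Pool.Agent.Moser.Ck.Cr

/-- row check 615 -/
noncomputable def p615 : RP := ⟨nat_lit 63, nat_lit 1, nat_lit 30, nat_lit 14, nat_lit 392324, nat_lit 410283, nat_lit 392324, nat_lit 0xa391379c42, nat_lit 0xab0e00cc76, nat_lit 0x400000000000000, nat_lit 0xc706c, nat_lit 13, nat_lit 2282701, nat_lit 2248912, nat_lit 2282704, [nat_lit 0xcd00004000210], nat_lit 2248897, nat_lit 2248897, []⟩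

set_option maxRecDepth 100000 in
theorem h615 : rchk Cd.ms p615 = true := by
  decide +kernel

/-- row check 616 -/
noncomputable def p616 : RP := ⟨nat_lit 63, nat_lit 1, nat_lit 30, nat_lit 14, nat_lit 410276, nat_lit 428207, nat_lit 410276, nat_lit 0x9cb87a2a55, nat_lit 0xa391ee80fd, nat_lit 0x400000000000000, nat_lit 0xd8cba, nat_lit 13, nat_lit 2315469, nat_lit 2282704, nat_lit 2315472, [nat_lit 0x12f40004000200], nat_lit 2282689, nat_lit 2282689, []⟩

set_option maxRecDepth 100000 in
theorem h616 : rchk Cd.ms p616 = true := by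
  decide +kernel

/-- row check 617 -/
noncomputable def p617 : RP := ⟨nat_lit 63, nat_lit 1, nat_lit 30, nat_lit 14, nat_lit 428199, nat_lit 446353, nat_lit 428199, nat_lit 0x96596c2671, nat_lit 0x9cb93a0df3, nat_lit 0x400000000000000, nat_lit 0xeb8f2, nat_lit 15, nat_lit 2347725, nat_lit 2315472, nat_lit 2347728, [nat_lit 0xebe00040001f8], nat_lit 2315457, nat_lit 2315457, []⟩

set_option maxRecDepth 100000 in
theorem h617 : rchk Cd.ms p617 = true := by
  decide +kernel

/-- row check 618 -/
noncomputable def p618 : RP := ⟨nat_lit 63, nat_lit 1, nat_lit 30, nat_lit 14, nat_lit 446345, nat_lit 464405, nat_lit 446345, nat_lit 0x90814a6da3, nat_lit 0x965a1cc114, nat_lit 0x400000000000000, nat_lit 0xfeff6, nat_lit 14, nat_lit 2378957, nat_lit 2347728, nat_lit 2378960, [nat_lit 0x10e700040001e8], nat_lit 2347713, nat_lit 2347713, []⟩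

set_option maxRecDepth 100000 in
theorem h618 : rchk Cd.ms p618 = true := by
  decide +kernel

/-- row check 619 -/
noncomputable def p619 : RP := ⟨nat_lit 63, nat_lit 1, nat_lit 30, nat_lit 13, nat_lit 464397, nat_lit 483861, nat_lit 464397, nat_lit 0x8ab1cb5dc6, nat_lit 0x9081ed91c5, nat_lit 0x400000000000000, nat_lit 0x114cf9, nat_lit 15, nat_lit 2411725, nat_lit 2378960, nat_lit 2411728, [nat_lit 0x11130004000200], nat_lit 2378945, nat_lit 2378945, []⟩

set_option maxRecDepth 100000 in
theorem h619 : rchk Cd.ms p619 = true := by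
  decide +kernel

/-- row check 620 -/
noncomputable def p620 : RP := ⟨nat_lit 63, nat_lit 1, nat_lit 31, nat_lit 14, nat_lit 241926, nat_lit 259924, nat_lit 241926, nat_lit 0x8117debfea, nat_lit 0x8ab2746ff4, nat_lit 0x200000000000000, nat_lit 0x13f84d, nat_lit 8, nat_lit 2470093, nat_lit 2411728, nat_lit 2470096, [nat_lit 0x113f00040002f1, nat_lit 0x2000400009f], nat_lit 2411713, nat_lit 2411713, []⟩

set_option maxRecDepth 100000 in
theorem h620 : rchk Cd.ms p620 = true := by
  decide +kernel

/-- the row checks of this file -/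
noncomputable def rs298 : List RP := [p615, p616, p617, p618, p619, p620]

theorem R298 : RCk Cd.ms rs298 :=
  RCk.cons h615 (RCk.cons h616 (RCk.cons h617 (RCk.cons h618 (RCk.cons h619 (RCk.cons h620 RCk.nil)))))

end Pool.Agent.Moser.Ck.Cr
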