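import Pool.Agent.Lib_MP_cc07e8_cd.Ds
import Pool.Agent.Lib_MP_cc07e8_ck.CkAsmDefs

/-! # MP_cc07e8_co: row checks of the explicit start, part 299 -/

namespace Pool.Agent.Moser.Ck.Cr

/-- row check 621 -/
noncomputable def p621 : RP := ⟨nat_lit 63, nat_lit 1, nat_lit 31, nat_lit 14, nat_lit 259920, nat_lit 277099, nat_lit 259920, nat_lit 0x791783d37e, nat_lit 0x811860f28e, nat_lit 0x200000000000000, nat_lit 0x16b237, nat_lit 8, nat_lit 2523341, nat_lit 2470096, nat_lit 2523344, [nat_lit 0xba60004000303, nat_lit 0xf9c000400003d], nat_lit 2470081, nat_lit 2470081, []⟩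

set_option maxRecDepth 100000 in
theorem h621 : rchk Cd.ms p621 = true := by
  decide +kernel

/-- row check 622 -/
noncomputable def p622 : RP := ⟨nat_lit 63, nat_lit 1, nat_lit 31, nat_lit 13, nat_lit 277094, nat_lit 296776, nat_lit 277094, nat_lit 0x71102b2bec, nat_lit 0x7918130640, nat_lit 0x200000000000000, nat_lit 0x1a08b1, nat_lit 8, nat_lit 2581709, nat_lit 2523344, nat_lit 2581712, [nat_lit 0xb7f0004000314, nat_lit 0x400007c], nat_lit 2523329, nat_lit 2523329, []⟩

set_option maxRecDepth 100000 in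
theorem h622 : rchk Cd.ms p622 = true := by
  decide +kernel

/-- row check 623 -/
noncomputable def p623 : RP := ⟨nat_lit 63, nat_lit 1, nat_lit 31, nat_lit 13, nat_lit 296771, nat_lit 315153, nat_lit 296771, nat_lit 0x6a786511f1, nat_lit 0x7110a802a8, nat_lit 0x200000000000000, nat_lit 0x1d5b9e, nat_lit 9, nat_lit 2633933, nat_lit 2581712, nat_lit 2633936, [nat_lit 0xbac0004000326, nat_lit 0x400000a], nat_lit 2581697, nat_lit 2581697, []⟩

set_option maxRecDepth 100000 in
theorem h623 : rchk Cd.ms p623 = true := by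
  decide +kernel

/-- row check 624 -/
noncomputable def p624 : RP := ⟨nat_lit 63, nat_lit 1, nat_lit 31, nat_lit 14, nat_lit 315148, nat_lit 333127, nat_lit 315148, nat_lit 0x64b9c3e1d4, nat_lit 0x6a78d3c633, nat_lit 0x200000000000000, nat_lit 0x20cd5d, nat_lit 10, nat_lit 2683085, nat_lit 2633936, nat_lit 2683088, [nat_lit 0x10190004000300], nat_lit 2633921, nat_lit 2633921, []⟩

set_option maxRecDepth 100000 in
theorem h624 : rchk Cd.ms p624 = true := by
  decide +kernel

/-- row check 625 -/
noncomputable def p625 : RP := ⟨nat_lit 63, nat_lit 1, nat_lit 31, nat_lit 13, nat_lit 333122, nat_lit 352564, nat_lit 333122, nat_lit 0x5f2c2f697a, nat_lit 0x64ba26f659, nat_lit 0x200000000000000, nat_lit 0x24bddf, nat_lit 9, nat_lit 2734285, nat_lit 2683088, nat_lit 2734288, [nat_lit 0xe540004000320], nat_lit 2683073, nat_lit 2683073, []⟩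

set_option maxRecDepth 100000 in
theorem h625 : rchk Cd.ms p625 = true := by
  decide +kernel

/-- row check 626 -/
noncomputable def p626 : RP := ⟨nat_lit 63, nat_lit 1, nat_lit 31, nat_lit 12, nat_lit 352559, nat_lit 373566, nat_lit 352559, nat_lit 0x59d26c4464, nat_lit 0x5f2c87de5c, nat_lit 0x200000000000000, nat_lit 0x293fd1, nat_lit 10, nat_lit 2787533, nat_lit 2734288, nat_lit 2787536, [nat_lit 0xaa20004000340], nat_lit 2734273, nat_lit 2734273, []⟩

set_option maxRecDepth 100000 in
theorem h626 : rchk Cd.ms p626 = true := by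
  decide +kernel

/-- the row checks of this file -/
noncomputable def rs299 : List RP := [p621, p622, p623, p624, p625, p626]

theorem R299 : RCk Cd.ms rs299 :=
  RCk.cons h621 (RCk.cons h622 (RCk.cons h623 (RCk.cons h624 (RCk.cons h625 (RCk.cons h626 RCk.nil)))))

end Pool.Agent.Moser.Ck.Cr
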