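import Pool.Agent.Lib_MP_cc07e8_cd.Ds
import Pool.Agent.Lib_MP_cc07e8_ck.CkAsmDefs

/-! # MP_cc07e8_co: row checks of the explicit start, part 300 -/

namespace Pool.Agent.Moser.Ck.Cr

/-- row check 627 -/
noncomputable def p627 : RP := ⟨nat_lit 63, nat_lit 1, nat_lit 31, nat_lit 13, nat_lit 373560, nat_lit 393251, nat_lit 373560, nat_lit 0x5553639990, nat_lit 0x59d2cad0bc, nat_lit 0x200000000000000, nat_lit 0x2db60e, nat_lit 10, nat_lit 2835661, nat_lit 2787536, nat_lit 2835664, [nat_lit 0xa7000040002f0], nat_lit 2787521, nat_lit 2787521, []⟩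

set_option maxRecDepth 100000 in
theorem h627 : rchk Cd.ms p627 = true := by
  decide +kernel

/-- row check 628 -/
noncomputable def p628 : RP := ⟨nat_lit 63, nat_lit 1, nat_lit 31, nat_lit 13, nat_lit 393245, nat_lit 412735, nat_lit 393245, nat_lit 0x514c3a298e, nat_lit 0x5553b8eb57, nat_lit 0x200000000000000, nat_lit 0x325a63, nat_lit 11, nat_lit 2881741, nat_lit 2835664, nat_lit 2881744, [nat_lit 0xd6800040002d0], nat_lit 2835649, nat_lit 2835649, []⟩

set_option maxRecDepth 100000 in
theorem h628 : rchk Cd.ms p628 = true := by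
  decide +kernel

/-- row check 629 -/
noncomputable def p629 : RP := ⟨nat_lit 63, nat_lit 1, nat_lit 31, nat_lit 12, nat_lit 412729, nat_lit 433762, nat_lit 412729, nat_lit 0x4d5b55fe59, nat_lit 0x514c879dd3, nat_lit 0x200000000000000, nat_lit 0x379d3b, nat_lit 11, nat_lit 2929869, nat_lit 2881744, nat_lit 2929872, [nat_lit 0x8a300040002f0], nat_lit 2881729, nat_lit 2881729, []⟩

set_option maxRecDepth 100000 in
theorem h629 : rchk Cd.ms p629 = true := by
  decide +kernel

/-- row check 630 -/
noncomputable def p630 : RP := ⟨nat_lit 63, nat_lit 1, nat_lit 31, nat_lit 13, nat_lit 433756, nat_lit 453146, nat_lit 433756, nat_lit 0x4a0c37f022, nat_lit 0x4d5b9c1ed0, nat_lit 0x200000000000000, nat_lit 0x3cb21a, nat_lit 12, nat_lit 2972877, nat_lit 2929872, nat_lit 2972880, [nat_lit 0xb7f00040002a0], nat_lit 2929857, nat_lit 2929857, []⟩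

set_option maxRecDepth 100000 in
theorem h630 : rchk Cd.ms p630 = true := by
  decide +kernel

/-- row check 631 -/
noncomputable def p631 : RP := ⟨nat_lit 63, nat_lit 1, nat_lit 31, nat_lit 12, nat_lit 453139, nat_lit 474063, nat_lit 453139, nat_lit 0x46c7d10943, nat_lit 0x4a0c82e72a, nat_lit 0x200000000000000, nat_lit 0x426dad, nat_lit 11, nat_lit 3017933, nat_lit 2972880, nat_lit 3017936, [nat_lit 0xc5500040002c0], nat_lit 2972865, nat_lit 2972865, []⟩

set_option maxRecDepth 100000 in
theorem h631 : rchk Cd.ms p631 = true := by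
  decide +kernel

/-- row check 632 -/
noncomputable def p632 : RP := ⟨nat_lit 63, nat_lit 1, nat_lit 31, nat_lit 11, nat_lit 474056, nat_lit 497106, nat_lit 474056, nat_lit 0x437fe299cc, nat_lit 0x46c815881d, nat_lit 0x200000000000000, nat_lit 0x490b1d, nat_lit 12, nat_lit 3066061, nat_lit 3017936, nat_lit 3066064, [nat_lit 0x7b400040002f0], nat_lit 3017921, nat_lit 3017921, []⟩

set_option maxRecDepth 100000 in
theorem h632 : rchk Cd.ms p632 = true := by
  decide +kernel

/-- the row checks of this file -/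
noncomputable def rs300 : List RP := [p627, p628, p629, p630, p631, p632]

theorem R300 : RCk Cd.ms rs300 :=
  RCk.cons h627 (RCk.cons h628 (RCk.cons h629 (RCk.cons h630 (RCk.cons h631 (RCk.cons h632 RCk.nil)))))

end Pool.Agent.Moser.Ck.Cr
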