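import Pool.Agent.Lib_MP_cc07e8_cd.Ds
import Pool.Agent.Lib_MP_cc07e8_ck.CkAsmDefs

/-! # MP_cc07e8_co: row checks of the explicit start, part 301 -/

namespace Pool.Agent.Moser.Ck.Cr

/-- row check 633 -/
noncomputable def p633 : RP := ⟨nat_lit 63, nat_lit 1, nat_lit 31, nat_lit 12, nat_lit 497099, nat_lit 518320, nat_lit 497099, nat_lit 0x40bca5baf2, nat_lit 0x438020e4b0, nat_lit 0x200000000000000, nat_lit 0x4f691d, nat_lit 12, nat_lit 3109069, nat_lit 3066064, nat_lit 3109072, [nat_lit 0xad100040002a0], nat_lit 3066049, nat_lit 3066049, []⟩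

set_option maxRecDepth 100000 in
theorem h633 : rchk Cd.ms p633 = true := by
  decide +kernel

/-- row check 634 -/
noncomputable def p634 : RP := ⟨nat_lit 63, nat_lit 1, nat_lit 31, nat_lit 13, nat_lit 518313, nat_lit 537501, nat_lit 518313, nat_lit 0x3e6d3e71ff, nat_lit 0x40bcdf072e, nat_lit 0x200000000000000, nat_lit 0x55658f, nat_lit 13, nat_lit 3146957, nat_lit 3109072, nat_lit 3146960, [nat_lit 0xca00004000250], nat_lit 3109057, nat_lit 3109057, []⟩

set_option maxRecDepth 100000 in
theorem h634 : rchk Cd.ms p634 = true := by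
  decide +kernel

/-- row check 635 -/
noncomputable def p635 : RP := ⟨nat_lit 63, nat_lit 1, nat_lit 31, nat_lit 12, nat_lit 537494, nat_lit 558763, nat_lit 537494, nat_lit 0x3c0d20869a, nat_lit 0x3e6d73ba04, nat_lit 0x200000000000000, nat_lit 0x5c495a, nat_lit 13, nat_lit 3187917, nat_lit 3146960, nat_lit 3187920, [nat_lit 0xb7f0004000280], nat_lit 3146945, nat_lit 3146945, []⟩

set_option maxRecDepth 100000 in
theorem h635 : rchk Cd.ms p635 = true := by
  decide +kernel

/-- row check 636 -/
noncomputable def p636 : RP := ⟨nat_lit 63, nat_lit 1, nat_lit 31, nat_lit 11, nat_lit 558756, nat_lit 581684, nat_lit 558756, nat_lit 0x39af5b15cd, nat_lit 0x3c0d51d44e, nat_lit 0x200000000000000, nat_lit 0x640365, nat_lit 13, nat_lit 3230925, nat_lit 3187920, nat_lit 3230928, [nat_lit 0x72700040002a0], nat_lit 3187905, nat_lit 3187905, []⟩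

set_option maxRecDepth 100000 in
theorem h636 : rchk Cd.ms p636 = true := by
  decide +kernel

/-- row check 637 -/
noncomputable def p637 : RP := ⟨nat_lit 63, nat_lit 1, nat_lit 31, nat_lit 12, nat_lit 581677, nat_lit 602955, nat_lit 581677, nat_lit 0x37a664e7ce, nat_lit 0x39af889464, nat_lit 0x200000000000000, nat_lit 0x6b7625, nat_lit 14, nat_lit 3269837, nat_lit 3230928, nat_lit 3269840, [nat_lit 0xbab0004000260], nat_lit 3230913, nat_lit 3230913, []⟩

set_option maxRecDepth 100000 in
theorem h637 : rchk Cd.ms p637 = true := by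
  decide +kernel

/-- row check 638 -/
noncomputable def p638 : RP := ⟨nat_lit 63, nat_lit 1, nat_lit 31, nat_lit 12, nat_lit 602948, nat_lit 624159, nat_lit 602948, nat_lit 0x35c269ff48, nat_lit 0x37a68f3f26, nat_lit 0x200000000000000, nat_lit 0x7326fe, nat_lit 14, nat_lit 3307725, nat_lit 3269840, nat_lit 3307728, [nat_lit 0x8f40004000250], nat_lit 3269825, nat_lit 3269825, []⟩

set_option maxRecDepth 100000 in
theorem h638 : rchk Cd.ms p638 = true := by
  decide +kernel

/-- the row checks of this file -/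
noncomputable def rs301 : List RP := [p633, p634, p635, p636, p637, p638]

theorem R301 : RCk Cd.ms rs301 :=
  RCk.cons h633 (RCk.cons h634 (RCk.cons h635 (RCk.cons h636 (RCk.cons h637 (RCk.cons h638 RCk.nil)))))

end Pool.Agent.Moser.Ck.Cr
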