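import Pool.Agent.Lib_MP_cc07e8_cd.Ds
import Pool.Agent.Lib_MP_cc07e8_ck.CkAsmDefs

/-! # MP_cc07e8_co: row checks of the explicit start, part 302 -/

namespace Pool.Agent.Moser.Ck.Cr

/-- row check 639 -/
noncomputable def p639 : RP := ⟨nat_lit 63, nat_lit 1, nat_lit 31, nat_lit 11, nat_lit 624151, nat_lit 646446, nat_lit 624151, nat_lit 0x33e7f03771, nat_lit 0x35c29727bc, nat_lit 0x200000000000000, nat_lit 0x7b85e6, nat_lit 15, nat_lit 3346637, nat_lit 3307728, nat_lit 3346640, [nat_lit 0x7db0004000260], nat_lit 3307713, nat_lit 3307713, []⟩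

set_option maxRecDepth 100000 in
theorem h639 : rchk Cd.ms p639 = true := by
  decide +kernel

/-- row check 640 -/
noncomputable def p640 : RP := ⟨nat_lit 63, nat_lit 1, nat_lit 31, nat_lit 11, nat_lit 646438, nat_lit 669259, nat_lit 646438, nat_lit 0x3222fe3667, nat_lit 0x33e81a5082, nat_lit 0x200000000000000, nat_lit 0x846512, nat_lit 9, nat_lit 3385549, nat_lit 3346640, nat_lit 3385552, [nat_lit 0x2770004000260], nat_lit 3346625, nat_lit 3346625, []⟩

set_option maxRecDepth 100000 in
theorem h640 : rchk Cd.ms p640 = true := by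
  decide +kernel

/-- row check 641 -/
noncomputable def p641 : RP := ⟨nat_lit 63, nat_lit 1, nat_lit 31, nat_lit 10, nat_lit 669251, nat_lit 694467, nat_lit 669251, nat_lit 0x30511aa3ef, nat_lit 0x3223257d46, nat_lit 0x200000000000000, nat_lit 0x8e8e64, nat_lit 10, nat_lit 3427533, nat_lit 3385552, nat_lit 3427536, [nat_lit 0x37d0004000290], nat_lit 3385537, nat_lit 3385537, []⟩

set_option maxRecDepth 100000 in
theorem h641 : rchk Cd.ms p641 = true := by
  decide +kernel

/-- row check 642 -/
noncomputable def p642 : RP := ⟨nat_lit 63, nat_lit 1, nat_lit 32, nat_lit 11, nat_lit 347229, nat_lit 370127, nat_lit 347229, nat_lit 0x2d540965f0, nat_lit 0x305143ad63, nat_lit 0x100000000000000, nat_lit 0xa1f925, nat_lit 5, nat_lit 3501261, nat_lit 3427536, nat_lit 3501264, [nat_lit 0x220000400042f, nat_lit 0x4000051], nat_lit 3427521, nat_lit 3427521, []⟩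

set_option maxRecDepth 100000 in
theorem h642 : rchk Cd.ms p642 = true := by
  decide +kernel

/-- row check 643 -/
noncomputable def p643 : RP := ⟨nat_lit 63, nat_lit 1, nat_lit 32, nat_lit 8, nat_lit 370122, nat_lit 399446, nat_lit 370122, nat_lit 0x2a004f6896, nat_lit 0x2d54318756, nat_lit 0x100000000000000, nat_lit 0xbca6af, nat_lit 2, nat_lit 3591373, nat_lit 3501264, nat_lit 3591376, [nat_lit 0x180004000446, nat_lit 0x400013a], nat_lit 3501249, nat_lit 3501249, []⟩

set_option maxRecDepth 100000 in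
theorem h643 : rchk Cd.ms p643 = true := by
  decide +kernel

/-- row check 644 -/
noncomputable def p644 : RP := ⟨nat_lit 63, nat_lit 1, nat_lit 32, nat_lit 8, nat_lit 399441, nat_lit 429220, nat_lit 399441, nat_lit 0x2716728019, nat_lit 0x2a0071dd34, nat_lit 0x100000000000000, nat_lit 0xd9d29d, nat_lit 0, nat_lit 3678475, nat_lit 3591376, nat_lit 3678478, [nat_lit 0x4000462, nat_lit 0x40000ee, nat_lit 0x3000001, nat_lit 0xc00001, nat_lit 0x200001], nat_lit 3591361, nat_lit 3591361, []⟩

set_option maxRecDepth 100000 in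
theorem h644 : rchk Cd.ms p644 = true := by
  decide +kernel

/-- the row checks of this file -/
noncomputable def rs302 : List RP := [p639, p640, p641, p642, p643, p644]

theorem R302 : RCk Cd.ms rs302 :=
  RCk.cons h639 (RCk.cons h640 (RCk.cons h641 (RCk.cons h642 (RCk.cons h643 (RCk.cons h644 RCk.nil)))))

end Pool.Agent.Moser.Ck.Cr
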