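import Pool.Agent.Lib_MP_cc07e8_cd.Ds
import Pool.Agent.Lib_MP_cc07e8_ck.CkAsmDefs

/-! # MP_cc07e8_co: row checks of the explicit start, part 303 -/

namespace Pool.Agent.Moser.Ck.Cr

/-- row check 645 -/
noncomputable def p645 : RP := ⟨nat_lit 63, nat_lit 1, nat_lit 32, nat_lit 8, nat_lit 429215, nat_lit 436814, nat_lit 429215, nat_lit 0x26687c45f2, nat_lit 0x271690576c, nat_lit 0x100000000000000, nat_lit 0xe19937, nat_lit 0, nat_lit 3700042, nat_lit 3678478, nat_lit 3700045, [nat_lit 0x4000150, nat_lit 0x3000001, nat_lit 0xc00001, nat_lit 0x200001, nat_lit 0x100001], nat_lit 3678463, nat_lit 3678463, []⟩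

set_option maxRecDepth 100000 in
theorem h645 : rchk Cd.ms p645 = true := by
  decide +kernel

/-- the row checks of this file -/
noncomputable def rs303 : List RP := [p645]

theorem R303 : RCk Cd.ms rs303 :=
  RCk.cons h645 RCk.nil

end Pool.Agent.Moser.Ck.Cr
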