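import Pool.Agent.Lib_MP_cc07e8_cr.R000
import Pool.Agent.Lib_MP_cc07e8_cr.R001
import Pool.Agent.Lib_MP_cc07e8_cr.R002
import Pool.Agent.Lib_MP_cc07e8_cr.R003
import Pool.Agent.Lib_MP_cc07e8_cr.R004
import Pool.Agent.Lib_MP_cc07e8_cr.R005
import Pool.Agent.Lib_MP_cc07e8_cr.R006
import Pool.Agent.Lib_MP_cc07e8_cr.R007
import Pool.Agent.Lib_MP_cc07e8_cr.R008
import Pool.Agent.Lib_MP_cc07e8_cr.R009
import Pool.Agent.Lib_MP_cc07e8_cr.R010
import Pool.Agent.Lib_MP_cc07e8_cr.R011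
import Pool.Agent.Lib_MP_cc07e8_cr.R012
import Pool.Agent.Lib_MP_cc07e8_cr.R013
import Pool.Agent.Lib_MP_cc07e8_cr.R014
import Pool.Agent.Lib_MP_cc07e8_cr.R015
import Pool.Agent.Lib_MP_cc07e8_cr.R016
import Pool.Agent.Lib_MP_cc07e8_cr.R017
import Pool.Agent.Lib_MP_cc07e8_cr.R018
import Pool.Agent.Lib_MP_cc07e8_cr.R019
import Pool.Agent.Lib_MP_cc07e8_cr.R020
import Pool.Agent.Lib_MP_cc07e8_cr.R021
import Pool.Agent.Lib_MP_cc07e8_cr.R022
import Pool.Agent.Lib_MP_cc07e8_cr.R023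
import Pool.Agent.Lib_MP_cc07e8_cr.R024
import Pool.Agent.Lib_MP_cc07e8_cr.R025
import Pool.Agent.Lib_MP_cc07e8_cr.R026
import Pool.Agent.Lib_MP_cc07e8_cr.R027
import Pool.Agent.Lib_MP_cc07e8_cr.R028
import Pool.Agent.Lib_MP_cc07e8_cr.R029
import Pool.Agent.Lib_MP_cc07e8_cr.R030
import Pool.Agent.Lib_MP_cc07e8_cr.R031
import Pool.Agent.Lib_MP_cc07e8_cr.R032
import Pool.Agent.Lib_MP_cc07e8_cr.R033
import Pool.Agent.Lib_MP_cc07e8_cr.R034
import Pool.Agent.Lib_MP_cc07e8_cr.R035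
import Pool.Agent.Lib_MP_cc07e8_cr.R036
import Pool.Agent.Lib_MP_cc07e8_cr.R037
import Pool.Agent.Lib_MP_cc07e8_cr.R038
import Pool.Agent.Lib_MP_cc07e8_cr.R039
import Pool.Agent.Lib_MP_cc07e8_cr.R040
import Pool.Agent.Lib_MP_cc07e8_cr.R041
import Pool.Agent.Lib_MP_cc07e8_cr.R042
import Pool.Agent.Lib_MP_cc07e8_cr.R043
import Pool.Agent.Lib_MP_cc07e8_cr.R044
import Pool.Agent.Lib_MP_cc07e8_cr.R045
import Pool.Agent.Lib_MP_cc07e8_cr.R046
import Pool.Agent.Lib_MP_cc07e8_cr.R047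
import Pool.Agent.Lib_MP_cc07e8_cr.R048
import Pool.Agent.Lib_MP_cc07e8_cr.R049
import Pool.Agent.Lib_MP_cc07e8_cr.R050
import Pool.Agent.Lib_MP_cc07e8_cr.R051
import Pool.Agent.Lib_MP_cc07e8_cr.R052
import Pool.Agent.Lib_MP_cc07e8_cr.R053
import Pool.Agent.Lib_MP_cc07e8_cr.R054
import Pool.Agent.Lib_MP_cc07e8_cr.R055
import Pool.Agent.Lib_MP_cc07e8_cr.R056
import Pool.Agent.Lib_MP_cc07e8_cr.R057
import Pool.Agent.Lib_MP_cc07e8_cr.R058
import Pool.Agent.Lib_MP_cc07e8_cr.R059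
import Pool.Agent.Lib_MP_cc07e8_cr.R060
import Pool.Agent.Lib_MP_cc07e8_cr.R061
import Pool.Agent.Lib_MP_cc07e8_cr.R062
import Pool.Agent.Lib_MP_cc07e8_cr.R063
import Pool.Agent.Lib_MP_cc07e8_cr.R064
import Pool.Agent.Lib_MP_cc07e8_cr.R065
import Pool.Agent.Lib_MP_cc07e8_cr.R066
import Pool.Agent.Lib_MP_cc07e8_cr.R067
import Pool.Agent.Lib_MP_cc07e8_cr.R068
import Pool.Agent.Lib_MP_cc07e8_cr.R069
import Pool.Agent.Lib_MP_cc07e8_cr.R070
import Pool.Agent.Lib_MP_cc07e8_cr.R071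
import Pool.Agent.Lib_MP_cc07e8_cr.R072
import Pool.Agent.Lib_MP_cc07e8_cr.R073
import Pool.Agent.Lib_MP_cc07e8_cr.R074
import Pool.Agent.Lib_MP_cc07e8_cr.R075
import Pool.Agent.Lib_MP_cc07e8_cr.R076
import Pool.Agent.Lib_MP_cc07e8_cr.R077
import Pool.Agent.Lib_MP_cc07e8_cr.R078
import Pool.Agent.Lib_MP_cc07e8_cr.R079
import Pool.Agent.Lib_MP_cc07e8_cr.R080
import Pool.Agent.Lib_MP_cc07e8_cr.R081
import Pool.Agent.Lib_MP_cc07e8_cr.R082
import Pool.Agent.Lib_MP_cc07e8_cr.R083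
import Pool.Agent.Lib_MP_cc07e8_cr.R084
import Pool.Agent.Lib_MP_cc07e8_cr.R085
import Pool.Agent.Lib_MP_cc07e8_cr.R086
import Pool.Agent.Lib_MP_cc07e8_cr.R087
import Pool.Agent.Lib_MP_cc07e8_cr.R088
import Pool.Agent.Lib_MP_cc07e8_cr.R089
import Pool.Agent.Lib_MP_cc07e8_cr.R090
import Pool.Agent.Lib_MP_cc07e8_cr.R091
import Pool.Agent.Lib_MP_cc07e8_cr.R092
import Pool.Agent.Lib_MP_cc07e8_cr.R093
import Pool.Agent.Lib_MP_cc07e8_cr.R094
import Pool.Agent.Lib_MP_cc07e8_cr.R095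
import Pool.Agent.Lib_MP_cc07e8_cr.R096
import Pool.Agent.Lib_MP_cc07e8_cr.R097
import Pool.Agent.Lib_MP_cc07e8_cr.R098
import Pool.Agent.Lib_MP_cc07e8_cr.R099
import Pool.Agent.Lib_MP_cc07e8_cr.R100
import Pool.Agent.Lib_MP_cc07e8_cr.R101
import Pool.Agent.Lib_MP_cc07e8_cr.R102
import Pool.Agent.Lib_MP_cc07e8_cr.R103
import Pool.Agent.Lib_MP_cc07e8_cr.R104
import Pool.Agent.Lib_MP_cc07e8_cr.R105
import Pool.Agent.Lib_MP_cc07e8_cr.R106
import Pool.Agent.Lib_MP_cc07e8_cr.R107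
import Pool.Agent.Lib_MP_cc07e8_cr.R108
import Pool.Agent.Lib_MP_cc07e8_cr.R109
import Pool.Agent.Lib_MP_cc07e8_cr.R110
import Pool.Agent.Lib_MP_cc07e8_cr.R111
import Pool.Agent.Lib_MP_cc07e8_cr.R112
import Pool.Agent.Lib_MP_cc07e8_cr.R113
import Pool.Agent.Lib_MP_cc07e8_cr.R114
import Pool.Agent.Lib_MP_cc07e8_cr.R115
import Pool.Agent.Lib_MP_cc07e8_cr.R116
import Pool.Agent.Lib_MP_cc07e8_cr.R117
import Pool.Agent.Lib_MP_cc07e8_cr.R118
import Pool.Agent.Lib_MP_cc07e8_cr.R119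
import Pool.Agent.Lib_MP_cc07e8_cr.R120
import Pool.Agent.Lib_MP_cc07e8_cr.R121
import Pool.Agent.Lib_MP_cc07e8_cr.R122
import Pool.Agent.Lib_MP_cc07e8_cr.R123
import Pool.Agent.Lib_MP_cc07e8_cr.R124
import Pool.Agent.Lib_MP_cc07e8_cr.R125
import Pool.Agent.Lib_MP_cc07e8_cr.R126
import Pool.Agent.Lib_MP_cc07e8_cr.R127
import Pool.Agent.Lib_MP_cc07e8_cr.R128
import Pool.Agent.Lib_MP_cc07e8_cr.R129
import Pool.Agent.Lib_MP_cc07e8_cr.R130
import Pool.Agent.Lib_MP_cc07e8_cr.R131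
import Pool.Agent.Lib_MP_cc07e8_cr.R132
import Pool.Agent.Lib_MP_cc07e8_cr.R133
import Pool.Agent.Lib_MP_cc07e8_cr.R134
import Pool.Agent.Lib_MP_cc07e8_cr.R135
import Pool.Agent.Lib_MP_cc07e8_cr.R136
import Pool.Agent.Lib_MP_cc07e8_cr.R137
import Pool.Agent.Lib_MP_cc07e8_cr.R138
import Pool.Agent.Lib_MP_cc07e8_cr.R139
import Pool.Agent.Lib_MP_cc07e8_cr.R140
import Pool.Agent.Lib_MP_cc07e8_cr.R141
import Pool.Agent.Lib_MP_cc07e8_cr.R142
import Pool.Agent.Lib_MP_cc07e8_cr.R143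
import Pool.Agent.Lib_MP_cc07e8_cr.R144
import Pool.Agent.Lib_MP_cc07e8_cr.R145
import Pool.Agent.Lib_MP_cc07e8_cr.R146
import Pool.Agent.Lib_MP_cc07e8_cr.R147
import Pool.Agent.Lib_MP_cc07e8_cr.R148
import Pool.Agent.Lib_MP_cc07e8_cr.R149
import Pool.Agent.Lib_MP_cc07e8_cr.R150
import Pool.Agent.Lib_MP_cc07e8_cr.R151
import Pool.Agent.Lib_MP_cc07e8_cr.R152
import Pool.Agent.Lib_MP_cc07e8_cr.R153
import Pool.Agent.Lib_MP_cc07e8_cr.R154
import Pool.Agent.Lib_MP_cc07e8_cr.R155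
import Pool.Agent.Lib_MP_cc07e8_cr.R156
import Pool.Agent.Lib_MP_cc07e8_cr.R157
import Pool.Agent.Lib_MP_cc07e8_cr.R158
import Pool.Agent.Lib_MP_cc07e8_cr.R159
import Pool.Agent.Lib_MP_cc07e8_cr.R160
import Pool.Agent.Lib_MP_cc07e8_cr.R161
import Pool.Agent.Lib_MP_cc07e8_cr.R162
import Pool.Agent.Lib_MP_cc07e8_cr.R163
import Pool.Agent.Lib_MP_cc07e8_cr.R164
import Pool.Agent.Lib_MP_cc07e8_cr.R165
import Pool.Agent.Lib_MP_cc07e8_cr.R166
import Pool.Agent.Lib_MP_cc07e8_cr.R167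
import Pool.Agent.Lib_MP_cc07e8_cr.R168
import Pool.Agent.Lib_MP_cc07e8_cr.R169
import Pool.Agent.Lib_MP_cc07e8_cr.R170
import Pool.Agent.Lib_MP_cc07e8_cr.R171
import Pool.Agent.Lib_MP_cc07e8_cr.R172
import Pool.Agent.Lib_MP_cc07e8_cr.R173
import Pool.Agent.Lib_MP_cc07e8_cr.R174
import Pool.Agent.Lib_MP_cc07e8_cr.R175
import Pool.Agent.Lib_MP_cc07e8_cr.R176
import Pool.Agent.Lib_MP_cc07e8_cr.R177
import Pool.Agent.Lib_MP_cc07e8_cr.R178
import Pool.Agent.Lib_MP_cc07e8_cr.R179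
import Pool.Agent.Lib_MP_cc07e8_cr.R180
import Pool.Agent.Lib_MP_cc07e8_cr.R181
import Pool.Agent.Lib_MP_cc07e8_cr.R182
import Pool.Agent.Lib_MP_cc07e8_cr.R183
import Pool.Agent.Lib_MP_cc07e8_cr.R184
import Pool.Agent.Lib_MP_cc07e8_cr.R185
import Pool.Agent.Lib_MP_cc07e8_cr.R186
import Pool.Agent.Lib_MP_cc07e8_cr.R187
import Pool.Agent.Lib_MP_cc07e8_cr.R188
import Pool.Agent.Lib_MP_cc07e8_cr.R189
import Pool.Agent.Lib_MP_cc07e8_cr.R190
import Pool.Agent.Lib_MP_cc07e8_cr.R191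
import Pool.Agent.Lib_MP_cc07e8_cr.R192
import Pool.Agent.Lib_MP_cc07e8_cr.R193
import Pool.Agent.Lib_MP_cc07e8_cr.R194
import Pool.Agent.Lib_MP_cc07e8_cr.R195
import Pool.Agent.Lib_MP_cc07e8_cr.R196
import Pool.Agent.Lib_MP_cc07e8_cr.R197
import Pool.Agent.Lib_MP_cc07e8_cr.R198
import Pool.Agent.Lib_MP_cc07e8_cr.R199
import Pool.Agent.Lib_MP_cc07e8_cr.R200
import Pool.Agent.Lib_MP_cc07e8_cr.R201
import Pool.Agent.Lib_MP_cc07e8_cr.R202
import Pool.Agent.Lib_MP_cc07e8_cr.R203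
import Pool.Agent.Lib_MP_cc07e8_cr.R204
import Pool.Agent.Lib_MP_cc07e8_cr.R205
import Pool.Agent.Lib_MP_cc07e8_cr.R206
import Pool.Agent.Lib_MP_cc07e8_cr.R207
import Pool.Agent.Lib_MP_cc07e8_cr.R208
import Pool.Agent.Lib_MP_cc07e8_cr.R209
import Pool.Agent.Lib_MP_cc07e8_cr.R210
import Pool.Agent.Lib_MP_cc07e8_cr.R211
import Pool.Agent.Lib_MP_cc07e8_cr.R212
import Pool.Agent.Lib_MP_cc07e8_cr.R213
import Pool.Agent.Lib_MP_cc07e8_cr.R214
import Pool.Agent.Lib_MP_cc07e8_cr.R215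
import Pool.Agent.Lib_MP_cc07e8_cr.R216
import Pool.Agent.Lib_MP_cc07e8_cr.R217
import Pool.Agent.Lib_MP_cc07e8_cr.R218
import Pool.Agent.Lib_MP_cc07e8_cr.R219
import Pool.Agent.Lib_MP_cc07e8_cr.R220
import Pool.Agent.Lib_MP_cc07e8_cr.R221
import Pool.Agent.Lib_MP_cc07e8_cr.R222
import Pool.Agent.Lib_MP_cc07e8_cr.R223
import Pool.Agent.Lib_MP_cc07e8_cr.R224
import Pool.Agent.Lib_MP_cc07e8_cr.R225
import Pool.Agent.Lib_MP_cc07e8_cr.R226
import Pool.Agent.Lib_MP_cc07e8_cr.R227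
import Pool.Agent.Lib_MP_cc07e8_cr.R228
import Pool.Agent.Lib_MP_cc07e8_cr.R229
import Pool.Agent.Lib_MP_cc07e8_cr.R230
import Pool.Agent.Lib_MP_cc07e8_cr.R231
import Pool.Agent.Lib_MP_cc07e8_cr.R232
import Pool.Agent.Lib_MP_cc07e8_cr.R233
import Pool.Agent.Lib_MP_cc07e8_cr.R234
import Pool.Agent.Lib_MP_cc07e8_cr.R235
import Pool.Agent.Lib_MP_cc07e8_cr.R236
import Pool.Agent.Lib_MP_cc07e8_cr.R237
import Pool.Agent.Lib_MP_cc07e8_cr.R238
import Pool.Agent.Lib_MP_cc07e8_cr.R239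
import Pool.Agent.Lib_MP_cc07e8_cr.R240
import Pool.Agent.Lib_MP_cc07e8_cr.R241
import Pool.Agent.Lib_MP_cc07e8_cr.R242
import Pool.Agent.Lib_MP_cc07e8_cr.R243
import Pool.Agent.Lib_MP_cc07e8_cr.R244
import Pool.Agent.Lib_MP_cc07e8_cr.R245
import Pool.Agent.Lib_MP_cc07e8_cr.R246
import Pool.Agent.Lib_MP_cc07e8_cr.R247
import Pool.Agent.Lib_MP_cc07e8_cr.R248
import Pool.Agent.Lib_MP_cc07e8_cr.R249
import Pool.Agent.Lib_MP_cc07e8_cr.R250
import Pool.Agent.Lib_MP_cc07e8_cr.R251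
import Pool.Agent.Lib_MP_cc07e8_cr.R252
import Pool.Agent.Lib_MP_cc07e8_cr.R253
import Pool.Agent.Lib_MP_cc07e8_cr.R254
import Pool.Agent.Lib_MP_cc07e8_cr.R255
import Pool.Agent.Lib_MP_cc07e8_cr.R256
import Pool.Agent.Lib_MP_cc07e8_cr.R257
import Pool.Agent.Lib_MP_cc07e8_cr.R258
import Pool.Agent.Lib_MP_cc07e8_cr.R259
import Pool.Agent.Lib_MP_cc07e8_cr.R260
import Pool.Agent.Lib_MP_cc07e8_cr.R261
import Pool.Agent.Lib_MP_cc07e8_cr.R262
import Pool.Agent.Lib_MP_cc07e8_cr.R263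
import Pool.Agent.Lib_MP_cc07e8_cr.R264
import Pool.Agent.Lib_MP_cc07e8_cr.R265
import Pool.Agent.Lib_MP_cc07e8_cr.R266
import Pool.Agent.Lib_MP_cc07e8_cr.R267
import Pool.Agent.Lib_MP_cc07e8_cr.R268
import Pool.Agent.Lib_MP_cc07e8_cr.R269
import Pool.Agent.Lib_MP_cc07e8_cr.R270
import Pool.Agent.Lib_MP_cc07e8_cr.R271
import Pool.Agent.Lib_MP_cc07e8_cr.R272
import Pool.Agent.Lib_MP_cc07e8_cr.R273
import Pool.Agent.Lib_MP_cc07e8_cr.R274
import Pool.Agent.Lib_MP_cc07e8_cr.R275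
import Pool.Agent.Lib_MP_cc07e8_cr.R276
import Pool.Agent.Lib_MP_cc07e8_cr.R277
import Pool.Agent.Lib_MP_cc07e8_cr.R278
import Pool.Agent.Lib_MP_cc07e8_cr.R279
import Pool.Agent.Lib_MP_cc07e8_cr.R280
import Pool.Agent.Lib_MP_cc07e8_cr.R281
import Pool.Agent.Lib_MP_cc07e8_cr.R282
import Pool.Agent.Lib_MP_cc07e8_cr.R283
import Pool.Agent.Lib_MP_cc07e8_cr.R284
import Pool.Agent.Lib_MP_cc07e8_cr.R285
import Pool.Agent.Lib_MP_cc07e8_cr.R286
import Pool.Agent.Lib_MP_cc07e8_cr.R287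
import Pool.Agent.Lib_MP_cc07e8_cr.R288
import Pool.Agent.Lib_MP_cc07e8_cr.R289
import Pool.Agent.Lib_MP_cc07e8_cr.R290
import Pool.Agent.Lib_MP_cc07e8_cr.R291
import Pool.Agent.Lib_MP_cc07e8_cr.R292
import Pool.Agent.Lib_MP_cc07e8_cr.R293
import Pool.Agent.Lib_MP_cc07e8_cr.R294
import Pool.Agent.Lib_MP_cc07e8_cr.R295
import Pool.Agent.Lib_MP_cc07e8_cr.R296
import Pool.Agent.Lib_MP_cc07e8_cr.R297
import Pool.Agent.Lib_MP_cc07e8_cr.R298
import Pool.Agent.Lib_MP_cc07e8_cr.R299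
import Pool.Agent.Lib_MP_cc07e8_cr.R300
import Pool.Agent.Lib_MP_cc07e8_cr.R301
import Pool.Agent.Lib_MP_cc07e8_cr.R302
import Pool.Agent.Lib_MP_cc07e8_cr.R303
import Pool.Agent.Lib_MP_cc07e8_cr.F00
import Pool.Agent.Lib_MP_cc07e8_cr.F01
import Pool.Agent.Lib_MP_cc07e8_cr.F02
import Pool.Agent.Lib_MP_cc07e8_cr.F03
import Pool.Agent.Lib_MP_cc07e8_cr.F04
import Pool.Agent.Lib_MP_cc07e8_cr.F05
import Pool.Agent.Lib_MP_cc07e8_cr.F06
import Pool.Agent.Lib_MP_cc07e8_cr.F07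
import Pool.Agent.Lib_MP_cc07e8_cr.F08
import Pool.Agent.Lib_MP_cc07e8_cr.F09
import Pool.Agent.Lib_MP_cc07e8_cr.F10
import Pool.Agent.Lib_MP_cc07e8_cr.F11
import Pool.Agent.Lib_MP_cc07e8_cr.F12
import Pool.Agent.Lib_MP_cc07e8_cr.F13
import Pool.Agent.Lib_MP_cc07e8_cr.F14
import Pool.Agent.Lib_MP_cc07e8_cr.F15
import Pool.Agent.Lib_MP_cc07e8_ck.CkAsmDefs

/-! # MP_cc07e8_co: tables of the explicit start -/

namespace Pool.Agent.Moser.Ck.Cr

/-- row checks, group 0 -/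
noncomputable def ra0 : List RP :=
  rs0 ++ (rs1 ++ (rs2 ++ (rs3 ++ (rs4 ++ (rs5 ++ (rs6 ++ (rs7 ++ (rs8 ++ (rs9 ++ (rs10 ++ (rs11 ++ (rs12 ++ (rs13 ++ (rs14 ++ rs15))))))))))))))

theorem RA0 : RCk Cd.ms ra0 :=
  RCk.append R0 (RCk.append R1 (RCk.append R2 (RCk.append R3 (RCk.append R4 (RCk.append R5 (RCk.append R6 (RCk.append R7 (RCk.append R8 (RCk.append R9 (RCk.append R10 (RCk.append R11 (RCk.append R12 (RCk.append R13 (RCk.append R14 R15))))))))))))))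

/-- row checks, group 1 -/
noncomputable def ra1 : List RP :=
  rs16 ++ (rs17 ++ (rs18 ++ (rs19 ++ (rs20 ++ (rs21 ++ (rs22 ++ (rs23 ++ (rs24 ++ (rs25 ++ (rs26 ++ (rs27 ++ (rs28 ++ (rs29 ++ (rs30 ++ rs31))))))))))))))

theorem RA1 : RCk Cd.ms ra1 :=
  RCk.append R16 (RCk.append R17 (RCk.append R18 (RCk.append R19 (RCk.append R20 (RCk.append R21 (RCk.append R22 (RCk.append R23 (RCk.append R24 (RCk.append R25 (RCk.append R26 (RCk.append R27 (RCk.append R28 (RCk.append R29 (RCk.append R30 R31))))))))))))))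

/-- row checks, group 2 -/
noncomputable def ra2 : List RP :=
  rs32 ++ (rs33 ++ (rs34 ++ (rs35 ++ (rs36 ++ (rs37 ++ (rs38 ++ (rs39 ++ (rs40 ++ (rs41 ++ (rs42 ++ (rs43 ++ (rs44 ++ (rs45 ++ (rs46 ++ rs47))))))))))))))

theorem RA2 : RCk Cd.ms ra2 :=
  RCk.append R32 (RCk.append R33 (RCk.append R34 (RCk.append R35 (RCk.append R36 (RCk.append R37 (RCk.append R38 (RCk.append R39 (RCk.append R40 (RCk.append R41 (RCk.append R42 (RCk.append R43 (RCk.append R44 (RCk.append R45 (RCk.append R46 R47))))))))))))))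

/-- row checks, group 3 -/
noncomputable def ra3 : List RP :=
  rs48 ++ (rs49 ++ (rs50 ++ (rs51 ++ (rs52 ++ (rs53 ++ (rs54 ++ (rs55 ++ (rs56 ++ (rs57 ++ (rs58 ++ (rs59 ++ (rs60 ++ (rs61 ++ (rs62 ++ rs63))))))))))))))

theorem RA3 : RCk Cd.ms ra3 :=
  RCk.append R48 (RCk.append R49 (RCk.append R50 (RCk.append R51 (RCk.append R52 (RCk.append R53 (RCk.append R54 (RCk.append R55 (RCk.append R56 (RCk.append R57 (RCk.append R58 (RCk.append R59 (RCk.append R60 (RCk.append R61 (RCk.append R62 R63))))))))))))))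

/-- row checks, group 4 -/
noncomputable def ra4 : List RP :=
  rs64 ++ (rs65 ++ (rs66 ++ (rs67 ++ (rs68 ++ (rs69 ++ (rs70 ++ (rs71 ++ (rs72 ++ (rs73 ++ (rs74 ++ (rs75 ++ (rs76 ++ (rs77 ++ (rs78 ++ rs79))))))))))))))

theorem RA4 : RCk Cd.ms ra4 :=
  RCk.append R64 (RCk.append R65 (RCk.append R66 (RCk.append R67 (RCk.append R68 (RCk.append R69 (RCk.append R70 (RCk.append R71 (RCk.append R72 (RCk.append R73 (RCk.append R74 (RCk.append R75 (RCk.append R76 (RCk.append R77 (RCk.append R78 R79))))))))))))))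

/-- row checks, group 5 -/
noncomputable def ra5 : List RP :=
  rs80 ++ (rs81 ++ (rs82 ++ (rs83 ++ (rs84 ++ (rs85 ++ (rs86 ++ (rs87 ++ (rs88 ++ (rs89 ++ (rs90 ++ (rs91 ++ (rs92 ++ (rs93 ++ (rs94 ++ rs95))))))))))))))

theorem RA5 : RCk Cd.ms ra5 :=
  RCk.append R80 (RCk.append R81 (RCk.append R82 (RCk.append R83 (RCk.append R84 (RCk.append R85 (RCk.append R86 (RCk.append R87 (RCk.append R88 (RCk.append R89 (RCk.append R90 (RCk.append R91 (RCk.append R92 (RCk.append R93 (RCk.append R94 R95))))))))))))))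

/-- row checks, group 6 -/
noncomputable def ra6 : List RP :=
  rs96 ++ (rs97 ++ (rs98 ++ (rs99 ++ (rs100 ++ (rs101 ++ (rs102 ++ (rs103 ++ (rs104 ++ (rs105 ++ (rs106 ++ (rs107 ++ (rs108 ++ (rs109 ++ (rs110 ++ rs111))))))))))))))

theorem RA6 : RCk Cd.ms ra6 :=
  RCk.append R96 (RCk.append R97 (RCk.append R98 (RCk.append R99 (RCk.append R100 (RCk.append R101 (RCk.append R102 (RCk.append R103 (RCk.append R104 (RCk.append R105 (RCk.append R106 (RCk.append R107 (RCk.append R108 (RCk.append R109 (RCk.append R110 R111))))))))))))))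

/-- row checks, group 7 -/
noncomputable def ra7 : List RP :=
  rs112 ++ (rs113 ++ (rs114 ++ (rs115 ++ (rs116 ++ (rs117 ++ (rs118 ++ (rs119 ++ (rs120 ++ (rs121 ++ (rs122 ++ (rs123 ++ (rs124 ++ (rs125 ++ (rs126 ++ rs127))))))))))))))

theorem RA7 : RCk Cd.ms ra7 :=
  RCk.append R112 (RCk.append R113 (RCk.append R114 (RCk.append R115 (RCk.append R116 (RCk.append R117 (RCk.append R118 (RCk.append R119 (RCk.append R120 (RCk.append R121 (RCk.append R122 (RCk.append R123 (RCk.append R124 (RCk.append R125 (RCk.append R126 R127))))))))))))))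

/-- row checks, group 8 -/
noncomputable def ra8 : List RP :=
  rs128 ++ (rs129 ++ (rs130 ++ (rs131 ++ (rs132 ++ (rs133 ++ (rs134 ++ (rs135 ++ (rs136 ++ (rs137 ++ (rs138 ++ (rs139 ++ (rs140 ++ (rs141 ++ (rs142 ++ rs143))))))))))))))

theorem RA8 : RCk Cd.ms ra8 :=
  RCk.append R128 (RCk.append R129 (RCk.append R130 (RCk.append R131 (RCk.append R132 (RCk.append R133 (RCk.append R134 (RCk.append R135 (RCk.append R136 (RCk.append R137 (RCk.append R138 (RCk.append R139 (RCk.append R140 (RCk.append R141 (RCk.append R142 R143))))))))))))))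

/-- row checks, group 9 -/
noncomputable def ra9 : List RP :=
  rs144 ++ (rs145 ++ (rs146 ++ (rs147 ++ (rs148 ++ (rs149 ++ (rs150 ++ (rs151 ++ (rs152 ++ (rs153 ++ (rs154 ++ (rs155 ++ (rs156 ++ (rs157 ++ (rs158 ++ rs159))))))))))))))

theorem RA9 : RCk Cd.ms ra9 :=
  RCk.append R144 (RCk.append R145 (RCk.append R146 (RCk.append R147 (RCk.append R148 (RCk.append R149 (RCk.append R150 (RCk.append R151 (RCk.append R152 (RCk.append R153 (RCk.append R154 (RCk.append R155 (RCk.append R156 (RCk.append R157 (RCk.append R158 R159))))))))))))))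

/-- row checks, group 10 -/
noncomputable def ra10 : List RP :=
  rs160 ++ (rs161 ++ (rs162 ++ (rs163 ++ (rs164 ++ (rs165 ++ (rs166 ++ (rs167 ++ (rs168 ++ (rs169 ++ (rs170 ++ (rs171 ++ (rs172 ++ (rs173 ++ (rs174 ++ rs175))))))))))))))

theorem RA10 : RCk Cd.ms ra10 :=
  RCk.append R160 (RCk.append R161 (RCk.append R162 (RCk.append R163 (RCk.append R164 (RCk.append R165 (RCk.append R166 (RCk.append R167 (RCk.append R168 (RCk.append R169 (RCk.append R170 (RCk.append R171 (RCk.append R172 (RCk.append R173 (RCk.append R174 R175))))))))))))))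

/-- row checks, group 11 -/
noncomputable def ra11 : List RP :=
  rs176 ++ (rs177 ++ (rs178 ++ (rs179 ++ (rs180 ++ (rs181 ++ (rs182 ++ (rs183 ++ (rs184 ++ (rs185 ++ (rs186 ++ (rs187 ++ (rs188 ++ (rs189 ++ (rs190 ++ rs191))))))))))))))

theorem RA11 : RCk Cd.ms ra11 :=
  RCk.append R176 (RCk.append R177 (RCk.append R178 (RCk.append R179 (RCk.append R180 (RCk.append R181 (RCk.append R182 (RCk.append R183 (RCk.append R184 (RCk.append R185 (RCk.append R186 (RCk.append R187 (RCk.append R188 (RCk.append R189 (RCk.append R190 R191))))))))))))))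

/-- row checks, group 12 -/
noncomputable def ra12 : List RP :=
  rs192 ++ (rs193 ++ (rs194 ++ (rs195 ++ (rs196 ++ (rs197 ++ (rs198 ++ (rs199 ++ (rs200 ++ (rs201 ++ (rs202 ++ (rs203 ++ (rs204 ++ (rs205 ++ (rs206 ++ rs207))))))))))))))

theorem RA12 : RCk Cd.ms ra12 :=
  RCk.append R192 (RCk.append R193 (RCk.append R194 (RCk.append R195 (RCk.append R196 (RCk.append R197 (RCk.append R198 (RCk.append R199 (RCk.append R200 (RCk.append R201 (RCk.append R202 (RCk.append R203 (RCk.append R204 (RCk.append R205 (RCk.append R206 R207))))))))))))))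

/-- row checks, group 13 -/
noncomputable def ra13 : List RP :=
  rs208 ++ (rs209 ++ (rs210 ++ (rs211 ++ (rs212 ++ (rs213 ++ (rs214 ++ (rs215 ++ (rs216 ++ (rs217 ++ (rs218 ++ (rs219 ++ (rs220 ++ (rs221 ++ (rs222 ++ rs223))))))))))))))

theorem RA13 : RCk Cd.ms ra13 :=
  RCk.append R208 (RCk.append R209 (RCk.append R210 (RCk.append R211 (RCk.append R212 (RCk.append R213 (RCk.append R214 (RCk.append R215 (RCk.append R216 (RCk.append R217 (RCk.append R218 (RCk.append R219 (RCk.append R220 (RCk.append R221 (RCk.append R222 R223))))))))))))))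

/-- row checks, group 14 -/
noncomputable def ra14 : List RP :=
  rs224 ++ (rs225 ++ (rs226 ++ (rs227 ++ (rs228 ++ (rs229 ++ (rs230 ++ (rs231 ++ (rs232 ++ (rs233 ++ (rs234 ++ (rs235 ++ (rs236 ++ (rs237 ++ (rs238 ++ rs239))))))))))))))

theorem RA14 : RCk Cd.ms ra14 :=
  RCk.append R224 (RCk.append R225 (RCk.append R226 (RCk.append R227 (RCk.append R228 (RCk.append R229 (RCk.append R230 (RCk.append R231 (RCk.append R232 (RCk.append R233 (RCk.append R234 (RCk.append R235 (RCk.append R236 (RCk.append R237 (RCk.append R238 R239))))))))))))))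

/-- row checks, group 15 -/
noncomputable def ra15 : List RP :=
  rs240 ++ (rs241 ++ (rs242 ++ (rs243 ++ (rs244 ++ (rs245 ++ (rs246 ++ (rs247 ++ (rs248 ++ (rs249 ++ (rs250 ++ (rs251 ++ (rs252 ++ (rs253 ++ (rs254 ++ rs255))))))))))))))

theorem RA15 : RCk Cd.ms ra15 :=
  RCk.append R240 (RCk.append R241 (RCk.append R242 (RCk.append R243 (RCk.append R244 (RCk.append R245 (RCk.append R246 (RCk.append R247 (RCk.append R248 (RCk.append R249 (RCk.append R250 (RCk.append R251 (RCk.append R252 (RCk.append R253 (RCk.append R254 R255))))))))))))))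

/-- row checks, group 16 -/
noncomputable def ra16 : List RP :=
  rs256 ++ (rs257 ++ (rs258 ++ (rs259 ++ (rs260 ++ (rs261 ++ (rs262 ++ (rs263 ++ (rs264 ++ (rs265 ++ (rs266 ++ (rs267 ++ (rs268 ++ (rs269 ++ (rs270 ++ rs271))))))))))))))

theorem RA16 : RCk Cd.ms ra16 :=
  RCk.append R256 (RCk.append R257 (RCk.append R258 (RCk.append R259 (RCk.append R260 (RCk.append R261 (RCk.append R262 (RCk.append R263 (RCk.append R264 (RCk.append R265 (RCk.append R266 (RCk.append R267 (RCk.append R268 (RCk.append R269 (RCk.append R270 R271))))))))))))))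

/-- row checks, group 17 -/
noncomputable def ra17 : List RP :=
  rs272 ++ (rs273 ++ (rs274 ++ (rs275 ++ (rs276 ++ (rs277 ++ (rs278 ++ (rs279 ++ (rs280 ++ (rs281 ++ (rs282 ++ (rs283 ++ (rs284 ++ (rs285 ++ (rs286 ++ rs287))))))))))))))

theorem RA17 : RCk Cd.ms ra17 :=
  RCk.append R272 (RCk.append R273 (RCk.append R274 (RCk.append R275 (RCk.append R276 (RCk.append R277 (RCk.append R278 (RCk.append R279 (RCk.append R280 (RCk.append R281 (RCk.append R282 (RCk.append R283 (RCk.append R284 (RCk.append R285 (RCk.append R286 R287))))))))))))))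

/-- row checks, group 18 -/
noncomputable def ra18 : List RP :=
  rs288 ++ (rs289 ++ (rs290 ++ (rs291 ++ (rs292 ++ (rs293 ++ (rs294 ++ (rs295 ++ (rs296 ++ (rs297 ++ (rs298 ++ (rs299 ++ (rs300 ++ (rs301 ++ (rs302 ++ rs303))))))))))))))

theorem RA18 : RCk Cd.ms ra18 :=
  RCk.append R288 (RCk.append R289 (RCk.append R290 (RCk.append R291 (RCk.append R292 (RCk.append R293 (RCk.append R294 (RCk.append R295 (RCk.append R296 (RCk.append R297 (RCk.append R298 (RCk.append R299 (RCk.append R300 (RCk.append R301 (RCk.append R302 R303))))))))))))))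

/-- all row checks -/
noncomputable def rs : List RP :=
  ra0 ++ (ra1 ++ (ra2 ++ (ra3 ++ (ra4 ++ (ra5 ++ (ra6 ++ (ra7 ++ (ra8 ++ (ra9 ++ (ra10 ++ (ra11 ++ (ra12 ++ (ra13 ++ (ra14 ++ (ra15 ++ (ra16 ++ (ra17 ++ ra18)))))))))))))))))

theorem hR : RCk Cd.ms rs :=
  RCk.append RA0 (RCk.append RA1 (RCk.append RA2 (RCk.append RA3 (RCk.append RA4 (RCk.append RA5 (RCk.append RA6 (RCk.append RA7 (RCk.append RA8 (RCk.append RA9 (RCk.append RA10 (RCk.append RA11 (RCk.append RA12 (RCk.append RA13 (RCk.append RA14 (RCk.append RA15 (RCk.append RA16 (RCk.append RA17 RA18)))))))))))))))))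

/-- all streams -/
noncomputable def fs : List FP :=
  fs0 ++ (fs1 ++ (fs2 ++ (fs3 ++ (fs4 ++ (fs5 ++ (fs6 ++ (fs7 ++ (fs8 ++ (fs9 ++ (fs10 ++ (fs11 ++ (fs12 ++ (fs13 ++ (fs14 ++ (fs15)))))))))))))))

theorem hF : FCk Cd.ms 0 fs :=
  FCk.append F0 (FCk.append F1 (FCk.append F2 (FCk.append F3 (FCk.append F4 (FCk.append F5 (FCk.append F6 (FCk.append F7 (FCk.append F8 (FCk.append F9 (FCk.append F10 (FCk.append F11 (FCk.append F12 (FCk.append F13 (FCk.append F14 (F15)))))))))))))))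

/-- all cells -/
noncomputable def cc : List Nat :=
  [nat_lit 0xa481cd90001e, nat_lit 0xa16ab9e0001f, nat_lit 0xa77b2390001f, nat_lit 0x9e6ddc50001f, nat_lit 0xbb7fcb40001f, nat_lit 0xa0bd4e70001f, nat_lit 0xb7a8d5b0001f, nat_lit 0xb9024960001f, nat_lit 0xb7461a00001f, nat_lit 0xa715ceb0001f, nat_lit 0xb68cc120001f, nat_lit 0xb1df7850001f, nat_lit 0xb0e457900020, nat_lit 0xb1cc42900020, nat_lit 0xa25e07300020, nat_lit 0xb749f9f00020, nat_lit 0xb28f5a200020, nat_lit 0x37c73810000a, nat_lit 0xa7e179900020, nat_lit 0x9c0585000020, nat_lit 0xaacdb4200020, nat_lit 0xb2cd23c00020, nat_lit 0xac2428500020, nat_lit 0xb73830200021, nat_lit 0xa50563f00021, nat_lit 0xb36b7b100021, nat_lit 0xb6bcfde00021, nat_lit 0xbae945700021, nat_lit 0xabba0a000021, nat_lit 0xad0b73d00021, nat_lit 0xa2fa37e00021, nat_lit 0x9e07b6700021, nat_lit 0xa83887a00021, nat_lit 0xafd25b700022, nat_lit 0xab6de6400022, nat_lit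 0xa3357fc00022, nat_lit 0xb08da0300022, nat_lit 0xaf4a05a00022, nat_lit 0xb123e7200022, nat_lit 0xb93b04000022, nat_lit 0x9c84c7e00022, nat_lit 0x5cd389700016, nat_lit 0xa1bf5f600022, nat_lit 0x90ba31000023, nat_lit 0xb2d0b2300023, nat_lit 0xb0d51bb00023, nat_lit 0xb144d1c00023, nat_lit 0x9d1dc8a00023, nat_lit 0xa94abe900023, nat_lit 0xb1fe07900023, nat_lit 0x9430c1200023, nat_lit 0x86ae9c300023, nat_lit 0xa23652800023, nat_lit 0xac5fe0a00024, nat_lit 0xa9dece400024, nat_lit 0x989ffa700024, nat_lit 0x7fd6f5d00024, nat_lit 0xa73100200024, nat_lit 0x9eccd3200024, nat_lit 0x97183ca00024, nat_lit 0x95926a900024, nat_lit 0xac86b8a00024, nat_lit 0xb27419c00025, nat_lit 0x968c7f600025, nat_lit 0x100d11000002, nat_lit 0x91fdf4000025, nat_lit 0x97e8c8100025, nat_lit 0xa5f97f200025, nat_lit 0xa46def200025, nat_lit 0xaff266600025, nat_lit 0x9e37d5400025, nat_lit 0xa5483af00025, nat_lit 0x9f73e4400026,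 nat_lit 0xb243fe200026, nat_lit 0xabb9a1c00026, nat_lit 0xa0a581c00026, nat_lit 0x9ca8f2700026, nat_lit 0xacf466c00026, nat_lit 0x9e49a9e00026, nat_lit 0x9b2961100026, nat_lit 0xb073e8500026, nat_lit 0x99006c200027, nat_lit 0x9cac7ef00027, nat_lit 0xa4917c900027, nat_lit 0xa8573e300027, nat_lit 0x92ec6bd00027, nat_lit 0x10c37d000004, nat_lit 0xa5716fe00027, nat_lit 0xa3a1f1900027, nat_lit 0x99dfb8900027, nat_lit 0xad5bf8800028, nat_lit 0x9ed38d500028, nat_lit 0xb35f0bf00028, nat_lit 0xb09597500028, nat_lit 0xa334fcc00028, nat_lit 0xac743ca00028, nat_lit 0xa1e383300028, nat_lit 0xb29509300028, nat_lit 0x9821c3b00028, nat_lit 0xb2b136300029, nat_lit 0xadce06300029, nat_lit 0xa72007500029, nat_lit 0xa06491c00029, nat_lit 0xacb351400029, nat_lit 0xa82ba6b00029, nat_lit 0xacf1a3100029, nat_lit 0x902f01c00024, nat_lit 0xa92f43b0002a, nat_lit 0xa5682e10002a, nat_lit 0xaeb9e510002a, nat_lit 0xa5c924c0002a,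 nat_lit 0xa917d3b0002a, nat_lit 0xa359b5f0002a, nat_lit 0xa5209020002a, nat_lit 0xac4e3030002a, nat_lit 0xb41c3ce0002b, nat_lit 0xa5941420002b, nat_lit 0xa71321c0002b, nat_lit 0xa83ac3f0002b, nat_lit 0x9e0f2ff0002b, nat_lit 0xaf92f0f0002b, nat_lit 0xaef17560002b, nat_lit 0x9b4068c0002b, nat_lit 0xa3d67900002c, nat_lit 0xa1acb3c0002c, nat_lit 0x794d69a00020, nat_lit 0xb6b2b030002c, nat_lit 0xaaa8f1a0002c, nat_lit 0xa9eee670002c, nat_lit 0xa17c7940002c, nat_lit 0xa1875200002d, nat_lit 0xa1235ba0002d, nat_lit 0xa1b9d1a0002d, nat_lit 0xa4c9c610002d, nat_lit 0xaec172f0002d, nat_lit 0x9871ad70002d, nat_lit 0x9dc5cd00002d, nat_lit 0xa0ffab50002d, nat_lit 0xa0f7b890002e, nat_lit 0x9e6918e0002e, nat_lit 0xa7a63250002e, nat_lit 0x9f515370002e, nat_lit 0x99db7d70002e, nat_lit 0x8019e5500022, nat_lit 0xb5560cb0002e, nat_lit 0x9e34a210002f, nat_lit 0xa7e575f0002f, nat_lit 0xa5356980002f, nat_lit 0x9b8f1d50002f,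 nat_lit 0x95f99ce0002f, nat_lit 0xad0a68d0002f, nat_lit 0xb0dc96a0002f, nat_lit 0xa7b792f00030, nat_lit 0xabd9eee00030, nat_lit 0xa644f7f00030, nat_lit 0x98a05ea00030, nat_lit 0x97d839900030, nat_lit 0x9b29cdf00030, nat_lit 0x928c3f500030, nat_lit 0xae1251b00031, nat_lit 0x94ca72e00031, nat_lit 0xa2b9d8700031, nat_lit 0xa79785d00031, nat_lit 0xa387a0000031, nat_lit 0x9da94bf00031, nat_lit 0xa68e5ad00031, nat_lit 0x973553d00032, nat_lit 0x28e042b00010, nat_lit 0x9cbe40800032, nat_lit 0x8dda0be00032, nat_lit 0x935073c00032, nat_lit 0x9f1d7c600032, nat_lit 0x9cd9e4c00032, nat_lit 0x9ff331500032, nat_lit 0xa53376600033, nat_lit 0x8debf7000033, nat_lit 0x9f1864800033, nat_lit 0xae6141f00033, nat_lit 0x9c7640f00033, nat_lit 0xa9192bc00033, nat_lit 0x9943f7600034, nat_lit 0x9c8cf6600034, nat_lit 0x9ccab4500034, nat_lit 0xa1e500b00034, nat_lit 0x8f8eb2b00034, nat_lit 0x9c0095400034, nat_lit 0x9df124900035,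 nat_lit 0xa4f1efc00035, nat_lit 0xacccffd00035, nat_lit 0x2276ec90000b, nat_lit 0xad007b400035, nat_lit 0xa5c4eec00035, nat_lit 0xa17df5e00035, nat_lit 0x9d0e6c800035, nat_lit 0x9f5cbf000036, nat_lit 0x9ef184400036, nat_lit 0xa04dcd700036, nat_lit 0x9c5f8fc00036, nat_lit 0x9ffc0c700036, nat_lit 0x865b84600036, nat_lit 0xabc021900037, nat_lit 0x95457b200037, nat_lit 0x979e58b00037, nat_lit 0xa3c8d6000037, nat_lit 0x9663c0400037, nat_lit 0x8c41d3800037, nat_lit 0x8c7be1d00038, nat_lit 0x8dc0aa800038, nat_lit 0xa3bc7ce00038, nat_lit 0x3da37b600016, nat_lit 0x998e53c00038, nat_lit 0xa0bb4f500038, nat_lit 0xaadd5c500039, nat_lit 0x9d5171900039, nat_lit 0x9792d8100039, nat_lit 0xa6244af00039, nat_lit 0x9d5c97500039, nat_lit 0xa8dd5af00039, nat_lit 0x9f767790003a, nat_lit 0xa2fb0b90003a, nat_lit 0x9dacc720003a, nat_lit 0x920f6740003a, nat_lit 0xa12523a0003a, nat_lit 0x9e7444b0003a, nat_lit 0xa3017e10003b,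 nat_lit 0xa1bcef60003b, nat_lit 0x97f45650003b, nat_lit 0x811cfa70002d, nat_lit 0xa726b050003b, nat_lit 0x98bb1ff0003b, nat_lit 0x9afb8680003c, nat_lit 0xa0e18210003c, nat_lit 0xa2c69990003c, nat_lit 0x9f719270003c, nat_lit 0x974f42f0003c, nat_lit 0xa24061c0003d, nat_lit 0x85ecc450003d, nat_lit 0xa524b950003d, nat_lit 0xa19725d0003d, nat_lit 0x9f523d40003d, nat_lit 0x90ea7940003d, nat_lit 0xa0387ea0003e, nat_lit 0x9bf33290003e, nat_lit 0xa0638050003e, nat_lit 0x61cf8f900026, nat_lit 0x8ead3210003e, nat_lit 0x8fd325a0003e, nat_lit 0x9e9b7330003f, nat_lit 0x9c198540003f, nat_lit 0x997b50e0003f, nat_lit 0x9b3a3410003f, nat_lit 0xa449d5a0003f, nat_lit 0x9a26efe00040, nat_lit 0x96ae86900040, nat_lit 0xaf748f500040, nat_lit 0xa13372d00040, nat_lit 0x91b073300040, nat_lit 0xa49023f00041, nat_lit 0xa0da23c00041, nat_lit 0xa640b7700041, nat_lit 0x36b4add00016, nat_lit 0x9e2166600041, nat_lit 0x9b45b7700041,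 nat_lit 0xa44ac1d00042, nat_lit 0x97bd71700042, nat_lit 0x9c65f6500042, nat_lit 0xa7a306f00042, nat_lit 0x922ed5d00042, nat_lit 0x962df7000043, nat_lit 0x9903a6300043, nat_lit 0xa20400d00043, nat_lit 0xa06e54700043, nat_lit 0x9e351e600043, nat_lit 0x9f36d2a00044, nat_lit 0xa0a67c000044, nat_lit 0xa67fabd00044, nat_lit 0x9e790be00044, nat_lit 0xa7012c700044, nat_lit 0xa8f146a00045, nat_lit 0x9c0416f00045, nat_lit 0x6046b2900027, nat_lit 0x8af0f2f00045, nat_lit 0x91b66f500045, nat_lit 0x9e1c59400046, nat_lit 0x9729cd400046, nat_lit 0xaa45e5700046, nat_lit 0x9fe05ce00046, nat_lit 0x97a85ce00046, nat_lit 0xa1c70ef00047, nat_lit 0x98ab6b500047, nat_lit 0xa1f2a0f00047, nat_lit 0xa98ba3d00047, nat_lit 0xa1f546400047, nat_lit 0xa1e406d00048, nat_lit 0xa7793e500048, nat_lit 0xa04607f00048, nat_lit 0xa2ade5500048, nat_lit 0x9719b0600049, nat_lit 0x62655aa0002c, nat_lit 0xa2264a500049, nat_lit 0x9d2dd7600049,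 nat_lit 0x99c01f100049, nat_lit 0x9d857590004a, nat_lit 0x9e0685f0004a, nat_lit 0xab33ff30004a, nat_lit 0xa6777060004a, nat_lit 0xa0719390004a, nat_lit 0xaa0d6d10004b, nat_lit 0xa3373cb0004b, nat_lit 0x9c97bba0004b, nat_lit 0xa9eef380004b, nat_lit 0xa49cc480004c, nat_lit 0xa9328ca0004c, nat_lit 0x96bcc4a0004c, nat_lit 0x932671c00043, nat_lit 0xa09e2370004c, nat_lit 0xa0a9e860004d, nat_lit 0xa23899d0004d, nat_lit 0x98b0a7e0004d, nat_lit 0xae375320004d, nat_lit 0xa12c8720004e, nat_lit 0xa592e7f0004e, nat_lit 0x9e00c8f0004e, nat_lit 0xa3b3e960004e, nat_lit 0x99d6fcb0004f, nat_lit 0xa567aef0004f, nat_lit 0xa3031e20004f, nat_lit 0xa400d7e0004f, nat_lit 0x9665efb0004f, nat_lit 0x811d90c0003d, nat_lit 0x9facce600050, nat_lit 0xa1d278d00050, nat_lit 0xa3ad17e00050, nat_lit 0x971595500051, nat_lit 0x9a075d700051, nat_lit 0x977581c00051, nat_lit 0xa03dfab00051, nat_lit 0x9f9727700052, nat_lit 0xa82125a00052,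 nat_lit 0xa35857800052, nat_lit 0xa32ac6000052, nat_lit 0x984da5000053, nat_lit 0xa738c9800053, nat_lit 0x3e54b850001e, nat_lit 0xa1514c700053, nat_lit 0x99cb52100053, nat_lit 0xa1cdac800054, nat_lit 0xaf8b22100054, nat_lit 0xa4b07d000054, nat_lit 0xa07716200054, nat_lit 0x9c2421f00055, nat_lit 0x9e4cb8d00055, nat_lit 0x9e24a8e00055, nat_lit 0xa857d2e00055, nat_lit 0xa90fc5300056, nat_lit 0xa35850b00056, nat_lit 0x12209570000a, nat_lit 0xa28def500056, nat_lit 0xa53eaa700056, nat_lit 0xab9feca00057, nat_lit 0xa7da57e00057, nat_lit 0xaaa9d9100057, nat_lit 0xadcb92300058, nat_lit 0xb192dec00058, nat_lit 0xa6d216a00058, nat_lit 0xab12e0b00058, nat_lit 0xa16977b00059, nat_lit 0xa67bc1400059, nat_lit 0x35daafe0001d, nat_lit 0xa4d317900059, nat_lit 0xa9361ef00059, nat_lit 0xa7889c00005a, nat_lit 0xa4f9afa0005a, nat_lit 0xa3eb5a30005a, nat_lit 0xa619f6e0005b, nat_lit 0xa86f2b00005b, nat_lit 0x9980c520005b,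 nat_lit 0xa063f300005b, nat_lit 0x9c2cfb60005c, nat_lit 0xa3b329b0005c, nat_lit 0x9d3db3b0005c, nat_lit 0xa791b3a0005c, nat_lit 0xa4b9c8f0005d, nat_lit 0x831f4e400047, nat_lit 0x9cf1b4f0005d, nat_lit 0xa3fd6dd0005e, nat_lit 0x9d50ac50005e, nat_lit 0xa26c2cc0005e, nat_lit 0x95917830005e, nat_lit 0xaad90be0005f, nat_lit 0xa767ca80005f, nat_lit 0xa144e730005f, nat_lit 0xa69a61a0005f, nat_lit 0xa5a6cd500060, nat_lit 0x9fe2a2a00060, nat_lit 0xa15228300060, nat_lit 0xa4e3e5c00061, nat_lit 0x53208310002e, nat_lit 0xa2f78e300061, nat_lit 0xafe531500061, nat_lit 0xa1d74db00062, nat_lit 0x9df744a00062, nat_lit 0xa12c39b00062, nat_lit 0xa61c47f00063, nat_lit 0xa9f7c5800063, nat_lit 0xa474eb800063, nat_lit 0xa52200400063, nat_lit 0xa419f6b00064, nat_lit 0xa183db700064, nat_lit 0xa2a610500064, nat_lit 0xaee923200065, nat_lit 0x95cbe4900065, nat_lit 0xab1826c00065, nat_lit 0xa382e7600066, nat_lit 0xa0fe1db00066,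 nat_lit 0x9df716000066, nat_lit 0x9c41cad00066, nat_lit 0x9ea92f600067, nat_lit 0xa18cc7900067, nat_lit 0x9f7cfa800067, nat_lit 0x9d6a57e00068, nat_lit 0x5e62aa20003c, nat_lit 0x9ca870200068, nat_lit 0x9e92ad700068, nat_lit 0xa06648400069, nat_lit 0xa2d306500069, nat_lit 0x9ad0a6a00069, nat_lit 0xa9819910006a, nat_lit 0xa18b1a00006a, nat_lit 0xa4bd05f0006a, nat_lit 0xa02f23f0006b, nat_lit 0x9ee5d330006b, nat_lit 0x977c86d00061, nat_lit 0x99c336a0006c, nat_lit 0x9eaa6830006c, nat_lit 0xa1064e40006c, nat_lit 0x9f4c3860006d, nat_lit 0x9b953f00006d, nat_lit 0x9bc828f0006d, nat_lit 0x9ed68480006e, nat_lit 0xa091ee70006e, nat_lit 0xa67fbc10006e, nat_lit 0x959f2110006b, nat_lit 0xa4408de0006f, nat_lit 0xa271df10006f, nat_lit 0xa22541900070, nat_lit 0xa484ffe00070, nat_lit 0xa2aaea100070, nat_lit 0xa5c990700071, nat_lit 0xa266d6000071, nat_lit 0xa42b9ff00071, nat_lit 0xaa650b900072, nat_lit 0x42376000002d,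 nat_lit 0xa1a2e7600072, nat_lit 0xa6fa7bc00072, nat_lit 0x9af6f6f00073, nat_lit 0xab8c0fd00073, nat_lit 0xa63ecf400073, nat_lit 0xa34631200074, nat_lit 0xa32eaaf00074, nat_lit 0x96ad45400074, nat_lit 0x7b27c6900057, nat_lit 0x9b177cb00075, nat_lit 0x968c69a00075, nat_lit 0x9fffa0f00076, nat_lit 0x99dc20e00076, nat_lit 0xa007c5b00077, nat_lit 0x960a83400077, nat_lit 0x9cdc67a00077, nat_lit 0xa3d052300078, nat_lit 0x656742d0004d, nat_lit 0x993a16900078, nat_lit 0xa77c01d00079, nat_lit 0xa20f6cf00079, nat_lit 0x9ce45ee00079, nat_lit 0x9fa80cd0007a, nat_lit 0x9994f4e0007a, nat_lit 0x9395e3c0007a, nat_lit 0x9e09c260007b, nat_lit 0x669ce700004, nat_lit 0x93b26640007b, nat_lit 0xa0cde430007b, nat_lit 0xa127f290007c, nat_lit 0x9bfd0420007c, nat_lit 0xa0756600007d, nat_lit 0x9ef24bd0007d, nat_lit 0x9bd8f570007d, nat_lit 0x48580060003b, nat_lit 0x9f38ea20007e, nat_lit 0xa021ea80007e, nat_lit 0xa008c780007f,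 nat_lit 0xa162a380007f, nat_lit 0x9e600da0007f, nat_lit 0x9f5d0bd00080, nat_lit 0xa01e4e400080, nat_lit 0xa03c26200081, nat_lit 0x9c7300800081, nat_lit 0xa04627100081, nat_lit 0x534c4600004, nat_lit 0x9cfe28500082, nat_lit 0xa2d0f7f00082, nat_lit 0xa550f2800082, nat_lit 0x9f48d3600083, nat_lit 0x9b7818800083, nat_lit 0x9ca435100084, nat_lit 0x9fee7ca00084, nat_lit 0x9d917a800084, nat_lit 0x9ad422000085, nat_lit 0x4d46e0600043, nat_lit 0x9addc7f00085, nat_lit 0x9afc88a00086, nat_lit 0x993c0e300086, nat_lit 0x9a4577800087, nat_lit 0x97bd1bb00087, nat_lit 0x9f09a4d00087, nat_lit 0x99454ec00088, nat_lit 0x9ca059e00088, nat_lit 0x99652a000089, nat_lit 0x16068b00001, nat_lit 0x979dff100089, nat_lit 0x9a7eefa0008a, nat_lit 0x92cb3440008a, nat_lit 0x9a9e2d90008a, nat_lit 0x95c4b7f0008b, nat_lit 0x9b35b390008b, nat_lit 0x97450690008c, nat_lit 0x98303b10008c, nat_lit 0x53bab550004b, nat_lit 0x965b5830008d,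 nat_lit 0x980e1a80008d, nat_lit 0x964a0c20008e, nat_lit 0x98782f00008e, nat_lit 0x95247cd0008e, nat_lit 0x95b63c20008f, nat_lit 0x95b0f430008f, nat_lit 0x8d740d100090, nat_lit 0x329f9670002e, nat_lit 0x99a317b00090, nat_lit 0x9ceefd700091, nat_lit 0x993a6fb00091, nat_lit 0x99f717f00092, nat_lit 0x966dcd200092, nat_lit 0x96aa22700092, nat_lit 0x9afd55100093, nat_lit 0x478563200045, nat_lit 0x9707c4a00093, nat_lit 0x9c50d6b00094, nat_lit 0x9a212d300094, nat_lit 0x99e915f00095, nat_lit 0x9674da500095, nat_lit 0x94da76a00096, nat_lit 0x96a903900096, nat_lit 0x100d9030000f, nat_lit 0x958d9e900097, nat_lit 0x9317e1000097, nat_lit 0x977eb2400098, nat_lit 0x9b0dd2600098, nat_lit 0x9521f5e00098, nat_lit 0x9244fac00099, nat_lit 0x8d6a66600091, nat_lit 0x9a562af0009a, nat_lit 0x9298e6c0009a, nat_lit 0x9591d8c0009b, nat_lit 0x97828650009b, nat_lit 0x973b4070009c, nat_lit 0x928aa4e0009c, nat_lit 0x5bb49580005e,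 nat_lit 0x974a5540009d, nat_lit 0x94060be0009d, nat_lit 0x9792b810009e, nat_lit 0x9375acf0009e, nat_lit 0x93445640009f, nat_lit 0x936c07f0009f, nat_lit 0x35f51f90003c, nat_lit 0x96824f9000a0, nat_lit 0x94d1f0d000a0, nat_lit 0x935053e000a1, nat_lit 0x934fc68000a1, nat_lit 0x93eecae000a2, nat_lit 0x940a304000a2, nat_lit 0x97bec30000a, nat_lit 0x93bdd9e000a3, nat_lit 0x9400853000a3, nat_lit 0x913381b000a4, nat_lit 0x92a29f5000a4, nat_lit 0x93c850b000a5, nat_lit 0x7a8f5b80008d, nat_lit 0x955f072000a6, nat_lit 0x8f5c704000a6, nat_lit 0x92f07ba000a7, nat_lit 0x9230662000a7, nat_lit 0x93b8195000a8, nat_lit 0x6183d710006e, nat_lit 0x9534c4d000a9, nat_lit 0x8e7e19e000a9, nat_lit 0x90aeca3000aa, nat_lit 0x951799f000aa, nat_lit 0x91c77ff000ab, nat_lit 0x34973fe0003f, nat_lit 0x9067923000ab, nat_lit 0x97f14cf000ac, nat_lit 0x8e85e09000ac, nat_lit 0x94a88a4000ad, nat_lit 0x91f2890000ad, nat_lit 0x120451300013,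 nat_lit 0x8b25f82000ae, nat_lit 0x8cce1b7000ae, nat_lit 0x8ecb787000af, nat_lit 0x9064946000af, nat_lit 0x8e066c8000b0, nat_lit 0x5ff0d900006, nat_lit 0x8ea7188000b1, nat_lit 0x8f38c6d000b1, nat_lit 0x9245412000b2, nat_lit 0x8b86c81000b2, nat_lit 0x8501140000aa, nat_lit 0x911e06f000b3, nat_lit 0x8de2054000b4, nat_lit 0x8a56494000b4, nat_lit 0x8c03001000b5, nat_lit 0x8c6ac77000b5, nat_lit 0x8991940000b6, nat_lit 0x663bdc000085, nat_lit 0x8e12530000b7, nat_lit 0x8b5addc000b7, nat_lit 0x865e962000b8, nat_lit 0x861b28b000b9, nat_lit 0x889d6e7000b9, nat_lit 0x916b3eb000ba, nat_lit 0x4f1df560006e]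

end Pool.Agent.Moser.Ck.Cr
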